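import Mathlib

/-! A lopsided local lemma for the uniform measure on a finite set. -/

namespace Pool.Agent.Helper55.LF

open Finset

theorem exp_neg_le_one_sub {y : ℝ} (h0 : 0 ≤ y) (h1 : y ≤ 1 / 2) : Real.exp (-(2 * y)) ≤ 1 - y := by
  have h2 := Real.quadratic_le_exp_of_nonneg (x := 2 * y) (by linarith)
  rw [Real.exp_neg, inv_le_comm₀ (Real.exp_pos _) (by linarith)]
  refine le_trans ?_ h2
  rw [inv_le_iff_one_le_mul₀ (by linarith)]
  nlinarith [mul_nonneg h0 h0, mul_nonneg (mul_nonneg h0 h0) h0, mul_nonneg h0 (sub_nonneg.2 h1)]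

/-- M1a: lopsided local lemma for the uniform measure on a finite set -/
theorem lll {Ω ι : Type} [Fintype Ω] [Nonempty Ω] [Fintype ι] (A : ι → Set Ω) (nb : ι → ι → Prop)
    (hneg : ∀ (i : ι) (S : Finset ι), (∀ j ∈ S, ¬ nb i j) →
      (({ω | ω ∈ A i ∧ ∀ j ∈ S, ω ∉ A j}.ncard : ℝ) * Fintype.card Ω ≤
        ((A i).ncard : ℝ) * ({ω | ∀ j ∈ S, ω ∉ A j}.ncard : ℝ)))
    (hsmall : ∀ i, ∀ S : Finset ι, (∀ j ∈ S, nb i j ∨ j = i) →
      ∑ j ∈ S, ((A j).ncard : ℝ) / Fintype.card Ω ≤ 1 / 4)
    (K : ℝ) (hK : ∑ i, ((A i).ncard : ℝ) / Fintype.card Ω ≤ K) :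
    Real.exp (-4 * K) * Fintype.card Ω ≤ ({ω | ∀ i, ω ∉ A i}.ncard : ℝ) := by
  classical
  have hn : (0 : ℝ) < Fintype.card Ω := by exact_mod_cast Fintype.card_pos
  set p : ι → ℝ := fun i => ((A i).ncard : ℝ) / Fintype.card Ω with hp
  set q : Finset ι → ℝ := fun S => ({ω | ∀ j ∈ S, ω ∉ A j}.ncard : ℝ) with hq
  set a : ι → Finset ι → ℝ := fun i S => ({ω | ω ∈ A i ∧ ∀ j ∈ S, ω ∉ A j}.ncard : ℝ) with ha
  have p0 : ∀ i, 0 ≤ p i := fun i => by positivity
  have q0 : ∀ S, 0 ≤ q S := fun S => Nat.cast_nonneg _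
  have a0 : ∀ i S, 0 ≤ a i S := fun i S => Nat.cast_nonneg _
  have hneg' : ∀ i S, (∀ j ∈ S, ¬ nb i j) → a i S ≤ p i * q S := by
    intro i S h
    have := hneg i S h
    rw [hp, div_mul_eq_mul_div, le_div_iff₀ hn]
    exact this
  have amono : ∀ i S S', S' ⊆ S → a i S ≤ a i S' := by
    intro i S S' h
    have : {ω | ω ∈ A i ∧ ∀ j ∈ S, ω ∉ A j} ⊆ {ω | ω ∈ A i ∧ ∀ j ∈ S', ω ∉ A j} :=
      fun ω hω => ⟨hω.1, fun j hj => hω.2 j (h hj)⟩
    simp only [ha]
    exact_mod_cast Set.ncard_le_ncard this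
  have qsub : ∀ S1 S2 : Finset ι, q S2 ≤ q (S1 ∪ S2) + ∑ j ∈ S1, a j S2 := by
    intro S1 S2
    have h1 : {ω | ∀ j ∈ S2, ω ∉ A j} ⊆ {ω | ∀ j ∈ S1 ∪ S2, ω ∉ A j} ∪
        ((S1.biUnion fun j => ({ω | ω ∈ A j ∧ ∀ j ∈ S2, ω ∉ A j} : Set Ω).toFinset : Finset Ω) :
          Set Ω) := by
      intro ω hω
      by_cases h : ∃ j ∈ S1, ω ∈ A j
      · right
        obtain ⟨j, hj, hj'⟩ := h
        simp only [coe_biUnion, Set.mem_iUnion, Set.coe_toFinset]
        exact ⟨j, hj, hj', hω⟩
      · left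
        push Not at h
        intro j hj
        rcases mem_union.1 hj with hj | hj
        · exact h j hj
        · exact hω j hj
    have h2 := (Set.ncard_le_ncard h1).trans (Set.ncard_union_le _ _)
    rw [Set.ncard_coe_finset] at h2
    have h3 : (S1.biUnion fun j => ({ω | ω ∈ A j ∧ ∀ j ∈ S2, ω ∉ A j} : Set Ω).toFinset).card ≤
        ∑ j ∈ S1, ({ω | ω ∈ A j ∧ ∀ j ∈ S2, ω ∉ A j} : Set Ω).ncard := by
      refine card_biUnion_le.trans (sum_le_sum fun j _ => ?_)
      rw [Set.ncard_eq_toFinset_card']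
    have h4 := h2.trans (Nat.add_le_add_left h3 _)
    simp only [hq, ha]
    exact_mod_cast h4
  have claim : ∀ n : ℕ, ∀ S : Finset ι, S.card = n → ∀ i, a i S ≤ 2 * p i * q S := by
    intro n
    induction n using Nat.strong_induction_on with
    | _ n ih =>
      intro S hS i
      set S1 := S.filter fun j => nb i j with hS1
      set S2 := S.filter fun j => ¬ nb i j with hS2
      have hun : S1 ∪ S2 = S := filter_union_filter_not_eq _ _
      have hle := hneg' i S2 fun j hj => (mem_filter.1 hj).2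
      rcases S1.eq_empty_or_nonempty with h1 | h1
      · have : S2 = S := by rw [← hun, h1, empty_union]
        rw [this] at hle
        have := mul_nonneg (p0 i) (q0 S)
        linarith
      · have hcard : S2.card < n := by
          rw [← hS]
          have h5 := card_filter_add_card_filter_not (s := S) fun j => nb i j
          rw [← hS1, ← hS2] at h5
          have := card_pos.2 h1
          omega
        have hsum : ∑ j ∈ S1, a j S2 ≤ 1 / 2 * q S2 := by
          calc ∑ j ∈ S1, a j S2 ≤ ∑ j ∈ S1, 2 * p j * q S2 :=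
                sum_le_sum fun j _ => ih _ hcard S2 rfl j
            _ = 2 * (∑ j ∈ S1, p j) * q S2 := by rw [mul_sum, sum_mul]
            _ ≤ 1 / 2 * q S2 := by
                have := hsmall i S1 fun j hj => Or.inl (mem_filter.1 hj).2
                have := mul_le_mul_of_nonneg_right this (q0 S2)
                simp only [hp]
                linarith
        have hq2 := qsub S1 S2
        rw [hun] at hq2
        have hmono := amono i S S2 (filter_subset _ _)
        have : q S2 ≤ 2 * q S := by linarith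
        have := mul_le_mul_of_nonneg_left this (p0 i)
        linarith
  have p4 : ∀ i, p i ≤ 1 / 4 := by
    intro i
    have := hsmall i {i} (by simp)
    simpa using this
  have fin : ∀ S : Finset ι, Real.exp (-4 * ∑ i ∈ S, p i) * Fintype.card Ω ≤ q S := by
    intro S
    induction S using Finset.induction_on with
    | empty =>
      simp [hq, Set.ncard_univ]
    | insert i S hi ih =>
      rw [sum_insert hi]
      have h1 := qsub {i} S
      rw [sum_singleton, singleton_union] at h1
      have h2 := claim _ S rfl i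
      have h3 : (1 - 2 * p i) * q S ≤ q (insert i S) := by linarith
      refine le_trans ?_ h3
      have h4 : Real.exp (-4 * p i) ≤ 1 - 2 * p i := by
        have := exp_neg_le_one_sub (y := 2 * p i) (by linarith [p0 i]) (by linarith [p4 i])
        convert this using 2
        ring
      calc Real.exp (-4 * (p i + ∑ i ∈ S, p i)) * Fintype.card Ω
          = Real.exp (-4 * p i) * (Real.exp (-4 * ∑ i ∈ S, p i) * Fintype.card Ω) := by
            rw [mul_add, Real.exp_add]; ring
        _ ≤ (1 - 2 * p i) * q S :=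
            mul_le_mul h4 ih (by positivity) (le_trans (Real.exp_pos _).le h4)
  have h := fin univ
  have h5 : Real.exp (-4 * K) ≤ Real.exp (-4 * ∑ i, p i) := by
    apply Real.exp_le_exp.2
    have : ∑ i, p i ≤ K := hK
    linarith
  have h6 := mul_le_mul_of_nonneg_right h5 hn.le
  have h7 : q univ = ({ω | ∀ i, ω ∉ A i}.ncard : ℝ) := by
    simp [hq]
  linarith

end Pool.Agent.Helper55.LF
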