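import Mathlib

/-! Definitions used in the statement for MP_f7aca4_co (generating sets and forcing properties). -/

namespace Pool.Agent.Helper55.LF

open Filter Topology

/-! ## Graphs -/

/-- vertices at distance at most `r` from `v` -/
def ball {V : Type*} (G : SimpleGraph V) (v : V) (r : ℕ) : Set V :=
  {w | ∃ p : G.Walk v w, p.length ≤ r}

/-- `G` is `r`-locally `(F, o)` -/
def LocallyLike {V W : Type*} (G : SimpleGraph V) (F : SimpleGraph W) (o : W) (r : ℕ) : Prop :=
  ∀ v : V, ∃ φ : G.induce (ball G v r) ≃g F.induce (ball F o r),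
    ∀ h : v ∈ ball G v r, (φ ⟨v, h⟩ : W) = o

/-- the graphs on `n` labelled vertices which are `r`-locally `(F, o)` -/
def LocSet {W : Type*} (F : SimpleGraph W) (o : W) (r n : ℕ) : Set (SimpleGraph (Fin n)) :=
  {G | LocallyLike G F o r}

/-- probability that a uniformly random element of `LocSet F o r n` is connected -/
noncomputable def connProb {W : Type*} (F : SimpleGraph W) (o : W) (r n : ℕ) : ℝ :=
  ({G | G ∈ LocSet F o r n ∧ G.Connected}.ncard : ℝ) / ((LocSet F o r n).ncard : ℝ)

/-- the pair `(F, r)` is connectivity-forcing -/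
def ConnForcing {W : Type*} (F : SimpleGraph W) (o : W) (r : ℕ) : Prop :=
  Tendsto (fun n => connProb F o r n) (atTop ⊓ 𝓟 {n | (LocSet F o r n).Nonempty}) (𝓝 1)

/-- the Cayley graph `g ~ g * s` -/
def cay {Γ : Type*} [Group Γ] (S : Set Γ) : SimpleGraph Γ :=
  SimpleGraph.fromRel (fun g h => g⁻¹ * h ∈ S)

/-- residual finiteness -/
def ResFin (Γ : Type*) [Group Γ] : Prop :=
  ∀ g : Γ, g ≠ 1 → ∃ H : Subgroup Γ, H.Normal ∧ H.FiniteIndex ∧ g ∉ H

end Pool.Agent.Helper55.LF
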