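import Mathlib
import Pool.Agent.Helper55.LF.Forcing

/-! Base definitions for MP_f7aca4_co (generating sets and forcing properties). -/

namespace Pool.Agent.Helper55.LF

open Filter Topology

/-- the left Cayley graph `g ~ s * g` -/
def cayL {Γ : Type*} [Group Γ] (S : Set Γ) : SimpleGraph Γ :=
  SimpleGraph.fromRel (fun g h => h * g⁻¹ ∈ S)

/-! ## Words -/

/-- words: lists of letters with a sign (`true` = positive) -/
abbrev Wd (Λ : Type*) := List (Λ × Bool)

/-- value of a signed letter -/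
def lv {Λ G : Type*} [Group G] (f : Λ → G) (s : Λ × Bool) : G :=
  if s.2 then f s.1 else (f s.1)⁻¹

/-- value of a word -/
def wp {Λ G : Type*} [Group G] (f : Λ → G) (u : Wd Λ) : G := (u.map (lv f)).prod

/-- formal inverse of a word -/
def winv {Λ : Type*} (u : Wd Λ) : Wd Λ := (u.map fun s => (s.1, !s.2)).reverse

/-- letterwise inversion of a word -/
def wflip {Λ : Type*} (u : Wd Λ) : Wd Λ := u.map fun s => (s.1, !s.2)

section words
variable {Λ Λ' G G' : Type*} [Group G] [Group G']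

@[simp] lemma wp_nil (f : Λ → G) : wp f [] = 1 := rfl
@[simp] lemma wp_cons (f : Λ → G) (s : Λ × Bool) (u : Wd Λ) :
    wp f (s :: u) = lv f s * wp f u := by simp [wp]
@[simp] lemma wp_append (f : Λ → G) (u v : Wd Λ) : wp f (u ++ v) = wp f u * wp f v := by
  simp [wp]
@[simp] lemma lv_true (f : Λ → G) (a : Λ) : lv f (a, true) = f a := rfl
@[simp] lemma lv_false (f : Λ → G) (a : Λ) : lv f (a, false) = (f a)⁻¹ := rfl
lemma lv_not (f : Λ → G) (a : Λ) (b : Bool) : lv f (a, !b) = (lv f (a, b))⁻¹ := by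
  cases b <;> simp
@[simp] lemma winv_nil : winv ([] : Wd Λ) = [] := rfl
lemma winv_cons (s : Λ × Bool) (u : Wd Λ) : winv (s :: u) = winv u ++ [(s.1, !s.2)] := by
  simp [winv]
@[simp] lemma wp_winv (f : Λ → G) (u : Wd Λ) : wp f (winv u) = (wp f u)⁻¹ := by
  induction u with
  | nil => simp
  | cons s u ih => simp [winv_cons, ih, lv_not]
@[simp] lemma length_winv (u : Wd Λ) : (winv u).length = u.length := by simp [winv]
lemma map_wp (φ : G →* G') (f : Λ → G) (u : Wd Λ) : φ (wp f u) = wp (fun a => φ (f a)) u := by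
  induction u with
  | nil => simp
  | cons s u ih =>
      rcases s with ⟨a, b⟩
      cases b <;> simp [ih]
/-- change of alphabet -/
def wmap (ι : Λ' → Λ) (u : Wd Λ') : Wd Λ := u.map fun s => (ι s.1, s.2)
@[simp] lemma length_wmap (ι : Λ' → Λ) (u : Wd Λ') : (wmap ι u).length = u.length := by
  simp [wmap]
lemma wp_wmap (f : Λ → G) (ι : Λ' → Λ) (u : Wd Λ') : wp f (wmap ι u) = wp (f ∘ ι) u := by
  induction u with
  | nil => simp [wmap]
  | cons s u ih =>
      rcases s with ⟨a, b⟩
      simp only [wmap] at ih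
      cases b <;> simp [wmap, ih]

end words

/-! ## Labelled structures -/

/-- a labelled structure: a permutation for every letter and one more permutation -/
abbrev LS (Λ V : Type*) := (Λ → Equiv.Perm V) × Equiv.Perm V

/-- a labelled structure in which exactly the right words of length at most `2r+1` close up -/
def Good {Λ Γ V : Type*} [Group Γ] (e : Λ → Γ) (n₀ r : ℕ) (X : LS Λ V) : Prop :=
  (∀ l, Commute X.2 (X.1 l)) ∧
  ∀ u : Wd Λ, u.length ≤ 2 * r + 1 → ∀ (x : ℤ) (p : V),
    ((X.2 ^ x) (wp X.1 u p) = p ↔ (wp e u = 1 ∧ (n₀ : ℤ) ∣ x))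

/-- transitivity of a labelled structure -/
def Trans {Λ V : Type*} (X : LS Λ V) : Prop :=
  ∀ p q : V, ∃ (u : Wd Λ) (x : ℤ), (X.2 ^ x) (wp X.1 u p) = q

/-! ## The coding of labelled structures by graphs -/

/-- the pattern of a signed letter: `{0} ∪ {2, …, k+3}`, negated for a negative letter -/
def pat {Λ : Type*} (k : Λ → ℕ) (n₀ : ℕ) (s : Λ × Bool) : Set (ZMod n₀) :=
  {x | ∃ i : ℕ, (i = 0 ∨ (2 ≤ i ∧ i ≤ k s.1 + 3)) ∧ x = if s.2 then (i : ZMod n₀) else -(i : ZMod n₀)}

/-- the connection set in `Γ × C` -/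
def stil {Λ Γ : Type*} [Group Γ] (e : Λ → Γ) (k : Λ → ℕ) (n₀ : ℕ) :
    Set (Γ × Multiplicative (ZMod n₀)) :=
  {g | (g.1 = 1 ∧ Multiplicative.toAdd g.2 ≠ 0 ∧ Multiplicative.toAdd g.2 ≠ 1 ∧
          Multiplicative.toAdd g.2 ≠ -1) ∨
       ∃ s : Λ × Bool, g.1 = lv e s ∧ Multiplicative.toAdd g.2 ∉ pat k n₀ s}

/-- the graph of a labelled structure -/
def graphOf {Λ V : Type*} (k : Λ → ℕ) (n₀ : ℕ) (X : LS Λ V) : SimpleGraph V :=
  SimpleGraph.fromRel (fun p q =>
    (∃ x : ℤ, (x : ZMod n₀) ≠ 0 ∧ (x : ZMod n₀) ≠ 1 ∧ (x : ZMod n₀) ≠ -1 ∧ q = (X.2 ^ x) p) ∨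
    ∃ (s : Λ × Bool) (x : ℤ), (x : ZMod n₀) ∉ pat k n₀ s ∧ q = (X.2 ^ x) (lv X.1 s p))

/-! ## The level groups -/

/-- parameters of a level group -/
structure Par where
  D : ℕ
  l : ℕ
  m : ℕ
  N : ℕ
  hD : 0 < D
  hl : 0 < l
  hm : 0 < m
  dvd : D ∣ l
  h3 : 3 * D ≤ l

instance (P : Par) : NeZero P.D := ⟨P.hD.ne'⟩
instance (P : Par) : NeZero P.l := ⟨P.hl.ne'⟩
instance (P : Par) : NeZero P.m := ⟨P.hm.ne'⟩

/-- reduction of positions modulo `D` -/
def red (P : Par) : ZMod P.l →+* ZMod P.D := ZMod.castHom P.dvd (ZMod P.D)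

/-- the pairing of `a`-lamps with `b`-lamps -/
def om (P : Par) (f g : ZMod P.l → ZMod P.m) (y : ZMod P.D) : ZMod P.m :=
  ∑ e : ZMod P.l, if red P e = y then f e * g (e - (P.D : ZMod P.l)) else 0

/-- the level group -/
@[ext] structure KG (P : Par) where
  f : ZMod P.l → ZMod P.m
  g : ZMod P.l → ZMod P.m
  h : ZMod P.D → ZMod P.m
  n : ZMod P.l

namespace KG
variable {P : Par}

lemma om_add_left (f f' g : ZMod P.l → ZMod P.m) (y) :
    om P (fun e => f e + f' e) g y = om P f g y + om P f' g y := by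
  simp only [om, ← Finset.sum_add_distrib]
  refine Finset.sum_congr rfl fun e _ => ?_
  split_ifs <;> ring

lemma om_add_right (f g g' : ZMod P.l → ZMod P.m) (y) :
    om P f (fun e => g e + g' e) y = om P f g y + om P f g' y := by
  simp only [om, ← Finset.sum_add_distrib]
  refine Finset.sum_congr rfl fun e _ => ?_
  split_ifs <;> ring

lemma om_neg_left (f g : ZMod P.l → ZMod P.m) (y) :
    om P (fun e => - f e) g y = - om P f g y := by
  simp only [om, ← Finset.sum_neg_distrib]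
  refine Finset.sum_congr rfl fun e _ => ?_
  split_ifs <;> ring

lemma om_neg_right (f g : ZMod P.l → ZMod P.m) (y) :
    om P f (fun e => - g e) y = - om P f g y := by
  simp only [om, ← Finset.sum_neg_distrib]
  refine Finset.sum_congr rfl fun e _ => ?_
  split_ifs <;> ring

lemma om_shift (f g : ZMod P.l → ZMod P.m) (n : ZMod P.l) (y) :
    om P (fun e => f (e - n)) (fun e => g (e - n)) y = om P f g (y - red P n) := by
  simp only [om]
  refine Fintype.sum_equiv (Equiv.subRight n) _ _ fun e => ?_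
  simp only [Equiv.subRight_apply, map_sub]
  have : (red P e = y) ↔ (red P e - red P n = y - red P n) := by
    constructor
    · rintro rfl; rfl
    · intro h; exact sub_left_injective h
  simp only [this]
  split_ifs
  · congr 2; ring
  · rfl

instance : One (KG P) := ⟨⟨fun _ => 0, fun _ => 0, fun _ => 0, 0⟩⟩
instance : Mul (KG P) := ⟨fun x y =>
  ⟨fun e => x.f e + y.f (e - x.n), fun e => x.g e + y.g (e - x.n),
   fun z => x.h z + y.h (z - red P x.n) + om P x.f (fun e => y.g (e - x.n)) z,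
   x.n + y.n⟩⟩
instance : Inv (KG P) := ⟨fun x =>
  ⟨fun e => - x.f (e + x.n), fun e => - x.g (e + x.n),
   fun z => - x.h (z + red P x.n) + om P x.f x.g (z + red P x.n), - x.n⟩⟩

@[simp] lemma one_f (e) : (1 : KG P).f e = 0 := rfl
@[simp] lemma one_g (e) : (1 : KG P).g e = 0 := rfl
@[simp] lemma one_h (e) : (1 : KG P).h e = 0 := rfl
@[simp] lemma one_n : (1 : KG P).n = 0 := rfl
lemma mul_f (x y : KG P) (e) : (x * y).f e = x.f e + y.f (e - x.n) := rfl
lemma mul_g (x y : KG P) (e) : (x * y).g e = x.g e + y.g (e - x.n) := rfl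
lemma mul_h (x y : KG P) (z) : (x * y).h z =
  x.h z + y.h (z - red P x.n) + om P x.f (fun e => y.g (e - x.n)) z := rfl
@[simp] lemma mul_n (x y : KG P) : (x * y).n = x.n + y.n := rfl
lemma inv_f (x : KG P) (e) : (x⁻¹).f e = - x.f (e + x.n) := rfl
lemma inv_g (x : KG P) (e) : (x⁻¹).g e = - x.g (e + x.n) := rfl
lemma inv_h (x : KG P) (z) : (x⁻¹).h z =
  - x.h (z + red P x.n) + om P x.f x.g (z + red P x.n) := rfl
@[simp] lemma inv_n (x : KG P) : (x⁻¹).n = - x.n := rfl

lemma om_zero_left (g : ZMod P.l → ZMod P.m) (y) : om P (fun _ => 0) g y = 0 := by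
  simp [om]
lemma om_zero_right (f : ZMod P.l → ZMod P.m) (y) : om P f (fun _ => 0) y = 0 := by
  simp [om]

protected lemma mul_assoc' (x y z : KG P) : x * y * z = x * (y * z) := by
  ext e
  · simp only [mul_f, mul_n, sub_sub, add_assoc]
  · simp only [mul_g, mul_n, sub_sub, add_assoc]
  · simp only [mul_h, mul_n, mul_g, map_add]
    have h1 : om P (fun e => x.f e + y.f (e - x.n)) (fun e => z.g (e - (x.n + y.n))) e
        = om P x.f (fun e => z.g (e - (x.n + y.n))) e
          + om P (fun e => y.f (e - x.n)) (fun e => z.g (e - (x.n + y.n))) e := om_add_left _ _ _ _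
    have h2 : om P (fun e => y.f (e - x.n)) (fun e => z.g (e - (x.n + y.n))) e
        = om P y.f (fun e => z.g (e - y.n)) (e - red P x.n) := by
      rw [← om_shift]
      congr 1
      funext e'
      congr 1
      ring
    have h3 : om P x.f (fun e => y.g (e - x.n) + z.g (e - x.n - y.n)) e
        = om P x.f (fun e => y.g (e - x.n)) e + om P x.f (fun e => z.g (e - x.n - y.n)) e :=
      om_add_right _ _ _ _
    have h4 : (fun e => z.g (e - (x.n + y.n))) = fun e => z.g (e - x.n - y.n) := by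
      funext e'; congr 1; ring
    have h5 : (fun e => (x * y).f e) = fun e => x.f e + y.f (e - x.n) := rfl
    have h6 : (x * y).f = fun e => x.f e + y.f (e - x.n) := rfl
    rw [h6, h1, h2, h3, h4]
    have h7 : e - (red P x.n + red P y.n) = e - red P x.n - red P y.n := by ring
    rw [h7]
    ring
  · simp only [mul_n, add_assoc]

instance : Group (KG P) where
  mul_assoc := KG.mul_assoc'
  one_mul x := by
    ext e
    · simp [mul_f]
    · simp [mul_g]
    · simp only [mul_h, one_h, one_n, map_zero, sub_zero, zero_add]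
      have : (1 : KG P).f = fun _ => 0 := rfl
      rw [this, om_zero_left]; ring
    · simp
  mul_one x := by
    ext e
    · simp [mul_f]
    · simp [mul_g]
    · simp only [mul_h, one_h, one_g, om_zero_right]; ring
    · simp
  inv_mul_cancel x := by
    ext e
    · simp [mul_f, inv_f]
    · simp [mul_g, inv_g]
    · simp only [mul_h, inv_h, inv_n, map_neg, sub_neg_eq_add, one_h]
      have : om P (x⁻¹).f (fun e => x.g (e + x.n)) e
          = - om P x.f x.g (e + red P x.n) := by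
        have h1 : (x⁻¹).f = fun e => - x.f (e - (- x.n)) := by
          funext e'; simp [inv_f]
        have h2 : (fun e => x.g (e + x.n)) = fun e => x.g (e - (- x.n)) := by
          funext e'; simp
        rw [h1, h2, om_neg_left, om_shift]
        simp
      rw [this]; ring
    · simp

noncomputable instance : Fintype (KG P) := Fintype.ofInjective
  (fun x : KG P => (x.f, x.g, x.h, x.n)) (by
    intro x y h
    simp only [Prod.mk.injEq] at h
    exact KG.ext h.1 h.2.1 h.2.2.1 h.2.2.2)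

end KG

/-- the central elements given by constant functions -/
def cW (P : Par) : Subgroup (KG P) where
  carrier := {x | x.f = 0 ∧ x.g = 0 ∧ x.n = 0 ∧ ∃ c : ZMod P.m, ∀ y, x.h y = c}
  one_mem' := ⟨rfl, rfl, rfl, 0, fun _ => rfl⟩
  mul_mem' := by
    rintro x y ⟨hf, hg, hn, c, hc⟩ ⟨hf', hg', hn', c', hc'⟩
    refine ⟨?_, ?_, ?_, c + c', ?_⟩
    · funext e; simp [KG.mul_f, hf, hf']
    · funext e; simp [KG.mul_g, hg, hg']
    · simp [hn, hn']
    · intro z
      simp only [KG.mul_h, hc, hc', hf]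
      have := KG.om_zero_left (P := P) (fun e => y.g (e - x.n)) z
      change c + c' + om P (fun _ => 0) _ z = _
      rw [this]; ring
  inv_mem' := by
    rintro x ⟨hf, hg, hn, c, hc⟩
    refine ⟨?_, ?_, ?_, -c, ?_⟩
    · funext e; simp [KG.inv_f, hf]
    · funext e; simp [KG.inv_g, hg]
    · simp [hn]
    · intro z
      simp only [KG.inv_h, hc, hf]
      change -c + om P (fun _ => 0) _ _ = _
      rw [KG.om_zero_left]; ring

/-- the multiples of `N` of the constant functions -/
def cN (P : Par) : Subgroup (KG P) where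
  carrier := {x | x.f = 0 ∧ x.g = 0 ∧ x.n = 0 ∧ ∃ c : ZMod P.m, ∀ y, x.h y = (P.N : ZMod P.m) * c}
  one_mem' := ⟨rfl, rfl, rfl, 0, fun _ => by simp⟩
  mul_mem' := by
    rintro x y ⟨hf, hg, hn, c, hc⟩ ⟨hf', hg', hn', c', hc'⟩
    refine ⟨?_, ?_, ?_, c + c', ?_⟩
    · funext e; simp [KG.mul_f, hf, hf']
    · funext e; simp [KG.mul_g, hg, hg']
    · simp [hn, hn']
    · intro z
      simp only [KG.mul_h, hc, hc', hf]
      have := KG.om_zero_left (P := P) (fun e => y.g (e - x.n)) z
      change _ + _ + om P (fun _ => 0) _ z = _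
      rw [this]; ring
  inv_mem' := by
    rintro x ⟨hf, hg, hn, c, hc⟩
    refine ⟨?_, ?_, ?_, -c, ?_⟩
    · funext e; simp [KG.inv_f, hf]
    · funext e; simp [KG.inv_g, hg]
    · simp [hn]
    · intro z
      simp only [KG.inv_h, hc, hf]
      change _ + om P (fun _ => 0) _ _ = _
      rw [KG.om_zero_left]; ring

/-- the alphabet: lamp letters `(α, β)` (standing for `a^α b^β t`) and two free letters -/
abbrev AL (B : ℕ) := (Fin 2 × Fin B) ⊕ Fin 2

/-- the letter `a^α b^β t` in the level group -/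
def kl (P : Par) (α β : ℤ) : KG P :=
  ⟨Pi.single 0 (α : ZMod P.m), Pi.single 0 (β : ZMod P.m), fun _ => 0, 1⟩

/-- evaluation of letters in the level group; the free letters are killed -/
def kv (P : Par) (B : ℕ) : AL B → KG P
  | Sum.inl (α, β) => kl P (α : ℕ) (β : ℕ)
  | Sum.inr _ => 1

/-- the word contains no free letter -/
def IsH {A B : Type*} (u : Wd (A ⊕ B)) : Prop := ∀ s ∈ u, ∃ a, s.1 = Sum.inl a

lemma mem_cW {P : Par} {x : KG P} :
    x ∈ cW P ↔ x.f = 0 ∧ x.g = 0 ∧ x.n = 0 ∧ ∃ c : ZMod P.m, ∀ y, x.h y = c := Iff.rfl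
lemma mem_cN {P : Par} {x : KG P} :
    x ∈ cN P ↔ x.f = 0 ∧ x.g = 0 ∧ x.n = 0 ∧ ∃ c : ZMod P.m, ∀ y, x.h y = (P.N : ZMod P.m) * c :=
  Iff.rfl
lemma cN_le_cW (P : Par) : cN P ≤ cW P := by
  rintro x ⟨h1, h2, h3, c, hc⟩
  exact ⟨h1, h2, h3, _, hc⟩

/-- constants are central -/
lemma cW_central {P : Par} {x : KG P} (hx : x ∈ cW P) (y : KG P) : x * y = y * x := by
  obtain ⟨hf, hg, hn, c, hc⟩ := hx
  ext e
  · simp [KG.mul_f, hf, hn]
  · simp [KG.mul_g, hg, hn]
  · have h1 : om P x.f (fun e => y.g (e - x.n)) e = 0 := by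
      rw [hf]; exact KG.om_zero_left _ _
    have h2 : om P y.f (fun e => x.g (e - y.n)) e = 0 := by
      rw [hg]; exact KG.om_zero_right _ _
    rw [KG.mul_h, KG.mul_h, h1, h2]
    simp only [hc, hn, map_zero, sub_zero]
    ring
  · simp [hn]

lemma cN_central {P : Par} {x : KG P} (hx : x ∈ cN P) (y : KG P) : x * y = y * x :=
  cW_central (cN_le_cW P hx) y

instance (P : Par) : (cN P).Normal := ⟨fun x hx g => by
  rw [← cN_central hx g, mul_inv_cancel_right]; exact hx⟩
instance (P : Par) : (cW P).Normal := ⟨fun x hx g => by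
  rw [← cW_central hx g, mul_inv_cancel_right]; exact hx⟩

/-- in a closed trajectory with at least one free letter there is a backtracking gap -/
def NoLin {A B X : Type*} (σ : A ⊕ B → Equiv.Perm X) (L : ℕ) : Prop :=
  ∀ v : Wd (A ⊕ B), v.length ≤ L → ¬ IsH v → ∀ x : X, wp σ v x = x →
    ∃ (v₁ g v₂ : Wd (A ⊕ B)) (b : B) (ε : Bool),
      v = v₁ ++ (Sum.inr b, ε) :: (g ++ (Sum.inr b, !ε) :: v₂) ∧ IsH g ∧
      wp σ g (wp σ ((Sum.inr b, !ε) :: v₂) x) = wp σ ((Sum.inr b, !ε) :: v₂) x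

/-! ## Graph isomorphisms of balls as functions -/

/-- `φ` is an isomorphism of the ball of radius `r` around `v` onto the one around `o` -/
def BallIso {V W : Type*} (G : SimpleGraph V) (v : V) (F : SimpleGraph W) (o : W) (r : ℕ)
    (φ : V → W) : Prop :=
  φ v = o ∧ Set.BijOn φ (ball G v r) (ball F o r) ∧
    ∀ x ∈ ball G v r, ∀ y ∈ ball G v r, (G.Adj x y ↔ F.Adj (φ x) (φ y))

/-- the data of the transfer theorem -/
structure TData (Γ Λ : Type) [Group Γ] [Fintype Λ] where
  e : Λ → Γ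
  k : Λ → ℕ
  n₀ : ℕ
  pi : Γ →* Multiplicative (ZMod 2)
  ne : Nonempty Λ
  k_inj : Function.Injective k
  k_lt : ∀ l, k l < Fintype.card Λ
  odd : Odd n₀
  large : 16 * (Fintype.card Λ + 2) ^ 2 ≤ n₀
  pi_e : ∀ l, pi (e l) = Multiplicative.ofAdd 1
  e_inj : Function.Injective (lv e)
  asym : ∃ u : Wd Λ, wp e u ≠ 1 ∧ wp e (wflip u) = 1

/-- the Cayley graph of the transfer theorem -/
def TData.F {Γ Λ : Type} [Group Γ] [Fintype Λ] (T : TData Γ Λ) :
    SimpleGraph (Γ × Multiplicative (ZMod T.n₀)) := cayL (stil T.e T.k T.n₀)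

/-! ## The levels and the group -/

/-- the standing assumption on the prime `p` -/
class BP (p : ℕ) : Prop where
  pr : p.Prime
  big : 100000 ≤ p

/-- exponents of the levels -/
def dd : ℕ → ℕ
  | 0 => 1
  | j + 1 => 3 * dd j + 4

/-- the parameters of level `j` -/
def lev (p : ℕ) [BP p] (j : ℕ) : Par where
  D := p ^ dd j
  l := p ^ (dd j + 1)
  m := p ^ (2 * dd j + 3)
  N := p
  hD := Nat.pow_pos (BP.pr (p := p)).pos
  hl := Nat.pow_pos (BP.pr (p := p)).pos
  hm := Nat.pow_pos (BP.pr (p := p)).pos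
  dvd := pow_dvd_pow _ (Nat.le_succ _)
  h3 := by
    have := BP.big (p := p)
    rw [pow_succ, mul_comm]
    exact Nat.mul_le_mul_left _ (by omega)

/-- the word is trivial in all levels (modulo `N` times the constants) -/
def TrivN (p : ℕ) [BP p] {B : ℕ} (u : Wd (AL B)) : Prop :=
  ∀ i, wp (kv (lev p i) B) u ∈ cN (lev p i)

/-- the word is constant in all levels -/
def InW (p : ℕ) [BP p] {B : ℕ} (u : Wd (AL B)) : Prop :=
  ∀ i, wp (kv (lev p i) B) u ∈ cW (lev p i)

/-- admissible finite actions -/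
structure Adm (p : ℕ) [BP p] where
  n : ℕ
  ρ : AL p → Equiv.Perm (Fin n)
  h1 : ∀ u : Wd (AL p), IsH u → TrivN p u → wp ρ u = 1
  h2 : ∀ u : Wd (AL p), IsH u → InW p u → ∀ i : Fin 2, Commute (wp ρ u) (ρ (Sum.inr i))

/-- the big product -/
abbrev Gtop (p : ℕ) [BP p] : Type := ∀ X : Adm p, Equiv.Perm (Fin X.n)

/-- the letters in the big product -/
def etop (p : ℕ) [BP p] : AL p → Gtop p := fun a X => X.ρ a

/-- the group of the counterexample (without the factor `C`) -/
abbrev Gam (p : ℕ) [BP p] : Type := ↥(Subgroup.closure (Set.range (etop p)))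

/-- embedding of a smaller alphabet -/
def emb (p : ℕ) {B : ℕ} (hB : B ≤ p) : AL B → AL p
  | Sum.inl (α, β) => Sum.inl (α, Fin.castLE hB β)
  | Sum.inr i => Sum.inr i

/-- the letters in the group -/
def evB (p : ℕ) [BP p] {B : ℕ} (hB : B ≤ p) : AL B → Gam p := fun a =>
  ⟨etop p (emb p hB a), Subgroup.subset_closure ⟨_, rfl⟩⟩

/-! ## Standard words -/

/-- a pass over the edges `0, …, L-1` -/
def pass {B : ℕ} (α : ℕ → Fin 2) (β : ℕ → Fin B) (L : ℕ) : Wd (AL B) :=
  (List.range L).map fun i => (Sum.inl (α i, β i), true)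

/-- the indicator of `[D, ∞)` -/
def blk (D : ℕ) : ℕ → Fin 2 := fun i => if D ≤ i then 1 else 0

/-- the standard word of length `8 D` -/
def stdW {B : ℕ} (D : ℕ) (β β' : ℕ → Fin B) : Wd (AL B) :=
  pass (blk D) β (2 * D) ++ (winv (pass (fun _ => 0) β (2 * D)) ++
    (pass (fun _ => 0) β' (2 * D) ++ winv (pass (blk D) β' (2 * D))))

/-- the block function realizing the constants `z` -/
def gam (p : ℕ) [BP p] (j : ℕ) (z : ℕ → ℤ) (e : ℕ) : ℤ :=
  if e < (lev p j).D then z j else
    ∑ k ∈ Finset.range j,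
      ((if (lev p k).l + (lev p k).D ≤ 2 * (lev p j).D - 1 - e ∧
            2 * (lev p j).D - 1 - e < (lev p k).l + 2 * (lev p k).D then z k else 0)
        - (if (lev p k).l ≤ 2 * (lev p j).D - 1 - e ∧
            2 * (lev p j).D - 1 - e < (lev p k).l + (lev p k).D then z k else 0))

/-! ## Finite box structures -/

/-- product of finitely many level groups (modulo `cN`) -/
abbrev boxG {m : ℕ} (Q : Fin m → Par) : Type := ∀ i, KG (Q i) ⧸ cN (Q i)

/-- the set on which a box structure lives -/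
abbrev boxV {m : ℕ} (Q : Fin m → Par) (n₀ M : ℕ) : Type := boxG Q × ZMod n₀ × Fin M

/-- value of a lamp letter in the product -/
def boxv {m : ℕ} (Q : Fin m → Par) (B : ℕ) (a : Fin 2 × Fin B) : boxG Q :=
  fun i => QuotientGroup.mk (kv (Q i) B (Sum.inl a))

/-- the action of the lamp letters -/
def boxρ {m : ℕ} (Q : Fin m → Par) (n₀ M B : ℕ) (a : Fin 2 × Fin B) :
    Equiv.Perm (boxV Q n₀ M) :=
  (Equiv.mulLeft (boxv Q B a)).prodCongr (Equiv.refl _)

/-- the generator of the cyclic group -/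
def boxκ {m : ℕ} (Q : Fin m → Par) (n₀ M : ℕ) : Equiv.Perm (boxV Q n₀ M) :=
  (Equiv.refl _).prodCongr ((Equiv.addRight 1).prodCongr (Equiv.refl _))

/-- constants in the flagged levels -/
def boxZ {m : ℕ} (Q : Fin m → Par) (c : Fin m → Bool) : Subgroup (boxG Q) :=
  Subgroup.pi Set.univ fun i => if c i then (cW (Q i)).map (QuotientGroup.mk' (cN (Q i))) else ⊥

/-- the levels `0, …, J` -/
def Qstd (p : ℕ) [BP p] (J : ℕ) : Fin (J + 1) → Par := fun i => lev p i.1

/-- the modification of level `j` -/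
def altPar (p : ℕ) [BP p] (j : ℕ) : Par where
  D := (lev p j).D
  l := (lev p j).l
  m := 128 * (lev p j).m
  N := 128
  hD := (lev p j).hD
  hl := (lev p j).hl
  hm := Nat.mul_pos (by norm_num) (lev p j).hm
  dvd := (lev p j).dvd
  h3 := (lev p j).h3

/-- the levels `0, …, j-1`, the modified level `j`, and level `j+1` -/
def Qalt (p : ℕ) [BP p] (j : ℕ) : Fin (j + 2) → Par := fun i =>
  if i.1 = j then altPar p j else lev p i.1

/-- conjugation of a labelled structure -/
def conjLS {Λ V : Type} (σ : Equiv.Perm V) (X : LS Λ V) : LS Λ V :=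
  (fun l => σ * X.1 l * σ⁻¹, σ * X.2 * σ⁻¹)

/-- the central constant element of a level group -/
def cst (P : Par) (c : ℤ) : KG P := ⟨fun _ => 0, fun _ => 0, fun _ => (c : ZMod P.m), 0⟩

end Pool.Agent.Helper55.LF
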