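import Mathlib

/-!
# Permutations commuting with a free group action (module M3 of MP_f7aca4_co)
-/

namespace Pool.Agent.Helper55.LF

section cent
variable {V Q : Type} [Fintype V] [Fintype Q]
  (Z : Subgroup (Equiv.Perm V)) (hfree : ∀ z ∈ Z, ∀ p, z p = p → z = 1)
  (mk : V → Q) (hs : Function.Surjective mk) (hmk : ∀ p q, mk p = mk q ↔ ∃ z ∈ Z, z p = q)

include hfree hs hmk in
theorem cent_equiv : ∃ e : V ≃ Z × Q, (∀ p, (e p).2 = mk p) ∧
    ∀ (z : Z) (p : V), e ((z : Equiv.Perm V) p) = (z * (e p).1, (e p).2) := by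
  choose r hr using hs
  let f : Z × Q → V := fun x => (x.1 : Equiv.Perm V) (r x.2)
  have hf2 : ∀ x, mk (f x) = x.2 := by
    intro x
    have : mk (r x.2) = mk (f x) := (hmk _ _).2 ⟨x.1, x.1.2, rfl⟩
    rw [← this, hr]
  have hinj : Function.Injective f := by
    intro x y hxy
    have h2 : x.2 = y.2 := by rw [← hf2 x, ← hf2 y, hxy]
    have h1 : (x.1 : Equiv.Perm V) (r x.2) = (y.1 : Equiv.Perm V) (r x.2) := by
      change f x = _
      rw [hxy, h2]
    have h3 : ((y.1⁻¹ * x.1 : Z) : Equiv.Perm V) (r x.2) = r x.2 := by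
      simp [h1]
    have h4 := hfree _ (y.1⁻¹ * x.1).2 _ h3
    have h5 : y.1⁻¹ * x.1 = 1 := Subtype.ext h4
    have h6 : x.1 = y.1 := by
      have := inv_mul_eq_one.1 h5
      exact this.symm
    exact Prod.ext h6 h2
  have hsurj : Function.Surjective f := by
    intro p
    obtain ⟨z, hz, hzp⟩ := (hmk (r (mk p)) p).1 (hr _)
    exact ⟨(⟨z, hz⟩, mk p), hzp⟩
  let e : V ≃ Z × Q := (Equiv.ofBijective f ⟨hinj, hsurj⟩).symm
  have he : ∀ x, e (f x) = x := fun x => (Equiv.ofBijective f ⟨hinj, hsurj⟩).symm_apply_apply x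
  have hp : ∀ p, f (e p) = p := fun p => (Equiv.ofBijective f ⟨hinj, hsurj⟩).apply_symm_apply p
  refine ⟨e, fun p => ?_, fun z p => ?_⟩
  · rw [← hf2 (e p), hp]
  · have : (z : Equiv.Perm V) p = f (z * (e p).1, (e p).2) := by
      conv_lhs => rw [← hp p]
      simp [f]
    rw [this, he]

include hfree hs hmk in
theorem cent_card : Fintype.card V = Nat.card Z * Fintype.card Q := by
  obtain ⟨e, -, -⟩ := cent_equiv Z hfree mk hs hmk
  rw [← Nat.card_eq_fintype_card, ← Nat.card_eq_fintype_card, Nat.card_congr e, Nat.card_prod]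

include hs hmk in
theorem cent_induced (τ : Equiv.Perm V) (hτ : ∀ z ∈ Z, Commute z τ) :
    ∃ τ' : Equiv.Perm Q, ∀ p, τ' (mk p) = mk (τ p) := by
  choose r hr using hs
  have key : ∀ σ : Equiv.Perm V, (∀ z ∈ Z, Commute z σ) → ∀ p q, mk p = mk q →
      mk (σ p) = mk (σ q) := by
    intro σ hσ p q hpq
    obtain ⟨z, hz, hzp⟩ := (hmk p q).1 hpq
    refine (hmk _ _).2 ⟨z, hz, ?_⟩
    have := congrArg (fun s : Equiv.Perm V => s p) (hσ z hz).eq
    simp only [Equiv.Perm.mul_apply] at this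
    rw [this, hzp]
  have hτ' : ∀ z ∈ Z, Commute z τ⁻¹ := fun z hz => (hτ z hz).inv_right
  have k1 := key τ hτ
  have k2 := key τ⁻¹ hτ'
  refine ⟨⟨fun q => mk (τ (r q)), fun q => mk (τ⁻¹ (r q)), fun q => ?_, fun q => ?_⟩, fun p => ?_⟩
  · have := k2 (r (mk (τ (r q)))) (τ (r q)) (hr _)
    simpa [hr] using this
  · have := k1 (r (mk (τ⁻¹ (r q)))) (τ⁻¹ (r q)) (hr _)
    simpa [hr] using this
  · exact k1 _ _ (hr _)

/-- the permutation of `Z × Q` given by a permutation of `Q` and a cocycle. -/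
def cocPerm {Z Q : Type*} [Group Z] (c : Q → Z) (s : Equiv.Perm Q) : Equiv.Perm (Z × Q) where
  toFun x := (x.1 * c x.2, s x.2)
  invFun x := (x.1 * (c (s.symm x.2))⁻¹, s.symm x.2)
  left_inv x := by simp
  right_inv x := by simp

include hfree hs hmk in
theorem cent_count {B : Type} [Fintype B] (S : Set (B → Equiv.Perm Q)) :
    {τ : B → Equiv.Perm V | (∀ b, ∀ z ∈ Z, Commute z (τ b)) ∧
      ∃ τ' ∈ S, ∀ b p, τ' b (mk p) = mk (τ b p)}.ncard
      = S.ncard * Nat.card Z ^ (Fintype.card B * Fintype.card Q) := by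
  classical
  obtain ⟨e, he2, hez⟩ := cent_equiv Z hfree mk hs hmk
  have hes : ∀ (z : Z) (x : Z × Q), e.symm (z * x.1, x.2) = (z : Equiv.Perm V) (e.symm x) := by
    intro z x
    apply e.injective
    rw [hez]
    simp
  let F : (B → Equiv.Perm Q) × (B → Q → Z) → (B → Equiv.Perm V) := fun x b =>
    (e.trans (cocPerm (x.2 b) (x.1 b))).trans e.symm
  have hFap : ∀ x b p, e (F x b p) = ((e p).1 * x.2 b (mk p), x.1 b (mk p)) := by
    intro x b p
    simp [F, cocPerm, he2]
  have hFinj : Function.Injective F := by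
    intro x y hxy
    have h : ∀ b q, x.2 b q = y.2 b q ∧ x.1 b q = y.1 b q := by
      intro b q
      obtain ⟨p, rfl⟩ := hs q
      have h1 := hFap x b p
      have h2 := hFap y b p
      rw [hxy, h2] at h1
      have h3 := congrArg Prod.fst h1
      have h4 := congrArg Prod.snd h1
      simp only at h3 h4
      exact ⟨(mul_left_cancel h3).symm, h4.symm⟩
    refine Prod.ext ?_ ?_
    · funext b; ext q; exact (h b q).2
    · funext b q; exact (h b q).1
  have himg : {τ : B → Equiv.Perm V | (∀ b, ∀ z ∈ Z, Commute z (τ b)) ∧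
      ∃ τ' ∈ S, ∀ b p, τ' b (mk p) = mk (τ b p)} = F '' (S ×ˢ Set.univ) := by
    ext τ
    constructor
    · rintro ⟨hc, τ', hS, hτ⟩
      refine ⟨(τ', fun b q => (e (τ b (e.symm (1, q)))).1), ⟨hS, Set.mem_univ _⟩, ?_⟩
      funext b
      ext p
      apply e.injective
      rw [hFap]
      have hp : p = ((e p).1 : Equiv.Perm V) (e.symm (1, mk p)) := by
        rw [← hes]
        simp [← he2]
      have hcb := congrArg (fun s : Equiv.Perm V => s (e.symm (1, mk p)))
        (hc b (e p).1 (e p).1.2).eq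
      simp only [Equiv.Perm.mul_apply] at hcb
      rw [← hp] at hcb
      have h5 : e (τ b p) = ((e p).1 * (e (τ b (e.symm (1, mk p)))).1,
          (e (τ b (e.symm (1, mk p)))).2) := by
        rw [← hez, hcb]
      rw [h5]
      refine Prod.ext rfl ?_
      simp only
      rw [he2, ← hτ]
      congr 1
      rw [← he2 (e.symm _), Equiv.apply_symm_apply]
    · rintro ⟨x, ⟨hS, -⟩, rfl⟩
      refine ⟨fun b z hz => ?_, x.1, hS, fun b p => ?_⟩
      · ext p
        apply e.injective
        simp only [Equiv.Perm.mul_apply]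
        have h1 := hez ⟨z, hz⟩ (F x b p)
        have h2 := hez ⟨z, hz⟩ p
        simp only at h1 h2
        rw [h1, hFap, hFap]
        have h3 : mk (z p) = mk p := by rw [← he2, ← he2, h2]
        rw [h2, h3]
        simp [mul_assoc]
      · rw [← he2 (F x b p), hFap]
  rw [himg, Set.ncard_image_of_injective _ hFinj, Set.ncard_prod, Set.ncard_univ]
  congr 1
  rw [Nat.card_fun, Nat.card_fun, ← pow_mul, mul_comm (Fintype.card B)]
  simp only [Nat.card_eq_fintype_card]

end cent

end Pool.Agent.Helper55.LF
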