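import Mathlib
import Pool.Agent.Helper55.LF.Defs

set_option linter.unusedSectionVars false

/-! M8: the group `Gam`. -/

namespace Pool.Agent.Helper55.LF

section gamma
variable (p : ℕ) [BP p]

/-- the central subgroup `W` -/
def Wg : Subgroup (Gam p) :=
  Subgroup.closure {x | ∃ u : Wd (AL p), IsH u ∧ InW p u ∧ wp (evB p le_rfl) u = x}

/-! ### evaluation at an admissible action -/

/-- the action `X` as a homomorphism -/
def gbHom (X : Adm p) : Gam p →* Equiv.Perm (Fin X.n) :=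
  (Pi.evalMonoidHom (fun X : Adm p => Equiv.Perm (Fin X.n)) X).comp (Subgroup.subtype _)

theorem gb_eval (X : Adm p) {B : ℕ} (hB : B ≤ p) (u : Wd (AL B)) :
    gbHom p X (wp (evB p hB) u) = wp (fun a => X.ρ (emb p hB a)) u :=
  map_wp (gbHom p X) (evB p hB) u

theorem gb_ext {x y : Gam p} (h : ∀ X : Adm p, gbHom p X x = gbHom p X y) : x = y := by
  apply Subtype.ext
  funext X
  exact h X

theorem gb_isH_wmap {B : ℕ} (hB : B ≤ p) {u : Wd (AL B)} (hu : IsH u) :
    IsH (wmap (emb p hB) u) := by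
  intro s hs
  unfold wmap at hs
  rw [List.mem_map] at hs
  obtain ⟨t, ht, rfl⟩ := hs
  obtain ⟨a, ha⟩ := hu t ht
  exact ⟨(a.1, Fin.castLE hB a.2), by
    show emb p hB t.1 = _
    rw [ha]
    rfl⟩

theorem gb_kv_emb {B : ℕ} (hB : B ≤ p) (P : Par) (a : AL B) : kv P p (emb p hB a) = kv P B a := by
  rcases a with ⟨α, β⟩ | i
  · rfl
  · rfl

theorem gb_kv_wmap {B : ℕ} (hB : B ≤ p) (P : Par) (u : Wd (AL B)) :
    wp (kv P p) (wmap (emb p hB) u) = wp (kv P B) u := by
  rw [wp_wmap]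
  congr 1
  funext a
  exact gb_kv_emb p hB P a

theorem gb_rho_wmap {B : ℕ} (hB : B ≤ p) {G : Type*} [Group G] (ρ : AL p → G) (u : Wd (AL B)) :
    wp ρ (wmap (emb p hB) u) = wp (fun a => ρ (emb p hB a)) u := by
  rw [wp_wmap]
  rfl

theorem ev_eq_one {B : ℕ} (hB : B ≤ p) (u : Wd (AL B)) (hu : IsH u) (h : TrivN p u) :
    wp (evB p hB) u = 1 := by
  apply gb_ext
  intro X
  rw [gb_eval, map_one, ← gb_rho_wmap]
  apply X.h1 _ (gb_isH_wmap p hB hu)
  intro i
  rw [gb_kv_wmap]
  exact h i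

/-- how finite actions are used -/
theorem adm_use {V : Type} [Fintype V] (ρ : AL p → Equiv.Perm V)
    (h1 : ∀ u : Wd (AL p), IsH u → TrivN p u → wp ρ u = 1)
    (h2 : ∀ u : Wd (AL p), IsH u → InW p u → ∀ i : Fin 2, Commute (wp ρ u) (ρ (Sum.inr i)))
    {B B' : ℕ} (hB : B ≤ p) (hB' : B' ≤ p) (u : Wd (AL B)) (u' : Wd (AL B'))
    (h : wp (evB p hB) u = wp (evB p hB') u') :
    wp (fun a => ρ (emb p hB a)) u = wp (fun a => ρ (emb p hB' a)) u' := by
  set e : V ≃ Fin (Fintype.card V) := Fintype.equivFin V with he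
  set φ : Equiv.Perm V ≃* Equiv.Perm (Fin (Fintype.card V)) := e.permCongrHom with hφ
  have hw : ∀ v : Wd (AL p), wp (fun a => φ (ρ a)) v = φ (wp ρ v) := fun v =>
    (map_wp (φ : Equiv.Perm V →* Equiv.Perm (Fin (Fintype.card V))) ρ v).symm
  set X : Adm p := ⟨Fintype.card V, fun a => φ (ρ a), by
      intro v hv hv2
      rw [hw, h1 v hv hv2, map_one], by
      intro v hv hv2 i
      rw [hw]
      exact (h2 v hv hv2 i).map φ⟩ with hX
  have hg := congrArg (gbHom p X) h
  rw [gb_eval, gb_eval] at hg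
  have e1 : ∀ {C : ℕ} (hC : C ≤ p) (v : Wd (AL C)),
      wp (fun a => X.ρ (emb p hC a)) v = φ (wp (fun a => ρ (emb p hC a)) v) := by
    intro C hC v
    exact (map_wp (φ : Equiv.Perm V →* Equiv.Perm (Fin (Fintype.card V)))
      (fun a => ρ (emb p hC a)) v).symm
  rw [e1, e1] at hg
  exact φ.injective hg

/-! ### the level groups -/

/-- left multiplication as a homomorphism -/
def gbLeft (G : Type*) [Group G] : G →* Equiv.Perm G where
  toFun g := Equiv.mulLeft g
  map_one' := by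
    ext x
    simp
  map_mul' a b := by
    ext x
    simp [mul_assoc]

theorem gb_left_inj {G : Type*} [Group G] {a b : G} (h : gbLeft G a = gbLeft G b) : a = b := by
  have := congrArg (fun e : Equiv.Perm G => e 1) h
  simpa [gbLeft] using this

theorem level_of_ev_eq {B B' : ℕ} (hB : B ≤ p) (hB' : B' ≤ p) (u : Wd (AL B)) (u' : Wd (AL B'))
    (h : wp (evB p hB) u = wp (evB p hB') u') (i : ℕ) :
    (wp (kv (lev p i) B) u)⁻¹ * wp (kv (lev p i) B') u' ∈ cN (lev p i) := by
  classical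
  set P := lev p i with hP
  set V := KG P ⧸ cN P with hV
  haveI : Fintype V := Fintype.ofFinite _
  set ψ : KG P →* Equiv.Perm V := (gbLeft V).comp (QuotientGroup.mk' (cN P)) with hψ
  set ρ : AL p → Equiv.Perm V := fun a => ψ (kv P p a) with hρ
  have hw : ∀ v : Wd (AL p), wp ρ v = ψ (wp (kv P p) v) := fun v => (map_wp ψ (kv P p) v).symm
  have h1 : ∀ v : Wd (AL p), IsH v → TrivN p v → wp ρ v = 1 := by
    intro v _ hv
    rw [hw]
    have hv' := hv i
    have : (QuotientGroup.mk' (cN P)) (wp (kv P p) v) = 1 := by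
      rw [QuotientGroup.mk'_apply, QuotientGroup.eq_one_iff]
      exact hv'
    rw [hψ, MonoidHom.comp_apply, this, map_one]
  have h2 : ∀ v : Wd (AL p), IsH v → InW p v → ∀ j : Fin 2,
      Commute (wp ρ v) (ρ (Sum.inr j)) := by
    intro v _ _ j
    have : ρ (Sum.inr j) = 1 := by
      show ψ (kv P p (Sum.inr j)) = 1
      have : kv P p (Sum.inr j) = 1 := rfl
      rw [this, map_one]
    rw [this]
    exact Commute.one_right _
  have h3 := adm_use p ρ h1 h2 hB hB' u u' h
  have e1 : ∀ {C : ℕ} (hC : C ≤ p) (v : Wd (AL C)),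
      wp (fun a => ρ (emb p hC a)) v = ψ (wp (kv P C) v) := by
    intro C hC v
    have e2 : (fun a => ρ (emb p hC a)) = fun a => ψ (kv P C a) := by
      funext a
      show ψ (kv P p (emb p hC a)) = _
      rw [gb_kv_emb]
    rw [e2]
    exact (map_wp ψ (kv P C) v).symm
  rw [e1, e1] at h3
  have h4 : (QuotientGroup.mk' (cN P)) (wp (kv P B) u) =
      (QuotientGroup.mk' (cN P)) (wp (kv P B') u') := gb_left_inj h3
  rw [QuotientGroup.mk'_apply, QuotientGroup.mk'_apply, QuotientGroup.eq] at h4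
  exact h4

/-! ### the subgroup `W` -/

theorem gb_evB_emb {B : ℕ} (hB : B ≤ p) (u : Wd (AL B)) :
    wp (evB p le_rfl) (wmap (emb p hB) u) = wp (evB p hB) u := by
  rw [wp_wmap]
  congr 1
  funext a
  apply Subtype.ext
  show etop p (emb p le_rfl (emb p hB a)) = etop p (emb p hB a)
  congr 1
  rcases a with ⟨α, β⟩ | i
  · rfl
  · rfl

theorem gb_isH_append {A B : Type*} {u v : Wd (A ⊕ B)} (hu : IsH u) (hv : IsH v) :
    IsH (u ++ v) := by
  intro s hs
  rcases List.mem_append.1 hs with h | h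
  · exact hu s h
  · exact hv s h

theorem gb_isH_winv {A B : Type*} {u : Wd (A ⊕ B)} (hu : IsH u) : IsH (winv u) := by
  intro s hs
  unfold winv at hs
  rw [List.mem_reverse, List.mem_map] at hs
  obtain ⟨t, ht, rfl⟩ := hs
  exact hu t ht

theorem gb_mem_Wg {x : Gam p} (hx : x ∈ Wg p) :
    ∃ u : Wd (AL p), IsH u ∧ InW p u ∧ wp (evB p le_rfl) u = x := by
  refine Subgroup.closure_induction (p := fun x _ =>
    ∃ u : Wd (AL p), IsH u ∧ InW p u ∧ wp (evB p le_rfl) u = x) ?_ ?_ ?_ ?_ hx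
  · intro x hx
    exact hx
  · refine ⟨[], by intro s hs; simp at hs, ?_, rfl⟩
    intro i
    exact one_mem _
  · rintro x y _ _ ⟨u, hu1, hu2, hu3⟩ ⟨v, hv1, hv2, hv3⟩
    refine ⟨u ++ v, gb_isH_append hu1 hv1, ?_, by rw [wp_append, hu3, hv3]⟩
    intro i
    rw [wp_append]
    exact mul_mem (hu2 i) (hv2 i)
  · rintro x _ ⟨u, hu1, hu2, hu3⟩
    refine ⟨winv u, gb_isH_winv hu1, ?_, by rw [wp_winv, hu3]⟩
    intro i
    rw [wp_winv]
    exact inv_mem (hu2 i)

theorem mem_Wg_iff {B : ℕ} (hB : B ≤ p) (u : Wd (AL B)) (hu : IsH u) :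
    wp (evB p hB) u ∈ Wg p ↔ InW p u := by
  constructor
  · intro h i
    obtain ⟨v, _, hv2, hv3⟩ := gb_mem_Wg p h
    have h1 := cN_le_cW _ (level_of_ev_eq p hB le_rfl u v hv3.symm i)
    have h2 := mul_mem h1 (inv_mem (hv2 i))
    rw [mul_assoc, mul_inv_cancel, mul_one] at h2
    exact inv_mem_iff.1 h2
  · intro h
    refine Subgroup.subset_closure ⟨wmap (emb p hB) u, gb_isH_wmap p hB hu, ?_,
      gb_evB_emb p hB u⟩
    intro i
    rw [gb_kv_wmap]
    exact h i

theorem gam_resFin : ResFin (Gam p) := by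
  intro g hg
  have h : ∃ X : Adm p, gbHom p X g ≠ 1 := by
    by_contra hc
    push Not at hc
    exact hg (gb_ext p fun X => by rw [hc X, map_one])
  obtain ⟨X, hX⟩ := h
  refine ⟨(gbHom p X).ker, inferInstance, ?_, fun h => hX h⟩
  exact Subgroup.finiteIndex_ker (gbHom p X)

/-! ### computations in the level groups -/

end gamma

section kgcalc
variable {P : Par}

/-- an `a`-lamp -/
def gbA (P : Par) (x : ZMod P.l) (c : ZMod P.m) : KG P :=
  ⟨Pi.single x c, fun _ => 0, fun _ => 0, 0⟩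
/-- a `b`-lamp -/
def gbB (P : Par) (x : ZMod P.l) (c : ZMod P.m) : KG P :=
  ⟨fun _ => 0, Pi.single x c, fun _ => 0, 0⟩
/-- a translation -/
def gbT (P : Par) (n : ZMod P.l) : KG P := ⟨fun _ => 0, fun _ => 0, fun _ => 0, n⟩
/-- a central element -/
def gbC (P : Par) (h : ZMod P.D → ZMod P.m) : KG P := ⟨fun _ => 0, fun _ => 0, h, 0⟩

theorem gb_D_ne (P : Par) : (P.D : ZMod P.l) ≠ 0 := by
  intro h
  rw [ZMod.natCast_eq_zero_iff] at h
  have h1 := Nat.le_of_dvd P.hD h
  have h2 := P.h3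
  have h3 := P.hD
  omega

theorem gb_om_single (x y : ZMod P.l) (c c' : ZMod P.m) (z : ZMod P.D) :
    om P (Pi.single x c) (Pi.single y c') z =
      if red P x = z ∧ x - (P.D : ZMod P.l) = y then c * c' else 0 := by
  classical
  unfold om
  rw [Finset.sum_eq_single x]
  · by_cases h1 : red P x = z
    · by_cases h2 : x - (P.D : ZMod P.l) = y
      · rw [if_pos h1, if_pos ⟨h1, h2⟩, h2]
        simp
      · rw [if_pos h1, if_neg (fun h => h2 h.2), Pi.single_eq_of_ne h2]
        simp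
    · rw [if_neg h1, if_neg (fun h => h1 h.1)]
  · intro e _ he
    rw [Pi.single_eq_of_ne he]
    simp
  · intro h
    exact absurd (Finset.mem_univ _) h

theorem gb_AA (x : ZMod P.l) (c c' : ZMod P.m) : gbA P x c * gbA P x c' = gbA P x (c + c') := by
  ext e
  · simp only [KG.mul_f, gbA, sub_zero]
    rw [Pi.single_add]
    rfl
  · simp [KG.mul_g, gbA]
  · simp only [KG.mul_h, gbA]
    rw [KG.om_zero_right]
    simp
  · simp [gbA]

theorem gb_BB (x : ZMod P.l) (c c' : ZMod P.m) : gbB P x c * gbB P x c' = gbB P x (c + c') := by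
  ext e
  · simp [KG.mul_f, gbB]
  · simp only [KG.mul_g, gbB, sub_zero]
    rw [Pi.single_add]
    rfl
  · simp only [KG.mul_h, gbB]
    rw [KG.om_zero_left]
    simp
  · simp [gbB]

theorem gb_TT (n n' : ZMod P.l) : gbT P n * gbT P n' = gbT P (n + n') := by
  ext e
  · simp [KG.mul_f, gbT]
  · simp [KG.mul_g, gbT]
  · simp only [KG.mul_h, gbT]
    rw [KG.om_zero_left]
    simp
  · simp [gbT]

theorem gb_A_zero (x : ZMod P.l) : gbA P x 0 = 1 := by
  ext e
  · simp [gbA]
  · simp [gbA]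
  · simp [gbA]
  · simp [gbA]

theorem gb_B_zero (x : ZMod P.l) : gbB P x 0 = 1 := by
  ext e
  · simp [gbB]
  · simp [gbB]
  · simp [gbB]
  · simp [gbB]

theorem gb_T_zero : gbT P 0 = 1 := by
  ext e
  · simp [gbT]
  · simp [gbT]
  · simp [gbT]
  · simp [gbT]

theorem gb_A_inv (x : ZMod P.l) (c : ZMod P.m) : (gbA P x c)⁻¹ = gbA P x (-c) := by
  rw [inv_eq_iff_mul_eq_one, gb_AA, add_neg_cancel, gb_A_zero]

theorem gb_B_inv (x : ZMod P.l) (c : ZMod P.m) : (gbB P x c)⁻¹ = gbB P x (-c) := by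
  rw [inv_eq_iff_mul_eq_one, gb_BB, add_neg_cancel, gb_B_zero]

theorem gb_T_inv (n : ZMod P.l) : (gbT P n)⁻¹ = gbT P (-n) := by
  rw [inv_eq_iff_mul_eq_one, gb_TT, add_neg_cancel, gb_T_zero]

theorem gb_A_pow (x : ZMod P.l) (c : ZMod P.m) (k : ℕ) : (gbA P x c) ^ k = gbA P x (k * c) := by
  induction k with
  | zero => simp [gb_A_zero]
  | succ k ih =>
    rw [pow_succ, ih, gb_AA]
    congr 1
    push_cast
    ring

theorem gb_B_pow (x : ZMod P.l) (c : ZMod P.m) (k : ℕ) : (gbB P x c) ^ k = gbB P x (k * c) := by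
  induction k with
  | zero => simp [gb_B_zero]
  | succ k ih =>
    rw [pow_succ, ih, gb_BB]
    congr 1
    push_cast
    ring

theorem gb_T_pow (n : ZMod P.l) (k : ℕ) : (gbT P n) ^ k = gbT P (k * n) := by
  induction k with
  | zero => simp [gb_T_zero]
  | succ k ih =>
    rw [pow_succ, ih, gb_TT]
    congr 1
    push_cast
    ring

theorem gb_single_shift {Q : ℕ} {R : Type*} [Zero R] (x n : ZMod Q) (c : R) (e : ZMod Q) :
    (Pi.single x c : ZMod Q → R) (e - n) = (Pi.single (x + n) c : ZMod Q → R) e := by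
  classical
  by_cases h : e = x + n
  · subst h
    rw [add_sub_cancel_right, Pi.single_eq_same, Pi.single_eq_same]
  · rw [Pi.single_eq_of_ne h, Pi.single_eq_of_ne]
    intro h'
    exact h (by rw [← h']; ring)

theorem gb_TA (n x : ZMod P.l) (c : ZMod P.m) :
    gbT P n * gbA P x c = gbA P (x + n) c * gbT P n := by
  ext e
  · simp only [KG.mul_f, gbT, gbA]
    rw [gb_single_shift]
    simp
  · simp [KG.mul_g, gbT, gbA]
  · simp only [KG.mul_h, gbT, gbA]
    rw [KG.om_zero_left, KG.om_zero_right]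
  · simp [gbT, gbA]

theorem gb_TB (n x : ZMod P.l) (c : ZMod P.m) :
    gbT P n * gbB P x c = gbB P (x + n) c * gbT P n := by
  ext e
  · simp [KG.mul_f, gbT, gbB]
  · simp only [KG.mul_g, gbT, gbB]
    rw [gb_single_shift]
    simp
  · simp only [KG.mul_h, gbT, gbB]
    rw [KG.om_zero_left, KG.om_zero_left]
  · simp [gbT, gbB]

theorem gb_AB (x y : ZMod P.l) (c c' : ZMod P.m) :
    gbA P x c * gbB P y c' =
      gbC P (fun z => if red P x = z ∧ x - (P.D : ZMod P.l) = y then c * c' else 0) *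
        (gbB P y c' * gbA P x c) := by
  ext e
  · simp [KG.mul_f, gbA, gbB, gbC]
  · simp [KG.mul_g, gbA, gbB, gbC]
  · simp only [KG.mul_h, gbA, gbB, gbC, sub_zero, map_zero]
    rw [KG.om_zero_left, KG.om_zero_left, gb_om_single]
    ring
  · simp [gbA, gbB, gbC]

theorem gb_comm (x y : ZMod P.l) (c c' : ZMod P.m) :
    gbA P x c * gbB P y c' * (gbA P x c)⁻¹ * (gbB P y c')⁻¹ =
      gbC P (fun z => if red P x = z ∧ x - (P.D : ZMod P.l) = y then c * c' else 0) := by
  rw [gb_AB]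
  group

theorem gb_C_zero : gbC P (fun _ => 0) = 1 := rfl

theorem gb_kl (α β : ℤ) : kl P α β = gbA P 0 α * gbB P 0 β * gbT P 1 := by
  ext e
  · simp [KG.mul_f, kl, gbA, gbB, gbT]
  · simp [KG.mul_g, kl, gbA, gbB, gbT]
  · simp only [KG.mul_h, kl, gbA, gbB, gbT, sub_zero, map_zero]
    rw [gb_om_single, KG.om_zero_right, if_neg]
    · simp
    · rintro ⟨_, h⟩
      rw [zero_sub, neg_eq_zero] at h
      exact gb_D_ne P h
  · simp [kl, gbA, gbB, gbT]

theorem gb_kl00 : kl P 0 0 = gbT P 1 := by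
  rw [gb_kl]
  simp [gb_A_zero, gb_B_zero]

theorem gb_kl10 : kl P 1 0 = gbA P 0 1 * gbT P 1 := by
  rw [gb_kl]
  simp [gb_B_zero]

theorem gb_kl01 : kl P 0 1 = gbB P 0 1 * gbT P 1 := by
  rw [gb_kl]
  simp [gb_A_zero]

end kgcalc

section gamma2
variable (p : ℕ) [BP p]

/-! ### lamp letters as words over the small alphabet -/

theorem gb_two_le : 2 ≤ p := by
  have := BP.big (p := p)
  omega

theorem gb_wp_flatten {Λ G : Type*} [Group G] (f : Λ → G) (w : Wd Λ) (k : ℕ) :
    wp f (List.replicate k w).flatten = wp f w ^ k := by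
  induction k with
  | zero => simp
  | succ k ih => rw [List.replicate_succ, List.flatten_cons, wp_append, ih, pow_succ']

theorem gb_isH_flatten {A B : Type*} {w : Wd (A ⊕ B)} (hw : IsH w) (k : ℕ) :
    IsH (List.replicate k w).flatten := by
  intro s hs
  rw [List.mem_flatten] at hs
  obtain ⟨l, hl, hs⟩ := hs
  rw [List.mem_replicate] at hl
  rw [hl.2] at hs
  exact hw s hs

/-- the lamp letter `(α, β)` as a word over the small alphabet -/
def gbWord (α β : ℕ) : Wd (AL 2) :=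
  (List.replicate α [((Sum.inl (1, 0) : AL 2), true), (Sum.inl (0, 0), false)]).flatten ++
    ((List.replicate β [((Sum.inl (0, 1) : AL 2), true), (Sum.inl (0, 0), false)]).flatten ++
      [(Sum.inl (0, 0), true)])

theorem gb_isH_word (α β : ℕ) : IsH (gbWord α β) := by
  unfold gbWord
  refine gb_isH_append (gb_isH_flatten ?_ _) (gb_isH_append (gb_isH_flatten ?_ _) ?_)
  · intro s hs
    simp only [List.mem_cons, List.not_mem_nil, or_false] at hs
    rcases hs with rfl | rfl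
    · exact ⟨_, rfl⟩
    · exact ⟨_, rfl⟩
  · intro s hs
    simp only [List.mem_cons, List.not_mem_nil, or_false] at hs
    rcases hs with rfl | rfl
    · exact ⟨_, rfl⟩
    · exact ⟨_, rfl⟩
  · intro s hs
    simp only [List.mem_cons, List.not_mem_nil, or_false] at hs
    rw [hs]
    exact ⟨_, rfl⟩

theorem gb_kv_word (P : Par) (α β : ℕ) : wp (kv P 2) (gbWord α β) = kl P α β := by
  have e00 : kv P 2 (Sum.inl (0, 0)) = gbT P 1 := by
    rw [← gb_kl00]
    rfl
  have e10 : kv P 2 (Sum.inl (1, 0)) = gbA P 0 1 * gbT P 1 := by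
    rw [← gb_kl10]
    rfl
  have e01 : kv P 2 (Sum.inl (0, 1)) = gbB P 0 1 * gbT P 1 := by
    rw [← gb_kl01]
    rfl
  unfold gbWord
  rw [wp_append, wp_append, gb_wp_flatten, gb_wp_flatten]
  simp only [wp_cons, wp_nil, lv_true, lv_false, e00, e10, e01, mul_one, mul_inv_cancel_right]
  rw [gb_A_pow, gb_B_pow, gb_kl]
  simp [mul_assoc]

theorem gb_letter (a : Fin 2 × Fin p) :
    ∃ u : Wd (AL 2), IsH u ∧ (∀ P : Par, wp (kv P 2) u = kv P p (Sum.inl a)) ∧
      wp (evB p (gb_two_le p)) u = evB p le_rfl (Sum.inl a) := by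
  refine ⟨gbWord a.1 a.2, gb_isH_word _ _, ?_, ?_⟩
  · intro P
    rw [gb_kv_word]
    rfl
  · set v : Wd (AL p) := [(Sum.inl a, false)] ++ wmap (emb p (gb_two_le p)) (gbWord a.1 a.2)
      with hv
    have h1 : IsH v := by
      refine gb_isH_append ?_ (gb_isH_wmap p _ (gb_isH_word _ _))
      intro s hs
      simp only [List.mem_cons, List.not_mem_nil, or_false] at hs
      rw [hs]
      exact ⟨_, rfl⟩
    have h2 : TrivN p v := by
      intro i
      rw [hv, wp_append, gb_kv_wmap, gb_kv_word]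
      have e : wp (kv (lev p i) p) [((Sum.inl a : AL p), false)] = (kl (lev p i) a.1 a.2)⁻¹ := by
        simp only [wp_cons, wp_nil, lv_false, mul_one]
        rfl
      rw [e, inv_mul_cancel]
      exact one_mem _
    have h3 := ev_eq_one p le_rfl v h1 h2
    rw [hv, wp_append, gb_evB_emb] at h3
    simp only [wp_cons, wp_nil, lv_false, mul_one] at h3
    exact (eq_of_inv_mul_eq_one h3).symm

theorem gb_lower (u : Wd (AL p)) (hu : IsH u) :
    ∃ u' : Wd (AL 2), IsH u' ∧ (∀ P : Par, wp (kv P 2) u' = wp (kv P p) u) ∧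
      wp (evB p (gb_two_le p)) u' = wp (evB p le_rfl) u := by
  induction u with
  | nil => exact ⟨[], by intro s hs; simp at hs, fun P => rfl, rfl⟩
  | cons s u ih =>
    obtain ⟨u', h1, h2, h3⟩ := ih (fun t ht => hu t (List.mem_cons_of_mem _ ht))
    obtain ⟨a, ha⟩ := hu s (List.mem_cons_self)
    obtain ⟨w, w1, w2, w3⟩ := gb_letter p a
    obtain ⟨x, ε⟩ := s
    simp only at ha
    subst ha
    cases ε with
    | true =>
      refine ⟨w ++ u', gb_isH_append w1 h1, ?_, ?_⟩
      · intro P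
        rw [wp_append, wp_cons, w2, h2, lv_true]
      · rw [wp_append, wp_cons, w3, h3, lv_true]
    | false =>
      refine ⟨winv w ++ u', gb_isH_append (gb_isH_winv w1) h1, ?_, ?_⟩
      · intro P
        rw [wp_append, wp_winv, wp_cons, w2, h2, lv_false]
      · rw [wp_append, wp_winv, wp_cons, w3, h3, lv_false]

theorem mem_Wg_word {x : Gam p} (hx : x ∈ Wg p) :
    ∃ u : Wd (AL 2), IsH u ∧ InW p u ∧
      wp (evB p (by have := BP.big (p := p); omega)) u = x := by
  obtain ⟨u, h1, h2, h3⟩ := gb_mem_Wg p hx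
  obtain ⟨u', k1, k2, k3⟩ := gb_lower p u h1
  refine ⟨u', k1, ?_, by rw [← h3, ← k3]⟩
  intro i
  rw [k2]
  exact h2 i

theorem gb_closure_ev : Subgroup.closure (Set.range (evB p le_rfl)) = ⊤ := by
  rw [eq_top_iff, ← Subgroup.closure_closure_coe_preimage (k := Set.range (etop p)),
    Subgroup.closure_le]
  rintro x ⟨a, ha⟩
  refine Subgroup.subset_closure ⟨a, ?_⟩
  apply Subtype.ext
  rw [← ha]
  show etop p (emb p le_rfl a) = etop p a
  congr 1
  rcases a with ⟨α, β⟩ | i
  · rfl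
  · rfl

theorem Wg_central (w : Gam p) (hw : w ∈ Wg p) (x : Gam p) : Commute w x := by
  obtain ⟨u, h1, h2, rfl⟩ := gb_mem_Wg p hw
  have hx : x ∈ Subgroup.closure (Set.range (evB p le_rfl)) := by
    rw [gb_closure_ev]
    exact Subgroup.mem_top x
  refine Subgroup.closure_induction (p := fun x _ => Commute (wp (evB p le_rfl) u) x)
    ?_ ?_ ?_ ?_ hx
  · rintro _ ⟨a, rfl⟩
    rcases a with a | i
    · set v : Wd (AL p) := u ++ [(Sum.inl a, true)] ++ winv u ++ [(Sum.inl a, false)] with hv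
      have k1 : IsH v := by
        refine gb_isH_append (gb_isH_append (gb_isH_append h1 ?_) (gb_isH_winv h1)) ?_
        · intro s hs
          simp only [List.mem_cons, List.not_mem_nil, or_false] at hs
          rw [hs]
          exact ⟨_, rfl⟩
        · intro s hs
          simp only [List.mem_cons, List.not_mem_nil, or_false] at hs
          rw [hs]
          exact ⟨_, rfl⟩
      have k2 : TrivN p v := by
        intro j
        rw [hv]
        simp only [wp_append, wp_winv, wp_cons, wp_nil, lv_true, lv_false, mul_one]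
        rw [cW_central (h2 j) (kv (lev p j) p (Sum.inl a)), mul_inv_cancel_right, mul_inv_cancel]
        exact one_mem _
      have k3 := ev_eq_one p le_rfl v k1 k2
      rw [hv] at k3
      simp only [wp_append, wp_winv, wp_cons, wp_nil, lv_true, lv_false, mul_one] at k3
      rw [mul_inv_eq_one, mul_inv_eq_iff_eq_mul] at k3
      exact k3
    · apply gb_ext
      intro X
      rw [map_mul, map_mul, gb_eval]
      have e : gbHom p X (evB p le_rfl (Sum.inr i)) = X.ρ (Sum.inr i) := rfl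
      rw [e, ← gb_rho_wmap]
      refine X.h2 _ (gb_isH_wmap p _ h1) ?_ i
      intro j
      rw [gb_kv_wmap]
      exact h2 j
  · exact Commute.one_right _
  · intro x y _ _ hx hy
    exact hx.mul_right hy
  · intro x _ hx
    exact hx.inv_right

theorem gb_wp_mem {Λ G : Type*} [Group G] (f : Λ → G) (u : Wd Λ) :
    wp f u ∈ Subgroup.closure (Set.range f) := by
  induction u with
  | nil => exact one_mem _
  | cons s u ih =>
    rw [wp_cons]
    refine mul_mem ?_ ih
    obtain ⟨a, ε⟩ := s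
    cases ε
    · exact inv_mem (Subgroup.subset_closure ⟨a, rfl⟩)
    · exact Subgroup.subset_closure ⟨a, rfl⟩

theorem gam_gen {B : ℕ} (h2 : 2 ≤ B) (hB : B ≤ p) :
    Subgroup.closure (Set.range (evB p hB)) = ⊤ := by
  rw [eq_top_iff, ← gb_closure_ev, Subgroup.closure_le]
  rintro _ ⟨a, rfl⟩
  rcases a with a | i
  · obtain ⟨u, _, _, h3⟩ := gb_letter p a
    rw [← h3]
    have h4 := gb_wp_mem (evB p (gb_two_le p)) u
    refine Subgroup.closure_mono ?_ h4
    rintro _ ⟨b, rfl⟩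
    rcases b with ⟨α, β⟩ | j
    · exact ⟨Sum.inl (α, Fin.castLE h2 β), rfl⟩
    · exact ⟨Sum.inr j, rfl⟩
  · exact Subgroup.subset_closure ⟨Sum.inr i, rfl⟩

/-! ### parity -/

/-- the sum of the signs of a word -/
def gbSum {Λ : Type*} (u : Wd Λ) : ℤ := (u.map fun s => if s.2 then (1 : ℤ) else -1).sum

theorem gb_sum_cons {Λ : Type*} (s : Λ × Bool) (u : Wd Λ) :
    gbSum (s :: u) = (if s.2 then (1 : ℤ) else -1) + gbSum u := by
  simp [gbSum]

theorem gb_sum_abs {Λ : Type*} (u : Wd Λ) : |gbSum u| ≤ u.length := by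
  induction u with
  | nil => simp [gbSum]
  | cons s u ih =>
    rw [gb_sum_cons, List.length_cons]
    rw [abs_le] at ih ⊢
    push_cast
    split_ifs <;> constructor <;> linarith [ih.1, ih.2]

theorem gb_sum_parity {Λ : Type*} (u : Wd Λ) : ∃ k : ℤ, (u.length : ℤ) = gbSum u + 2 * k := by
  induction u with
  | nil => exact ⟨0, by simp [gbSum]⟩
  | cons s u ih =>
    obtain ⟨k, hk⟩ := ih
    rw [gb_sum_cons, List.length_cons]
    split_ifs
    · exact ⟨k, by push_cast; linarith⟩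
    · exact ⟨k + 1, by push_cast; linarith⟩

theorem gb_n_eq (P : Par) {B : ℕ} (u : Wd (AL B)) (hu : IsH u) :
    (wp (kv P B) u).n = ((gbSum u : ℤ) : ZMod P.l) := by
  induction u with
  | nil => simp [gbSum]
  | cons s u ih =>
    obtain ⟨a, ha⟩ := hu s (List.mem_cons_self)
    obtain ⟨x, ε⟩ := s
    simp only at ha
    subst ha
    rw [wp_cons, KG.mul_n, gb_sum_cons, ih (fun t ht => hu t (List.mem_cons_of_mem _ ht))]
    have e : (kv P B (Sum.inl a)).n = 1 := rfl
    cases ε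
    · simp [e]
    · simp [e]

theorem gb_le_dd (n : ℕ) : n ≤ dd n := by
  induction n with
  | zero => exact Nat.zero_le _
  | succ n ih =>
    show n + 1 ≤ 3 * dd n + 4
    omega

theorem gb_lt_l (n : ℕ) : n < (lev p n).l := by
  show n < p ^ (dd n + 1)
  have h1 : n < p ^ n := Nat.lt_pow_self (by have := gb_two_le p; omega)
  exact lt_of_lt_of_le h1 (Nat.pow_le_pow_right (by have := gb_two_le p; omega)
    (by have := gb_le_dd n; omega))

theorem gb_sum_zero {B : ℕ} {u : Wd (AL B)} (hu : IsH u) (h : TrivN p u) : gbSum u = 0 := by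
  have h1 := h u.length
  have h2 : (wp (kv (lev p u.length) B) u).n = 0 := h1.2.2.1
  rw [gb_n_eq _ _ hu, ZMod.intCast_zmod_eq_zero_iff_dvd] at h2
  have h3 := gb_sum_abs u
  have h4 := gb_lt_l p u.length
  refine Int.eq_zero_of_abs_lt_dvd h2 ?_
  have h5 : (u.length : ℤ) < ((lev p u.length).l : ℤ) := by exact_mod_cast h4
  linarith

theorem gb_swap_wp {Λ : Type*} (u : Wd Λ) :
    wp (fun _ : Λ => (Equiv.swap 0 1 : Equiv.Perm (Fin 2))) u =
      (Equiv.swap 0 1 : Equiv.Perm (Fin 2)) ^ u.length := by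
  induction u with
  | nil => rfl
  | cons s u ih =>
    rw [wp_cons, ih, List.length_cons, pow_succ']
    obtain ⟨a, ε⟩ := s
    cases ε
    · rw [lv_false, Equiv.swap_inv]
    · rw [lv_true]

/-- permutations of two points -/
def gbPar : Equiv.Perm (Fin 2) →* Multiplicative (ZMod 2) where
  toFun g := Multiplicative.ofAdd (g 0 : ZMod 2)
  map_one' := rfl
  map_mul' := by decide

theorem gam_parity : ∃ π : Gam p →* Multiplicative (ZMod 2),
    ∀ {B : ℕ} (hB : B ≤ p) (a : AL B), π (evB p hB a) = Multiplicative.ofAdd 1 := by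
  set X : Adm p := ⟨2, fun _ => Equiv.swap 0 1, by
    intro u hu hT
    have h0 := gb_sum_zero p hu hT
    obtain ⟨k, hk⟩ := gb_sum_parity u
    rw [h0, zero_add] at hk
    rw [gb_swap_wp]
    obtain ⟨m, hm⟩ : ∃ m : ℕ, u.length = 2 * m := ⟨u.length / 2, by omega⟩
    rw [hm, pow_mul]
    have : (Equiv.swap 0 1 : Equiv.Perm (Fin 2)) ^ 2 = 1 := by decide
    rw [this, one_pow], by
    intro u _ _ i
    rw [gb_swap_wp]
    exact (Commute.refl _).pow_left _⟩ with hX
  refine ⟨gbPar.comp (gbHom p X), ?_⟩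
  intro B hB a
  rfl

/-! ### injectivity on letters -/

theorem gb_lev_l (i : ℕ) : 3 ≤ (lev p i).l := by
  have h1 := (lev p i).h3
  have h2 := (lev p i).hD
  omega

theorem gb_lev_m (i : ℕ) : p ≤ (lev p i).m := by
  show p ≤ p ^ (2 * dd i + 3)
  exact Nat.le_self_pow (by omega) p

theorem gb_lv_n (P : Par) {B : ℕ} (a : Fin 2 × Fin B) (ε : Bool) :
    (lv (kv P B) (Sum.inl a, ε)).n = if ε then 1 else -1 := by
  cases ε
  · rw [lv_false, KG.inv_n]
    rfl
  · rw [lv_true]
    rfl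

theorem gb_lv_n' (P : Par) {B : ℕ} (j : Fin 2) (ε : Bool) :
    (lv (kv P B) (Sum.inr j, ε)).n = 0 := by
  cases ε
  · rw [lv_false, KG.inv_n]
    have : kv P B (Sum.inr j) = 1 := rfl
    rw [this]
    simp
  · rw [lv_true]
    rfl

theorem gb_one_ne {Q : ℕ} (h : 3 ≤ Q) : (1 : ZMod Q) ≠ 0 ∧ (-1 : ZMod Q) ≠ 0 ∧
    (1 : ZMod Q) ≠ -1 := by
  have h1 : (1 : ZMod Q) ≠ 0 := by
    intro h0
    have : ((1 : ℕ) : ZMod Q) = 0 := by exact_mod_cast h0
    rw [ZMod.natCast_eq_zero_iff] at this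
    have := Nat.le_of_dvd one_pos this
    omega
  refine ⟨h1, neg_ne_zero.2 h1, ?_⟩
  intro h0
  have h2 : ((2 : ℕ) : ZMod Q) = 0 := by
    have : (1 : ZMod Q) + 1 = 0 := by
      nth_rewrite 1 [h0]
      ring
    push_cast
    rw [← this]
    ring
  rw [ZMod.natCast_eq_zero_iff] at h2
  have := Nat.le_of_dvd two_pos h2
  omega

/-- the action of the free letters on five points -/
def gbFive : AL p → Equiv.Perm (ZMod 5)
  | Sum.inl _ => 1
  | Sum.inr i => Equiv.addRight ((i : ℕ) + 1 : ZMod 5)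

theorem gb_five_H (u : Wd (AL p)) (hu : IsH u) : wp (gbFive p) u = 1 := by
  induction u with
  | nil => rfl
  | cons s u ih =>
    obtain ⟨a, ha⟩ := hu s (List.mem_cons_self)
    obtain ⟨x, ε⟩ := s
    simp only at ha
    subst ha
    rw [wp_cons, ih (fun t ht => hu t (List.mem_cons_of_mem _ ht)), mul_one]
    cases ε
    · rw [lv_false]
      exact inv_one
    · rw [lv_true]
      rfl

theorem gb_five_inj : ∀ (i j : Fin 2) (ε ε' : Bool),
    (if ε then ((i : ℕ) + 1 : ZMod 5) else -((i : ℕ) + 1 : ZMod 5)) =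
      (if ε' then ((j : ℕ) + 1 : ZMod 5) else -((j : ℕ) + 1 : ZMod 5)) → i = j ∧ ε = ε' := by
  decide

theorem gb_five_val (i : Fin 2) (ε : Bool) : lv (gbFive p) (Sum.inr i, ε) 0 =
    if ε then ((i : ℕ) + 1 : ZMod 5) else -((i : ℕ) + 1 : ZMod 5) := by
  cases ε
  · rw [lv_false]
    simp [gbFive]
  · rw [lv_true]
    simp [gbFive]

theorem gam_inj {B : ℕ} (hB : B ≤ p) : Function.Injective (lv (evB p hB)) := by
  rintro ⟨a, ε⟩ ⟨a', ε'⟩ h
  have h0 : wp (evB p hB) [(a, ε)] = wp (evB p hB) [(a', ε')] := by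
    rw [wp_cons, wp_cons, wp_nil, mul_one, mul_one]
    exact h
  have h1 := level_of_ev_eq p hB hB _ _ h0 0
  rw [wp_cons, wp_cons, wp_nil, mul_one, mul_one] at h1
  obtain ⟨hf, hg, hn, _⟩ := h1
  set P := lev p 0 with hP
  set x := lv (kv P B) (a, ε) with hx
  set y := lv (kv P B) (a', ε') with hy
  have hyx : y = x * (x⁻¹ * y) := by group
  have hf' : ∀ e, y.f e = x.f e := by
    intro e
    rw [hyx, KG.mul_f, hf]
    simp
  have hg' : ∀ e, y.g e = x.g e := by
    intro e
    rw [hyx, KG.mul_g, hg]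
    simp
  have hn' : y.n = x.n := by
    rw [hyx, KG.mul_n, hn]
    simp
  obtain ⟨e1, e2, e3⟩ := gb_one_ne (gb_lev_l p 0)
  rcases a with a | i
  · rcases a' with a' | i'
    · rw [hx, hy, gb_lv_n, gb_lv_n] at hn'
      have hε : ε = ε' := by
        cases ε <;> cases ε'
        · rfl
        · exact absurd hn' e3
        · exact absurd hn'.symm e3
        · rfl
      subst hε
      have key : ((a.1 : ℕ) : ZMod P.m) = ((a'.1 : ℕ) : ZMod P.m) ∧
          ((a.2 : ℕ) : ZMod P.m) = ((a'.2 : ℕ) : ZMod P.m) := by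
        cases ε
        · have k1 := hf' (-1)
          have k2 := hg' (-1)
          rw [hx, hy, lv_false, lv_false, KG.inv_f, KG.inv_f, neg_inj] at k1
          rw [hx, hy, lv_false, lv_false, KG.inv_g, KG.inv_g, neg_inj] at k2
          have n1 : ∀ b : Fin 2 × Fin B, (-1 : ZMod P.l) + (kv P B (Sum.inl b)).n = 0 := by
            intro b
            show (-1 : ZMod P.l) + 1 = 0
            ring
          rw [n1, n1] at k1 k2
          have c1 : ∀ b : Fin 2 × Fin B, (kv P B (Sum.inl b)).f 0 = ((b.1 : ℕ) : ZMod P.m) := by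
            intro b
            show (Pi.single 0 (((b.1 : ℕ) : ℤ) : ZMod P.m) : ZMod P.l → ZMod P.m) 0 = _
            rw [Pi.single_eq_same]
            push_cast
            rfl
          have c2 : ∀ b : Fin 2 × Fin B, (kv P B (Sum.inl b)).g 0 = ((b.2 : ℕ) : ZMod P.m) := by
            intro b
            show (Pi.single 0 (((b.2 : ℕ) : ℤ) : ZMod P.m) : ZMod P.l → ZMod P.m) 0 = _
            rw [Pi.single_eq_same]
            push_cast
            rfl
          rw [c1, c1] at k1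
          rw [c2, c2] at k2
          exact ⟨k1.symm, k2.symm⟩
        · have k1 := hf' 0
          have k2 := hg' 0
          rw [hx, hy, lv_true, lv_true] at k1 k2
          have c1 : ∀ b : Fin 2 × Fin B, (kv P B (Sum.inl b)).f 0 = ((b.1 : ℕ) : ZMod P.m) := by
            intro b
            show (Pi.single 0 (((b.1 : ℕ) : ℤ) : ZMod P.m) : ZMod P.l → ZMod P.m) 0 = _
            rw [Pi.single_eq_same]
            push_cast
            rfl
          have c2 : ∀ b : Fin 2 × Fin B, (kv P B (Sum.inl b)).g 0 = ((b.2 : ℕ) : ZMod P.m) := by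
            intro b
            show (Pi.single 0 (((b.2 : ℕ) : ℤ) : ZMod P.m) : ZMod P.l → ZMod P.m) 0 = _
            rw [Pi.single_eq_same]
            push_cast
            rfl
          rw [c1, c1] at k1
          rw [c2, c2] at k2
          exact ⟨k1.symm, k2.symm⟩
      have hm := gb_lev_m p 0
      have hm2 := gb_two_le p
      obtain ⟨k1, k2⟩ := key
      rw [ZMod.natCast_eq_natCast_iff', Nat.mod_eq_of_lt, Nat.mod_eq_of_lt] at k1 k2
      · have q1 : a.1 = a'.1 := Fin.ext k1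
        have q2 : a.2 = a'.2 := Fin.ext k2
        rw [Prod.ext q1 q2]
      all_goals first
        | exact lt_of_lt_of_le a'.2.2 (hB.trans hm)
        | exact lt_of_lt_of_le a.2.2 (hB.trans hm)
        | exact lt_of_lt_of_le a'.1.2 (hm2.trans hm)
        | exact lt_of_lt_of_le a.1.2 (hm2.trans hm)
    · exfalso
      rw [hx, hy, gb_lv_n, gb_lv_n'] at hn'
      cases ε
      · exact e2 hn'.symm
      · exact e1 hn'.symm
  · rcases a' with a' | i'
    · exfalso
      rw [hx, hy, gb_lv_n, gb_lv_n'] at hn'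
      cases ε'
      · exact e2 hn'
      · exact e1 hn'
    · have h3 := adm_use p (gbFive p) (fun u hu _ => gb_five_H p u hu)
        (fun u hu _ i => by
          rw [gb_five_H p u hu]
          exact Commute.one_left _) hB hB _ _ h0
      rw [wp_cons, wp_cons, wp_nil, mul_one, mul_one] at h3
      have h4 : lv (gbFive p) (Sum.inr i, ε) = lv (gbFive p) (Sum.inr i', ε') := h3
      have h5 := congrArg (fun q : Equiv.Perm (ZMod 5) => q 0) h4
      simp only [gb_five_val] at h5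
      obtain ⟨r1, r2⟩ := gb_five_inj i i' ε ε' h5
      rw [r1, r2]

/-! ### asymmetry -/

theorem gb_lv_flip {Λ G : Type*} [Group G] (f : Λ → G) (s : Λ × Bool) :
    lv f (s.1, !s.2) = lv (fun a => (f a)⁻¹) s := by
  obtain ⟨a, ε⟩ := s
  cases ε
  · simp
  · simp

theorem gb_wp_flip {Λ G : Type*} [Group G] (f : Λ → G) (u : Wd Λ) :
    wp f (wflip u) = wp (fun a => (f a)⁻¹) u := by
  induction u with
  | nil => rfl
  | cons s u ih =>
    have : wflip (s :: u) = (s.1, !s.2) :: wflip u := rfl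
    rw [this, wp_cons, ih, wp_cons, gb_lv_flip]

theorem gb_wp_rep {Λ G : Type*} [Group G] (f : Λ → G) (s : Λ × Bool) (k : ℕ) :
    wp f (List.replicate k s) = lv f s ^ k := by
  induction k with
  | zero => simp
  | succ k ih => rw [List.replicate_succ, wp_cons, ih, pow_succ']

/-- the first word -/
def gbWa {B : ℕ} (h2 : 2 ≤ B) (D : ℕ) : Wd (AL B) :=
  List.replicate D (Sum.inl (0, ⟨0, by omega⟩), true) ++
    ([(Sum.inl (1, ⟨0, by omega⟩), true), (Sum.inl (0, ⟨0, by omega⟩), false)] ++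
      List.replicate D (Sum.inl (0, ⟨0, by omega⟩), false))

/-- the second word -/
def gbWb {B : ℕ} (h2 : 2 ≤ B) : Wd (AL B) :=
  [(Sum.inl (0, ⟨1, by omega⟩), true), (Sum.inl (0, ⟨0, by omega⟩), false)]

/-- the commutator -/
def gbU {B : ℕ} (h2 : 2 ≤ B) (D : ℕ) : Wd (AL B) :=
  gbWa h2 D ++ gbWb h2 ++ winv (gbWa h2 D) ++ winv (gbWb h2)

theorem gb_isH_rep {A B : Type*} (a : A) (ε : Bool) (k : ℕ) :
    IsH (List.replicate k ((Sum.inl a : A ⊕ B), ε)) := by
  intro s hs
  rw [List.mem_replicate] at hs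
  rw [hs.2]
  exact ⟨a, rfl⟩

theorem gb_isH_pair {A B : Type*} (a a' : A) (ε ε' : Bool) :
    IsH [((Sum.inl a : A ⊕ B), ε), (Sum.inl a', ε')] := by
  intro s hs
  simp only [List.mem_cons, List.not_mem_nil, or_false] at hs
  rcases hs with rfl | rfl
  · exact ⟨_, rfl⟩
  · exact ⟨_, rfl⟩

theorem gb_isH_U {B : ℕ} (h2 : 2 ≤ B) (D : ℕ) : IsH (gbU h2 D) := by
  have ha : IsH (gbWa h2 D) :=
    gb_isH_append (gb_isH_rep _ _ _) (gb_isH_append (gb_isH_pair _ _ _ _) (gb_isH_rep _ _ _))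
  have hb : IsH (gbWb h2) := gb_isH_pair _ _ _ _
  exact gb_isH_append (gb_isH_append (gb_isH_append ha hb) (gb_isH_winv ha)) (gb_isH_winv hb)

theorem gb_isH_flip {A B : Type*} {u : Wd (A ⊕ B)} (hu : IsH u) : IsH (wflip u) := by
  intro s hs
  unfold wflip at hs
  rw [List.mem_map] at hs
  obtain ⟨t, ht, rfl⟩ := hs
  exact hu t ht

theorem gb_val_a (P : Par) {B : ℕ} (h2 : 2 ≤ B) (D : ℕ) :
    wp (kv P B) (gbWa h2 D) = gbA P (D : ZMod P.l) 1 := by
  have e00 : kv P B (Sum.inl (0, ⟨0, by omega⟩)) = gbT P 1 := by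
    rw [← gb_kl00]
    rfl
  have e10 : kv P B (Sum.inl (1, ⟨0, by omega⟩)) = gbA P 0 1 * gbT P 1 := by
    rw [← gb_kl10]
    rfl
  unfold gbWa
  rw [wp_append, wp_append, gb_wp_rep, gb_wp_rep]
  simp only [wp_cons, wp_nil, lv_true, lv_false, e00, e10, mul_one, mul_inv_cancel_right]
  rw [gb_T_pow, gb_T_inv, gb_T_pow, ← mul_assoc, gb_TA, mul_assoc, gb_TT]
  simp [gb_T_zero]

theorem gb_val_b (P : Par) {B : ℕ} (h2 : 2 ≤ B) :
    wp (kv P B) (gbWb h2) = gbB P 0 1 := by
  have e00 : kv P B (Sum.inl (0, ⟨0, by omega⟩)) = gbT P 1 := by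
    rw [← gb_kl00]
    rfl
  have e01 : kv P B (Sum.inl (0, ⟨1, by omega⟩)) = gbB P 0 1 * gbT P 1 := by
    rw [← gb_kl01]
    rfl
  unfold gbWb
  simp only [wp_cons, wp_nil, lv_true, lv_false, e00, e01, mul_one, mul_inv_cancel_right]

theorem gb_val_a' (P : Par) {B : ℕ} (h2 : 2 ≤ B) (D : ℕ) :
    wp (fun a => (kv P B a)⁻¹) (gbWa h2 D) = gbA P (-1 - (D : ZMod P.l)) (-1) := by
  have e00 : kv P B (Sum.inl (0, ⟨0, by omega⟩)) = gbT P 1 := by
    rw [← gb_kl00]
    rfl
  have e10 : kv P B (Sum.inl (1, ⟨0, by omega⟩)) = gbA P 0 1 * gbT P 1 := by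
    rw [← gb_kl10]
    rfl
  unfold gbWa
  rw [wp_append, wp_append, gb_wp_rep, gb_wp_rep]
  simp only [wp_cons, wp_nil, lv_true, lv_false, e00, e10, mul_one, inv_inv, mul_inv_rev]
  rw [gb_T_inv, gb_A_inv, gb_T_pow, gb_T_pow, gb_TA]
  have e : gbA P (0 + -1) (-1) * gbT P (-1) * gbT P 1 = gbA P (-1) (-1) := by
    rw [mul_assoc, gb_TT, neg_add_cancel, gb_T_zero, mul_one, zero_add]
  rw [e, ← mul_assoc, gb_TA, mul_assoc, gb_TT]
  have e' : ((D : ZMod P.l) * -1 + (D : ZMod P.l) * 1) = 0 := by ring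
  rw [e', gb_T_zero, mul_one]
  congr 1
  ring

theorem gb_val_b' (P : Par) {B : ℕ} (h2 : 2 ≤ B) :
    wp (fun a => (kv P B a)⁻¹) (gbWb h2) = gbB P (-1) (-1) := by
  have e00 : kv P B (Sum.inl (0, ⟨0, by omega⟩)) = gbT P 1 := by
    rw [← gb_kl00]
    rfl
  have e01 : kv P B (Sum.inl (0, ⟨1, by omega⟩)) = gbB P 0 1 * gbT P 1 := by
    rw [← gb_kl01]
    rfl
  unfold gbWb
  simp only [wp_cons, wp_nil, lv_true, lv_false, e00, e01, mul_one, inv_inv, mul_inv_rev]
  rw [gb_T_inv, gb_B_inv, gb_TB, mul_assoc, gb_TT, neg_add_cancel, gb_T_zero, mul_one, zero_add]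

theorem gb_p_le_D (i : ℕ) : p ≤ (lev p i).D := by
  show p ≤ p ^ dd i
  refine Nat.le_self_pow ?_ p
  cases i with
  | zero => exact one_ne_zero
  | succ i =>
    show 3 * dd i + 4 ≠ 0
    omega

theorem gam_asym {B : ℕ} (h2 : 2 ≤ B) (hB : B ≤ p) :
    ∃ u : Wd (AL B), wp (evB p hB) u ≠ 1 ∧ wp (evB p hB) (wflip u) = 1 := by
  have hp := gb_two_le p
  have hD0 : (lev p 0).D = p := by
    show p ^ 1 = p
    exact pow_one p
  refine ⟨gbU h2 p, ?_, ?_⟩
  · intro h
    have h0 : wp (evB p hB) ([] : Wd (AL B)) = wp (evB p hB) (gbU h2 p) := by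
      rw [h]
      rfl
    have h1 := level_of_ev_eq p hB hB _ _ h0 0
    rw [wp_nil, inv_one, one_mul] at h1
    unfold gbU at h1
    rw [wp_append, wp_append, wp_append, wp_winv, wp_winv, gb_val_a, gb_val_b, gb_comm] at h1
    obtain ⟨-, -, -, c, hc⟩ := h1
    have c0 := hc 0
    have c1 := hc 1
    have hred : red (lev p 0) ((p : ℕ) : ZMod (lev p 0).l) = 0 := by
      rw [map_natCast, ZMod.natCast_eq_zero_iff, hD0]
    have hne : (0 : ZMod (lev p 0).D) ≠ 1 := by
      intro h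
      have h' : ((1 : ℕ) : ZMod (lev p 0).D) = 0 := by
        push_cast
        exact h.symm
      rw [ZMod.natCast_eq_zero_iff, hD0] at h'
      have := Nat.le_of_dvd one_pos h'
      omega
    simp only [gbC] at c0 c1
    rw [if_pos ⟨hred, by rw [hD0, sub_self]⟩] at c0
    rw [if_neg (by rintro ⟨h, _⟩; exact hne (hred.symm.trans h))] at c1
    rw [← c1] at c0
    have h' : ((1 : ℕ) : ZMod (lev p 0).m) = 0 := by
      push_cast
      rw [mul_one] at c0
      exact c0
    rw [ZMod.natCast_eq_zero_iff] at h'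
    have := Nat.le_of_dvd one_pos h'
    have := gb_lev_m p 0
    omega
  · refine ev_eq_one p hB _ (gb_isH_flip (gb_isH_U h2 p)) ?_
    intro i
    rw [gb_wp_flip]
    unfold gbU
    rw [wp_append, wp_append, wp_append, wp_winv, wp_winv, gb_val_a', gb_val_b', gb_comm]
    have hne : (-1 - (p : ZMod (lev p i).l)) - ((lev p i).D : ZMod (lev p i).l) ≠ -1 := by
      intro h
      have h' : ((p + (lev p i).D : ℕ) : ZMod (lev p i).l) = 0 := by
        push_cast
        linear_combination -h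
      rw [ZMod.natCast_eq_zero_iff] at h'
      have k1 := Nat.le_of_dvd (by omega) h'
      have k2 := gb_p_le_D p i
      have k3 := (lev p i).h3
      omega
    have e : (fun z => if red (lev p i) (-1 - (p : ZMod (lev p i).l)) = z ∧
        (-1 - (p : ZMod (lev p i).l)) - ((lev p i).D : ZMod (lev p i).l) = -1 then
          (-1 : ZMod (lev p i).m) * -1 else 0) = fun _ => 0 := by
      funext z
      rw [if_neg (fun h => hne h.2)]
    rw [e, gb_C_zero]
    exact one_mem _

end gamma2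

end Pool.Agent.Helper55.LF
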