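import Mathlib
import Pool.Agent.Helper55.LF.Defs

/-! Short gaps and the criterion for good structures. -/

namespace Pool.Agent.Helper55.LF

theorem short_gap' {A B X : Type*} (σ : A ⊕ B → Equiv.Perm X) (r : ℕ) (h : NoLin σ (2 * r + 1))
    (v : Wd (A ⊕ B)) (hv : v.length ≤ 2 * r + 1) (hH : ¬ IsH v) (x : X) (hx : wp σ v x = x) :
    ∃ (v₁ v₂ g w a : Wd (A ⊕ B)) (b : B) (ε : Bool), v = v₁ ++ v₂ ∧
      v₂ ++ v₁ = (Sum.inr b, ε) :: (g ++ (Sum.inr b, !ε) :: w) ∧ IsH g ∧ g.length + 1 ≤ r ∧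
      wp σ g (wp σ a x) = wp σ a x := by
  obtain ⟨v₁, g, v₂, b, ε, hveq, hg, hcl⟩ := h v hv hH x hx
  by_cases hlen : g.length + 1 ≤ r
  · exact ⟨v₁, (Sum.inr b, ε) :: (g ++ (Sum.inr b, !ε) :: v₂), g, v₂ ++ v₁,
      (Sum.inr b, !ε) :: v₂, b, ε, hveq, by simp, hg, hlen, hcl⟩
  · have hl : v.length = v₁.length + (g.length + v₂.length + 2) := by
      rw [hveq]; simp; omega
    have hylen : (v₂ ++ v₁).length + 1 ≤ r := by
      rw [List.length_append]; omega
    -- the rest is closed at `z = v₂ x`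
    have hz : wp σ ((Sum.inr b, ε) :: (g ++ (Sum.inr b, !ε) :: v₂)) x = wp σ v₂ x := by
      rw [wp_cons, wp_append, Equiv.Perm.mul_apply, Equiv.Perm.mul_apply, hcl, wp_cons,
        Equiv.Perm.mul_apply, lv_not]
      simp
    have hyz : wp σ (v₂ ++ v₁) (wp σ v₂ x) = wp σ v₂ x := by
      rw [wp_append, Equiv.Perm.mul_apply]
      have h1 : wp σ v₁ (wp σ v₂ x) = x := by
        rw [← hz, ← Equiv.Perm.mul_apply, ← wp_append, ← hveq, hx]
      rw [h1]
    by_cases hy : IsH (v₂ ++ v₁)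
    · refine ⟨v₁ ++ (Sum.inr b, ε) :: g, (Sum.inr b, !ε) :: v₂, v₂ ++ v₁, g, v₂, b, !ε, ?_, ?_, hy,
        hylen, hyz⟩
      · rw [hveq]; simp
      · simp
    · obtain ⟨a₁, g', a₂, b', ε', hyeq, hg', hcl'⟩ := h (v₂ ++ v₁) (by omega) hy _ hyz
      have hrot : v ~r ((Sum.inr b', ε') :: (g' ++ (Sum.inr b', !ε') ::
          (a₂ ++ ((Sum.inr b, ε) :: (g ++ [(Sum.inr b, !ε)])) ++ a₁))) := by
        have e1 : v ~r ((v₂ ++ v₁) ++ ((Sum.inr b, ε) :: (g ++ [(Sum.inr b, !ε)]))) := by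
          have : v = (v₁ ++ ((Sum.inr b, ε) :: (g ++ [(Sum.inr b, !ε)]))) ++ v₂ := by
            rw [hveq]; simp
          rw [this]
          have h3 := List.isRotated_append (l := v₁ ++ ((Sum.inr b, ε) :: (g ++ [(Sum.inr b, !ε)])))
            (l' := v₂)
          simpa [List.append_assoc] using h3
        have e2 : ((v₂ ++ v₁) ++ ((Sum.inr b, ε) :: (g ++ [(Sum.inr b, !ε)]))) ~r
            ((Sum.inr b', ε') :: (g' ++ (Sum.inr b', !ε') ::
          (a₂ ++ ((Sum.inr b, ε) :: (g ++ [(Sum.inr b, !ε)])) ++ a₁))) := by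
          rw [hyeq]
          have h3 := List.isRotated_append (l := a₁)
            (l' := (Sum.inr b', ε') :: (g' ++ (Sum.inr b', !ε') ::
              (a₂ ++ ((Sum.inr b, ε) :: (g ++ [(Sum.inr b, !ε)])))))
          simpa [List.append_assoc] using h3
        exact e1.trans e2
      obtain ⟨n, hn, hrn⟩ := List.isRotated_iff_mod.1 hrot
      have hl2 : (v₂ ++ v₁).length = a₁.length + (g'.length + a₂.length + 2) := by
        rw [hyeq]; simp; omega
      refine ⟨v.take n, v.drop n, g', a₂ ++ ((Sum.inr b, ε) :: (g ++ [(Sum.inr b, !ε)])) ++ a₁,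
        ((Sum.inr b', !ε') :: a₂) ++ v₂, b', ε', (List.take_append_drop n v).symm, ?_, hg',
        by omega, ?_⟩
      · rw [← List.rotate_eq_drop_append_take hn, hrn]
      · rw [wp_append, Equiv.Perm.mul_apply]
        exact hcl'

section reduction
variable {A B : Type*}

lemma reduce_group {G : Type*} [Group G] (f : A ⊕ B → G) (v₁ v₂ g w : Wd (A ⊕ B)) (b : B)
    (ε : Bool) (h : v₂ ++ v₁ = (Sum.inr b, ε) :: (g ++ (Sum.inr b, !ε) :: w))
    (hc : Commute (wp f g) (f (Sum.inr b))) : wp f v₂ * wp f v₁ = wp f (g ++ w) := by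
  rw [← wp_append, h, wp_cons, wp_append, wp_cons, lv_not, wp_append]
  have hc2 : Commute (wp f g) (lv f (Sum.inr b, ε)) := by
    cases ε
    · simpa using hc.inv_right
    · simpa using hc
  rw [← mul_assoc, ← mul_assoc, ← hc2.eq, mul_assoc (wp f g), mul_inv_cancel, mul_one]

end reduction

lemma wp_mem_comm {Λ V : Type*} {ρ : Λ → Equiv.Perm V} {z : Equiv.Perm V}
    (h : ∀ l, Commute z (ρ l)) (u : Wd Λ) : Commute z (wp ρ u) := by
  induction u with
  | nil => simp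
  | cons s u ih =>
      rw [wp_cons]
      refine Commute.mul_right ?_ ih
      rcases s with ⟨a, b⟩
      cases b
      · simpa using (h a).inv_right
      · simpa using h a

/-- left multiplication on cosets of a subgroup commuting with the letters -/
theorem claimA {A B V Q Γ : Type} [Group Γ] (e : A ⊕ B → Γ) (Wg : Subgroup Γ) (n₀ r : ℕ)
    (hr : 1 ≤ r)
    (hc : ∀ w ∈ Wg, ∀ l, Commute w (e l))
    (hG : ∀ v : Wd (A ⊕ B), v.length ≤ 2 * r + 1 → ¬ IsH v → wp e v ∈ Wg →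
      ∃ (v₁ g v₂ : Wd (A ⊕ B)) (b : B) (ε : Bool),
        v = v₁ ++ (Sum.inr b, ε) :: (g ++ (Sum.inr b, !ε) :: v₂) ∧ IsH g ∧ wp e g ∈ Wg)
    (X : LS (A ⊕ B) V) (Z : Subgroup (Equiv.Perm V))
    (hfree : ∀ z ∈ Z, ∀ p, z p = p → z = 1)
    (hκ : X.2 ∈ Z) (hcomm : ∀ z ∈ Z, ∀ l, Commute z (X.1 l)) (hab : ∀ z ∈ Z, ∀ z' ∈ Z, Commute z z')
    (mk : V → Q) (hmk : ∀ p q, mk p = mk q ↔ ∃ z ∈ Z, z p = q)
    (σ : A ⊕ B → Equiv.Perm Q) (hσ : ∀ l p, σ l (mk p) = mk (X.1 l p))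
    (hNL : NoLin σ (2 * r + 1))
    (B1 : ∀ u : Wd (A ⊕ B), IsH u → u.length ≤ 2 * r + 1 → ∀ (x : ℤ) (p : V),
      ((X.2 ^ x) (wp X.1 u p) = p ↔ (wp e u = 1 ∧ (n₀ : ℤ) ∣ x)))
    (B2 : ∀ g : Wd (A ⊕ B), IsH g → g.length + 1 ≤ r → ∀ p : V,
      (∃ z ∈ Z, wp X.1 g p = z p) → wp e g ∈ Wg)
    (B3 : ∀ g : Wd (A ⊕ B), IsH g → g.length + 1 ≤ r → wp e g ∈ Wg → wp X.1 g ∈ Z) :
    Good e n₀ r X := by
  -- the action on cosets
  let τ : A ⊕ B → Equiv.Perm (Γ ⧸ Wg) := fun l => MulAction.toPerm (e l)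
  have hτ : ∀ (u : Wd (A ⊕ B)) (q : Γ ⧸ Wg), wp τ u q = wp e u • q := by
    intro u q
    have := map_wp (MulAction.toPermHom Γ (Γ ⧸ Wg)) e u
    have h2 := congrArg (fun t : Equiv.Perm (Γ ⧸ Wg) => t q) this
    simpa using h2.symm
  have hce : ∀ w ∈ Wg, ∀ u : Wd (A ⊕ B), Commute w (wp e u) := by
    intro w hw u
    induction u with
    | nil => simp
    | cons s u ih =>
        rw [wp_cons]
        refine Commute.mul_right ?_ ih
        rcases s with ⟨a, b⟩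
        cases b
        · simpa using (hc w hw a).inv_right
        · simpa using hc w hw a
  -- closedness at a coset of a word is the same as membership
  have hcoset : ∀ (g u : Wd (A ⊕ B)), wp τ g ((wp e u : Γ) : Γ ⧸ Wg) = ((wp e u : Γ) : Γ ⧸ Wg) →
      wp e g ∈ Wg := by
    intro g u h
    rw [hτ] at h
    have h1 : ((wp e g * wp e u : Γ) : Γ ⧸ Wg) = ((wp e u : Γ) : Γ ⧸ Wg) := h
    have h2 : (wp e u)⁻¹ * (wp e g * wp e u) ∈ Wg := QuotientGroup.eq.1 h1.symm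
    have h3 := hce _ h2 u
    have h4 : wp e g = (wp e u) * ((wp e u)⁻¹ * (wp e g * wp e u)) * (wp e u)⁻¹ := by group
    rw [h4, ← h3.eq]
    simpa using h2
  -- restrict the coset action to the orbit of the base point: NoLin there
  have hmem : ∀ (v : Wd (A ⊕ B)), v.length ≤ 2 * r + 1 → ¬ IsH v → wp e v ∈ Wg →
      ∃ (v₁ v₂ g w : Wd (A ⊕ B)) (b : B) (ε : Bool), v = v₁ ++ v₂ ∧
      v₂ ++ v₁ = (Sum.inr b, ε) :: (g ++ (Sum.inr b, !ε) :: w) ∧ IsH g ∧ g.length + 1 ≤ r ∧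
      wp e g ∈ Wg := by
    -- work on the orbit `O` of the base coset
    let O : Type := {q : Γ ⧸ Wg // ∃ u : Wd (A ⊕ B), q = ((wp e u : Γ) : Γ ⧸ Wg)}
    have hstep : ∀ (l : A ⊕ B) (q : Γ ⧸ Wg), (∃ u : Wd (A ⊕ B), q = ((wp e u : Γ) : Γ ⧸ Wg)) ↔
        (∃ u : Wd (A ⊕ B), τ l q = ((wp e u : Γ) : Γ ⧸ Wg)) := by
      intro l q
      constructor
      · rintro ⟨u, rfl⟩
        exact ⟨(l, true) :: u, by simp [τ, MulAction.toPerm_apply]⟩
      · rintro ⟨u, hu⟩
        refine ⟨(l, false) :: u, ?_⟩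
        have : q = (τ l)⁻¹ ((wp e u : Γ) : Γ ⧸ Wg) := by rw [← hu]; simp
        rw [this]
        simp only [wp_cons, lv_false]
        rfl
    let σO : A ⊕ B → Equiv.Perm O := fun l => (τ l).subtypePerm (fun q => (hstep l q).symm)
    have hσO : ∀ (u : Wd (A ⊕ B)) (q : O), ((wp σO u q : O) : Γ ⧸ Wg) = wp τ u q.1 := by
      intro u
      induction u with
      | nil => intro q; rfl
      | cons s u ih =>
          intro q
          rcases s with ⟨a, b⟩
          cases b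
          · rw [wp_cons, wp_cons, Equiv.Perm.mul_apply, Equiv.Perm.mul_apply, ← ih]
            have : ((lv σO (a, false) (wp σO u q) : O) : Γ ⧸ Wg) = (τ a)⁻¹ (wp σO u q).1 := by
              rw [lv_false, eq_comm, Equiv.Perm.inv_eq_iff_eq]
              have h5 : σO a ((σO a)⁻¹ (wp σO u q)) = wp σO u q := by simp
              exact (congrArg Subtype.val h5).symm
            rw [this]; rfl
          · rw [wp_cons, wp_cons, Equiv.Perm.mul_apply, Equiv.Perm.mul_apply, ← ih]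
            rfl
    have hNO : NoLin σO (2 * r + 1) := by
      intro v hv hH q hq
      obtain ⟨u, hu⟩ := q.2
      have h1 : wp τ v q.1 = q.1 := by rw [← hσO, hq]
      have h2 : wp e v ∈ Wg := hcoset v u (by rw [← hu]; exact h1)
      obtain ⟨v₁, g, v₂, b, ε, h3, h4, h5⟩ := hG v hv hH h2
      refine ⟨v₁, g, v₂, b, ε, h3, h4, ?_⟩
      apply Subtype.ext
      rw [hσO, hσO, hu, hτ, hτ, ← mul_smul]
      have h6 := hce _ h5 ((Sum.inr b, !ε) :: v₂)
      have h7 := hce _ h5 u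
      change ((wp e g * wp e ((Sum.inr b, !ε) :: v₂) * wp e u : Γ) : Γ ⧸ Wg) =
        ((wp e ((Sum.inr b, !ε) :: v₂) * wp e u : Γ) : Γ ⧸ Wg)
      rw [eq_comm, QuotientGroup.eq]
      have h8 : (wp e ((Sum.inr b, !ε) :: v₂) * wp e u)⁻¹ *
          (wp e g * wp e ((Sum.inr b, !ε) :: v₂) * wp e u) = wp e g := by
        rw [h6.eq, mul_assoc, h7.eq]; group
      rw [h8]; exact h5
    intro v hv hH hW
    have hbase : wp σO v ⟨((wp e ([] : Wd (A ⊕ B)) : Γ) : Γ ⧸ Wg), [], rfl⟩ =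
        ⟨((wp e ([] : Wd (A ⊕ B)) : Γ) : Γ ⧸ Wg), [], rfl⟩ := by
      apply Subtype.ext
      rw [hσO, hτ]
      change ((wp e v * wp e [] : Γ) : Γ ⧸ Wg) = _
      rw [eq_comm, QuotientGroup.eq]
      simpa using hW
    obtain ⟨v₁, v₂, g, w, a, b, ε, h1, h2, h3, h4, h5⟩ := short_gap' σO r hNO v hv hH _ hbase
    refine ⟨v₁, v₂, g, w, b, ε, h1, h2, h3, h4, ?_⟩
    have h6 := congrArg Subtype.val h5
    rw [hσO] at h6
    obtain ⟨u, hu⟩ := (wp σO a ⟨((wp e ([] : Wd (A ⊕ B)) : Γ) : Γ ⧸ Wg), [], rfl⟩).2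
    rw [hu] at h6
    exact hcoset g u h6
  -- words and the quotient
  have hσw : ∀ (u : Wd (A ⊕ B)) (p : V), wp σ u (mk p) = mk (wp X.1 u p) := by
    intro u
    induction u with
    | nil => intro p; rfl
    | cons s u ih =>
        intro p
        rcases s with ⟨a, b⟩
        rw [wp_cons, wp_cons, Equiv.Perm.mul_apply, Equiv.Perm.mul_apply, ih]
        cases b
        · rw [lv_false, lv_false, Equiv.Perm.inv_eq_iff_eq, hσ]
          simp
        · rw [lv_true, lv_true, hσ]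
  have hκc : ∀ (x : ℤ) (u : Wd (A ⊕ B)), Commute (X.2 ^ x) (wp X.1 u) := fun x u =>
    wp_mem_comm (fun l => hcomm _ (Subgroup.zpow_mem _ hκ x) l) u
  refine ⟨fun l => hcomm _ hκ l, ?_⟩
  -- strong induction
  have main : ∀ (n : ℕ) (u : Wd (A ⊕ B)), u.length = n → u.length ≤ 2 * r + 1 →
      ∀ (x : ℤ) (p : V), ((X.2 ^ x) (wp X.1 u p) = p ↔ (wp e u = 1 ∧ (n₀ : ℤ) ∣ x)) := by
    intro n
    induction n using Nat.strong_induction_on with
    | _ n ih =>
      intro u hun hu x p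
      by_cases hH : IsH u
      · exact B1 u hH hu x p
      -- reduction step
      have red : ∀ (v₁ v₂ g w : Wd (A ⊕ B)) (b : B) (ε : Bool), u = v₁ ++ v₂ →
          v₂ ++ v₁ = (Sum.inr b, ε) :: (g ++ (Sum.inr b, !ε) :: w) → IsH g → g.length + 1 ≤ r →
          wp e g ∈ Wg → ((X.2 ^ x) (wp X.1 u p) = p ↔ (wp e u = 1 ∧ (n₀ : ℤ) ∣ x)) := by
        intro v₁ v₂ g w b ε h1 h2 h3 h4 h5
        have hgZ := B3 g h3 h4 h5
        have r1 := reduce_group e v₁ v₂ g w b ε h2 (hc _ h5 _)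
        have r2 := reduce_group X.1 v₁ v₂ g w b ε h2 (hcomm _ hgZ _)
        have hlen : (g ++ w).length + 2 = u.length := by
          have e1 : u.length = (v₂ ++ v₁).length := by rw [h1]; simp [add_comm]
          rw [e1, h2]; simp; omega
        have hi := ih (g ++ w).length (by omega) (g ++ w) rfl (by omega) x (wp X.1 v₂ p)
        have e3 : wp e u = 1 ↔ wp e (g ++ w) = 1 := by
          rw [← r1, h1, wp_append]
          constructor
          · intro h; exact mul_eq_one_comm.1 h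
          · intro h; exact mul_eq_one_comm.1 h
        rw [e3, ← hi, ← r2, h1, wp_append]
        have e4 : (X.2 ^ x) ((wp X.1 v₂ * wp X.1 v₁) (wp X.1 v₂ p)) =
            wp X.1 v₂ ((X.2 ^ x) ((wp X.1 v₁ * wp X.1 v₂) p)) := by
          have := congrArg (fun t : Equiv.Perm V => t (wp X.1 v₁ (wp X.1 v₂ p))) (hκc x v₂).eq
          simpa [Equiv.Perm.mul_apply] using this
        rw [e4]
        exact (Equiv.apply_eq_iff_eq _).symm
      constructor
      · intro hcl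
        -- closed in the quotient
        have hq : wp σ u (mk p) = mk p := by
          rw [hσw, hmk]
          exact ⟨X.2 ^ x, Subgroup.zpow_mem _ hκ x, hcl⟩
        obtain ⟨v₁, v₂, g, w, a, b, ε, h1, h2, h3, h4, h5⟩ := short_gap' σ r hNL u hu hH _ hq
        rw [hσw, hσw, hmk] at h5
        obtain ⟨z, hz, hz2⟩ := h5
        have h6 : wp e g ∈ Wg := B2 g h3 h4 (wp X.1 a p) ⟨z⁻¹, Subgroup.inv_mem _ hz, by
          rw [Equiv.Perm.eq_inv_iff_eq]; exact hz2⟩
        exact (red v₁ v₂ g w b ε h1 h2 h3 h4 h6).1 hcl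
      · intro hcl
        obtain ⟨v₁, v₂, g, w, b, ε, h1, h2, h3, h4, h5⟩ := hmem u hu hH (by
          rw [hcl.1]; exact Subgroup.one_mem _)
        exact (red v₁ v₂ g w b ε h1 h2 h3 h4 h5).2 hcl
  intro u hu x p
  exact main _ u rfl hu x p

end Pool.Agent.Helper55.LF
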