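import Mathlib
import Pool.Agent.Helper55.LF.Defs
import Pool.Agent.Helper55.LF.LLL

namespace Pool.Agent.Helper55.LF

-- needs: lll (M1a)

namespace NL

/-! ### Injective data -/

theorem ext_perm {X I : Type*} [Finite X] (y y' : I → X) (hy : Function.Injective y)
    (hy' : Function.Injective y') :
    ∃ σ : Equiv.Perm X, (∀ i, σ (y i) = y' i) ∧ ∀ z, (∀ i, z ≠ y i ∧ z ≠ y' i) → σ z = z := by
  classical
  let Z : Set X := Set.range y ∪ Set.range y'
  let u : I → Z := fun i => ⟨y i, Or.inl ⟨i, rfl⟩⟩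
  let u' : I → Z := fun i => ⟨y' i, Or.inr ⟨i, rfl⟩⟩
  have hu : Function.Injective u := fun i j h => hy (congrArg Subtype.val h)
  have hu' : Function.Injective u' := fun i j h => hy' (congrArg Subtype.val h)
  let e : {z // z ∈ Set.range u} ≃ {z // z ∈ Set.range u'} :=
    (Equiv.ofInjective u hu).symm.trans (Equiv.ofInjective u' hu')
  refine ⟨Equiv.Perm.ofSubtype (e.extendSubtype : Equiv.Perm Z), fun i => ?_, fun z hz => ?_⟩
  · have hmem : y i ∈ Z := Or.inl ⟨i, rfl⟩
    rw [Equiv.Perm.ofSubtype_apply_of_mem _ hmem]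
    have h1 : (⟨y i, hmem⟩ : Z) ∈ Set.range u := ⟨i, rfl⟩
    rw [Equiv.extendSubtype_apply_of_mem e ⟨y i, hmem⟩ h1]
    have h2 : e ⟨⟨y i, hmem⟩, h1⟩ = ⟨u' i, ⟨i, rfl⟩⟩ := by
      have h3 : (⟨⟨y i, hmem⟩, h1⟩ : {z // z ∈ Set.range u}) = Equiv.ofInjective u hu i := rfl
      rw [h3]
      change (Equiv.ofInjective u' hu') ((Equiv.ofInjective u hu).symm (Equiv.ofInjective u hu i)) = _
      rw [Equiv.symm_apply_apply]
      rfl
    rw [h2]
  · have hmem : z ∉ Z := by
      rintro (⟨i, hi⟩ | ⟨i, hi⟩)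
      · exact (hz i).1 hi.symm
      · exact (hz i).2 hi.symm
    exact Equiv.Perm.ofSubtype_apply_of_not_mem _ hmem

variable {B X : Type}

/-- compatible injective data -/
def Vd {k : ℕ} (b : Fin k → B) (y : Fin k → X) : Prop :=
  ∀ i i', i ≠ i' → b i = b i' → y i ≠ y i'

theorem ext_tuple [Finite X] {k : ℕ} (b : Fin k → B) (y y' : Fin k → X) (hy : Vd b y)
    (hy' : Vd b y') : ∃ σ : B → Equiv.Perm X, (∀ i, σ (b i) (y i) = y' i) ∧
      ∀ c z, (∀ i, b i = c → z ≠ y i ∧ z ≠ y' i) → σ c z = z := by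
  have h : ∀ c : B, ∃ σ : Equiv.Perm X, (∀ i : {i // b i = c}, σ (y i) = y' i) ∧
      ∀ z, (∀ i : {i // b i = c}, z ≠ y i ∧ z ≠ y' i) → σ z = z := by
    intro c
    refine ext_perm (fun i : {i // b i = c} => y i) (fun i => y' i) ?_ ?_
    · intro i j hij
      by_contra hne
      exact hy i.1 j.1 (fun h => hne (Subtype.ext h)) (i.2.trans j.2.symm) hij
    · intro i j hij
      by_contra hne
      exact hy' i.1 j.1 (fun h => hne (Subtype.ext h)) (i.2.trans j.2.symm) hij
  choose σ h1 h2 using h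
  exact ⟨σ, fun i => h1 (b i) ⟨i, rfl⟩, fun c z hz => h2 c z fun i => hz i.1 i.2⟩

/-- the event of a injective datum -/
def Ev {k : ℕ} (b : Fin k → B) (dm rn : Fin k → X) : Set (B → Equiv.Perm X) :=
  {τ | (Vd b dm ∧ Vd b rn) ∧ ∀ i, τ (b i) (dm i) = rn i}

theorem neg_corr [Finite X] [Finite B] {k : ℕ} (b : Fin k → B) (dm rn : Fin k → X)
    (hv : Vd b dm ∧ Vd b rn) (T : Set (B → Equiv.Perm X))
    (hT : ∀ (τ σ : B → Equiv.Perm X), τ ∈ Ev b dm rn → τ ∈ T →
      (∀ c z, (∀ i, b i = c → z ≠ rn i ∧ z ≠ σ c (rn i)) → σ c z = z) →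
      (fun c => σ c * τ c) ∈ T) :
    (Ev b dm rn ∩ T).ncard * Nat.card (B → Equiv.Perm X) ≤ (Ev b dm rn).ncard * T.ncard := by
  classical
  have hΩ : Finite (B → Equiv.Perm X) := inferInstance
  have hex : ∀ y' : Fin k → X, ∃ σ : B → Equiv.Perm X, Vd b y' →
      (∀ i, σ (b i) (rn i) = y' i) ∧
      ∀ c z, (∀ i, b i = c → z ≠ rn i ∧ z ≠ y' i) → σ c z = z := by
    intro y'
    by_cases h : Vd b y'
    · obtain ⟨σ, hσ⟩ := ext_tuple b rn y' hv.2 h
      exact ⟨σ, fun _ => hσ⟩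
    · exact ⟨fun _ => 1, fun h' => absurd h' h⟩
  choose sg hsg using hex
  have hvd : ∀ ω : B → Equiv.Perm X, Vd b fun i => ω (b i) (dm i) := by
    intro ω i i' hne hb heq
    simp only at heq
    rw [hb] at heq
    exact hv.1 i i' hne hb ((ω (b i')).injective heq)
  rw [← Set.ncard_univ, ← Set.ncard_prod, ← Set.ncard_prod]
  refine Set.ncard_le_ncard_of_injOn
    (fun p => ((fun c => (sg (fun i => p.2 (b i) (dm i)) c)⁻¹ * p.2 c),
      (fun c => sg (fun i => p.2 (b i) (dm i)) c * p.1 c))) ?_ ?_ (Set.toFinite _)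
  · rintro ⟨τ, ω⟩ ⟨⟨hτ, hτT⟩, _⟩
    obtain ⟨h1, h2⟩ := hsg (fun i => ω (b i) (dm i)) (hvd ω)
    refine ⟨⟨hv, fun i => ?_⟩, ?_⟩
    · simp only [Equiv.Perm.mul_apply]
      rw [Equiv.Perm.inv_eq_iff_eq]
      exact (h1 i).symm
    · apply hT τ _ hτ hτT
      intro c z hz
      apply h2 c z
      intro i hi
      obtain ⟨h3, h4⟩ := hz i hi
      refine ⟨h3, ?_⟩
      have h5 := h1 i
      rw [← hi] at h4
      rw [h5] at h4
      exact h4
  · rintro ⟨τ, ω⟩ ⟨⟨hτ, _⟩, _⟩ ⟨τ', ω'⟩ ⟨⟨hτ', _⟩, _⟩ heq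
    simp only [Prod.mk.injEq] at heq
    obtain ⟨he1, he2⟩ := heq
    have hy : (fun i => ω (b i) (dm i)) = fun i => ω' (b i) (dm i) := by
      funext i
      have h1 := (hsg (fun i => ω (b i) (dm i)) (hvd ω)).1 i
      have h2 := (hsg (fun i => ω' (b i) (dm i)) (hvd ω')).1 i
      have h3 := congrArg (fun f : B → Equiv.Perm X => f (b i) (dm i)) he2
      simp only [Equiv.Perm.mul_apply] at h3
      rw [hτ.2 i, hτ'.2 i] at h3
      rw [← h1, ← h2]
      exact h3
    rw [← hy] at he1 he2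
    have hτe : τ = τ' := by
      funext c
      exact mul_left_cancel (congrFun he2 c)
    have hωe : ω = ω' := by
      funext c
      exact mul_left_cancel (congrFun he1 c)
    rw [hτe, hωe]

theorem ev_card [Finite X] [Finite B] {k : ℕ} (b : Fin k → B) (dm rn : Fin k → X) :
    (Ev b dm rn).ncard * (Nat.card X).descFactorial k ≤ Nat.card (B → Equiv.Perm X) := by
  classical
  have := Fintype.ofFinite X
  by_cases hv : Vd b dm ∧ Vd b rn
  · have hcard : (Nat.card X).descFactorial k = (Set.univ : Set (Fin k ↪ X)).ncard := by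
      rw [Set.ncard_univ, Nat.card_eq_fintype_card, Nat.card_eq_fintype_card,
        Fintype.card_embedding_eq, Fintype.card_fin]
    have hvy : ∀ y : Fin k ↪ X, Vd b y := fun y i i' hne _ heq => hne (y.injective heq)
    have hex : ∀ y' : Fin k ↪ X, ∃ σ : B → Equiv.Perm X, (∀ i, σ (b i) (rn i) = y' i) := by
      intro y'
      obtain ⟨σ, hσ, _⟩ := ext_tuple b rn y' hv.2 (hvy y')
      exact ⟨σ, hσ⟩
    choose sg hsg using hex
    rw [hcard, ← Set.ncard_prod, ← Set.ncard_univ (B → Equiv.Perm X)]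
    refine Set.ncard_le_ncard_of_injOn (fun p => fun c => sg p.2 c * p.1 c)
      (fun _ _ => Set.mem_univ _) ?_ (Set.toFinite _)
    rintro ⟨τ, y⟩ ⟨hτ, _⟩ ⟨τ', y'⟩ ⟨hτ', _⟩ heq
    have hyy : y = y' := by
      ext i
      have h3 := congrArg (fun f : B → Equiv.Perm X => f (b i) (dm i)) heq
      simp only [Equiv.Perm.mul_apply] at h3
      rw [hτ.2 i, hτ'.2 i] at h3
      rw [← hsg y i, ← hsg y' i]
      exact h3
    subst hyy
    have hτe : τ = τ' := by
      funext c
      exact mul_left_cancel (congrFun heq c)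
    rw [hτe]
  · have : Ev b dm rn = ∅ := by
      ext τ
      simp only [Ev, Set.mem_setOf_eq, Set.mem_empty_iff_false, iff_false]
      exact fun h => hv h.1
    rw [this]
    simp

/-! ### Closed trajectories as lists of steps -/

section traj

variable {A : Type}

/-- inverse signed letter -/
def iv (s : B × Bool) : B × Bool := (s.1, !s.2)

theorem iv_iv (s : B × Bool) : iv (iv s) = s := by simp [iv]

theorem lv_iv (τ : B → Equiv.Perm X) (s : B × Bool) : lv τ (iv s) = (lv τ s)⁻¹ := by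
  rcases s with ⟨b, ε⟩
  exact lv_not τ b ε

theorem iv_ne (s : B × Bool) : s ≠ iv s := by
  intro h
  have := congrArg Prod.snd h
  simp [iv] at this

/-- a lamp word as a word -/
def lw (g : Wd A) : Wd (A ⊕ B) := g.map fun a => (Sum.inl a.1, a.2)

/-- the word of a list of steps -/
def W (c : List ((B × Bool) × Wd A)) : Wd (A ⊕ B) :=
  c.flatMap fun p => (Sum.inr p.1.1, p.1.2) :: lw p.2

theorem W_cons (p : (B × Bool) × Wd A) (c : List ((B × Bool) × Wd A)) :
    W (p :: c) = (Sum.inr p.1.1, p.1.2) :: (lw p.2 ++ W c) := by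
  simp [W]

theorem W_append (c c' : List ((B × Bool) × Wd A)) : W (c ++ c') = W c ++ W c' := by
  simp [W]

theorem lw_length (g : Wd A) : (lw g : Wd (A ⊕ B)).length = g.length := by simp [lw]

theorem W_length_ge (c : List ((B × Bool) × Wd A)) : c.length ≤ (W c).length := by
  induction c with
  | nil => simp
  | cons p c ih => rw [W_cons]; simp only [List.length_cons, List.length_append]; omega

theorem isH_lw (g : Wd A) : IsH (lw g : Wd (A ⊕ B)) := by
  intro s hs
  simp only [lw, List.mem_map] at hs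
  obtain ⟨a, _, rfl⟩ := hs
  exact ⟨a.1, rfl⟩

theorem decomp (v : Wd (A ⊕ B)) : ∃ (g : Wd A) (c : List ((B × Bool) × Wd A)),
    v = lw g ++ W c := by
  induction v with
  | nil => exact ⟨[], [], by simp [lw, W]⟩
  | cons s v ih =>
    obtain ⟨g, c, rfl⟩ := ih
    rcases s with ⟨a | b, ε⟩
    · exact ⟨(a, ε) :: g, c, by simp [lw]⟩
    · exact ⟨[], ((b, ε), g) :: c, by simp [W_cons, lw]⟩

variable (ρ : A → Equiv.Perm X) (τ : B → Equiv.Perm X)

theorem wp_lw (g : Wd A) : wp (Sum.elim ρ τ) (lw g) = wp ρ g := by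
  induction g with
  | nil => rfl
  | cons a g ih =>
    rcases a with ⟨a, ε⟩
    change wp (Sum.elim ρ τ) ((Sum.inl a, ε) :: lw g) = _
    rw [wp_cons, ih, wp_cons]
    cases ε <;> rfl

/-- evaluation of a list of steps -/
def ev : List ((B × Bool) × Wd A) → X → X
  | [], x => x
  | p :: c, x => lv τ p.1 (wp ρ p.2 (ev c x))

theorem ev_append (c c' : List ((B × Bool) × Wd A)) (x : X) :
    ev ρ τ (c ++ c') x = ev ρ τ c (ev ρ τ c' x) := by
  induction c with
  | nil => rfl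
  | cons p c ih => simp only [List.cons_append, ev, ih]

theorem wp_W (c : List ((B × Bool) × Wd A)) (x : X) :
    wp (Sum.elim ρ τ) (W c) x = ev ρ τ c x := by
  induction c with
  | nil => rfl
  | cons p c ih =>
    rw [W_cons, wp_cons, wp_append, wp_lw]
    simp only [Equiv.Perm.mul_apply, ih, ev]
    rcases p with ⟨⟨b, ε⟩, g⟩
    cases ε <;> rfl

/-- no interior closed backtracking gap -/
def IR (c : List ((B × Bool) × Wd A)) (x : X) : Prop :=
  ∀ c₁ s g s' g' c₂, c = c₁ ++ (s, g) :: (s', g') :: c₂ → s = iv s' →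
    wp ρ g (ev ρ τ ((s', g') :: c₂) x) ≠ ev ρ τ ((s', g') :: c₂) x

/-- closed and without interior closed backtracking gap -/
def PP (L : ℕ) (c : List ((B × Bool) × Wd A)) (x : X) : Prop :=
  c ≠ [] ∧ (W c).length ≤ L ∧ ev ρ τ c x = x ∧ IR ρ τ c x

theorem IR_suffix {c c' : List ((B × Bool) × Wd A)} {x : X} (h : IR ρ τ (c ++ c') x) :
    IR ρ τ c' x := by
  intro c₁ s g s' g' c₂ hc
  exact h (c ++ c₁) s g s' g' c₂ (by rw [hc, List.append_assoc])

theorem pp_of_gap {L : ℕ} (g₀ : Wd A) (c : List ((B × Bool) × Wd A)) (x : X) (hc : c ≠ [])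
    (hL : g₀.length + (W c).length ≤ L) (hx : wp ρ g₀ (ev ρ τ c x) = x) (hI : IR ρ τ c x) :
    ∃ c' x', PP ρ τ L c' x' ∧ c'.length = c.length := by
  rcases List.eq_nil_or_concat' c with h | ⟨c₀, ⟨s, g⟩, rfl⟩
  · exact absurd h hc
  · have hev : ev ρ τ [(s, g ++ g₀)] ((wp ρ g₀)⁻¹ x) = ev ρ τ [(s, g)] x := by
      simp [ev]
    refine ⟨c₀ ++ [(s, g ++ g₀)], (wp ρ g₀)⁻¹ x, ⟨by simp, ?_, ?_, ?_⟩, by simp⟩
    · rw [W_append, W_cons] at hL ⊢
      simp only [List.length_append, List.length_cons, lw_length] at hL ⊢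
      omega
    · rw [ev_append, hev, ← ev_append, Equiv.Perm.eq_inv_iff_eq]
      exact hx
    · intro c₁ s₁ g₁ s₂ g₂ c₂ hdec hs
      rcases List.eq_nil_or_concat' c₂ with h | ⟨c₂', z, rfl⟩
      · subst h
        have h1 : c₀ ++ [(s, g ++ g₀)] = (c₁ ++ [(s₁, g₁)]) ++ [(s₂, g₂)] := by
          rw [hdec]; simp
        obtain ⟨h2, h3⟩ := List.append_inj' h1 rfl
        simp only [List.cons.injEq, Prod.mk.injEq, and_true] at h3
        obtain ⟨rfl, rfl⟩ := h3
        rw [hev]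
        exact hI c₁ s₁ g₁ s g [] (by rw [h2]; simp) hs
      · have h1 : c₀ ++ [(s, g ++ g₀)] = (c₁ ++ (s₁, g₁) :: (s₂, g₂) :: c₂') ++ [z] := by
          rw [hdec]; simp
        obtain ⟨h2, h3⟩ := List.append_inj' h1 rfl
        simp only [List.cons.injEq, and_true] at h3
        subst h3
        have h4 : ev ρ τ ((s₂, g₂) :: (c₂' ++ [(s, g ++ g₀)])) ((wp ρ g₀)⁻¹ x) =
            ev ρ τ ((s₂, g₂) :: (c₂' ++ [(s, g)])) x := by
          simp only [ev, ev_append]
          simp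
        rw [h4]
        exact hI c₁ s₁ g₁ s₂ g₂ (c₂' ++ [(s, g)]) (by rw [h2]; simp) hs

/-- a minimal closed trajectory -/
def Mn (L : ℕ) (c : List ((B × Bool) × Wd A)) (x : X) : Prop :=
  PP ρ τ L c x ∧ ∀ c' x', PP ρ τ L c' x' → c.length ≤ c'.length

theorem exists_mn (L : ℕ) (h : ¬ NoLin (Sum.elim ρ τ) L) : ∃ c x, Mn ρ τ L c x := by
  classical
  have h0 : ∃ c x, PP ρ τ L c x := by
    unfold NoLin at h
    push Not at h
    obtain ⟨v, hvL, hvH, x, hx, hv⟩ := h
    obtain ⟨g, c, rfl⟩ := decomp v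
    have hc : c ≠ [] := by
      rintro rfl
      apply hvH
      simpa [W] using isH_lw (B := B) g
    have hI : IR ρ τ c x := by
      intro c₁ s g₁ s' g' c₂ hdec hs
      have h1 := hv (lw g ++ W c₁) (lw g₁) (lw g' ++ W c₂) s.1 s.2 (by
        rw [hdec, W_append, W_cons, W_cons, hs]
        simp [iv]) (isH_lw g₁)
      have h2 : wp (Sum.elim ρ τ) ((Sum.inr s.1, !s.2) :: (lw g' ++ W c₂)) x =
          ev ρ τ ((s', g') :: c₂) x := by
        rw [← wp_W, W_cons, hs]
        simp [iv]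
      rw [h2, wp_lw] at h1
      exact h1
    obtain ⟨c', x', hP, _⟩ := pp_of_gap ρ τ (L := L) g c x hc (by
      simpa [lw_length] using hvL) (by
      rw [wp_append, Equiv.Perm.mul_apply, wp_lw, wp_W] at hx
      exact hx) hI
    exact ⟨c', x', hP⟩
  have h1 : ∃ n, ∃ c x, PP ρ τ L c x ∧ c.length = n := by
    obtain ⟨c, x, hP⟩ := h0
    exact ⟨_, c, x, hP, rfl⟩
  obtain ⟨c, x, hP, hn⟩ := Nat.find_spec h1
  exact ⟨c, x, hP, fun c' x' hP' => hn ▸ Nat.find_min' h1 ⟨c', x', hP', rfl⟩⟩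

variable {ρ τ} {L : ℕ}

theorem mn_wrap {c₀ : List ((B × Bool) × Wd A)} {s : B × Bool} {g : Wd A} {x : X}
    {s₁ : B × Bool} {g₁ : Wd A}
    {c₁ : List ((B × Bool) × Wd A)} (h : Mn ρ τ L (c₀ ++ [(s, g)]) x)
    (h1 : c₀ ++ [(s, g)] = (s₁, g₁) :: c₁) (hs : s = iv s₁) : wp ρ g x ≠ x := by
  intro hg
  obtain ⟨⟨_, hLen, hcl, hI⟩, hmin⟩ := h
  cases c₀ with
  | nil =>
    simp only [List.nil_append, List.cons.injEq, Prod.mk.injEq] at h1
    obtain ⟨⟨h2, _⟩, _⟩ := h1
    rw [← h2] at hs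
    exact iv_ne s hs
  | cons a c' =>
    simp only [List.cons_append, List.cons.injEq] at h1
    obtain ⟨rfl, _⟩ := h1
    -- the point after the last step
    set t := lv τ s x with ht
    have hcl' : lv τ s₁ (wp ρ g₁ (ev ρ τ c' t)) = x := by
      have := hcl
      rw [List.cons_append] at this
      simp only [ev, ev_append, hg] at this
      exact this
    have hq : wp ρ g₁ (ev ρ τ c' t) = t := by
      rw [← Equiv.Perm.eq_inv_iff_eq] at hcl'
      rw [hcl', ht, hs, lv_iv]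
    by_cases hc' : c' = []
    · subst hc'
      have h2 := hI [] s₁ g₁ s g [] (by simp) (by rw [hs, iv_iv])
      apply h2
      simp only [ev, hg]
      exact hq
    · obtain ⟨c'', x'', hP, hlen⟩ := pp_of_gap ρ τ (L := L) g₁ c' t hc' (by
        rw [List.cons_append, W_cons, W_append] at hLen
        simp only [List.length_cons, List.length_append, lw_length] at hLen
        omega) hq (by
        intro d₁ u k u' k' d₂ hdec hu
        have h3 := hI ((s₁, g₁) :: d₁) u k u' k' (d₂ ++ [(s, g)]) (by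
          rw [hdec]; simp) hu
        simp only [ev, ev_append, hg] at h3 ⊢
        exact h3)
      have h4 := hmin c'' x'' hP
      simp only [List.length_append, List.length_cons, List.length_nil] at h4
      omega

theorem mn_rot {a : (B × Bool) × Wd A} {c' : List ((B × Bool) × Wd A)} {x : X}
    (h : Mn ρ τ L (a :: c') x) : Mn ρ τ L (c' ++ [a]) (ev ρ τ c' x) := by
  obtain ⟨s₁, g₁⟩ := a
  have hwrap := fun c₀ s g => @mn_wrap B X A ρ τ L c₀ s g x s₁ g₁ c'
  obtain ⟨⟨hne, hLen, hcl, hI⟩, hmin⟩ := h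
  have hx : ev ρ τ [(s₁, g₁)] (ev ρ τ c' x) = x := by
    rw [← ev_append]; exact hcl
  refine ⟨⟨by simp, ?_, ?_, ?_⟩, ?_⟩
  · rw [W_append, List.length_append]
    rw [← List.singleton_append, W_append, List.length_append] at hLen
    omega
  · rw [ev_append, hx]
  · intro c₁ s g s' g' c₂ hdec hs
    rcases List.eq_nil_or_concat' c₂ with h | ⟨c₂', z, rfl⟩
    · subst h
      have h1 : c' ++ [(s₁, g₁)] = (c₁ ++ [(s, g)]) ++ [(s', g')] := by
        rw [hdec]; simp
      obtain ⟨h2, h3⟩ := List.append_inj' h1 rfl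
      simp only [List.cons.injEq, Prod.mk.injEq, and_true] at h3
      obtain ⟨rfl, rfl⟩ := h3
      rw [hx]
      have h4 : (s₁, g₁) :: c' = ((s₁, g₁) :: c₁) ++ [(s, g)] := by rw [h2]; simp
      refine hwrap ((s₁, g₁) :: c₁) s g ?_ h4.symm hs
      rw [← h4]
      exact ⟨⟨hne, hLen, hcl, hI⟩, hmin⟩
    · have h1 : c' ++ [(s₁, g₁)] = (c₁ ++ (s, g) :: (s', g') :: c₂') ++ [z] := by
        rw [hdec]; simp
      obtain ⟨h2, h3⟩ := List.append_inj' h1 rfl
      simp only [List.cons.injEq, and_true] at h3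
      subst h3
      have h4 : ev ρ τ ((s', g') :: (c₂' ++ [(s₁, g₁)])) (ev ρ τ c' x) =
          ev ρ τ ((s', g') :: c₂') x := by
        rw [← List.cons_append, ev_append, hx]
      rw [h4]
      exact hI ((s₁, g₁) :: c₁) s g s' g' c₂' (by rw [h2]; simp) hs
  · intro c'' x'' hP
    have := hmin c'' x'' hP
    simpa using this

theorem mn_rot_append (c₁ : List ((B × Bool) × Wd A)) : ∀ {c₂ : List ((B × Bool) × Wd A)} {x : X},
    Mn ρ τ L (c₁ ++ c₂) x → Mn ρ τ L (c₂ ++ c₁) (ev ρ τ c₂ x) := by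
  induction c₁ with
  | nil =>
    intro c₂ x h
    rw [List.nil_append] at h
    rw [List.append_nil, h.1.2.2.1]
    exact h
  | cons a c₁ ih =>
    intro c₂ x h
    have h1 : Mn ρ τ L ((c₁ ++ c₂) ++ [a]) (ev ρ τ (c₁ ++ c₂) x) := mn_rot h
    rw [List.append_assoc] at h1
    have h2 := ih h1
    have h3 : ev ρ τ (c₂ ++ [a]) (ev ρ τ (c₁ ++ c₂) x) = ev ρ τ c₂ x := by
      rw [ev_append, ← ev_append ρ τ [a] (c₁ ++ c₂)]
      have h4 := h.1.2.2.1
      rw [List.cons_append] at h4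
      rw [List.singleton_append, h4]
    rw [h3, List.append_assoc, List.singleton_append] at h2
    exact h2

theorem mn_distinct {c₁ c₂ c₃ : List ((B × Bool) × Wd A)} {a b : (B × Bool) × Wd A} {x : X}
    (h : Mn ρ τ L (c₁ ++ a :: (c₂ ++ b :: c₃)) x) :
    ¬ (a.1 = b.1 ∧ ev ρ τ (a :: (c₂ ++ b :: c₃)) x = ev ρ τ (b :: c₃) x) ∧
    ¬ (a.1 = iv b.1 ∧ ev ρ τ (a :: (c₂ ++ b :: c₃)) x = wp ρ b.2 (ev ρ τ c₃ x)) := by
  have h1 := mn_rot_append c₁ h
  set x₁ := ev ρ τ (a :: (c₂ ++ b :: c₃)) x with hx₁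
  have hc₁ : ev ρ τ c₁ x₁ = x := by
    rw [hx₁, ← ev_append]; exact h.1.2.2.1
  have h2 : a :: (c₂ ++ b :: c₃) ++ c₁ = (a :: c₂) ++ b :: (c₃ ++ c₁) := by simp
  rw [h2] at h1
  have hIR := IR_suffix ρ τ h1.1.2.2.2
  have hLen := h1.1.2.1
  rw [W_append, List.length_append] at hLen
  constructor
  · rintro ⟨_, ht⟩
    have hP : PP ρ τ L (b :: (c₃ ++ c₁)) x₁ := by
      refine ⟨by simp, by omega, ?_, hIR⟩
      rw [← List.cons_append, ev_append, hc₁]
      exact ht.symm
    have := h1.2 _ _ hP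
    simp only [List.length_append, List.length_cons] at this
    omega
  · rintro ⟨hs, ht⟩
    have hcl : wp ρ b.2 (ev ρ τ (c₃ ++ c₁) x₁) = x₁ := by
      rw [ev_append, hc₁]; exact ht.symm
    by_cases hc₃ : c₃ ++ c₁ = []
    · rw [hc₃] at h1 hcl
      refine mn_wrap (c₀ := a :: c₂) (s := b.1) (g := b.2) (s₁ := a.1) (g₁ := a.2)
        (c₁ := c₂ ++ [b]) h1 (by simp) ?_ hcl
      rw [hs, iv_iv]
    · obtain ⟨c'', x'', hP, hlen⟩ := pp_of_gap ρ τ (L := L) b.2 (c₃ ++ c₁) x₁ hc₃ (by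
        rw [W_cons b] at hLen
        simp only [List.length_cons, List.length_append, lw_length] at hLen ⊢
        omega) hcl (by
        have h3 : b :: (c₃ ++ c₁) = [b] ++ (c₃ ++ c₁) := rfl
        rw [h3] at hIR
        exact IR_suffix ρ τ hIR)
      have := h1.2 _ _ hP
      simp only [List.length_append, List.length_cons] at this hlen
      omega

end traj

/-! ### The canonical events -/

section final

/-- short lamp words -/
abbrev GW (A : Type) (L : ℕ) : Type := {g : Wd A // g.length ≤ L}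

/-- the index type of the canonical events: the number of steps (minus one), the letters and the
gaps, and the end points of the steps -/
abbrev Idx (A B X : Type) (L : ℕ) : Type :=
  Σ n : Fin L, (Fin (n.1 + 1) → (B × Bool) × GW A L) × (Fin (n.1 + 1) → X)

instance (A : Type) [Finite A] (L : ℕ) : Finite (GW A L) :=
  (List.finite_length_le (A × Bool) L).to_subtype

variable {A : Type} {L : ℕ}

/-- start point of a step -/
def qq (ρ : A → Equiv.Perm X) (j : Idx A B X L) (i : Fin (j.1.1 + 1)) : X :=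
  wp ρ (j.2.1 i).2.1 (j.2.2 (i + 1))

/-- free letter of a step -/
def bb (j : Idx A B X L) (i : Fin (j.1.1 + 1)) : B := (j.2.1 i).1.1

/-- domain point of the edge of a step -/
def dm (ρ : A → Equiv.Perm X) (j : Idx A B X L) (i : Fin (j.1.1 + 1)) : X :=
  if (j.2.1 i).1.2 then qq ρ j i else j.2.2 i

/-- range point of the edge of a step -/
def rn (ρ : A → Equiv.Perm X) (j : Idx A B X L) (i : Fin (j.1.1 + 1)) : X :=
  if (j.2.1 i).1.2 then j.2.2 i else qq ρ j i

/-- the canonical event -/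
def EE (ρ : A → Equiv.Perm X) (j : Idx A B X L) : Set (B → Equiv.Perm X) :=
  Ev (bb j) (dm ρ j) (rn ρ j)

/-- neighbours -/
def nb (ρ : A → Equiv.Perm X) (j j' : Idx A B X L) : Prop :=
  ∃ i i', bb j i = bb j' i' ∧ (dm ρ j i = dm ρ j' i' ∨ rn ρ j i = rn ρ j' i')

theorem exists_event (ρ : A → Equiv.Perm X) (τ : B → Equiv.Perm X)
    (h : ¬ NoLin (Sum.elim ρ τ) L) : ∃ j : Idx A B X L, τ ∈ EE ρ j := by
  obtain ⟨cs, x, hM⟩ := exists_mn ρ τ L h
  obtain ⟨n, hn⟩ : ∃ n, cs.length = n + 1 := by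
    rcases cs with _ | ⟨a, cs⟩
    · exact absurd rfl hM.1.1
    · exact ⟨cs.length, rfl⟩
  have hnL : n < L := by
    have h1 := W_length_ge cs
    have h2 := hM.1.2.1
    omega
  have hgl : ∀ i : Fin (n + 1), (cs[i.1]'(by omega)).2.length ≤ L := by
    intro i
    have h2 := hM.1.2.1
    have h3 : cs = cs.take i.1 ++ (cs[i.1]'(by omega)) :: cs.drop (i.1 + 1) := by
      rw [List.getElem_cons_drop, List.take_append_drop]
    have h4 : (W cs).length = (W (cs.take i.1)).length + ((lw (B := B) (cs[i.1]'(by omega)).2).length +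
        (W (cs.drop (i.1 + 1))).length + 1) := by
      conv_lhs => rw [h3]
      rw [W_append, W_cons]
      simp
    rw [lw_length] at h4
    omega
  have hcl : ev ρ τ cs x = x := hM.1.2.2.1
  let j : Idx A B X L := ⟨⟨n, hnL⟩, fun i => ((cs[i.1]'(by have := i.2; simp only at this; omega)).1,
    ⟨(cs[i.1]'(by have := i.2; simp only at this; omega)).2, hgl i⟩), fun i => ev ρ τ (cs.drop i.1) x⟩
  have hnext : ∀ i : Fin (n + 1), ev ρ τ (cs.drop (i + 1 : Fin (n + 1)).1) x =
      ev ρ τ (cs.drop (i.1 + 1)) x := by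
    intro i
    by_cases hi : i.1 = n
    · have h1 : (i + 1 : Fin (n + 1)) = 0 := by
        have : i = Fin.last n := Fin.ext hi
        rw [this]; simp
      rw [h1]
      have h2 : cs.drop (i.1 + 1) = [] := by
        rw [List.drop_eq_nil_iff]; omega
      rw [h2]
      simpa [ev] using hcl
    · have h1 : (i + 1 : Fin (n + 1)).1 = i.1 + 1 := by
        have : i < Fin.last n := by
          rw [Fin.lt_def]; simp only [Fin.val_last]; omega
        exact Fin.val_add_one_of_lt this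
      rw [h1]
  have hstep : ∀ i : Fin (n + 1), lv τ (cs[i.1]'(by omega)).1 (qq ρ j i) = ev ρ τ (cs.drop i.1) x := by
    intro i
    have h1 : cs.drop i.1 = (cs[i.1]'(by omega)) :: cs.drop (i.1 + 1) :=
      (List.getElem_cons_drop (by omega)).symm
    rw [h1]
    change lv τ _ (wp ρ _ (ev ρ τ (cs.drop (i + 1 : Fin (n + 1)).1) x)) = _
    rw [hnext i]
    rfl
  have hedge : ∀ i : Fin (n + 1), τ (bb j i) (dm ρ j i) = rn ρ j i := by
    intro i
    have h1 := hstep i
    have hb : bb j i = (cs[i.1]'(by omega)).1.1 := rfl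
    unfold dm rn
    change τ (bb j i) (if (cs[i.1]'(by omega)).1.2 then qq ρ j i else ev ρ τ (cs.drop i.1) x) =
      if (cs[i.1]'(by omega)).1.2 then ev ρ τ (cs.drop i.1) x else qq ρ j i
    rw [hb]
    by_cases hε : (cs[i.1]'(by omega)).1.2
    · rw [if_pos hε, if_pos hε, ← h1]
      simp [lv, hε]
    · rw [if_neg hε, if_neg hε, ← h1]
      simp [lv, hε]
  have hlt : ∀ i i' : Fin (n + 1), i < i' → bb j i = bb j i' → dm ρ j i ≠ dm ρ j i' := by
    intro i i' hii hbb hdd
    have hrr : rn ρ j i = rn ρ j i' := by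
      rw [← hedge i, ← hedge i', hbb, hdd]
    have hii' : i.1 < i'.1 := hii
    have hdec : cs = cs.take i.1 ++ (cs[i.1]'(by omega)) ::
        ((cs.drop (i.1 + 1)).take (i'.1 - (i.1 + 1)) ++ (cs[i'.1]'(by omega)) ::
          cs.drop (i'.1 + 1)) := by
      have h1 : (cs[i'.1]'(by omega)) :: cs.drop (i'.1 + 1) = cs.drop i'.1 :=
        List.getElem_cons_drop (by omega)
      have h2 : cs.drop i'.1 = (cs.drop (i.1 + 1)).drop (i'.1 - (i.1 + 1)) := by
        rw [List.drop_drop]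
        congr 1
        omega
      rw [h1, h2, List.take_append_drop, List.getElem_cons_drop, List.take_append_drop]
    have hM' := hM
    rw [hdec] at hM'
    have hdis := mn_distinct hM'
    have h3 : (cs[i.1]'(by omega)) ::
        ((cs.drop (i.1 + 1)).take (i'.1 - (i.1 + 1)) ++ (cs[i'.1]'(by omega)) ::
          cs.drop (i'.1 + 1)) = cs.drop i.1 := by
      have h1 : (cs[i'.1]'(by omega)) :: cs.drop (i'.1 + 1) = cs.drop i'.1 :=
        List.getElem_cons_drop (by omega)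
      have h2 : cs.drop i'.1 = (cs.drop (i.1 + 1)).drop (i'.1 - (i.1 + 1)) := by
        rw [List.drop_drop]
        congr 1
        omega
      rw [h1, h2, List.take_append_drop, List.getElem_cons_drop]
    have h4 : (cs[i'.1]'(by omega)) :: cs.drop (i'.1 + 1) = cs.drop i'.1 :=
      List.getElem_cons_drop (by omega)
    rw [h3, h4] at hdis
    have hq' : qq ρ j i' = wp ρ (cs[i'.1]'(by omega)).2 (ev ρ τ (cs.drop (i'.1 + 1)) x) := by
      rw [← hnext i']
      rfl
    rw [← hq'] at hdis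
    have hdd' : (if (cs[i.1]'(by omega)).1.2 then qq ρ j i else ev ρ τ (cs.drop i.1) x) =
      if (cs[i'.1]'(by omega)).1.2 then qq ρ j i' else ev ρ τ (cs.drop i'.1) x := hdd
    have hrr' : (if (cs[i.1]'(by omega)).1.2 then ev ρ τ (cs.drop i.1) x else qq ρ j i) =
      if (cs[i'.1]'(by omega)).1.2 then ev ρ τ (cs.drop i'.1) x else qq ρ j i' := hrr
    have hbb' : (cs[i.1]'(by omega)).1.1 = (cs[i'.1]'(by omega)).1.1 := hbb
    by_cases hε : (cs[i.1]'(by omega)).1.2 = true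
    · by_cases hε' : (cs[i'.1]'(by omega)).1.2 = true
      · rw [if_pos hε, if_pos hε'] at hrr'
        exact hdis.1 ⟨Prod.ext hbb' (by rw [hε, hε']), hrr'⟩
      · rw [if_pos hε, if_neg hε'] at hrr'
        refine hdis.2 ⟨Prod.ext hbb' ?_, hrr'⟩
        rw [Bool.not_eq_true] at hε'
        simp [iv, hε, hε']
    · by_cases hε' : (cs[i'.1]'(by omega)).1.2 = true
      · rw [if_neg hε, if_pos hε'] at hdd'
        refine hdis.2 ⟨Prod.ext hbb' ?_, hdd'⟩
        rw [Bool.not_eq_true] at hε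
        simp [iv, hε, hε']
      · rw [if_neg hε, if_neg hε'] at hdd'
        refine hdis.1 ⟨Prod.ext hbb' ?_, hdd'⟩
        rw [Bool.not_eq_true] at hε hε'
        rw [hε, hε']
  have hvd : Vd (bb j) (dm ρ j) := by
    intro i i' hne hb heq
    rcases lt_or_gt_of_ne hne with h | h
    · exact hlt i i' h hb heq
    · exact hlt i' i h hb.symm heq.symm
  refine ⟨j, ⟨hvd, ?_⟩, hedge⟩
  intro i i' hne hb heq
  apply hvd i i' hne hb
  apply (τ (bb j i)).injective
  have h1 := hedge i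
  have h2 := hedge i'
  rw [← hb] at h2
  rw [h1, h2]
  exact heq

/-! ### Counting -/

theorem card_fix [Finite X] {n : ℕ} (i : Fin (n + 1)) (z : X) :
    {t : Fin (n + 1) → X | t i = z}.ncard ≤ Nat.card X ^ n := by
  have h1 : Nat.card X ^ n = (Set.univ : Set (Fin n → X)).ncard := by
    rw [Set.ncard_univ, Nat.card_fun, Nat.card_fin]
  rw [h1]
  refine Set.ncard_le_ncard_of_injOn (fun t => fun l => t (i.succAbove l))
    (fun _ _ => Set.mem_univ _) ?_ (Set.toFinite _)
  intro t ht t' ht' heq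
  funext l
  rcases Fin.eq_self_or_eq_succAbove i l with h | ⟨m, h⟩
  · rw [h]
    exact (show t i = z from ht).trans (show t' i = z from ht').symm
  · rw [h]
    exact congrFun heq m

theorem card_nb [Finite X] (ρ : A → Equiv.Perm X) (j : Idx A B X L) (n : Fin L)
    (cd : Fin (n.1 + 1) → (B × Bool) × GW A L) :
    {t : Fin (n.1 + 1) → X | nb ρ j ⟨n, (cd, t)⟩}.ncard ≤ 4 * L ^ 2 * Nat.card X ^ n.1 := by
  classical
  let T : Fin (j.1.1 + 1) × Fin (n.1 + 1) × Fin 4 → Set (Fin (n.1 + 1) → X) := fun p =>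
    match p.2.2 with
    | 0 => {t | t p.2.1 = dm ρ j p.1}
    | 1 => {t | t (p.2.1 + 1) = (wp ρ (cd p.2.1).2.1)⁻¹ (dm ρ j p.1)}
    | 2 => {t | t p.2.1 = rn ρ j p.1}
    | 3 => {t | t (p.2.1 + 1) = (wp ρ (cd p.2.1).2.1)⁻¹ (rn ρ j p.1)}
  have hT : ∀ p, (T p).ncard ≤ Nat.card X ^ n.1 := by
    rintro ⟨l, i, m⟩
    fin_cases m
    · exact card_fix _ _
    · exact card_fix _ _
    · exact card_fix _ _
    · exact card_fix _ _
  have hsub : {t : Fin (n.1 + 1) → X | nb ρ j ⟨n, (cd, t)⟩} ⊆ ⋃ p ∈ (Finset.univ : Finset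
      (Fin (j.1.1 + 1) × Fin (n.1 + 1) × Fin 4)), T p := by
    rintro t ⟨l, i, _, h⟩
    simp only [Finset.mem_univ, Set.iUnion_true, Set.mem_iUnion]
    rcases h with h | h
    · unfold dm at h
      by_cases hε : (cd i).1.2 = true
      · refine ⟨(l, i, 1), ?_⟩
        change t (i + 1) = (wp ρ (cd i).2.1)⁻¹ (dm ρ j l)
        rw [Equiv.Perm.eq_inv_iff_eq]
        change _ = if (cd i).1.2 then _ else _ at h
        rw [if_pos hε] at h
        exact h.symm
      · refine ⟨(l, i, 0), ?_⟩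
        change t i = dm ρ j l
        change _ = if (cd i).1.2 then _ else _ at h
        rw [if_neg hε] at h
        exact h.symm
    · unfold rn at h
      by_cases hε : (cd i).1.2 = true
      · refine ⟨(l, i, 2), ?_⟩
        change t i = rn ρ j l
        change _ = if (cd i).1.2 then _ else _ at h
        rw [if_pos hε] at h
        exact h.symm
      · refine ⟨(l, i, 3), ?_⟩
        change t (i + 1) = (wp ρ (cd i).2.1)⁻¹ (rn ρ j l)
        rw [Equiv.Perm.eq_inv_iff_eq]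
        change _ = if (cd i).1.2 then _ else _ at h
        rw [if_neg hε] at h
        exact h.symm
  calc _ ≤ (⋃ p ∈ (Finset.univ : Finset (Fin (j.1.1 + 1) × Fin (n.1 + 1) × Fin 4)), T p).ncard :=
        Set.ncard_le_ncard hsub (Set.toFinite _)
    _ ≤ ∑ p : Fin (j.1.1 + 1) × Fin (n.1 + 1) × Fin 4, (T p).ncard :=
        Finset.set_ncard_biUnion_le _ _
    _ ≤ ∑ p : Fin (j.1.1 + 1) × Fin (n.1 + 1) × Fin 4, Nat.card X ^ n.1 :=
        Finset.sum_le_sum fun p _ => hT p
    _ = (j.1.1 + 1) * ((n.1 + 1) * 4) * Nat.card X ^ n.1 := by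
        simp [Fintype.card_prod, Finset.sum_const]
    _ ≤ 4 * L ^ 2 * Nat.card X ^ n.1 := by
        apply Nat.mul_le_mul_right
        have h1 : j.1.1 + 1 ≤ L := j.1.2
        have h2 : n.1 + 1 ≤ L := n.2
        calc (j.1.1 + 1) * ((n.1 + 1) * 4) ≤ L * (L * 4) := by gcongr
          _ = 4 * L ^ 2 := by ring

theorem half_pow_le {M L n : ℕ} (hn : n + 1 ≤ L) (hM : 2 * L ≤ M) :
    ((M : ℝ) / 2) ^ (n + 1) ≤ (M.descFactorial (n + 1) : ℝ) := by
  have h1 : (M + 1 - (n + 1)) ^ (n + 1) ≤ M.descFactorial (n + 1) :=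
    Nat.pow_sub_le_descFactorial M (n + 1)
  have h2 : (M : ℝ) / 2 ≤ ((M + 1 - (n + 1) : ℕ) : ℝ) := by
    have h3 : M + 1 - (n + 1) = M - n := by omega
    rw [h3, Nat.cast_sub (by omega)]
    have h4 : (2 : ℝ) * n ≤ M := by
      have : 2 * n ≤ M := by omega
      exact_mod_cast this
    linarith
  calc ((M : ℝ) / 2) ^ (n + 1) ≤ ((M + 1 - (n + 1) : ℕ) : ℝ) ^ (n + 1) := by
        gcongr
    _ = (((M + 1 - (n + 1)) ^ (n + 1) : ℕ) : ℝ) := by push_cast; ring
    _ ≤ _ := by exact_mod_cast h1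

/-- the bound for the probability of a canonical event -/
theorem prob_le [Finite X] [Finite B] (ρ : A → Equiv.Perm X) (j : Idx A B X L)
    (hM : 2 * L ≤ Nat.card X) (hpos : 0 < Nat.card X) :
    ((EE ρ j).ncard : ℝ) / (Nat.card (B → Equiv.Perm X) : ℝ) ≤
      2 ^ L / (Nat.card X : ℝ) ^ (j.1.1 + 1) := by
  have h1 := ev_card (bb j) (dm ρ j) (rn ρ j)
  have h2 : ((EE ρ j).ncard : ℝ) * ((Nat.card X).descFactorial (j.1.1 + 1) : ℝ) ≤
      (Nat.card (B → Equiv.Perm X) : ℝ) := by exact_mod_cast h1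
  have hn : j.1.1 + 1 ≤ L := j.1.2
  have h3 := half_pow_le hn hM
  have hXpos : (0 : ℝ) < Nat.card X := by exact_mod_cast hpos
  have hNpos : (0 : ℝ) < Nat.card (B → Equiv.Perm X) := by
    have : 0 < Nat.card (B → Equiv.Perm X) := Nat.card_pos
    exact_mod_cast this
  rw [div_le_div_iff₀ hNpos (by positivity)]
  have h4 : ((EE ρ j).ncard : ℝ) * ((Nat.card X : ℝ) / 2) ^ (j.1.1 + 1) ≤
      (Nat.card (B → Equiv.Perm X) : ℝ) :=
    le_trans (mul_le_mul_of_nonneg_left h3 (by positivity)) h2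
  rw [div_pow] at h4
  have h5 : ((EE ρ j).ncard : ℝ) * (Nat.card X : ℝ) ^ (j.1.1 + 1) ≤
      2 ^ (j.1.1 + 1) * (Nat.card (B → Equiv.Perm X) : ℝ) := by
    have : ((EE ρ j).ncard : ℝ) * ((Nat.card X : ℝ) ^ (j.1.1 + 1) / 2 ^ (j.1.1 + 1)) *
        2 ^ (j.1.1 + 1) ≤ (Nat.card (B → Equiv.Perm X) : ℝ) * 2 ^ (j.1.1 + 1) := by
      gcongr
    calc ((EE ρ j).ncard : ℝ) * (Nat.card X : ℝ) ^ (j.1.1 + 1)
        = ((EE ρ j).ncard : ℝ) * ((Nat.card X : ℝ) ^ (j.1.1 + 1) / 2 ^ (j.1.1 + 1)) *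
        2 ^ (j.1.1 + 1) := by field_simp
      _ ≤ _ := this
      _ = _ := by ring
  refine le_trans h5 ?_
  gcongr
  · norm_num

end final

end NL

open NL in
/-- M1b: a positive proportion of tuples of permutations has no short reduced cycle -/
theorem noLin_count (A B : Type) [Fintype A] [Fintype B] (L : ℕ) :
    ∃ c : ℝ, 0 < c ∧ ∃ M₀ : ℕ, ∀ (X : Type) [Fintype X] [DecidableEq X],
      M₀ ≤ Fintype.card X → ∀ ρ : A → Equiv.Perm X,
      c * ((Fintype.card X).factorial : ℝ) ^ Fintype.card B ≤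
        ({τ : B → Equiv.Perm X | NoLin (Sum.elim ρ τ) L}.ncard : ℝ) := by
  classical
  have : Fintype (GW A L) := Fintype.ofFinite _
  set E : ℕ := Fintype.card ((B × Bool) × GW A L) with hE
  set K : ℝ := L * (E + 1) ^ L * 2 ^ L with hK
  refine ⟨Real.exp (-4 * K), Real.exp_pos _, 16 * L ^ 3 * (E + 1) ^ L * 2 ^ L + 2 * L + 1, ?_⟩
  intro X _ _ hX ρ
  have hXc : Nat.card X = Fintype.card X := Nat.card_eq_fintype_card
  set M := Fintype.card X with hM
  have hM2 : 2 * L ≤ M := by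
    have : 2 * L ≤ 16 * L ^ 3 * (E + 1) ^ L * 2 ^ L + 2 * L + 1 := by omega
    omega
  have hMpos : 0 < M := by
    have : 0 < 16 * L ^ 3 * (E + 1) ^ L * 2 ^ L + 2 * L + 1 := by omega
    omega
  have hMposR : (0 : ℝ) < M := by exact_mod_cast hMpos
  have hΩ : Fintype.card (B → Equiv.Perm X) = M.factorial ^ Fintype.card B := by
    rw [Fintype.card_fun, Fintype.card_perm]
  have hΩN : Nat.card (B → Equiv.Perm X) = Fintype.card (B → Equiv.Perm X) :=
    Nat.card_eq_fintype_card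
  have hprob : ∀ j : Idx A B X L, ((EE ρ j).ncard : ℝ) / (Fintype.card (B → Equiv.Perm X) : ℝ) ≤
      2 ^ L / (M : ℝ) ^ (j.1.1 + 1) := by
    intro j
    have := prob_le ρ j (by rw [hXc]; exact hM2) (by rw [hXc]; exact hMpos)
    rw [hXc, hΩN] at this
    exact this
  have hpowE : ∀ n : Fin L, ((E : ℝ)) ^ (n.1 + 1) ≤ (E + 1) ^ L := by
    intro n
    have h1 : n.1 + 1 ≤ L := n.2
    calc ((E : ℝ)) ^ (n.1 + 1) ≤ ((E : ℝ) + 1) ^ (n.1 + 1) := by gcongr; linarith
      _ ≤ (E + 1) ^ L := by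
        apply pow_le_pow_right₀ _ h1
        have : (0 : ℝ) ≤ E := by positivity
        linarith
  have hcode : ∀ n : Fin L, (Fintype.card (Fin (n.1 + 1) → (B × Bool) × GW A L) : ℝ) =
      (E : ℝ) ^ (n.1 + 1) := by
    intro n
    rw [Fintype.card_fun, Fintype.card_fin, ← hE]
    push_cast
    ring
  have key := lll (Ω := B → Equiv.Perm X) (ι := Idx A B X L) (fun j => EE ρ j)
    (fun j j' => nb ρ j j') ?_ ?_ K ?_
  · rw [hΩ] at key
    push_cast at key
    refine le_trans key ?_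
    have hsub : {τ : B → Equiv.Perm X | ∀ j : Idx A B X L, τ ∉ EE ρ j} ⊆
        {τ : B → Equiv.Perm X | NoLin (Sum.elim ρ τ) L} := by
      intro τ hτ
      by_contra hcon
      obtain ⟨j, hj⟩ := exists_event ρ τ hcon
      exact hτ j hj
    exact_mod_cast Set.ncard_le_ncard hsub (Set.toFinite _)
  · -- negative correlation
    intro j S hS
    by_cases hv : Vd (bb j) (dm ρ j) ∧ Vd (bb j) (rn ρ j)
    · have h1 := neg_corr (bb j) (dm ρ j) (rn ρ j) hv
        {τ : B → Equiv.Perm X | ∀ j' ∈ S, τ ∉ EE ρ j'} (by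
        intro τ σ hτ hτT hσ j' hj' hcon
        apply hτT j' hj'
        refine ⟨hcon.1, fun i' => ?_⟩
        have h2 := hcon.2 i'
        simp only [Equiv.Perm.mul_apply] at h2
        have h3 : σ (bb j' i') (rn ρ j' i') = rn ρ j' i' := by
          apply hσ
          intro i hi
          constructor
          · intro h4
            exact hS j' hj' ⟨i, i', hi, Or.inr h4.symm⟩
          · intro h4
            apply hS j' hj'
            refine ⟨i, i', hi, Or.inl ?_⟩
            rw [← h2] at h4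
            have h5 := (σ (bb j' i')).injective h4
            rw [← hτ.2 i, hi] at h5
            exact ((τ (bb j' i')).injective h5).symm
        have h6 : σ (bb j' i') (τ (bb j' i') (dm ρ j' i')) = σ (bb j' i') (rn ρ j' i') := by
          rw [h3]; exact h2
        exact (σ (bb j' i')).injective h6)
      rw [hΩN] at h1
      have h7 : {ω | ω ∈ EE ρ j ∧ ∀ j' ∈ S, ω ∉ EE ρ j'} =
          Ev (bb j) (dm ρ j) (rn ρ j) ∩ {τ : B → Equiv.Perm X | ∀ j' ∈ S, τ ∉ EE ρ j'} := rfl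
      rw [h7]
      exact_mod_cast h1
    · have h1 : EE ρ j = ∅ := by
        ext τ
        simp only [EE, Ev, Set.mem_setOf_eq, Set.mem_empty_iff_false, iff_false]
        exact fun h => hv h.1
      rw [h1]
      simp
  · -- neighbours
    intro j S hS
    have hself : nb ρ j j := ⟨0, 0, rfl, Or.inl rfl⟩
    have h1 : ∑ j' ∈ S, ((EE ρ j').ncard : ℝ) / (Fintype.card (B → Equiv.Perm X) : ℝ) ≤
        ∑ j' : Idx A B X L, if nb ρ j j' then 2 ^ L / (M : ℝ) ^ (j'.1.1 + 1) else 0 := by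
      rw [← Finset.sum_filter]
      refine le_trans (Finset.sum_le_sum fun j' _ => hprob j') ?_
      apply Finset.sum_le_sum_of_subset_of_nonneg
      · intro j' hj'
        rw [Finset.mem_filter]
        refine ⟨Finset.mem_univ _, ?_⟩
        rcases hS j' hj' with h | h
        · exact h
        · rw [h]; exact hself
      · intro j' _ _
        positivity
    refine le_trans h1 ?_
    have h2 : ∀ n : Fin L, ∀ cd : Fin (n.1 + 1) → (B × Bool) × GW A L,
        ∑ t : Fin (n.1 + 1) → X, (if nb ρ j ⟨n, (cd, t)⟩ then 2 ^ L / (M : ℝ) ^ (n.1 + 1) else 0) ≤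
          4 * L ^ 2 * 2 ^ L / M := by
      intro n cd
      rw [← Finset.sum_filter, Finset.sum_const, nsmul_eq_mul]
      have h3 := card_nb ρ j n cd
      rw [hXc] at h3
      have h4 : ((Finset.univ.filter fun t : Fin (n.1 + 1) → X => nb ρ j ⟨n, (cd, t)⟩).card : ℝ) ≤
          4 * L ^ 2 * (M : ℝ) ^ n.1 := by
        have h5 : (Finset.univ.filter fun t : Fin (n.1 + 1) → X => nb ρ j ⟨n, (cd, t)⟩).card =
            {t : Fin (n.1 + 1) → X | nb ρ j ⟨n, (cd, t)⟩}.ncard := by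
          rw [← Set.ncard_coe_finset]
          congr 1
          ext t
          simp
        rw [h5]
        exact_mod_cast h3
      calc _ ≤ 4 * L ^ 2 * (M : ℝ) ^ n.1 * (2 ^ L / (M : ℝ) ^ (n.1 + 1)) := by gcongr
        _ = 4 * L ^ 2 * 2 ^ L / M := by
          have h8 : (M : ℝ) ^ n.1 ≠ 0 := by positivity
          rw [pow_succ (M : ℝ) n.1]
          field_simp
    calc ∑ j' : Idx A B X L, (if nb ρ j j' then 2 ^ L / (M : ℝ) ^ (j'.1.1 + 1) else 0)
        = ∑ n : Fin L, ∑ cd : Fin (n.1 + 1) → (B × Bool) × GW A L, ∑ t : Fin (n.1 + 1) → X,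
          (if nb ρ j ⟨n, (cd, t)⟩ then 2 ^ L / (M : ℝ) ^ (n.1 + 1) else 0) := by
          rw [Fintype.sum_sigma]
          refine Finset.sum_congr rfl fun n _ => ?_
          rw [Fintype.sum_prod_type]
      _ ≤ ∑ n : Fin L, ∑ cd : Fin (n.1 + 1) → (B × Bool) × GW A L, 4 * L ^ 2 * 2 ^ L / (M : ℝ) :=
          Finset.sum_le_sum fun n _ => Finset.sum_le_sum fun cd _ => h2 n cd
      _ ≤ ∑ _n : Fin L, ((E : ℝ) + 1) ^ L * (4 * (L : ℝ) ^ 2 * 2 ^ L / (M : ℝ)) := by
          refine Finset.sum_le_sum fun n _ => ?_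
          rw [Finset.sum_const, nsmul_eq_mul, Finset.card_univ, hcode n]
          gcongr
          exact hpowE n
      _ = 4 * (L : ℝ) ^ 3 * ((E : ℝ) + 1) ^ L * 2 ^ L / (M : ℝ) := by
          rw [Finset.sum_const, nsmul_eq_mul, Finset.card_univ, Fintype.card_fin]
          ring
      _ ≤ 1 / 4 := by
          rw [div_le_iff₀ hMposR]
          have h6 : (16 * L ^ 3 * (E + 1) ^ L * 2 ^ L : ℝ) ≤ M := by
            have : 16 * L ^ 3 * (E + 1) ^ L * 2 ^ L ≤ M := by omega
            exact_mod_cast this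
          linarith
  · -- total
    calc ∑ j : Idx A B X L, ((EE ρ j).ncard : ℝ) / (Fintype.card (B → Equiv.Perm X) : ℝ)
        ≤ ∑ j : Idx A B X L, 2 ^ L / (M : ℝ) ^ (j.1.1 + 1) := Finset.sum_le_sum fun j _ => hprob j
      _ = ∑ n : Fin L, ∑ cd : Fin (n.1 + 1) → (B × Bool) × GW A L, ∑ t : Fin (n.1 + 1) → X,
          2 ^ L / (M : ℝ) ^ (n.1 + 1) := by
          rw [Fintype.sum_sigma]
          refine Finset.sum_congr rfl fun n _ => ?_
          rw [Fintype.sum_prod_type]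
      _ ≤ ∑ _n : Fin L, ((E : ℝ) + 1) ^ L * 2 ^ L := by
          refine Finset.sum_le_sum fun n _ => ?_
          have h3 : ∑ t : Fin (n.1 + 1) → X, 2 ^ L / (M : ℝ) ^ (n.1 + 1) = 2 ^ L := by
            rw [Finset.sum_const, nsmul_eq_mul, Finset.card_univ, Fintype.card_fun,
              Fintype.card_fin, ← hM]
            push_cast
            field_simp
          rw [h3, Finset.sum_const, nsmul_eq_mul, Finset.card_univ, hcode n]
          gcongr
          exact hpowE n
      _ = K := by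
          rw [Finset.sum_const, nsmul_eq_mul, Finset.card_univ, Fintype.card_fin, hK]
          ring

end Pool.Agent.Helper55.LF
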