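import Mathlib
import Pool.Agent.Helper55.LF.Defs

/-! Crossing lists of lamp words and the evaluation formula in the level groups.

A word over `AL B` is read from left to right as a walk on `ℤ`: the letter `(α, β)` with sign `+` at
position `n` crosses the edge `n` and adds `(α, β)` to the lamps there, the letter with sign `-` at
position `n` crosses the edge `n - 1` and subtracts `(α, β)` there. The crossing list consists of the
triples (edge, change of the `a`-lamp, change of the `b`-lamp). -/

namespace Pool.Agent.Helper55.LF

/-- crossing list of a word, started at position `n` -/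
def clist {B : ℕ} : Wd (AL B) → ℤ → List (ℤ × ℤ × ℤ)
  | [], _ => []
  | (Sum.inl (a, b), true) :: u, n => (n, ((a : ℕ) : ℤ), ((b : ℕ) : ℤ)) :: clist u (n + 1)
  | (Sum.inl (a, b), false) :: u, n =>
      (n - 1, -((a : ℕ) : ℤ), -((b : ℕ) : ℤ)) :: clist u (n - 1)
  | (Sum.inr _, _) :: u, n => clist u n

/-- end position of a word started at position `n` -/
def cend {B : ℕ} : Wd (AL B) → ℤ → ℤ
  | [], n => n
  | (Sum.inl _, true) :: u, n => cend u (n + 1)
  | (Sum.inl _, false) :: u, n => cend u (n - 1)
  | (Sum.inr _, _) :: u, n => cend u n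

/-- weighted sum of the `a`-lamps -/
def csA (w : ℤ → ℤ) (c : List (ℤ × ℤ × ℤ)) : ℤ := (c.map fun t => w t.1 * t.2.1).sum

/-- weighted sum of the `b`-lamps -/
def csB (w : ℤ → ℤ) (c : List (ℤ × ℤ × ℤ)) : ℤ := (c.map fun t => w t.1 * t.2.2).sum

/-- weighted sum of the products of an earlier `a`-change and a later `b`-change -/
def csP (w : ℤ → ℤ → ℤ) : List (ℤ × ℤ × ℤ) → ℤ
  | [] => 0
  | t :: c => t.2.1 * csB (w t.1) c + csP w c

@[simp] lemma csA_nil (w : ℤ → ℤ) : csA w [] = 0 := rfl
@[simp] lemma csA_cons (w : ℤ → ℤ) (t) (c) : csA w (t :: c) = w t.1 * t.2.1 + csA w c := by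
  simp [csA]
@[simp] lemma csB_nil (w : ℤ → ℤ) : csB w [] = 0 := rfl
@[simp] lemma csB_cons (w : ℤ → ℤ) (t) (c) : csB w (t :: c) = w t.1 * t.2.2 + csB w c := by
  simp [csB]
@[simp] lemma csP_nil (w : ℤ → ℤ → ℤ) : csP w [] = 0 := rfl
@[simp] lemma csP_cons (w : ℤ → ℤ → ℤ) (t) (c) :
    csP w (t :: c) = t.2.1 * csB (w t.1) c + csP w c := rfl

lemma csA_append (w : ℤ → ℤ) (c c') : csA w (c ++ c') = csA w c + csA w c' := by
  simp [csA]
lemma csB_append (w : ℤ → ℤ) (c c') : csB w (c ++ c') = csB w c + csB w c' := by
  simp [csB]

lemma csP_append (w₁ w₂ : ℤ → ℤ) (c c') :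
    csP (fun e e' => w₁ e * w₂ e') (c ++ c') =
      csP (fun e e' => w₁ e * w₂ e') c + csP (fun e e' => w₁ e * w₂ e') c' +
        csA w₁ c * csB w₂ c' := by
  have key : ∀ (k : ℤ) (d : List (ℤ × ℤ × ℤ)), csB (fun e' => k * w₂ e') d = k * csB w₂ d := by
    intro k d
    induction d with
    | nil => simp
    | cons t d ih => simp only [csB_cons, ih]; ring
  induction c with
  | nil => simp
  | cons t c ih =>
      simp only [List.cons_append, csP_cons, csA_cons, ih, csB_append, key]
      ring

lemma csA_congr {w w' : ℤ → ℤ} {c : List (ℤ × ℤ × ℤ)} (h : ∀ t ∈ c, w t.1 = w' t.1) :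
    csA w c = csA w' c := by
  induction c with
  | nil => simp
  | cons t c ih =>
      simp only [csA_cons]
      rw [h t (by simp), ih fun s hs => h s (by simp [hs])]

lemma csB_congr {w w' : ℤ → ℤ} {c : List (ℤ × ℤ × ℤ)} (h : ∀ t ∈ c, w t.1 = w' t.1) :
    csB w c = csB w' c := by
  induction c with
  | nil => simp
  | cons t c ih =>
      simp only [csB_cons]
      rw [h t (by simp), ih fun s hs => h s (by simp [hs])]

lemma csP_congr {w w' : ℤ → ℤ → ℤ} {c : List (ℤ × ℤ × ℤ)}
    (h : ∀ t ∈ c, ∀ s ∈ c, w t.1 s.1 = w' t.1 s.1) : csP w c = csP w' c := by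
  induction c with
  | nil => simp
  | cons t c ih =>
      simp only [csP_cons]
      rw [csB_congr (w' := w' t.1) fun s hs => h t (by simp) s (by simp [hs]),
        ih fun s hs s' hs' => h s (by simp [hs]) s' (by simp [hs'])]

lemma csA_zero {w : ℤ → ℤ} {c : List (ℤ × ℤ × ℤ)} (h : ∀ t ∈ c, w t.1 = 0) : csA w c = 0 := by
  rw [csA_congr (w' := fun _ => 0) h]; simp [csA]
lemma csB_zero {w : ℤ → ℤ} {c : List (ℤ × ℤ × ℤ)} (h : ∀ t ∈ c, w t.1 = 0) : csB w c = 0 := by
  rw [csB_congr (w' := fun _ => 0) h]; simp [csB]

lemma csP_zero {w : ℤ → ℤ → ℤ} {c : List (ℤ × ℤ × ℤ)}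
    (h : ∀ t ∈ c, ∀ s ∈ c, w t.1 s.1 = 0) : csP w c = 0 := by
  induction c with
  | nil => simp
  | cons t c ih =>
      simp only [csP_cons]
      rw [csB_zero fun s hs => h t (by simp) s (by simp [hs]),
        ih fun s hs s' hs' => h s (by simp [hs]) s' (by simp [hs'])]
      simp

lemma csA_sum {ι : Type*} (E : Finset ι) (w : ι → ℤ → ℤ) (c) :
    csA (fun e => ∑ i ∈ E, w i e) c = ∑ i ∈ E, csA (w i) c := by
  induction c with
  | nil => simp
  | cons t c ih => simp only [csA_cons, ih, Finset.sum_add_distrib, Finset.sum_mul]

lemma csB_sum {ι : Type*} (E : Finset ι) (w : ι → ℤ → ℤ) (c) :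
    csB (fun e => ∑ i ∈ E, w i e) c = ∑ i ∈ E, csB (w i) c := by
  induction c with
  | nil => simp
  | cons t c ih => simp only [csB_cons, ih, Finset.sum_add_distrib, Finset.sum_mul]

lemma csP_sum {ι : Type*} (E : Finset ι) (w : ι → ℤ → ℤ → ℤ) (c) :
    csP (fun e e' => ∑ i ∈ E, w i e e') c = ∑ i ∈ E, csP (w i) c := by
  induction c with
  | nil => simp
  | cons t c ih =>
      simp only [csP_cons, ih, Finset.sum_add_distrib]
      rw [csB_sum, Finset.mul_sum]

lemma csA_smul (k : ℤ) (w : ℤ → ℤ) (c) : csA (fun e => k * w e) c = k * csA w c := by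
  induction c with
  | nil => simp
  | cons t c ih => simp only [csA_cons, ih]; ring

lemma csB_smul (k : ℤ) (w : ℤ → ℤ) (c) : csB (fun e => k * w e) c = k * csB w c := by
  induction c with
  | nil => simp
  | cons t c ih => simp only [csB_cons, ih]; ring

lemma csP_smul (k : ℤ) (w : ℤ → ℤ → ℤ) (c) : csP (fun e e' => k * w e e') c = k * csP w c := by
  induction c with
  | nil => simp
  | cons t c ih => simp only [csP_cons, ih, csB_smul]; ring

/-- the `a`-lamp at the edge `e` -/
def lampA (c : List (ℤ × ℤ × ℤ)) (e : ℤ) : ℤ := csA (fun x => if x = e then 1 else 0) c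
/-- the `b`-lamp at the edge `e` -/
def lampB (c : List (ℤ × ℤ × ℤ)) (e : ℤ) : ℤ := csB (fun x => if x = e then 1 else 0) c
/-- the pairing of the `a`-changes at `e` with the later `b`-changes at `e'` -/
def lampC (c : List (ℤ × ℤ × ℤ)) (e e' : ℤ) : ℤ :=
  csP (fun x x' => (if x = e then 1 else 0) * (if x' = e' then 1 else 0)) c

/-- decomposition of a weighted sum of `a`-lamps into edges -/
lemma csA_eq_sum (w : ℤ → ℤ) (c : List (ℤ × ℤ × ℤ)) (E : Finset ℤ) (hE : ∀ t ∈ c, t.1 ∈ E) :
    csA w c = ∑ e ∈ E, w e * lampA c e := by
  simp only [lampA, ← csA_smul, ← csA_sum]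
  refine csA_congr fun t ht => ?_
  simp [hE t ht]

lemma csB_eq_sum (w : ℤ → ℤ) (c : List (ℤ × ℤ × ℤ)) (E : Finset ℤ) (hE : ∀ t ∈ c, t.1 ∈ E) :
    csB w c = ∑ e ∈ E, w e * lampB c e := by
  simp only [lampB, ← csB_smul, ← csB_sum]
  refine csB_congr fun t ht => ?_
  simp [hE t ht]

lemma csP_eq_sum (w : ℤ → ℤ → ℤ) (c : List (ℤ × ℤ × ℤ)) (E : Finset ℤ) (hE : ∀ t ∈ c, t.1 ∈ E) :
    csP w c = ∑ e ∈ E, ∑ e' ∈ E, w e e' * lampC c e e' := by
  simp only [lampC, ← csP_smul, ← csP_sum]
  refine csP_congr fun t ht s hs => ?_
  simp [hE t ht, hE s hs]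

/-- a nonzero weighted pair sum comes from a pair of edges -/
lemma exists_lampC_ne (w : ℤ → ℤ → ℤ) (c : List (ℤ × ℤ × ℤ)) (h : csP w c ≠ 0) :
    ∃ e e', w e e' ≠ 0 ∧ lampC c e e' ≠ 0 := by
  by_contra hcon
  push Not at hcon
  apply h
  rw [csP_eq_sum w c (c.map Prod.fst).toFinset (by
    intro t ht
    simp only [List.mem_toFinset, List.mem_map]
    exact ⟨t, ht, rfl⟩)]
  refine Finset.sum_eq_zero fun e _ => Finset.sum_eq_zero fun e' _ => ?_
  by_cases hw : w e e' = 0
  · rw [hw, zero_mul]
  · rw [hcon e e' hw, mul_zero]

section eval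
variable (P : Par) {B : ℕ}

/-- the edges above a position of `ZMod l` -/
def wtL (x : ZMod P.l) : ℤ → ℤ := fun e => if (e : ZMod P.l) = x then 1 else 0

/-- the weight of the pairing in the level group -/
def wtH (y : ZMod P.D) : ℤ → ℤ → ℤ := fun e e' =>
  if (e : ZMod P.D) = y ∧ (e : ZMod P.l) - (P.D : ZMod P.l) = (e' : ZMod P.l) then 1 else 0

lemma D_ne_zero_l : (P.D : ZMod P.l) ≠ 0 := by
  intro h
  rw [ZMod.natCast_eq_zero_iff] at h
  have h1 := Nat.le_of_dvd P.hD h
  have := P.h3
  have := P.hD
  omega

lemma kl_inv (α β : ℤ) : (kl P α β)⁻¹ =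
    ⟨fun e => if e = -1 then (-α : ℤ) else 0, fun e => if e = -1 then (-β : ℤ) else 0,
      fun _ => 0, -1⟩ := by
  have h1 : ∀ e : ZMod P.l, (e + 1 = 0) ↔ (e = -1) := fun e => by
    rw [add_eq_zero_iff_eq_neg]
  have h0 : om P (Pi.single 0 (α : ZMod P.m)) (Pi.single 0 (β : ZMod P.m)) = fun _ => 0 := by
    funext y
    unfold om
    refine Finset.sum_eq_zero fun e _ => ?_
    by_cases he : e = 0
    · subst he
      have : ((0 : ZMod P.l) - (P.D : ZMod P.l)) ≠ 0 := by
        rw [zero_sub]
        exact neg_ne_zero.mpr (D_ne_zero_l P)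
      rw [Pi.single_eq_of_ne this, mul_zero]
      split_ifs <;> rfl
    · simp [Pi.single_apply, he]
  ext e
  · simp only [KG.inv_f, kl, Pi.single_apply, h1]
    split_ifs <;> simp
  · simp only [KG.inv_g, kl, Pi.single_apply, h1]
    split_ifs <;> simp
  · simp [KG.inv_h, kl, h0]
  · simp [kl]

/-- the evaluation formula -/
theorem wp_kv_eq (u : Wd (AL B)) (n : ℤ) :
    wp (kv P B) u =
      ⟨fun x => (csA (wtL P (x + n)) (clist u n) : ℤ), fun x => (csB (wtL P (x + n)) (clist u n) : ℤ),
        fun y => (csP (wtH P (y + n)) (clist u n) : ℤ), ((cend u n - n : ℤ) : ZMod P.l)⟩ := by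
  induction u generalizing n with
  | nil =>
      ext e <;> simp [clist, cend]
  | cons s u ih =>
      obtain ⟨a, b⟩ := s
      rcases a with ⟨α, β⟩ | i
      · cases b
        · -- negative letter
          rw [wp_cons, lv_false, ih (n - 1)]
          simp only [kv, kl_inv]
          ext e
          · simp only [KG.mul_f, clist, csA_cons, wtL]
            have h1 : (((n - 1 : ℤ) : ZMod P.l) = e + n) ↔ e = -1 := by
              push_cast
              constructor
              · intro h
                have : e = (n - 1 : ZMod P.l) - n := by rw [h]; ring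
                rw [this]; ring
              · rintro rfl; ring
            have h2 : (e - -1 + ((n - 1 : ℤ) : ZMod P.l)) = e + n := by push_cast; ring
            simp only [h1, h2]
            split_ifs <;> push_cast <;> ring
          · simp only [KG.mul_g, clist, csB_cons, wtL]
            have h1 : (((n - 1 : ℤ) : ZMod P.l) = e + n) ↔ e = -1 := by
              push_cast
              constructor
              · intro h
                have : e = (n - 1 : ZMod P.l) - n := by rw [h]; ring
                rw [this]; ring
              · rintro rfl; ring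
            have h2 : (e - -1 + ((n - 1 : ℤ) : ZMod P.l)) = e + n := by push_cast; ring
            simp only [h1, h2]
            split_ifs <;> push_cast <;> ring
          · simp only [KG.mul_h, clist, csP_cons, map_neg, map_one]
            have h2 : (e - -1 + ((n - 1 : ℤ) : ZMod P.D)) = e + n := by push_cast; ring
            rw [h2]
            have h3 : om P (fun e => if e = -1 then ((-((α : ℕ) : ℤ) : ℤ) : ZMod P.m) else 0)
                (fun e' => ((csB (wtL P (e' - -1 + ((n - 1 : ℤ) : ZMod P.l))) (clist u (n - 1)) : ℤ) :
                  ZMod P.m)) e = if e = -1 then ((-((α : ℕ) : ℤ) : ℤ) : ZMod P.m) *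
                  ((csB (wtL P (n - 1 - P.D : ZMod P.l)) (clist u (n - 1)) : ℤ) : ZMod P.m) else 0 := by
              unfold om
              rw [Finset.sum_eq_single (-1 : ZMod P.l)]
              · have : ((-1 : ZMod P.l) - P.D - -1 + ((n - 1 : ℤ) : ZMod P.l)) = n - 1 - P.D := by
                  push_cast; ring
                beta_reduce
                rw [this]
                simp only [map_neg, map_one, if_true]
                by_cases he : e = -1
                · simp [he]
                · rw [if_neg he, if_neg (fun h => he h.symm)]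
              · intro b _ hb
                simp [hb]
              · simp
            rw [h3]
            by_cases he : e = -1
            · subst he
              have h5 : csB (wtH P (-1 + (n : ZMod P.D)) (n - 1)) (clist u (n - 1)) =
                  csB (wtL P (n - 1 - P.D : ZMod P.l)) (clist u (n - 1)) := by
                refine csB_congr fun t _ => ?_
                simp only [wtH, wtL]
                have : (((n - 1 : ℤ) : ZMod P.D) = -1 + (n : ZMod P.D)) := by push_cast; ring
                simp only [this, true_and]
                push_cast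
                simp only [eq_comm]
              rw [if_pos rfl, h5]
              push_cast; ring
            · have h5 : csB (wtH P (e + (n : ZMod P.D)) (n - 1)) (clist u (n - 1)) = 0 := by
                refine csB_zero fun t _ => ?_
                simp only [wtH]
                have : ¬ (((n - 1 : ℤ) : ZMod P.D) = e + (n : ZMod P.D)) := by
                  intro h
                  apply he
                  push_cast at h
                  have : e = (n - 1 : ZMod P.D) - n := by rw [h]; ring
                  rw [this]; ring
                rw [if_neg fun h => this h.1]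
              rw [if_neg he, h5]
              push_cast; ring
          · simp only [KG.mul_n, cend]; push_cast; ring
        · -- positive letter
          rw [wp_cons, lv_true, ih (n + 1)]
          simp only [kv, kl]
          ext e
          · simp only [KG.mul_f, clist, csA_cons, wtL, Pi.single_apply]
            have h1 : (((n : ℤ) : ZMod P.l) = e + n) ↔ e = 0 := by
              constructor
              · intro h
                simpa using h
              · rintro rfl; ring
            have h2 : (e - 1 + ((n + 1 : ℤ) : ZMod P.l)) = e + n := by push_cast; ring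
            simp only [h1, h2]
            split_ifs <;> push_cast <;> ring
          · simp only [KG.mul_g, clist, csB_cons, wtL, Pi.single_apply]
            have h1 : (((n : ℤ) : ZMod P.l) = e + n) ↔ e = 0 := by
              constructor
              · intro h
                simpa using h
              · rintro rfl; ring
            have h2 : (e - 1 + ((n + 1 : ℤ) : ZMod P.l)) = e + n := by push_cast; ring
            simp only [h1, h2]
            split_ifs <;> push_cast <;> ring
          · simp only [KG.mul_h, clist, csP_cons, map_one]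
            have h2 : (e - 1 + ((n + 1 : ℤ) : ZMod P.D)) = e + n := by push_cast; ring
            rw [h2]
            have h3 : om P (Pi.single 0 ((((α : ℕ) : ℤ)) : ZMod P.m))
                (fun e' => ((csB (wtL P (e' - 1 + ((n + 1 : ℤ) : ZMod P.l))) (clist u (n + 1)) : ℤ) :
                  ZMod P.m)) e = if e = 0 then ((((α : ℕ) : ℤ)) : ZMod P.m) *
                  ((csB (wtL P (n - P.D : ZMod P.l)) (clist u (n + 1)) : ℤ) : ZMod P.m) else 0 := by
              unfold om
              rw [Finset.sum_eq_single (0 : ZMod P.l)]
              · have : ((0 : ZMod P.l) - P.D - 1 + ((n + 1 : ℤ) : ZMod P.l)) = n - P.D := by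
                  push_cast; ring
                beta_reduce
                rw [this]
                simp only [map_zero, Pi.single_eq_same]
                by_cases he : e = 0
                · simp [he]
                · rw [if_neg he, if_neg (fun h => he h.symm)]
              · intro b _ hb
                simp [hb]
              · simp
            rw [h3]
            by_cases he : e = 0
            · subst he
              have h5 : csB (wtH P (0 + (n : ZMod P.D)) n) (clist u (n + 1)) =
                  csB (wtL P (n - P.D : ZMod P.l)) (clist u (n + 1)) := by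
                refine csB_congr fun t _ => ?_
                simp only [wtH, wtL, zero_add, true_and]
                simp only [eq_comm]
              rw [if_pos rfl, h5]
              push_cast; ring
            · have h5 : csB (wtH P (e + (n : ZMod P.D)) n) (clist u (n + 1)) = 0 := by
                refine csB_zero fun t _ => ?_
                simp only [wtH]
                have : ¬ (((n : ℤ) : ZMod P.D) = e + (n : ZMod P.D)) := by
                  intro h
                  apply he
                  simpa using h
                rw [if_neg fun h => this h.1]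
              rw [if_neg he, h5]
              push_cast; ring
          · simp only [KG.mul_n, cend]; push_cast; ring
      · cases b
        · rw [wp_cons, lv_false, kv, inv_one, one_mul, ih n]
          rfl
        · rw [wp_cons, lv_true, kv, one_mul, ih n]
          rfl

/-- the evaluation formula for the walk started at `0` -/
theorem wp_kv_f (u : Wd (AL B)) (x : ZMod P.l) :
    (wp (kv P B) u).f x = ((csA (wtL P x) (clist u 0) : ℤ) : ZMod P.m) := by
  rw [wp_kv_eq P u 0]; simp
theorem wp_kv_g (u : Wd (AL B)) (x : ZMod P.l) :
    (wp (kv P B) u).g x = ((csB (wtL P x) (clist u 0) : ℤ) : ZMod P.m) := by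
  rw [wp_kv_eq P u 0]; simp
theorem wp_kv_h (u : Wd (AL B)) (y : ZMod P.D) :
    (wp (kv P B) u).h y = ((csP (wtH P y) (clist u 0) : ℤ) : ZMod P.m) := by
  rw [wp_kv_eq P u 0]; simp
theorem wp_kv_n (u : Wd (AL B)) :
    (wp (kv P B) u).n = ((cend u 0 : ℤ) : ZMod P.l) := by
  rw [wp_kv_eq P u 0]; simp

end eval

/-! ### Elementary bounds -/

lemma clist_length {B : ℕ} (u : Wd (AL B)) (n : ℤ) : (clist u n).length ≤ u.length := by
  induction u generalizing n with
  | nil => simp [clist]
  | cons s u ih =>
      obtain ⟨a, b⟩ := s
      rcases a with ⟨α, β⟩ | i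
      · cases b
        · simpa [clist] using ih (n - 1)
        · simpa [clist] using ih (n + 1)
      · simpa [clist] using (ih n).trans (Nat.le_succ _)

lemma clist_edge {B : ℕ} (u : Wd (AL B)) (n : ℤ) :
    ∀ t ∈ clist u n, n - u.length ≤ t.1 ∧ t.1 < n + u.length := by
  induction u generalizing n with
  | nil => simp [clist]
  | cons s u ih =>
      obtain ⟨a, b⟩ := s
      rcases a with ⟨α, β⟩ | i
      · cases b
        · intro t ht
          simp only [clist, List.mem_cons] at ht
          rcases ht with rfl | ht
          · simp; omega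
          · have := ih (n - 1) t ht
            simp; omega
        · intro t ht
          simp only [clist, List.mem_cons] at ht
          rcases ht with rfl | ht
          · simp; omega
          · have := ih (n + 1) t ht
            simp; omega
      · intro t ht
        simp only [clist] at ht
        have := ih n t ht
        simp; omega

lemma cend_bound {B : ℕ} (u : Wd (AL B)) (n : ℤ) : |cend u n - n| ≤ u.length := by
  induction u generalizing n with
  | nil => simp [cend]
  | cons s u ih =>
      obtain ⟨a, b⟩ := s
      rcases a with ⟨α, β⟩ | i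
      · cases b
        · have := ih (n - 1)
          simp only [cend, List.length_cons]
          rw [abs_le] at *
          push_cast
          constructor <;> linarith [this.1, this.2]
        · have := ih (n + 1)
          simp only [cend, List.length_cons]
          rw [abs_le] at *
          push_cast
          constructor <;> linarith [this.1, this.2]
      · have := ih n
        simp only [cend, List.length_cons]
        push_cast
        linarith

/-- bounds of the changes of the lamps -/
lemma clist_val {B : ℕ} (u : Wd (AL B)) (n : ℤ) :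
    ∀ t ∈ clist u n, |t.2.1| ≤ 1 ∧ |t.2.2| ≤ B := by
  induction u generalizing n with
  | nil => simp [clist]
  | cons s u ih =>
      obtain ⟨a, b⟩ := s
      rcases a with ⟨α, β⟩ | i
      · have hα : ((α : ℕ) : ℤ) ≤ 1 := by have := α.2; omega
        have hβ : ((β : ℕ) : ℤ) ≤ B := by have := β.2; omega
        cases b
        · intro t ht
          simp only [clist, List.mem_cons] at ht
          rcases ht with rfl | ht
          · simp only [abs_neg, Nat.abs_cast]; exact ⟨hα, hβ⟩
          · exact ih (n - 1) t ht
        · intro t ht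
          simp only [clist, List.mem_cons] at ht
          rcases ht with rfl | ht
          · simp only [Nat.abs_cast]; exact ⟨hα, hβ⟩
          · exact ih (n + 1) t ht
      · intro t ht
        simp only [clist] at ht
        exact ih n t ht

lemma csA_bound (w : ℤ → ℤ) (c : List (ℤ × ℤ × ℤ)) (K : ℤ) (hw : ∀ e, |w e| ≤ 1)
    (h : ∀ t ∈ c, |t.2.1| ≤ K) : |csA w c| ≤ K * c.length := by
  induction c with
  | nil => simp
  | cons t c ih =>
      have h1 := ih fun s hs => h s (by simp [hs])
      have h2 := h t (by simp)
      have h3 : |w t.1 * t.2.1| ≤ K := by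
        rw [abs_mul]
        calc |w t.1| * |t.2.1| ≤ 1 * |t.2.1| := mul_le_mul_of_nonneg_right (hw _) (abs_nonneg _)
          _ ≤ K := by rw [one_mul]; exact h2
      simp only [csA_cons, List.length_cons]
      push_cast
      calc |w t.1 * t.2.1 + csA w c| ≤ |w t.1 * t.2.1| + |csA w c| := abs_add_le _ _
        _ ≤ K + K * c.length := add_le_add h3 h1
        _ = K * (c.length + 1) := by ring

lemma csB_bound (w : ℤ → ℤ) (c : List (ℤ × ℤ × ℤ)) (K : ℤ) (hw : ∀ e, |w e| ≤ 1)
    (h : ∀ t ∈ c, |t.2.2| ≤ K) : |csB w c| ≤ K * c.length := by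
  induction c with
  | nil => simp
  | cons t c ih =>
      have h1 := ih fun s hs => h s (by simp [hs])
      have h2 := h t (by simp)
      have h3 : |w t.1 * t.2.2| ≤ K := by
        rw [abs_mul]
        calc |w t.1| * |t.2.2| ≤ 1 * |t.2.2| := mul_le_mul_of_nonneg_right (hw _) (abs_nonneg _)
          _ ≤ K := by rw [one_mul]; exact h2
      simp only [csB_cons, List.length_cons]
      push_cast
      calc |w t.1 * t.2.2 + csB w c| ≤ |w t.1 * t.2.2| + |csB w c| := abs_add_le _ _
        _ ≤ K + K * c.length := add_le_add h3 h1
        _ = K * (c.length + 1) := by ring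

end Pool.Agent.Helper55.LF
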