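import Mathlib
import Pool.Agent.Helper55.LF.Defs
import Pool.Agent.Helper55.LF.CrossList

/-! M6: the crossing lemma and the lower bound on the norm. -/

namespace Pool.Agent.Helper55.LF

/-- `c` is the crossing list of a walk from `n` to `m` -/
inductive IsW : ℤ → List (ℤ × ℤ × ℤ) → ℤ → Prop
  | nil (n : ℤ) : IsW n [] n
  | pos {n m a b : ℤ} {c : List (ℤ × ℤ × ℤ)} : IsW (n + 1) c m → IsW n ((n, a, b) :: c) m
  | neg {n m a b : ℤ} {c : List (ℤ × ℤ × ℤ)} : IsW (n - 1) c m → IsW n ((n - 1, a, b) :: c) m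

lemma clist_isW {B : ℕ} (u : Wd (AL B)) (n : ℤ) : IsW n (clist u n) (cend u n) := by
  induction u generalizing n with
  | nil => exact IsW.nil n
  | cons s u ih =>
      obtain ⟨a, b⟩ := s
      rcases a with ⟨α, β⟩ | i
      · cases b
        · exact IsW.neg (ih (n - 1))
        · exact IsW.pos (ih (n + 1))
      · exact ih n

lemma isW_left {n m x : ℤ} {c : List (ℤ × ℤ × ℤ)} (h : IsW n c m) (hc : ∀ t ∈ c, t.1 ≠ x)
    (hn : n ≤ x) : (∀ t ∈ c, t.1 < x) ∧ m ≤ x := by
  induction h with
  | nil n => simpa using hn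
  | @pos n m a b c h ih =>
      have h1 : n ≠ x := hc (n, a, b) (by simp)
      have h2 := ih (fun t ht => hc t (by simp [ht])) (by omega)
      refine ⟨?_, h2.2⟩
      intro t ht
      rcases List.mem_cons.mp ht with rfl | ht
      · simp only; omega
      · exact h2.1 t ht
  | @neg n m a b c h ih =>
      have h2 := ih (fun t ht => hc t (by simp [ht])) (by omega)
      refine ⟨?_, h2.2⟩
      intro t ht
      rcases List.mem_cons.mp ht with rfl | ht
      · simp only; omega
      · exact h2.1 t ht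

lemma isW_right {n m x : ℤ} {c : List (ℤ × ℤ × ℤ)} (h : IsW n c m) (hc : ∀ t ∈ c, t.1 ≠ x)
    (hn : x < n) : (∀ t ∈ c, x < t.1) ∧ x < m := by
  induction h with
  | nil n => simpa using hn
  | @pos n m a b c h ih =>
      have h2 := ih (fun t ht => hc t (by simp [ht])) (by omega)
      refine ⟨?_, h2.2⟩
      intro t ht
      rcases List.mem_cons.mp ht with rfl | ht
      · simp only; omega
      · exact h2.1 t ht
  | @neg n m a b c h ih =>
      have h1 : n - 1 ≠ x := hc (n - 1, a, b) (by simp)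
      have h2 := ih (fun t ht => hc t (by simp [ht])) (by omega)
      refine ⟨?_, h2.2⟩
      intro t ht
      rcases List.mem_cons.mp ht with rfl | ht
      · simp only; omega
      · exact h2.1 t ht

/-- number of crossings of the edge `x` -/
def ncr (c : List (ℤ × ℤ × ℤ)) (x : ℤ) : ℕ := (c.map Prod.fst).count x

lemma ncr_cons (t : ℤ × ℤ × ℤ) (c : List (ℤ × ℤ × ℤ)) (x : ℤ) :
    ncr (t :: c) x = ncr c x + if t.1 = x then 1 else 0 := by
  simp [ncr, List.count_cons]

lemma ncr_zero {c : List (ℤ × ℤ × ℤ)} {x : ℤ} (h : ncr c x = 0) : ∀ t ∈ c, t.1 ≠ x := by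
  intro t ht htx
  rw [ncr, List.count_eq_zero] at h
  exact h (List.mem_map.mpr ⟨t, ht, htx⟩)

lemma isW_parity {n m x : ℤ} {c : List (ℤ × ℤ × ℤ)} (h : IsW n c m) :
    Even (ncr c x) ↔ (n ≤ x ↔ m ≤ x) := by
  induction h with
  | nil n => simp [ncr]
  | @pos n m a b c h ih =>
      rw [ncr_cons]
      by_cases hx : n = x
      · subst hx
        simp only [if_true, Nat.even_add_one, ih]
        constructor
        · intro h1; constructor
          · intro _; by_contra h3; exact h1 ⟨fun h4 => by omega, fun h4 => absurd h4 h3⟩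
          · intro _; exact le_refl _
        · intro h1 h2; have := h1.mp (le_refl _); have := h2.mpr this; omega
      · rw [if_neg hx, add_zero, ih]
        constructor
        · intro h1; constructor
          · intro h2; exact h1.mp (by omega)
          · intro h2; have := h1.mpr h2; omega
        · intro h1; constructor
          · intro h2; exact h1.mp (by omega)
          · intro h2; have := h1.mpr h2; omega
  | @neg n m a b c h ih =>
      rw [ncr_cons]
      by_cases hx : n - 1 = x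
      · simp only [hx, if_true, Nat.even_add_one, ih]
        constructor
        · intro h1; constructor
          · intro h2; omega
          · intro h2; exfalso; exact h1 ⟨fun _ => h2, fun _ => by omega⟩
        · intro h1 h2; have := h2.mp (by omega); have := h1.mpr this; omega
      · simp only [hx, if_false, add_zero, ih]
        constructor
        · intro h1; constructor
          · intro h2; exact h1.mp (by omega)
          · intro h2; have := h1.mpr h2; omega
        · intro h1; constructor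
          · intro h2; exact h1.mp (by omega)
          · intro h2; have := h1.mpr h2; omega

lemma isW_append {n m : ℤ} {c₁ c₂ : List (ℤ × ℤ × ℤ)} (h : IsW n (c₁ ++ c₂) m) :
    ∃ k, IsW n c₁ k ∧ IsW k c₂ m := by
  induction c₁ generalizing n with
  | nil => exact ⟨n, IsW.nil n, h⟩
  | cons t c ih =>
      rw [List.cons_append] at h
      cases h with
      | pos h =>
          obtain ⟨k, h1, h2⟩ := ih h
          exact ⟨k, IsW.pos h1, h2⟩
      | neg h =>
          obtain ⟨k, h1, h2⟩ := ih h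
          exact ⟨k, IsW.neg h1, h2⟩

lemma ncr_split {c : List (ℤ × ℤ × ℤ)} {x : ℤ} {k : ℕ} (h : ncr c x = k + 1) :
    ∃ c₁ t c₂, c = c₁ ++ t :: c₂ ∧ t.1 = x ∧ (∀ s ∈ c₁, s.1 ≠ x) ∧ ncr c₂ x = k := by
  induction c with
  | nil => simp [ncr] at h
  | cons t c ih =>
      rw [ncr_cons] at h
      by_cases ht : t.1 = x
      · rw [if_pos ht] at h
        exact ⟨[], t, c, rfl, ht, by simp, by omega⟩
      · rw [if_neg ht, add_zero] at h
        obtain ⟨c₁, t', c₂, h1, h2, h3, h4⟩ := ih h
        refine ⟨t :: c₁, t', c₂, by rw [h1]; rfl, h2, ?_, h4⟩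
        intro s hs
        rcases List.mem_cons.mp hs with rfl | hs
        · exact ht
        · exact h3 s hs

section pieces

lemma lampA_left {c : List (ℤ × ℤ × ℤ)} {x e : ℤ} (h : ∀ t ∈ c, t.1 < x) (he : x ≤ e) :
    lampA c e = 0 := csA_zero fun t ht => by have := h t ht; rw [if_neg]; omega
lemma lampA_right {c : List (ℤ × ℤ × ℤ)} {x e : ℤ} (h : ∀ t ∈ c, x < t.1) (he : e ≤ x) :
    lampA c e = 0 := csA_zero fun t ht => by have := h t ht; rw [if_neg]; omega
lemma lampB_left {c : List (ℤ × ℤ × ℤ)} {x e : ℤ} (h : ∀ t ∈ c, t.1 < x) (he : x ≤ e) :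
    lampB c e = 0 := csB_zero fun t ht => by have := h t ht; rw [if_neg]; omega
lemma lampB_right {c : List (ℤ × ℤ × ℤ)} {x e : ℤ} (h : ∀ t ∈ c, x < t.1) (he : e ≤ x) :
    lampB c e = 0 := csB_zero fun t ht => by have := h t ht; rw [if_neg]; omega

lemma lampC_left {c : List (ℤ × ℤ × ℤ)} {x e e' : ℤ} (h : ∀ t ∈ c, t.1 < x)
    (he : x ≤ e ∨ x ≤ e') : lampC c e e' = 0 := csP_zero fun t ht s hs => by
  have h1 := h t ht
  have h2 := h s hs
  rcases he with he | he
  · rw [if_neg (by omega), zero_mul]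
  · rw [if_neg (by omega : ¬ s.1 = e'), mul_zero]
lemma lampC_right {c : List (ℤ × ℤ × ℤ)} {x e e' : ℤ} (h : ∀ t ∈ c, x < t.1)
    (he : e ≤ x ∨ e' ≤ x) : lampC c e e' = 0 := csP_zero fun t ht s hs => by
  have h1 := h t ht
  have h2 := h s hs
  rcases he with he | he
  · rw [if_neg (by omega), zero_mul]
  · rw [if_neg (by omega : ¬ s.1 = e'), mul_zero]

lemma lampA_append (c c' : List (ℤ × ℤ × ℤ)) (e : ℤ) :
    lampA (c ++ c') e = lampA c e + lampA c' e := csA_append _ _ _
lemma lampB_append (c c' : List (ℤ × ℤ × ℤ)) (e : ℤ) :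
    lampB (c ++ c') e = lampB c e + lampB c' e := csB_append _ _ _
lemma lampC_append (c c' : List (ℤ × ℤ × ℤ)) (e e' : ℤ) :
    lampC (c ++ c') e e' = lampC c e e' + lampC c' e e' + lampA c e * lampB c' e' :=
  csP_append _ _ _ _
lemma lampA_cons (t : ℤ × ℤ × ℤ) (c : List (ℤ × ℤ × ℤ)) (e : ℤ) :
    lampA (t :: c) e = lampA [t] e + lampA c e := by
  rw [← lampA_append]; rfl
lemma lampB_cons (t : ℤ × ℤ × ℤ) (c : List (ℤ × ℤ × ℤ)) (e : ℤ) :
    lampB (t :: c) e = lampB [t] e + lampB c e := by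
  rw [← lampB_append]; rfl
lemma lampC_cons (t : ℤ × ℤ × ℤ) (c : List (ℤ × ℤ × ℤ)) (e e' : ℤ) :
    lampC (t :: c) e e' = lampC c e e' + lampA [t] e * lampB c e' := by
  have : lampC ([t] ++ c) e e' = _ := lampC_append [t] c e e'
  have h1 : lampC [t] e e' = 0 := by simp [lampC]
  rw [h1, zero_add] at this
  exact this
lemma lampAB_single (t : ℤ × ℤ × ℤ) {e e' : ℤ} (h : e ≠ e') :
    lampA [t] e * lampB [t] e' = 0 := by
  by_cases h1 : t.1 = e
  · have : lampB [t] e' = 0 := by
      simp only [lampB, csB_cons, csB_nil, add_zero]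
      rw [if_neg (by rw [h1]; exact h), zero_mul]
    rw [this, mul_zero]
  · have : lampA [t] e = 0 := by
      simp only [lampA, csA_cons, csA_nil, add_zero]
      rw [if_neg h1, zero_mul]
    rw [this, zero_mul]

lemma pieces_one {c₁ c₂ c₃ : List (ℤ × ℤ × ℤ)} {t₁ t₂ : ℤ × ℤ × ℤ} {e e' : ℤ} (hne : e ≠ e')
    (hB : lampB (c₁ ++ t₁ :: (c₂ ++ t₂ :: c₃)) e' = 0)
    (b1 : lampB c₁ e' = 0) (b3 : lampB c₃ e' = 0) (a2 : lampA c₂ e = 0)
    (C1 : lampC c₁ e e' = 0) (C2 : lampC c₂ e e' = 0) (C3 : lampC c₃ e e' = 0) :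
    lampC (c₁ ++ t₁ :: (c₂ ++ t₂ :: c₃)) e e' = 0 := by
  have h1 := lampAB_single t₁ hne
  have h2 := lampAB_single t₂ hne
  simp only [lampB_append, lampB_cons t₁ (c₂ ++ t₂ :: c₃), lampB_cons t₂ c₃, b1, b3] at hB
  simp only [lampC_append, lampC_cons t₁ (c₂ ++ t₂ :: c₃), lampC_cons t₂ c₃, lampB_append,
    lampB_cons t₁ (c₂ ++ t₂ :: c₃), lampB_cons t₂ c₃, C1, C2, C3, b3, a2]
  linear_combination (lampA c₁ e + lampA [t₁] e) * hB - h1
lemma pieces_two {c₁ c₂ c₃ : List (ℤ × ℤ × ℤ)} {t₁ t₂ : ℤ × ℤ × ℤ} {e e' : ℤ} (hne : e ≠ e')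
    (hA : lampA (c₁ ++ t₁ :: (c₂ ++ t₂ :: c₃)) e = 0)
    (a1 : lampA c₁ e = 0) (a3 : lampA c₃ e = 0) (b2 : lampB c₂ e' = 0)
    (C1 : lampC c₁ e e' = 0) (C2 : lampC c₂ e e' = 0) (C3 : lampC c₃ e e' = 0) :
    lampC (c₁ ++ t₁ :: (c₂ ++ t₂ :: c₃)) e e' = 0 := by
  have h1 := lampAB_single t₁ hne
  have h2 := lampAB_single t₂ hne
  simp only [lampA_append, lampA_cons t₁ (c₂ ++ t₂ :: c₃), lampA_cons t₂ c₃, a1, a3] at hA
  simp only [lampC_append, lampC_cons t₁ (c₂ ++ t₂ :: c₃), lampC_cons t₂ c₃, lampB_append,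
    lampB_cons t₁ (c₂ ++ t₂ :: c₃), lampB_cons t₂ c₃, C1, C2, C3, b2, a1]
  linear_combination (lampB [t₂] e' + lampB c₃ e') * hA - h2

end pieces

/-- the crossing lemma -/
theorem cross_four {c : List (ℤ × ℤ × ℤ)} {n : ℤ} (hW : IsW n c n) (hA : ∀ e, lampA c e = 0)
    (hB : ∀ e, lampB c e = 0) {e e' x : ℤ} (hne : e ≠ e') (hC : lampC c e e' ≠ 0)
    (hx : (e ≤ x ∧ x ≤ e') ∨ (e' ≤ x ∧ x ≤ e)) : 4 ≤ ncr c x := by
  by_contra hlt
  have hev : Even (ncr c x) := (isW_parity hW).mpr Iff.rfl
  have h02 : ncr c x = 0 ∨ ncr c x = 2 := by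
    obtain ⟨k, hk⟩ := hev
    omega
  rcases h02 with h0 | h2
  · apply hC
    have hc := ncr_zero h0
    rcases le_or_gt n x with hn | hn
    · exact lampC_left (isW_left hW hc hn).1 (by omega)
    · exact lampC_right (isW_right hW hc hn).1 (by omega)
  · apply hC
    obtain ⟨c₁, t₁, c₀, rfl, ht₁, hc₁, h3⟩ := ncr_split h2
    obtain ⟨c₂, t₂, c₃, rfl, ht₂, hc₂, h4⟩ := ncr_split h3
    have hc₃ := ncr_zero h4
    obtain ⟨k₁, hw1, hw2⟩ := isW_append hW
    rcases le_or_gt n x with hn | hn
    · obtain ⟨s1, hk₁⟩ := isW_left hw1 hc₁ hn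
      have hw3 : IsW (x + 1) (c₂ ++ t₂ :: c₃) n := by
        cases hw2 with
        | pos h => simp only at ht₁; rw [← ht₁]; exact h
        | neg h => simp only at ht₁; omega
      obtain ⟨k₂, hw4, hw5⟩ := isW_append hw3
      obtain ⟨s2, hk₂⟩ := isW_right hw4 hc₂ (by omega : x < x + 1)
      have hw6 : IsW x c₃ n := by
        cases hw5 with
        | pos h => simp only at ht₂; omega
        | neg h => simp only at ht₂; rw [← ht₂]; exact h
      obtain ⟨s3, -⟩ := isW_left hw6 hc₃ (le_refl x)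
      rcases hx with ⟨h5, h6⟩ | ⟨h5, h6⟩
      · exact pieces_one hne (hB e') (lampB_left s1 h6) (lampB_left s3 h6) (lampA_right s2 h5)
          (lampC_left s1 (Or.inr h6)) (lampC_right s2 (Or.inl h5)) (lampC_left s3 (Or.inr h6))
      · exact pieces_two hne (hA e) (lampA_left s1 h6) (lampA_left s3 h6) (lampB_right s2 h5)
          (lampC_left s1 (Or.inl h6)) (lampC_right s2 (Or.inr h5)) (lampC_left s3 (Or.inl h6))
    · obtain ⟨s1, hk₁⟩ := isW_right hw1 hc₁ hn
      have hw3 : IsW x (c₂ ++ t₂ :: c₃) n := by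
        cases hw2 with
        | pos h => simp only at ht₁; omega
        | neg h => simp only at ht₁; rw [← ht₁]; exact h
      obtain ⟨k₂, hw4, hw5⟩ := isW_append hw3
      obtain ⟨s2, hk₂⟩ := isW_left hw4 hc₂ (le_refl x)
      have hw6 : IsW (x + 1) c₃ n := by
        cases hw5 with
        | pos h => simp only at ht₂; rw [← ht₂]; exact h
        | neg h => simp only at ht₂; omega
      obtain ⟨s3, -⟩ := isW_right hw6 hc₃ (by omega : x < x + 1)
      rcases hx with ⟨h5, h6⟩ | ⟨h5, h6⟩
      · exact pieces_two hne (hA e) (lampA_right s1 h5) (lampA_right s3 h5) (lampB_left s2 h6)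
          (lampC_right s1 (Or.inl h5)) (lampC_left s2 (Or.inr h6)) (lampC_right s3 (Or.inl h5))
      · exact pieces_one hne (hB e') (lampB_right s1 h5) (lampB_right s3 h5) (lampA_left s2 h6)
          (lampC_right s1 (Or.inr h5)) (lampC_left s2 (Or.inl h6)) (lampC_right s3 (Or.inr h5))

/-- many edges crossed at least four times make a long list -/
lemma ncr_card {c : List (ℤ × ℤ × ℤ)} (E : Finset ℤ) (h : ∀ x ∈ E, 4 ≤ ncr c x) :
    4 * E.card ≤ c.length := by
  have hsub : E ⊆ (c.map Prod.fst).toFinset := by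
    intro x hx
    have := h x hx
    rw [List.mem_toFinset, ← List.count_pos_iff]
    exact lt_of_lt_of_le (by norm_num) this
  calc 4 * E.card = ∑ _x ∈ E, 4 := by rw [Finset.sum_const, smul_eq_mul, mul_comm]
    _ ≤ ∑ x ∈ E, (c.map Prod.fst).count x := Finset.sum_le_sum h
    _ ≤ ∑ x ∈ (c.map Prod.fst).toFinset, (c.map Prod.fst).count x :=
        Finset.sum_le_sum_of_subset hsub
    _ = (c.map Prod.fst).length := List.sum_toFinset_count_eq_length _
    _ = c.length := by simp

/-! ### Integer lamps from one large level -/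

lemma int_eq_of_cast_eq {l : ℕ} {a b : ℤ} (h : |a - b| < l) (hab : (a : ZMod l) = (b : ZMod l)) :
    a = b := by
  rw [ZMod.intCast_eq_intCast_iff_dvd_sub] at hab
  by_contra hne
  have h1 : (l : ℤ) ≤ |b - a| := Int.le_of_dvd (abs_pos.mpr (sub_ne_zero.mpr (Ne.symm hne)))
    ((dvd_abs _ _).mpr hab)
  rw [abs_sub_comm] at h1
  omega

lemma int_eq_zero_of_cast {l : ℕ} {a : ℤ} (h : |a| < l) (hab : (a : ZMod l) = 0) : a = 0 := by
  apply int_eq_of_cast_eq (l := l) (b := 0)
  · simpa using h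
  · simpa using hab

lemma wtL_eq (P : Par) {B : ℕ} (u : Wd (AL B)) (hl : 2 * u.length < P.l) {e : ℤ}
    (he : |e| ≤ u.length) : ∀ t ∈ clist u 0, wtL P (e : ZMod P.l) t.1 = if t.1 = e then 1 else 0 := by
  intro t ht
  have h1 := clist_edge u 0 t ht
  simp only [wtL]
  have : ((t.1 : ZMod P.l) = (e : ZMod P.l)) ↔ t.1 = e := by
    constructor
    · intro h
      refine int_eq_of_cast_eq (l := P.l) ?_ h
      rw [abs_le] at he
      rw [abs_lt]
      constructor <;> omega
    · rintro rfl; rfl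
  simp only [this]

lemma lampA_far {B : ℕ} (u : Wd (AL B)) {e : ℤ} (he : (u.length : ℤ) < |e|) :
    lampA (clist u 0) e = 0 := csA_zero fun t ht => by
  have h1 := clist_edge u 0 t ht
  rw [if_neg]
  rintro rfl
  rw [lt_abs] at he
  omega
lemma lampB_far {B : ℕ} (u : Wd (AL B)) {e : ℤ} (he : (u.length : ℤ) < |e|) :
    lampB (clist u 0) e = 0 := csB_zero fun t ht => by
  have h1 := clist_edge u 0 t ht
  rw [if_neg]
  rintro rfl
  rw [lt_abs] at he
  omega

theorem lampA_eq_zero (P : Par) {B : ℕ} (u : Wd (AL B)) (hl : 2 * u.length < P.l)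
    (hm : u.length < P.m) (hf : (wp (kv P B) u).f = 0) (e : ℤ) : lampA (clist u 0) e = 0 := by
  rcases le_or_gt |e| (u.length : ℤ) with he | he
  · have h1 := wp_kv_f P u (e : ZMod P.l)
    rw [hf, csA_congr (w' := fun x => if x = e then 1 else 0) (wtL_eq P u hl he)] at h1
    refine int_eq_zero_of_cast (l := P.m) ?_ h1.symm
    have h2 := csA_bound (fun x => if x = e then 1 else 0) (clist u 0) 1
      (fun x => by split_ifs <;> simp) (fun t ht => (clist_val u 0 t ht).1)
    have h3 := clist_length u 0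
    change |csA _ _| < _
    omega
  · exact lampA_far u he

theorem lampB_eq_zero (P : Par) {B : ℕ} (u : Wd (AL B)) (hl : 2 * u.length < P.l)
    (hm : B * u.length < P.m) (hg : (wp (kv P B) u).g = 0) (e : ℤ) : lampB (clist u 0) e = 0 := by
  rcases le_or_gt |e| (u.length : ℤ) with he | he
  · have h1 := wp_kv_g P u (e : ZMod P.l)
    rw [hg, csB_congr (w' := fun x => if x = e then 1 else 0) (wtL_eq P u hl he)] at h1
    refine int_eq_zero_of_cast (l := P.m) ?_ h1.symm
    have h2 := csB_bound (fun x => if x = e then 1 else 0) (clist u 0) B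
      (fun x => by split_ifs <;> simp) (fun t ht => (clist_val u 0 t ht).2)
    have h3 : (B : ℤ) * ((clist u 0).length : ℤ) ≤ B * u.length :=
      mul_le_mul_of_nonneg_left (by exact_mod_cast clist_length u 0) (by positivity)
    have h4 : ((B * u.length : ℕ) : ℤ) < P.m := by exact_mod_cast hm
    push_cast at h4
    change |csB _ _| < _
    omega
  · exact lampB_far u he

theorem cend_eq_zero (P : Par) {B : ℕ} (u : Wd (AL B)) (hl : u.length < P.l)
    (hn : (wp (kv P B) u).n = 0) : cend u 0 = 0 := by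
  have h1 := wp_kv_n P u
  rw [hn] at h1
  refine int_eq_zero_of_cast (l := P.l) ?_ h1.symm
  have h2 := cend_bound u 0
  rw [sub_zero] at h2
  omega

lemma dd_gt (i : ℕ) : i < dd i := by
  induction i with
  | zero => simp [dd]
  | succ i ih => simp only [dd]; omega

/-- words constant in all levels have trivial integer lamps and a closed path -/
theorem lamps_of_InW (p : ℕ) [BP p] {B : ℕ} (u : Wd (AL B)) (hW : InW p u) :
    (∀ e, lampA (clist u 0) e = 0) ∧ (∀ e, lampB (clist u 0) e = 0) ∧ cend u 0 = 0 := by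
  set i := (B + 2) * u.length with hi
  have hp : 1 < p := by have := BP.big (p := p); omega
  have h1 : i < p ^ i := Nat.lt_pow_self hp
  have h2 : p ^ i ≤ p ^ (dd i) := Nat.pow_le_pow_right (by omega) (dd_gt i).le
  have hl : i < (lev p i).l := by
    change i < p ^ (dd i + 1)
    have : p ^ dd i ≤ p ^ (dd i + 1) := Nat.pow_le_pow_right (by omega) (by omega)
    omega
  have hm : i < (lev p i).m := by
    change i < p ^ (2 * dd i + 3)
    have : p ^ dd i ≤ p ^ (2 * dd i + 3) := Nat.pow_le_pow_right (by omega) (by omega)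
    omega
  obtain ⟨hf, hg, hn, -⟩ := mem_cW.mp (hW i)
  have e1 : i = B * u.length + 2 * u.length := by rw [hi]; ring
  have e2 : 0 ≤ B * u.length := Nat.zero_le _
  exact ⟨lampA_eq_zero (lev p i) u (by omega) (by omega) hf,
    lampB_eq_zero (lev p i) u (by omega) (by omega) hg, cend_eq_zero (lev p i) u (by omega) hn⟩

/-- M6 -/
theorem norm_lower (p : ℕ) [BP p] {B : ℕ} (u : Wd (AL B)) (hW : InW p u) (j : ℕ)
    (hj : wp (kv (lev p j) B) u ∉ cN (lev p j)) : 8 * (lev p j).D ≤ u.length := by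
  obtain ⟨hA, hB, hE⟩ := lamps_of_InW p u hW
  set P := lev p j with hP
  set c := clist u 0 with hc
  have hw : IsW 0 c 0 := by
    have := clist_isW u 0
    rw [hE] at this
    exact this
  obtain ⟨hf, hg, hn, k, hk⟩ := mem_cW.mp (hW j)
  have hk0 : k ≠ 0 := by
    rintro rfl
    exact hj (mem_cN.mpr ⟨hf, hg, hn, 0, fun y => by rw [mul_zero]; exact hk y⟩)
  have hD := P.hD
  have h3 := P.h3
  -- the pairs
  have hex : ∀ y : ZMod P.D, ∃ e e' : ℤ, (e : ZMod P.D) = y ∧ (P.l : ℤ) ∣ e - P.D - e' ∧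
      lampC c e e' ≠ 0 := by
    intro y
    have h1 : csP (wtH P y) c ≠ 0 := by
      intro h0
      have h4 := wp_kv_h P u y
      rw [← hc, h0, hk y] at h4
      exact hk0 (by simpa using h4)
    obtain ⟨e, e', h4, h5⟩ := exists_lampC_ne _ _ h1
    refine ⟨e, e', ?_⟩
    simp only [wtH] at h4
    have h6 : (e : ZMod P.D) = y ∧ (e : ZMod P.l) - (P.D : ZMod P.l) = (e' : ZMod P.l) := by
      by_contra hcon
      exact h4 (if_neg hcon)
    refine ⟨h6.1, ?_, h5⟩
    rw [← ZMod.intCast_zmod_eq_zero_iff_dvd]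
    push_cast
    rw [h6.2, sub_self]
  choose ey ey' hy1 hy2 hy3 using hex
  have hne : ∀ y, ey y ≠ ey' y := by
    intro y h
    have h4 := hy2 y
    rw [h] at h4
    have h5 : (P.l : ℤ) ∣ (P.D : ℤ) := by
      have : ey' y - (P.D : ℤ) - ey' y = - (P.D : ℤ) := by ring
      rw [this] at h4
      exact (dvd_neg).mp h4
    have h6 := Int.le_of_dvd (by exact_mod_cast hD) h5
    omega
  have main : ∃ E : Finset ℤ, 2 * P.D ≤ E.card ∧ ∀ x ∈ E, 4 ≤ ncr c x := by
    by_cases hcase : ∃ y, ey y < ey' y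
    · obtain ⟨y, hy⟩ := hcase
      refine ⟨Finset.Icc (ey y) (ey' y), ?_, ?_⟩
      · obtain ⟨k, hk⟩ := hy2 y
        have hk1 : k ≤ -1 := by
          by_contra hcon
          have : 0 ≤ k := by omega
          have := mul_nonneg (by positivity : (0 : ℤ) ≤ P.l) this
          omega
        have h7 : (P.l : ℤ) * k ≤ P.l * (-1) :=
          mul_le_mul_of_nonneg_left hk1 (by positivity)
        rw [Int.card_Icc]
        have h3' : (3 : ℤ) * P.D ≤ P.l := by exact_mod_cast h3
        omega
      · intro x hx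
        rw [Finset.mem_Icc] at hx
        exact cross_four hw hA hB (hne y) (hy3 y) (Or.inl hx)
    · push Not at hcase
      have hge : ∀ y, ey' y ≤ ey y - P.D := by
        intro y
        obtain ⟨k, hk⟩ := hy2 y
        have h4 := hcase y
        have h5 := hne y
        have hk1 : 0 ≤ k := by
          by_contra hcon
          have : k ≤ -1 := by omega
          have h7 : (P.l : ℤ) * k ≤ P.l * (-1) :=
            mul_le_mul_of_nonneg_left this (by positivity)
          have h3' : (3 : ℤ) * P.D ≤ P.l := by exact_mod_cast h3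
          have hD' : (0 : ℤ) < P.D := by exact_mod_cast hD
          omega
        have := mul_nonneg (by positivity : (0 : ℤ) ≤ P.l) hk1
        omega
      obtain ⟨y0, -, hy0⟩ := Finset.exists_min_image (Finset.univ : Finset (ZMod P.D)) ey
        ⟨0, Finset.mem_univ _⟩
      have hinj : Function.Injective ey := by
        intro y y' h
        rw [← hy1 y, ← hy1 y', h]
      refine ⟨Finset.univ.image ey ∪ Finset.Ico (ey y0 - P.D) (ey y0), ?_, ?_⟩
      · rw [Finset.card_union_of_disjoint, Finset.card_image_of_injective _ hinj, Finset.card_univ,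
          ZMod.card, Int.card_Ico]
        · omega
        · rw [Finset.disjoint_left]
          intro x hx hx'
          rw [Finset.mem_image] at hx
          obtain ⟨y, -, rfl⟩ := hx
          rw [Finset.mem_Ico] at hx'
          have := hy0 y (Finset.mem_univ _)
          omega
      · intro x hx
        rw [Finset.mem_union, Finset.mem_image, Finset.mem_Ico] at hx
        rcases hx with ⟨y, -, rfl⟩ | ⟨h4, h5⟩
        · refine cross_four hw hA hB (hne y) (hy3 y) (Or.inr ⟨?_, le_refl _⟩)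
          have := hge y
          omega
        · refine cross_four hw hA hB (hne y0) (hy3 y0) (Or.inr ⟨?_, h5.le⟩)
          have := hge y0
          omega
  obtain ⟨E, hE1, hE2⟩ := main
  have h4 := ncr_card E hE2
  have h5 := clist_length u 0
  rw [← hc] at h5
  omega

end Pool.Agent.Helper55.LF
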