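import Mathlib
import Pool.Agent.Helper55.LF.Defs
import Pool.Agent.Helper55.LF.CrossList
import Pool.Agent.Helper55.LF.Cross

/-! M7: short words. -/

namespace Pool.Agent.Helper55.LF

/-- M7a: short words with trivial lamps in one large level have trivial lamps everywhere -/
theorem lamps_trivial (P Q : Par) {B : ℕ} (u : Wd (AL B)) (h1 : 4 * u.length < P.l)
    (h2 : 4 * (B + 2) * u.length < P.m)
    (hf : (wp (kv P B) u).f = 0) (hg : (wp (kv P B) u).g = 0) (hn : (wp (kv P B) u).n = 0) :
    (wp (kv Q B) u).f = 0 ∧ (wp (kv Q B) u).g = 0 ∧ (wp (kv Q B) u).n = 0 := by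
  have e1 : 4 * (B + 2) * u.length = 4 * (B * u.length) + 8 * u.length := by ring
  have e2 : 0 ≤ B * u.length := Nat.zero_le _
  have hA := lampA_eq_zero P u (by omega) (by omega) hf
  have hB := lampB_eq_zero P u (by omega) (by omega) hg
  have hE := cend_eq_zero P u (by omega) hn
  refine ⟨?_, ?_, ?_⟩
  · funext x
    rw [wp_kv_f, csA_eq_sum _ _ ((clist u 0).map Prod.fst).toFinset (by
      intro t ht
      simp only [List.mem_toFinset, List.mem_map]
      exact ⟨t, ht, rfl⟩)]
    simp [hA]
  · funext x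
    rw [wp_kv_g, csB_eq_sum _ _ ((clist u 0).map Prod.fst).toFinset (by
      intro t ht
      simp only [List.mem_toFinset, List.mem_map]
      exact ⟨t, ht, rfl⟩)]
    simp [hB]
  · rw [wp_kv_n, hE]; simp

lemma isW_edge {n m : ℤ} {c : List (ℤ × ℤ × ℤ)} (h : IsW n c m) :
    ∀ t ∈ c, n - c.length ≤ t.1 ∧ t.1 < n + c.length := by
  induction h with
  | nil n => simp
  | @pos n m a b c h ih =>
      intro t ht
      rcases List.mem_cons.mp ht with rfl | ht
      · simp; omega
      · have := ih t ht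
        simp; omega
  | @neg n m a b c h ih =>
      intro t ht
      rcases List.mem_cons.mp ht with rfl | ht
      · simp; omega
      · have := ih t ht
        simp; omega

/-- two edges of a walk have distance less than the length -/
lemma isW_span {n m : ℤ} {c : List (ℤ × ℤ × ℤ)} (h : IsW n c m) :
    ∀ t ∈ c, ∀ s ∈ c, |t.1 - s.1| < c.length := by
  induction h with
  | nil n => simp
  | @pos n m a b c h ih =>
      have h1 := isW_edge h
      have h2 : ∀ s ∈ c, |n - s.1| < c.length + 1 := by
        intro s hs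
        have := h1 s hs
        rw [abs_lt]; constructor <;> omega
      intro t ht s hs
      rw [List.length_cons]
      push_cast
      rcases List.mem_cons.mp ht with rfl | ht <;> rcases List.mem_cons.mp hs with rfl | hs
      · simp
      · exact h2 s hs
      · rw [abs_sub_comm]; exact h2 t ht
      · have := ih t ht s hs; omega
  | @neg n m a b c h ih =>
      have h1 := isW_edge h
      have h2 : ∀ s ∈ c, |n - 1 - s.1| < c.length + 1 := by
        intro s hs
        have := h1 s hs
        rw [abs_lt]; constructor <;> omega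
      intro t ht s hs
      rw [List.length_cons]
      push_cast
      rcases List.mem_cons.mp ht with rfl | ht <;> rcases List.mem_cons.mp hs with rfl | hs
      · simp
      · exact h2 s hs
      · rw [abs_sub_comm]; exact h2 t ht
      · have := ih t ht s hs; omega

/-- the pairing condition for edges at distance less than `l - D` -/
lemma pair_iff (P : Par) {e e' : ℤ} (h : |e - e'| < P.l - P.D) :
    (e : ZMod P.l) - (P.D : ZMod P.l) = (e' : ZMod P.l) ↔ e - e' = P.D := by
  have hD : (0 : ℤ) < P.D := by exact_mod_cast P.hD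
  rw [abs_lt] at h
  constructor
  · intro h1
    have h2 : ((e - P.D : ℤ) : ZMod P.l) = (e' : ZMod P.l) := by push_cast; exact h1
    rw [ZMod.intCast_eq_intCast_iff_dvd_sub] at h2
    obtain ⟨k, hk⟩ := h2
    have hk0 : k = 0 := by
      by_contra hne
      rcases lt_or_gt_of_ne hne with hlt | hgt
      · have : (P.l : ℤ) * k ≤ P.l * (-1) :=
          mul_le_mul_of_nonneg_left (by omega) (by positivity)
        have h3 : (3 : ℤ) * P.D ≤ P.l := by exact_mod_cast P.h3
        omega
      · have : (P.l : ℤ) * 1 ≤ P.l * k :=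
          mul_le_mul_of_nonneg_left (by omega) (by positivity)
        omega
    rw [hk0] at hk
    omega
  · intro h1
    have : e' = e - P.D := by omega
    rw [this]; push_cast; rfl

/-- M7b: words shorter than `D` do not see the pairing -/
theorem h_trivial (Q : Par) {B : ℕ} (u : Wd (AL B)) (h : u.length < Q.D) :
    (wp (kv Q B) u).h = 0 := by
  funext y
  rw [wp_kv_h, csP_zero]
  · simp
  · intro t ht s hs
    have h1 := isW_span (clist_isW u 0) t ht s hs
    have h2 := clist_length u 0
    have h3 := Q.h3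
    simp only [wtH]
    rw [if_neg]
    rintro ⟨-, h4⟩
    rw [pair_iff Q (by omega)] at h4
    rw [h4] at h1
    simp only [Nat.abs_cast] at h1
    omega

/-- the integer valued pairing of a short word -/
def hz (D : ℕ) (c : List (ℤ × ℤ × ℤ)) (y : ZMod D) : ℤ :=
  csP (fun e e' => if (e : ZMod D) = y ∧ e - e' = D then 1 else 0) c

lemma csP_bound (w : ℤ → ℤ → ℤ) (c : List (ℤ × ℤ × ℤ)) (hw : ∀ e e', |w e e'| ≤ 1)
    (h1 : ∀ t ∈ c, |t.2.1| ≤ 1) (h2 : ∀ t ∈ c, |t.2.2| ≤ 1) :
    2 * |csP w c| ≤ c.length * (c.length - 1) := by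
  induction c with
  | nil => simp
  | cons t c ih =>
      have h3 := ih (fun s hs => h1 s (by simp [hs])) (fun s hs => h2 s (by simp [hs]))
      have h4 := csB_bound (w t.1) c 1 (hw t.1) (fun s hs => h2 s (by simp [hs]))
      have h5 : |t.2.1 * csB (w t.1) c| ≤ c.length := by
        rw [abs_mul]
        calc |t.2.1| * |csB (w t.1) c| ≤ 1 * |csB (w t.1) c| :=
              mul_le_mul_of_nonneg_right (h1 t (by simp)) (abs_nonneg _)
          _ ≤ c.length := by rw [one_mul]; rw [one_mul] at h4; exact h4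
      rw [csP_cons, List.length_cons]
      have h6 := abs_add_le (t.2.1 * csB (w t.1) c) (csP w c)
      push_cast
      nlinarith

lemma csB_filter (w : ℤ → ℤ) (q : ℤ → Bool) (c : List (ℤ × ℤ × ℤ))
    (h : ∀ e, q e = false → w e = 0) : csB w (c.filter fun t => q t.1) = csB w c := by
  induction c with
  | nil => rfl
  | cons t c ih =>
      rw [List.filter_cons]
      by_cases ht : q t.1 = true
      · rw [if_pos ht, csB_cons, csB_cons, ih]
      · rw [if_neg ht, csB_cons, h t.1 (by simpa using ht), zero_mul, zero_add, ih]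

lemma csP_filter (w : ℤ → ℤ → ℤ) (q : ℤ → Bool) (c : List (ℤ × ℤ × ℤ))
    (h : ∀ e e', q e = false ∨ q e' = false → w e e' = 0) :
    csP w (c.filter fun t => q t.1) = csP w c := by
  induction c with
  | nil => rfl
  | cons t c ih =>
      rw [List.filter_cons]
      by_cases ht : q t.1 = true
      · rw [if_pos ht, csP_cons, csP_cons, ih, csB_filter _ _ _ fun e he => h _ _ (Or.inr he)]
      · rw [if_neg ht, csP_cons, ih, csB_zero fun s _ => h _ _ (Or.inl (by simpa using ht))]
        ring

lemma sum_residues (D : ℕ) [NeZero D] (c : List (ℤ × ℤ × ℤ)) :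
    ∑ y : ZMod D, (c.filter fun t => decide ((t.1 : ZMod D) = y)).length = c.length := by
  induction c with
  | nil => simp
  | cons t c ih =>
      simp only [List.filter_cons]
      have : ∀ y : ZMod D, (if decide ((t.1 : ZMod D) = y) = true then
          t :: c.filter (fun t => decide ((t.1 : ZMod D) = y)) else
            c.filter (fun t => decide ((t.1 : ZMod D) = y))).length =
          (c.filter fun t => decide ((t.1 : ZMod D) = y)).length +
            if (t.1 : ZMod D) = y then 1 else 0 := by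
        intro y
        by_cases h : (t.1 : ZMod D) = y <;> simp [h]
      simp only [this, Finset.sum_add_distrib, ih]
      simp

/-- some residue class is crossed rarely -/
lemma exists_rare (D : ℕ) [NeZero D] (c : List (ℤ × ℤ × ℤ)) (h : c.length < 17 * D) :
    ∃ y : ZMod D, (c.filter fun t => decide ((t.1 : ZMod D) = y)).length ≤ 16 := by
  by_contra hcon
  push Not at hcon
  have h1 := sum_residues D c
  have h2 : ∑ _y : ZMod D, 17 ≤
      ∑ y : ZMod D, (c.filter fun t => decide ((t.1 : ZMod D) = y)).length :=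
    Finset.sum_le_sum fun y _ => hcon y
  rw [Finset.sum_const, Finset.card_univ, ZMod.card, smul_eq_mul] at h2
  omega

lemma hz_const_bound (D : ℕ) (hD : 4 ≤ D) (c : List (ℤ × ℤ × ℤ)) (hc : c.length ≤ 16 * D + 3)
    (h1 : ∀ t ∈ c, |t.2.1| ≤ 1) (h2 : ∀ t ∈ c, |t.2.2| ≤ 1) (c₀ : ℤ)
    (h : ∀ y, hz D c y = c₀) : |c₀| ≤ 120 := by
  have : NeZero D := ⟨by omega⟩
  obtain ⟨y, hy⟩ := exists_rare D c (by omega)
  rw [← h y]
  set d := c.filter fun t => decide ((t.1 : ZMod D) = y) with hd
  have h3 : hz D c y = csP (fun e e' => if (e : ZMod D) = y ∧ e - e' = D then 1 else 0) d := by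
    rw [hd]
    refine (csP_filter _ (fun e => decide ((e : ZMod D) = y)) c ?_).symm
    intro e e' he
    rw [if_neg]
    rintro ⟨h4, h5⟩
    rcases he with he | he
    · simp [h4] at he
    · have : e' = e - D := by omega
      rw [this] at he
      push_cast at he
      simp [h4] at he
  have h4 := csP_bound (fun e e' => if (e : ZMod D) = y ∧ e - e' = D then 1 else 0) d
    (fun e e' => by split_ifs <;> simp) (fun t ht => h1 t (List.mem_of_mem_filter ht))
    (fun t ht => h2 t (List.mem_of_mem_filter ht))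
  rw [← h3] at h4
  have h5 : (d.length : ℤ) ≤ 16 := by exact_mod_cast hy
  have h6 : (0 : ℤ) ≤ d.length := by positivity
  nlinarith

/-- bounds of the lamp changes over the small alphabet -/
lemma clist_val_two (u : Wd (AL 2)) (n : ℤ) :
    (∀ t ∈ clist u n, |t.2.1| ≤ 1) ∧ ∀ t ∈ clist u n, |t.2.2| ≤ 1 := by
  refine ⟨fun t ht => (clist_val u n t ht).1, ?_⟩
  induction u generalizing n with
  | nil => simp [clist]
  | cons s u ih =>
      obtain ⟨a, b⟩ := s
      rcases a with ⟨α, β⟩ | i
      · have hβ : ((β : ℕ) : ℤ) ≤ 1 := by have := β.2; omega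
        cases b
        · intro t ht
          simp only [clist, List.mem_cons] at ht
          rcases ht with rfl | ht
          · simp only [abs_neg, Nat.abs_cast]; exact hβ
          · exact ih (n - 1) t ht
        · intro t ht
          simp only [clist, List.mem_cons] at ht
          rcases ht with rfl | ht
          · simp only [Nat.abs_cast]; exact hβ
          · exact ih (n + 1) t ht
      · intro t ht
        simp only [clist] at ht
        exact ih n t ht

/-- intrinsic description of the words of length at most `16 D + 3` in `cW` and `cN` -/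
lemma short_char (P : Par) (D : ℕ) (hD : P.D = D) (hD4 : 4 ≤ D) (hl : 60 * D < P.l)
    (hm : 4 * (20 * D) ^ 2 < P.m) (hN : 120 < P.N) (hd : P.N ∣ P.m)
    (u : Wd (AL 2)) (hu : u.length ≤ 16 * D + 3) :
    (wp (kv P 2) u ∈ cW P ↔ ((∀ e, lampA (clist u 0) e = 0) ∧ (∀ e, lampB (clist u 0) e = 0) ∧
      cend u 0 = 0) ∧ ∃ c₀, ∀ y, hz D (clist u 0) y = c₀) ∧
    (wp (kv P 2) u ∈ cN P ↔ ((∀ e, lampA (clist u 0) e = 0) ∧ (∀ e, lampB (clist u 0) e = 0) ∧
      cend u 0 = 0) ∧ ∀ y, hz D (clist u 0) y = 0) := by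
  subst hD
  set c := clist u 0 with hc
  have hclen : c.length ≤ 16 * P.D + 3 := (clist_length u 0).trans hu
  obtain ⟨hv1, hv2⟩ := clist_val_two u 0
  rw [← hc] at hv1 hv2
  have hDm : 400 * P.D * P.D * 4 < P.m := by
    have : 4 * (20 * P.D) ^ 2 = 400 * P.D * P.D * 4 := by ring
    omega
  have hDD : 4 * P.D ≤ P.D * P.D := Nat.mul_le_mul_right _ hD4
  have hDm2 : 6400 * P.D < P.m := by
    have : 400 * P.D * P.D * 4 = 1600 * (P.D * P.D) := by ring
    omega
  -- the value of h
  have hh : ∀ y, (wp (kv P 2) u).h y = ((hz P.D c y : ℤ) : ZMod P.m) := by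
    intro y
    rw [wp_kv_h, ← hc]
    congr 1
    refine csP_congr fun t ht s hs => ?_
    have h1 := isW_span (clist_isW u 0) t ht s hs
    rw [← hc] at h1
    simp only [wtH, pair_iff P (e := t.1) (e' := s.1) (by omega)]
  -- the lamps
  have hlamps : ((wp (kv P 2) u).f = 0 ∧ (wp (kv P 2) u).g = 0 ∧ (wp (kv P 2) u).n = 0) ↔
      ((∀ e, lampA c e = 0) ∧ (∀ e, lampB c e = 0) ∧ cend u 0 = 0) := by
    constructor
    · rintro ⟨hf, hg, hn⟩
      exact ⟨lampA_eq_zero P u (by omega) (by omega) hf,
        lampB_eq_zero P u (by omega) (by omega) hg, cend_eq_zero P u (by omega) hn⟩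
    · rintro ⟨hA, hB, hE⟩
      refine ⟨?_, ?_, ?_⟩
      · funext x
        rw [wp_kv_f, ← hc, csA_eq_sum _ _ (c.map Prod.fst).toFinset (by
          intro t ht
          simp only [List.mem_toFinset, List.mem_map]
          exact ⟨t, ht, rfl⟩)]
        simp [hA]
      · funext x
        rw [wp_kv_g, ← hc, csB_eq_sum _ _ (c.map Prod.fst).toFinset (by
          intro t ht
          simp only [List.mem_toFinset, List.mem_map]
          exact ⟨t, ht, rfl⟩)]
        simp [hB]
      · rw [wp_kv_n, hE]; simp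
  -- the bound of the integer pairing
  have hb : ∀ y, 4 * |hz P.D c y| < P.m := by
    intro y
    have h1 := csP_bound (fun e e' => if (e : ZMod P.D) = y ∧ e - e' = P.D then 1 else 0) c
      (fun e e' => by split_ifs <;> simp) hv1 hv2
    change 2 * |hz P.D c y| ≤ _ at h1
    have h2 : (c.length : ℤ) ≤ 20 * P.D := by
      have : c.length ≤ 20 * P.D := by omega
      exact_mod_cast this
    have h3 : (0 : ℤ) ≤ c.length := by positivity
    have h4 : ((400 * P.D * P.D * 4 : ℕ) : ℤ) < P.m := by exact_mod_cast hDm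
    push_cast at h4
    nlinarith
  have hconst : ∀ k : ZMod P.m, (∀ y, (wp (kv P 2) u).h y = k) →
      ∃ c₀ : ℤ, (∀ y, hz P.D c y = c₀) ∧ (c₀ : ZMod P.m) = k := by
    intro k hk
    refine ⟨hz P.D c 0, fun y => ?_, by rw [← hh, hk]⟩
    refine int_eq_of_cast_eq (l := P.m) ?_ (by rw [← hh, ← hh, hk, hk])
    have h1 := hb y
    have h2 := hb 0
    have h3 := abs_sub (hz P.D c y) (hz P.D c 0)
    omega
  constructor
  · rw [mem_cW, ← hlamps]
    constructor
    · rintro ⟨hf, hg, hn, k, hk⟩
      obtain ⟨c₀, h1, -⟩ := hconst k hk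
      exact ⟨⟨hf, hg, hn⟩, c₀, h1⟩
    · rintro ⟨⟨hf, hg, hn⟩, c₀, h1⟩
      exact ⟨hf, hg, hn, (c₀ : ZMod P.m), fun y => by rw [hh, h1]⟩
  · rw [mem_cN, ← hlamps]
    constructor
    · rintro ⟨hf, hg, hn, k, hk⟩
      obtain ⟨c₀, h1, h2⟩ := hconst _ hk
      have h3 := hz_const_bound P.D hD4 c hclen hv1 hv2 c₀ h1
      have h4 : (P.N : ℤ) ∣ c₀ := by
        have h5 : ((c₀ : ZMod P.m).cast : ZMod P.N) = (c₀ : ZMod P.N) := by
          exact ZMod.cast_intCast hd c₀
        rw [h2, ZMod.cast_mul hd, ZMod.cast_natCast hd, ZMod.natCast_self, zero_mul] at h5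
        exact (ZMod.intCast_zmod_eq_zero_iff_dvd _ _).mp h5.symm
      have h6 : c₀ = 0 := by
        by_contra hne
        have h7 := Int.le_of_dvd (abs_pos.mpr hne) ((dvd_abs _ _).mpr h4)
        omega
      exact ⟨⟨hf, hg, hn⟩, fun y => by rw [h1, h6]⟩
    · rintro ⟨⟨hf, hg, hn⟩, h1⟩
      exact ⟨hf, hg, hn, 0, fun y => by rw [hh, h1]; simp⟩

/-- M7c: words of length at most `16 D + 3` over the small alphabet do not see `N` -/
theorem level_switch (P Q : Par) (hD : P.D = Q.D) (hD4 : 4 ≤ P.D) (hPl : 60 * P.D < P.l)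
    (hQl : 60 * P.D < Q.l) (hPm : 4 * (20 * P.D) ^ 2 < P.m) (hQm : 4 * (20 * P.D) ^ 2 < Q.m)
    (hPN : 120 < P.N) (hQN : 120 < Q.N) (hPd : P.N ∣ P.m) (hQd : Q.N ∣ Q.m)
    (u : Wd (AL 2)) (hu : u.length ≤ 16 * P.D + 3) :
    (wp (kv P 2) u ∈ cN P ↔ wp (kv Q 2) u ∈ cN Q) ∧
    (wp (kv P 2) u ∈ cW P ↔ wp (kv Q 2) u ∈ cW Q) := by
  have h1 := short_char P P.D rfl hD4 hPl hPm hPN hPd u hu
  have h2 := short_char Q P.D hD.symm hD4 hQl hQm hQN hQd u hu
  exact ⟨h1.2.trans h2.2.symm, h1.1.trans h2.1.symm⟩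

end Pool.Agent.Helper55.LF
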