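import Mathlib
import Pool.Agent.Helper55.LF.Defs
import Pool.Agent.Helper55.LF.NoLin
import Pool.Agent.Helper55.LF.Cent
import Pool.Agent.Helper55.LF.Gap
import Pool.Agent.Helper55.LF.Short
import Pool.Agent.Helper55.LF.GamBasic

/-! M10: box structures (`box_count`, `gam_gap`).

needs: noLin_count, cent_count, claimA, lamps_trivial, h_trivial, Wg, adm_use, mem_Wg_word,
mem_Wg_iff, Wg_central -/

namespace Pool.Agent.Helper55.LF

open Filter Topology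

section box
variable {m : ℕ} (Q : Fin m → Par) (c : Fin m → Bool)

/-- the value of a lamp word in the product of the level groups -/
def boxw {B : ℕ} (u : Wd (AL B)) : boxG Q := fun i => QuotientGroup.mk (wp (kv (Q i) B) u)

/-- the value of a letter (free letters are killed) -/
def boxl {B : ℕ} (a : AL B) : boxG Q := fun i => QuotientGroup.mk (kv (Q i) B a)

theorem boxw_eq {B : ℕ} (u : Wd (AL B)) : boxw Q u = wp (boxl Q (B := B)) u := by
  funext i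
  have h1 := map_wp (QuotientGroup.mk' (cN (Q i))) (kv (Q i) B) u
  have h2 := map_wp (Pi.evalMonoidHom (fun i => KG (Q i) ⧸ cN (Q i)) i) (boxl Q (B := B)) u
  exact h1.trans h2.symm

theorem boxw_eq_one_iff {B : ℕ} (u : Wd (AL B)) :
    boxw Q u = 1 ↔ ∀ i, wp (kv (Q i) B) u ∈ cN (Q i) := by
  constructor
  · intro h i
    have := congrFun h i
    exact (QuotientGroup.eq_one_iff _).1 this
  · intro h
    funext i
    exact (QuotientGroup.eq_one_iff _).2 (h i)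

theorem boxw_mem_iff {B : ℕ} (u : Wd (AL B)) :
    boxw Q u ∈ boxZ Q c ↔ ∀ i, wp (kv (Q i) B) u ∈ (if c i then cW (Q i) else cN (Q i)) := by
  unfold boxZ
  rw [Subgroup.mem_pi]
  constructor
  · intro h i
    have hi := h i (Set.mem_univ i)
    by_cases hc : c i = true
    · rw [if_pos hc] at hi ⊢
      obtain ⟨y, hy, hyx⟩ := hi
      have h3 : y⁻¹ * wp (kv (Q i) B) u ∈ cN (Q i) := QuotientGroup.eq.1 hyx
      have h4 := (cW (Q i)).mul_mem hy (cN_le_cW _ h3)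
      rwa [mul_inv_cancel_left] at h4
    · rw [if_neg hc] at hi ⊢
      exact (QuotientGroup.eq_one_iff _).1 (Subgroup.mem_bot.1 hi)
  · intro h i _
    have hi := h i
    by_cases hc : c i = true
    · rw [if_pos hc] at hi ⊢
      exact ⟨_, hi, rfl⟩
    · rw [if_neg hc] at hi ⊢
      exact Subgroup.mem_bot.2 ((QuotientGroup.eq_one_iff _).2 hi)

theorem boxZ_central {z : boxG Q} (hz : z ∈ boxZ Q c) (g : boxG Q) : z * g = g * z := by
  unfold boxZ at hz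
  rw [Subgroup.mem_pi] at hz
  funext i
  have hi := hz i (Set.mem_univ i)
  have key : ∀ (a b : KG (Q i) ⧸ cN (Q i)), a ∈ (cW (Q i)).map (QuotientGroup.mk' (cN (Q i))) →
      a * b = b * a := by
    rintro a b ⟨y, hy, rfl⟩
    obtain ⟨b, rfl⟩ := QuotientGroup.mk_surjective b
    change QuotientGroup.mk y * QuotientGroup.mk b = QuotientGroup.mk b * QuotientGroup.mk y
    rw [← QuotientGroup.mk_mul, ← QuotientGroup.mk_mul, cW_central hy b]
  by_cases hc : c i = true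
  · rw [if_pos hc] at hi
    exact key _ _ hi
  · rw [if_neg hc] at hi
    have h1 : z i = 1 := Subgroup.mem_bot.1 hi
    change z i * g i = g i * z i
    rw [h1, one_mul, mul_one]

instance : (boxZ Q c).Normal := ⟨fun z hz g => by
  rw [← boxZ_central Q c hz g, mul_inv_cancel_right]; exact hz⟩

/-- the quotient on which the free letters act -/
abbrev boxQt (M : ℕ) : Type := (boxG Q ⧸ boxZ Q c) × Fin M

/-- the projection -/
def boxmk (n₀ M : ℕ) (p : boxV Q n₀ M) : boxQt Q c M := (QuotientGroup.mk p.1, p.2.2)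

/-- the action of the lamp letters on the quotient -/
def boxρq (M B : ℕ) (a : Fin 2 × Fin B) : Equiv.Perm (boxQt Q c M) :=
  (Equiv.mulLeft (QuotientGroup.mk (boxv Q B a) : boxG Q ⧸ boxZ Q c)).prodCongr (Equiv.refl _)

/-- translations of the box -/
def boxT (n₀ M : ℕ) : boxG Q × Multiplicative (ZMod n₀) →* Equiv.Perm (boxV Q n₀ M) where
  toFun a := (Equiv.mulLeft a.1).prodCongr
    ((Equiv.addRight (Multiplicative.toAdd a.2)).prodCongr (Equiv.refl _))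
  map_one' := Equiv.ext fun p => Prod.ext (one_mul p.1) (Prod.ext (add_zero p.2.1) rfl)
  map_mul' a b := Equiv.ext fun p => Prod.ext (mul_assoc a.1 b.1 p.1)
    (Prod.ext (by
      change p.2.1 + (Multiplicative.toAdd a.2 + Multiplicative.toAdd b.2) =
        p.2.1 + Multiplicative.toAdd b.2 + Multiplicative.toAdd a.2
      ring) rfl)

theorem boxT_apply (n₀ M : ℕ) (a : boxG Q × Multiplicative (ZMod n₀)) (p : boxV Q n₀ M) :
    boxT Q n₀ M a p = (a.1 * p.1, p.2.1 + Multiplicative.toAdd a.2, p.2.2) := rfl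

/-- the central group of permutations -/
def boxZp (n₀ M : ℕ) : Subgroup (Equiv.Perm (boxV Q n₀ M)) :=
  ((boxZ Q c).prod ⊤).map (boxT Q n₀ M)

theorem mem_boxZp {n₀ M : ℕ} {z : Equiv.Perm (boxV Q n₀ M)} :
    z ∈ boxZp Q c n₀ M ↔ ∃ a : boxG Q, a ∈ boxZ Q c ∧ ∃ x : ZMod n₀,
      z = boxT Q n₀ M (a, Multiplicative.ofAdd x) := by
  unfold boxZp
  constructor
  · rintro ⟨⟨a, x⟩, ⟨ha, -⟩, rfl⟩
    exact ⟨a, ha, Multiplicative.toAdd x, rfl⟩
  · rintro ⟨a, ha, x, rfl⟩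
    exact ⟨(a, Multiplicative.ofAdd x), ⟨ha, Subgroup.mem_top _⟩, rfl⟩

theorem boxZp_free (n₀ M : ℕ) : ∀ z ∈ boxZp Q c n₀ M, ∀ p, z p = p → z = 1 := by
  intro z hz p hp
  obtain ⟨a, ha, x, rfl⟩ := (mem_boxZp Q c).1 hz
  rw [boxT_apply] at hp
  have h1 : a * p.1 = p.1 := congrArg (fun q : boxV Q n₀ M => q.1) hp
  have h2 : p.2.1 + x = p.2.1 := congrArg (fun q : boxV Q n₀ M => q.2.1) hp
  have h3 : a = 1 := mul_eq_right.1 h1
  have h4 : x = 0 := add_eq_left.1 h2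
  rw [h3, h4]
  exact map_one _

theorem boxmk_surj (n₀ M : ℕ) : Function.Surjective (boxmk Q c n₀ M) := by
  rintro ⟨q, i⟩
  obtain ⟨g, rfl⟩ := QuotientGroup.mk_surjective q
  exact ⟨(g, 0, i), rfl⟩

theorem boxmk_iff (n₀ M : ℕ) (p q : boxV Q n₀ M) :
    boxmk Q c n₀ M p = boxmk Q c n₀ M q ↔ ∃ z ∈ boxZp Q c n₀ M, z p = q := by
  constructor
  · intro h
    have h1 : (QuotientGroup.mk p.1 : boxG Q ⧸ boxZ Q c) = QuotientGroup.mk q.1 :=
      congrArg Prod.fst h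
    have h2 : p.2.2 = q.2.2 := congrArg (fun q : boxQt Q c M => q.2) h
    have h3 : p.1⁻¹ * q.1 ∈ boxZ Q c := QuotientGroup.eq.1 h1
    refine ⟨boxT Q n₀ M (p.1⁻¹ * q.1, Multiplicative.ofAdd (q.2.1 - p.2.1)),
      (mem_boxZp Q c).2 ⟨_, h3, _, rfl⟩, ?_⟩
    rw [boxT_apply]
    refine Prod.ext ?_ (Prod.ext ?_ ?_)
    · change p.1⁻¹ * q.1 * p.1 = q.1
      rw [boxZ_central Q c h3, mul_inv_cancel_left]
    · change p.2.1 + (q.2.1 - p.2.1) = q.2.1
      ring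
    · exact h2
  · rintro ⟨z, hz, rfl⟩
    obtain ⟨a, ha, x, rfl⟩ := (mem_boxZp Q c).1 hz
    rw [boxT_apply]
    refine Prod.ext ?_ rfl
    change (QuotientGroup.mk p.1 : boxG Q ⧸ boxZ Q c) = QuotientGroup.mk (a * p.1)
    rw [QuotientGroup.eq]
    rw [boxZ_central Q c ha, inv_mul_cancel_left]
    exact ha

theorem boxZp_comm (n₀ M : ℕ) : ∀ z ∈ boxZp Q c n₀ M, ∀ z' ∈ boxZp Q c n₀ M, Commute z z' := by
  intro z hz z' hz'
  obtain ⟨a, ha, x, rfl⟩ := (mem_boxZp Q c).1 hz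
  obtain ⟨b, hb, y, rfl⟩ := (mem_boxZp Q c).1 hz'
  change _ * _ = _ * _
  rw [← map_mul, ← map_mul]
  congr 1
  refine Prod.ext (boxZ_central Q c ha b) (mul_comm _ _)

theorem boxρ_eq (n₀ M B : ℕ) (a : Fin 2 × Fin B) :
    boxρ Q n₀ M B a = boxT Q n₀ M (boxv Q B a, 1) :=
  Equiv.ext fun p => Prod.ext rfl (Prod.ext (add_zero p.2.1).symm rfl)

theorem boxκ_eq (n₀ M : ℕ) : boxκ Q n₀ M = boxT Q n₀ M (1, Multiplicative.ofAdd 1) :=
  Equiv.ext fun p => Prod.ext (one_mul p.1).symm rfl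

theorem boxκ_mem (n₀ M : ℕ) : boxκ Q n₀ M ∈ boxZp Q c n₀ M :=
  (mem_boxZp Q c).2 ⟨1, Subgroup.one_mem _, 1, boxκ_eq Q n₀ M⟩

theorem boxZp_comm_ρ (n₀ M B : ℕ) (a : Fin 2 × Fin B) :
    ∀ z ∈ boxZp Q c n₀ M, Commute z (boxρ Q n₀ M B a) := by
  intro z hz
  obtain ⟨b, hb, x, rfl⟩ := (mem_boxZp Q c).1 hz
  rw [boxρ_eq]
  change _ * _ = _ * _
  rw [← map_mul, ← map_mul]
  congr 1
  refine Prod.ext (boxZ_central Q c hb _) (mul_comm _ _)

/-- lamp words act by translations -/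
theorem box_wp {n₀ M B : ℕ} (X : AL B → Equiv.Perm (boxV Q n₀ M))
    (hX : ∀ a, X (Sum.inl a) = boxρ Q n₀ M B a) (u : Wd (AL B)) (hu : IsH u) :
    wp X u = boxT Q n₀ M (boxw Q u, 1) := by
  rw [boxw_eq]
  induction u with
  | nil => simp only [wp_nil]; exact (map_one (boxT Q n₀ M)).symm
  | cons s u ih =>
    have hu' : IsH u := fun s hs => hu s (List.mem_cons_of_mem _ hs)
    obtain ⟨a, ha⟩ := hu s List.mem_cons_self
    have hl : lv X s = boxT Q n₀ M (lv (boxl Q (B := B)) s, 1) := by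
      rcases s with ⟨s, ε⟩
      change s = Sum.inl a at ha
      subst ha
      cases ε
      · rw [lv_false, lv_false, hX, boxρ_eq, ← map_inv]
        congr 1
        refine Prod.ext rfl ?_
        exact inv_one
      · rw [lv_true, lv_true, hX, boxρ_eq]
        rfl
    rw [wp_cons, wp_cons, ih hu', hl, ← map_mul]
    congr 1
    refine Prod.ext rfl ?_
    exact one_mul 1

theorem boxκ_zpow (n₀ M : ℕ) (x : ℤ) :
    boxκ Q n₀ M ^ x = boxT Q n₀ M (1, Multiplicative.ofAdd (x : ZMod n₀)) := by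
  rw [boxκ_eq, ← map_zpow]
  congr 1
  refine Prod.ext (one_zpow x) ?_
  change (Multiplicative.ofAdd (1 : ZMod n₀)) ^ x = _
  rw [← ofAdd_zsmul, zsmul_one]

theorem box_noLin (n₀ M B L : ℕ) [NeZero n₀] (c₀ : ℝ)
    (h : ∀ (X : Type) [Fintype X] [DecidableEq X],
      M ≤ Fintype.card X → ∀ ρ : Fin 2 × Fin B → Equiv.Perm X,
      c₀ * ((Fintype.card X).factorial : ℝ) ^ Fintype.card (Fin 2) ≤
        ({τ : Fin 2 → Equiv.Perm X | NoLin (Sum.elim ρ τ) L}.ncard : ℝ)) :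
    c₀ * (((Nat.card (boxG Q) * M / Nat.card (boxZ Q c)).factorial : ℝ)) ^ 2 ≤
      ({τ : Fin 2 → Equiv.Perm (boxV Q n₀ M) |
        (∀ b, ∀ z ∈ boxZp Q c n₀ M, Commute z (τ b)) ∧
        ∃ τ' ∈ {τ' : Fin 2 → Equiv.Perm (boxQt Q c M) | NoLin (Sum.elim (boxρq Q c M B) τ') L},
          ∀ b p, τ' b (boxmk Q c n₀ M p) = boxmk Q c n₀ M (τ b p)}.ncard : ℝ) := by
  classical
  have : Fintype (boxG Q) := Fintype.ofFinite _
  have : Fintype (boxG Q ⧸ boxZ Q c) := Fintype.ofFinite _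
  rw [cent_count (boxZp Q c n₀ M) (boxZp_free Q c n₀ M) (boxmk Q c n₀ M) (boxmk_surj Q c n₀ M)
    (boxmk_iff Q c n₀ M)]
  have hcard : Fintype.card (boxQt Q c M) = Nat.card (boxG Q) * M / Nat.card (boxZ Q c) := by
    have h1 : Nat.card (boxG Q) = Nat.card (boxG Q ⧸ boxZ Q c) * Nat.card (boxZ Q c) :=
      Subgroup.card_eq_card_quotient_mul_card_subgroup _
    have h2 : 0 < Nat.card (boxZ Q c) := Nat.card_pos
    rw [h1, mul_right_comm, Nat.mul_div_cancel _ h2, Fintype.card_prod, Fintype.card_fin,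
      Nat.card_eq_fintype_card]
  have hM : M ≤ Fintype.card (boxQt Q c M) := by
    rw [Fintype.card_prod, Fintype.card_fin]
    exact Nat.le_mul_of_pos_left _ Fintype.card_pos
  have h1 := h (boxQt Q c M) hM (boxρq Q c M B)
  rw [hcard, Fintype.card_fin] at h1
  refine h1.trans ?_
  have h2 : 0 < Nat.card (boxZp Q c n₀ M) := Nat.card_pos
  exact_mod_cast Nat.le_mul_of_pos_right _ (pow_pos h2 _)

end box

section box2
variable (p : ℕ) [BP p]

theorem box_good {m B : ℕ} (hB : B ≤ p) (Q : Fin m → Par) (c : Fin m → Bool) (n₀ r M : ℕ)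
    (hr : 1 ≤ r)
    (hG : ∀ v : Wd (AL B), v.length ≤ 2 * r + 1 → ¬ IsH v → wp (evB p hB) v ∈ Wg p →
      ∃ (v₁ g v₂ : Wd (AL B)) (b : Fin 2) (ε : Bool),
        v = v₁ ++ (Sum.inr b, ε) :: (g ++ (Sum.inr b, !ε) :: v₂) ∧ IsH g ∧
        wp (evB p hB) g ∈ Wg p)
    (b1 : ∀ u : Wd (AL B), IsH u → u.length ≤ 2 * r + 1 →
      ((∀ i, wp (kv (Q i) B) u ∈ cN (Q i)) ↔ wp (evB p hB) u = 1))
    (b2 : ∀ g : Wd (AL B), IsH g → g.length + 1 ≤ r →
      ((∀ i, wp (kv (Q i) B) g ∈ (if c i then cW (Q i) else cN (Q i))) ↔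
        wp (evB p hB) g ∈ Wg p))
    (τ : Fin 2 → Equiv.Perm (boxV Q n₀ M))
    (hτ : ∀ b, ∀ z ∈ boxZp Q c n₀ M, Commute z (τ b))
    (τ' : Fin 2 → Equiv.Perm (boxQt Q c M))
    (hNL : NoLin (Sum.elim (boxρq Q c M B) τ') (2 * r + 1))
    (hττ : ∀ b p, τ' b (boxmk Q c n₀ M p) = boxmk Q c n₀ M (τ b p)) :
    Good (evB p hB) n₀ r (Sum.elim (boxρ Q n₀ M B) τ, boxκ Q n₀ M) := by
  have hX : ∀ a, (Sum.elim (boxρ Q n₀ M B) τ : AL B → Equiv.Perm (boxV Q n₀ M)) (Sum.inl a) =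
      boxρ Q n₀ M B a := fun a => rfl
  refine claimA (evB p hB) (Wg p) n₀ r hr (fun w hw l => Wg_central p w hw _) hG
    (Sum.elim (boxρ Q n₀ M B) τ, boxκ Q n₀ M) (boxZp Q c n₀ M) (boxZp_free Q c n₀ M)
    (boxκ_mem Q c n₀ M) ?_ (boxZp_comm Q c n₀ M) (boxmk Q c n₀ M) (boxmk_iff Q c n₀ M)
    (Sum.elim (boxρq Q c M B) τ') ?_ hNL ?_ ?_ ?_
  · intro z hz l
    rcases l with a | b
    · exact boxZp_comm_ρ Q c n₀ M B a z hz
    · exact hτ b z hz
  · intro l q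
    rcases l with a | b
    · rfl
    · exact hττ b q
  · intro u hu hlen x q
    rw [← b1 u hu hlen, ← boxw_eq_one_iff]
    change (boxκ Q n₀ M ^ x) (wp (Sum.elim (boxρ Q n₀ M B) τ) u q) = q ↔ _
    rw [box_wp Q _ hX u hu, boxκ_zpow, boxT_apply, boxT_apply]
    constructor
    · intro h
      have h1 : 1 * (boxw Q u * q.1) = q.1 := congrArg (fun q : boxV Q n₀ M => q.1) h
      have h2 : q.2.1 + 0 + (x : ZMod n₀) = q.2.1 :=
        congrArg (fun q : boxV Q n₀ M => q.2.1) h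
      rw [one_mul] at h1
      rw [add_zero] at h2
      exact ⟨mul_eq_right.1 h1, (ZMod.intCast_zmod_eq_zero_iff_dvd _ _).1 (add_eq_left.1 h2)⟩
    · rintro ⟨h1, h2⟩
      have h3 : (x : ZMod n₀) = 0 := (ZMod.intCast_zmod_eq_zero_iff_dvd _ _).2 h2
      refine Prod.ext ?_ (Prod.ext ?_ rfl)
      · change 1 * (boxw Q u * q.1) = q.1
        rw [h1, one_mul, one_mul]
      · change q.2.1 + 0 + (x : ZMod n₀) = q.2.1
        rw [h3, add_zero, add_zero]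
  · intro g hg hlen q hz
    obtain ⟨z, hz, hq⟩ := hz
    obtain ⟨a, ha, x, rfl⟩ := (mem_boxZp Q c).1 hz
    change wp (Sum.elim (boxρ Q n₀ M B) τ) g q = _ at hq
    rw [box_wp Q _ hX g hg, boxT_apply, boxT_apply] at hq
    have h1 : boxw Q g * q.1 = a * q.1 := congrArg (fun q : boxV Q n₀ M => q.1) hq
    have h2 : boxw Q g = a := mul_right_cancel h1
    rw [← b2 g hg hlen, ← boxw_mem_iff, h2]
    exact ha
  · intro g hg hlen hW
    rw [← b2 g hg hlen, ← boxw_mem_iff] at hW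
    change wp (Sum.elim (boxρ Q n₀ M B) τ) g ∈ _
    rw [box_wp Q _ hX g hg]
    exact (mem_boxZp Q c).2 ⟨_, hW, 0, rfl⟩

/-- M10a -/
theorem box_count {m B : ℕ} (hB : B ≤ p) (Q : Fin m → Par) (c : Fin m → Bool) (n₀ r : ℕ)
    (hn₀ : 0 < n₀) (hr : 1 ≤ r)
    (hG : ∀ v : Wd (AL B), v.length ≤ 2 * r + 1 → ¬ IsH v → wp (evB p hB) v ∈ Wg p →
      ∃ (v₁ g v₂ : Wd (AL B)) (b : Fin 2) (ε : Bool),
        v = v₁ ++ (Sum.inr b, ε) :: (g ++ (Sum.inr b, !ε) :: v₂) ∧ IsH g ∧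
        wp (evB p hB) g ∈ Wg p)
    (b1 : ∀ u : Wd (AL B), IsH u → u.length ≤ 2 * r + 1 →
      ((∀ i, wp (kv (Q i) B) u ∈ cN (Q i)) ↔ wp (evB p hB) u = 1))
    (b2 : ∀ g : Wd (AL B), IsH g → g.length + 1 ≤ r →
      ((∀ i, wp (kv (Q i) B) g ∈ (if c i then cW (Q i) else cN (Q i))) ↔
        wp (evB p hB) g ∈ Wg p)) :
    ∃ c₀ : ℝ, 0 < c₀ ∧ ∃ M₀ : ℕ, ∀ M ≥ M₀,
      c₀ * (((Nat.card (boxG Q) * M / Nat.card (boxZ Q c)).factorial : ℝ)) ^ 2 ≤
      ({τ : Fin 2 → Equiv.Perm (boxV Q n₀ M) |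
        Good (evB p hB) n₀ r (Sum.elim (boxρ Q n₀ M B) τ, boxκ Q n₀ M)}.ncard : ℝ) := by
  classical
  have : NeZero n₀ := ⟨hn₀.ne'⟩
  have : Fintype (boxG Q) := Fintype.ofFinite _
  obtain ⟨c₀, hc₀, M₀, hM₀⟩ := noLin_count (Fin 2 × Fin B) (Fin 2) (2 * r + 1)
  refine ⟨c₀, hc₀, M₀, fun M hM => ?_⟩
  refine (box_noLin Q c n₀ M B (2 * r + 1) c₀
    (fun X _ _ hX ρ => hM₀ X (hM.trans hX) ρ)).trans ?_
  refine Nat.cast_le.2 (Set.ncard_le_ncard ?_ (Set.toFinite _))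
  rintro τ ⟨h1, τ', h2, h3⟩
  exact box_good p hB Q c n₀ r M hr hG b1 b2 τ h1 τ' h2 h3

theorem box_wp_mk {Λ V X : Type} (ρ : Λ → Equiv.Perm V) (σ : Λ → Equiv.Perm X) (mk : V → X)
    (h : ∀ l q, σ l (mk q) = mk (ρ l q)) (u : Wd Λ) (q : V) :
    wp σ u (mk q) = mk (wp ρ u q) := by
  induction u with
  | nil => simp
  | cons s u ih =>
    rw [wp_cons, wp_cons, Equiv.Perm.mul_apply, Equiv.Perm.mul_apply, ih]
    rcases s with ⟨l, ε⟩
    cases ε
    · rw [lv_false, lv_false, Equiv.Perm.inv_eq_iff_eq, h]; simp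
    · rw [lv_true, lv_true, h]

theorem box_le_dd (j : ℕ) : j ≤ dd j := by
  induction j with
  | zero => simp [dd]
  | succ j ih => simp only [dd]; omega

/-- M10b: normal form statement in the group -/
theorem gam_gap {B : ℕ} (hB : B ≤ p) (v : Wd (AL B)) (hv : ¬ IsH v)
    (hW : wp (evB p hB) v ∈ Wg p) :
    ∃ (v₁ g v₂ : Wd (AL B)) (b : Fin 2) (ε : Bool),
      v = v₁ ++ (Sum.inr b, ε) :: (g ++ (Sum.inr b, !ε) :: v₂) ∧ IsH g ∧
      wp (evB p hB) g ∈ Wg p := by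
  classical
  obtain ⟨w, hwH, hwW, hwe⟩ := mem_Wg_word p hW
  have hp2 : 1 < p := by have := BP.big (p := p); omega
  obtain ⟨J, hJ⟩ : ∃ J : ℕ, J = 4 * (B + 2) * v.length := ⟨_, rfl⟩
  set Q := Qstd p J with hQ
  set c : Fin (J + 1) → Bool := fun _ => true with hc
  obtain ⟨c₀, hc₀, M₀, hM₀⟩ := noLin_count (Fin 2 × Fin B) (Fin 2) v.length
  have : Fintype (boxG Q) := Fintype.ofFinite _
  have : Fintype (boxG Q ⧸ boxZ Q c) := Fintype.ofFinite _
  set M := M₀ + 1 with hM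
  have h1 := box_noLin Q c 1 M B v.length c₀
    (fun X _ _ hX ρ => hM₀ X ((Nat.le_succ _).trans hX) ρ)
  have h2 : 0 < {τ : Fin 2 → Equiv.Perm (boxV Q 1 M) |
        (∀ b, ∀ z ∈ boxZp Q c 1 M, Commute z (τ b)) ∧
        ∃ τ' ∈ {τ' : Fin 2 → Equiv.Perm (boxQt Q c M) |
          NoLin (Sum.elim (boxρq Q c M B) τ') v.length},
          ∀ b p, τ' b (boxmk Q c 1 M p) = boxmk Q c 1 M (τ b p)}.ncard := by
    have h3 : (0 : ℝ) < c₀ * (((Nat.card (boxG Q) * M / Nat.card (boxZ Q c)).factorial : ℝ)) ^ 2 := by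
      positivity
    exact_mod_cast h3.trans_le h1
  obtain ⟨τ, hτ, τ', hNL, hττ⟩ := Set.nonempty_of_ncard_ne_zero h2.ne'
  have hZ : ∀ {B' : ℕ} (u : Wd (AL B')), InW p u → boxw Q u ∈ boxZ Q c := by
    intro B' u hu
    rw [boxw_mem_iff]
    intro i
    rw [hc]
    exact hu i.1
  have hρ : ∀ {B' : ℕ} (hB' : B' ≤ p) (u : Wd (AL B')), IsH u →
      wp (fun a => (Sum.elim (boxρ Q 1 M p) τ : AL p → Equiv.Perm (boxV Q 1 M)) (emb p hB' a)) u =
        boxT Q 1 M (boxw Q u, 1) := by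
    intro B' hB' u hu
    exact box_wp Q _ (fun a => by rcases a with ⟨α, β⟩; rfl) u hu
  have hadm := adm_use p (Sum.elim (boxρ Q 1 M p) τ : AL p → Equiv.Perm (boxV Q 1 M))
    (by
      intro u hu hT
      rw [box_wp Q _ (fun a => rfl) u hu, (boxw_eq_one_iff Q u).2 fun i => hT i.1]
      exact map_one _)
    (by
      intro u hu hT i
      rw [box_wp Q _ (fun a => rfl) u hu]
      exact hτ i _ ((mem_boxZp Q c).2 ⟨_, hZ u hT, 0, rfl⟩))
    hB (by omega : 2 ≤ p) v w hwe.symm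
  rw [hρ (by omega : 2 ≤ p) w hwH] at hadm
  -- the closed trajectory in the quotient
  have hσ : ∀ l q, (Sum.elim (boxρq Q c M B) τ' : AL B → Equiv.Perm (boxQt Q c M)) l
      (boxmk Q c 1 M q) = boxmk Q c 1 M
        ((Sum.elim (boxρ Q 1 M p) τ : AL p → Equiv.Perm (boxV Q 1 M)) (emb p hB l) q) := by
    intro l q
    rcases l with ⟨α, β⟩ | b
    · rfl
    · exact hττ b q
  have hmkT : ∀ (a : boxG Q) (q : boxV Q 1 M), a ∈ boxZ Q c →
      boxmk Q c 1 M (boxT Q 1 M (a, 1) q) = boxmk Q c 1 M q := by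
    intro a q ha
    exact ((boxmk_iff Q c 1 M _ _).2 ⟨_, (mem_boxZp Q c).2 ⟨a, ha, 0, rfl⟩, rfl⟩).symm
  have hcl : wp (Sum.elim (boxρq Q c M B) τ' : AL B → Equiv.Perm (boxQt Q c M)) v
      (boxmk Q c 1 M (1, 0, 0)) = boxmk Q c 1 M (1, 0, 0) := by
    rw [box_wp_mk _ _ (boxmk Q c 1 M) hσ, hadm]
    exact hmkT _ _ (hZ w hwW)
  obtain ⟨v₁, g, v₂, b, ε, hveq, hgH, hgy⟩ := hNL v le_rfl hv _ hcl
  refine ⟨v₁, g, v₂, b, ε, hveq, hgH, ?_⟩
  obtain ⟨q, hq⟩ := boxmk_surj Q c 1 M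
    (wp (Sum.elim (boxρq Q c M B) τ') ((Sum.inr b, !ε) :: v₂) (boxmk Q c 1 M (1, 0, 0)))
  rw [← hq, box_wp_mk _ _ (boxmk Q c 1 M) hσ, hρ hB g hgH] at hgy
  have hgZ : boxw Q g ∈ boxZ Q c := by
    have h3 : (QuotientGroup.mk (boxw Q g * q.1) : boxG Q ⧸ boxZ Q c) = QuotientGroup.mk q.1 :=
      congrArg (fun q : boxQt Q c M => q.1) hgy
    rw [QuotientGroup.mk_mul] at h3
    exact (QuotientGroup.eq_one_iff _).1 (mul_eq_right.1 h3)
  have hlen : g.length ≤ v.length := by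
    rw [hveq]
    simp only [List.length_append, List.length_cons]
    omega
  rw [boxw_mem_iff] at hgZ
  rw [mem_Wg_iff p hB g hgH]
  have hgJ : wp (kv (lev p J) B) g ∈ cW (lev p J) := by
    have := hgZ ⟨J, Nat.lt_succ_self J⟩
    rwa [hc] at this
  obtain ⟨hf, hg, hn, -⟩ := mem_cW.1 hgJ
  intro i
  rcases Nat.lt_or_ge J i with hi | hi
  · have hpow : ∀ n, n < p ^ n := fun n => Nat.lt_pow_self hp2
    have hbig : 4 * (B + 2) * g.length ≤ J := by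
      rw [hJ]; exact Nat.mul_le_mul_left _ hlen
    have hle : ∀ n, J ≤ n → 4 * (B + 2) * g.length < p ^ n := fun n hn =>
      (hbig.trans hn).trans_lt (hpow n)
    have hdJ := box_le_dd J
    have hdi := box_le_dd i
    have hg4 : 4 * g.length ≤ 4 * (B + 2) * g.length :=
      Nat.mul_le_mul_right _ (by omega)
    have hg1 : g.length ≤ 4 * g.length := by omega
    have hA : 4 * g.length < (lev p J).l :=
      hg4.trans_lt (hle (dd J + 1) (by omega))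
    have hC : 4 * (B + 2) * g.length < (lev p J).m := hle (2 * dd J + 3) (by omega)
    have hD : g.length < (lev p i).D :=
      (hg1.trans hg4).trans_lt (hle (dd i) (by omega))
    obtain ⟨h3, h4, h5⟩ := lamps_trivial (lev p J) (lev p i) g hA hC hf hg hn
    have h6 := h_trivial (lev p i) g hD
    exact mem_cW.2 ⟨h3, h4, h5, 0, fun y => by rw [h6]; rfl⟩
  · have := hgZ ⟨i, Nat.lt_succ_of_le hi⟩
    rwa [hc] at this

end box2

end Pool.Agent.Helper55.LF
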