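import Mathlib
import Pool.Agent.Helper55.LF.Defs
import Pool.Agent.Helper55.LF.Eval
import Pool.Agent.Helper55.LF.GamBasic

namespace Pool.Agent.Helper55.LF

open Filter Topology

/-! ### M12: central elements of good transitive structures.
needs: eval_gam, Wg, ev_eq_one, level_of_ev_eq, mem_Wg_iff, Wg_central -/

section ctr

lemma ctr_cst_add (P : Par) (a b : ℤ) : cst P (a + b) = cst P a * cst P b := by
  ext e
  · simp [KG.mul_f, cst]
  · simp [KG.mul_g, cst]
  · rw [KG.mul_h]
    have : om P (cst P a).f (fun e => (cst P b).g (e - (cst P a).n)) e = 0 :=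
      KG.om_zero_left _ _
    rw [this]
    simp [cst]
  · simp [cst]

lemma ctr_cst_zero (P : Par) : cst P 0 = 1 := by
  ext e
  · rfl
  · rfl
  · simp [cst]
  · rfl

lemma ctr_cst_neg (P : Par) (a : ℤ) : cst P (-a) = (cst P a)⁻¹ := by
  apply eq_inv_of_mul_eq_one_left
  rw [← ctr_cst_add, neg_add_cancel, ctr_cst_zero]

lemma ctr_cst_mem_cW (P : Par) (a : ℤ) : cst P a ∈ cW P := ⟨rfl, rfl, rfl, _, fun _ => rfl⟩

lemma ctr_cst_mem_cN (P : Par) (a : ℤ) (h : (P.N : ℤ) ∣ a) : cst P a ∈ cN P := by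
  obtain ⟨c, rfl⟩ := h
  exact ⟨rfl, rfl, rfl, c, fun _ => by simp [cst]⟩

lemma ctr_cst_dvd (P : Par) (a : ℤ) (hd : P.N ∣ P.m) (h : cst P a ∈ cN P) : (P.N : ℤ) ∣ a := by
  obtain ⟨_, _, _, c, hc⟩ := h
  have h1 : ((a : ℤ) : ZMod P.m) = (((P.N : ℤ) * (c.val : ℤ) : ℤ) : ZMod P.m) := by
    have := hc 0
    simp only [cst] at this
    rw [this]
    push_cast
    rw [ZMod.natCast_zmod_val]
  rw [ZMod.intCast_eq_intCast_iff_dvd_sub] at h1
  have h2 : (P.N : ℤ) ∣ (P.N : ℤ) * (c.val : ℤ) - a := dvd_trans (by exact_mod_cast hd) h1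
  have h3 : (P.N : ℤ) ∣ (P.N : ℤ) * (c.val : ℤ) := Dvd.intro _ rfl
  have := dvd_sub h3 h2
  simpa using this

lemma ctr_isH_append {A B : Type*} {u v : Wd (A ⊕ B)} (hu : IsH u) (hv : IsH v) : IsH (u ++ v) := by
  intro s hs
  rcases List.mem_append.mp hs with h | h
  · exact hu s h
  · exact hv s h

lemma ctr_isH_winv {A B : Type*} {u : Wd (A ⊕ B)} (hu : IsH u) : IsH (winv u) := by
  intro s hs
  simp only [winv, List.mem_reverse, List.mem_map] at hs
  obtain ⟨s', h1, h2⟩ := hs
  obtain ⟨a, ha⟩ := hu s' h1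
  exact ⟨a, by rw [← h2]; exact ha⟩

lemma ctr_isH_pass {B : ℕ} (α : ℕ → Fin 2) (β : ℕ → Fin B) (L : ℕ) : IsH (pass α β L) := by
  intro s hs
  simp only [pass, List.mem_map] at hs
  obtain ⟨i, _, rfl⟩ := hs
  exact ⟨_, rfl⟩

lemma ctr_isH_stdW {B : ℕ} (D : ℕ) (β β' : ℕ → Fin B) : IsH (stdW D β β') :=
  ctr_isH_append (ctr_isH_pass _ _ _) (ctr_isH_append (ctr_isH_winv (ctr_isH_pass _ _ _))
    (ctr_isH_append (ctr_isH_pass _ _ _) (ctr_isH_winv (ctr_isH_pass _ _ _))))

lemma ctr_length_stdW {B : ℕ} (D : ℕ) (β β' : ℕ → Fin B) : (stdW D β β').length = 8 * D := by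
  simp [stdW, pass]
  ring

variable (p : ℕ) [BP p]

/-- the word has the constant values `z i` in the levels -/
def ctrV (u : Wd (AL 2)) (z : ℕ → ℤ) : Prop :=
  IsH u ∧ ∀ i, wp (kv (lev p i) 2) u = cst (lev p i) (z i)

variable {p}

lemma ctrV_nil : ctrV p [] 0 := by
  refine ⟨fun s hs => by simp at hs, fun i => ?_⟩
  rw [wp_nil]
  exact (ctr_cst_zero _).symm

lemma ctrV_append {u v : Wd (AL 2)} {z z' : ℕ → ℤ} (hu : ctrV p u z) (hv : ctrV p v z') :
    ctrV p (u ++ v) (z + z') :=
  ⟨ctr_isH_append hu.1 hv.1, fun i => by rw [wp_append, hu.2, hv.2, ← ctr_cst_add]; rfl⟩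

lemma ctrV_winv {u : Wd (AL 2)} {z : ℕ → ℤ} (hu : ctrV p u z) : ctrV p (winv u) (-z) :=
  ⟨ctr_isH_winv hu.1, fun i => by rw [wp_winv, hu.2, ← ctr_cst_neg]; rfl⟩

lemma ctrV_rep {u : Wd (AL 2)} {z : ℕ → ℤ} (hu : ctrV p u z) (n : ℕ) :
    ctrV p (List.replicate n u).flatten (n • z) := by
  induction n with
  | zero => simpa using ctrV_nil
  | succ n ih =>
    rw [List.replicate_succ, List.flatten_cons, succ_nsmul']
    exact ctrV_append hu ih

lemma ctrV_one (h2 : 2 ≤ p) {u : Wd (AL 2)} {z : ℕ → ℤ} (hu : ctrV p u z)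
    (hz : ∀ i, (p : ℤ) ∣ z i) : wp (evB p h2) u = 1 := by
  apply ev_eq_one p h2 u hu.1
  intro i
  rw [hu.2]
  exact ctr_cst_mem_cN _ _ (hz i)

lemma ctrV_dvd (h2 : 2 ≤ p) {u : Wd (AL 2)} {z : ℕ → ℤ} (hu : ctrV p u z)
    (h : wp (evB p h2) u = 1) (i : ℕ) : (p : ℤ) ∣ z i := by
  have h1 := level_of_ev_eq p h2 h2 u [] (by rw [h, wp_nil]) i
  rw [hu.2, wp_nil, mul_one, inv_mem_iff] at h1
  apply ctr_cst_dvd (lev p i) (z i) _ h1
  show p ∣ p ^ (2 * dd i + 3)
  exact dvd_pow_self _ (by omega)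

lemma ctrV_eq (h2 : 2 ≤ p) {u v : Wd (AL 2)} {z z' : ℕ → ℤ} (hu : ctrV p u z) (hv : ctrV p v z')
    (h : ∀ i, (p : ℤ) ∣ z i - z' i) : wp (evB p h2) u = wp (evB p h2) v := by
  have h1 := ctrV_one h2 (ctrV_append (ctrV_winv hv) hu) (fun i => by
    simpa [sub_eq_neg_add] using h i)
  rw [wp_append, wp_winv] at h1
  exact (inv_mul_eq_one.mp h1).symm

lemma ctrV_dvd_sub (h2 : 2 ≤ p) {u v : Wd (AL 2)} {z z' : ℕ → ℤ} (hu : ctrV p u z)
    (hv : ctrV p v z') (h : wp (evB p h2) u = wp (evB p h2) v) (i : ℕ) : (p : ℤ) ∣ z i - z' i := by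
  have h1 := ctrV_dvd h2 (ctrV_append (ctrV_winv hv) hu) (by
    rw [wp_append, wp_winv, h, inv_mul_cancel]) i
  simpa [sub_eq_neg_add] using h1

lemma ctrV_comm (h2 : 2 ≤ p) {u : Wd (AL 2)} {z : ℕ → ℤ} (hu : ctrV p u z) (x : Gam p) :
    Commute (wp (evB p h2) u) x := by
  apply Wg_central
  rw [mem_Wg_iff p h2 u hu.1]
  intro i
  rw [hu.2]
  exact ctr_cst_mem_cW _ _

variable (p)

/-- the standard word of level `k` with value `1` in level `k` -/
def ctrS (k : ℕ) : Wd (AL 2) :=
  stdW (lev p k).D (fun _ => (0 : Fin 2)) (fun e => if e < (lev p k).D then 1 else 0)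

lemma ctrS_val (k : ℕ) : ctrV p (ctrS p k) (Pi.single k 1) := by
  refine ⟨ctr_isH_stdW _ _ _, fun i => ?_⟩
  have h := eval_gam p k (Pi.single k 1) (fun _ => (0 : Fin 2))
    (fun e => if e < (lev p k).D then 1 else 0) (fun e _ => by
      unfold gam
      split_ifs with he
      · simp
      · rw [Finset.sum_eq_zero]
        · simp
        · intro k' hk'
          have : k' ≠ k := (Finset.mem_range.mp hk').ne
          simp [Pi.single_eq_of_ne this]) i
  unfold ctrS
  rw [h]
  congr 1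
  split_ifs with hi
  · rfl
  · rw [Pi.single_eq_of_ne (by omega)]

lemma ctrS_length (k : ℕ) : (ctrS p k).length = 8 * (lev p k).D := ctr_length_stdW _ _ _

/-- the product of the powers of the standard words of the levels below `n` -/
def ctrU (c : ℕ → ℕ) : ℕ → Wd (AL 2)
  | 0 => []
  | n + 1 => ctrU c n ++ (List.replicate (c n) (ctrS p n)).flatten

lemma ctrU_val (c : ℕ → ℕ) (n : ℕ) :
    ctrV p (ctrU p c n) (fun i => if i < n then (c i : ℤ) else 0) := by
  induction n with
  | zero =>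
    have := ctrV_nil (p := p)
    exact this
  | succ n ih =>
    have h := ctrV_append ih (ctrV_rep (ctrS_val p n) (c n))
    unfold ctrU
    convert h using 1
    funext i
    have e : (c n • (Pi.single n (1 : ℤ) : ℕ → ℤ)) i = (c n : ℤ) * (Pi.single n (1 : ℤ) : ℕ → ℤ) i := by
      rw [Pi.smul_apply, nsmul_eq_mul]
    rw [Pi.add_apply, e]
    rcases lt_trichotomy i n with hi | hi | hi
    · rw [if_pos (by omega), if_pos hi, Pi.single_eq_of_ne (by omega)]; simp
    · subst hi; simp
    · rw [if_neg (by omega), if_neg (by omega), Pi.single_eq_of_ne (by omega)]; simp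

lemma ctrU_length (c : ℕ → ℕ) (hc : ∀ k, c k ≤ p) (n : ℕ) : (ctrU p c n).length ≤ (lev p n).D := by
  have hp := BP.big (p := p)
  induction n with
  | zero => simp [ctrU]
  | succ n ih =>
    have h1 : (List.replicate (c n) (ctrS p n)).flatten.length = c n * (8 * (lev p n).D) := by
      simp [ctrS_length]
    unfold ctrU
    rw [List.length_append, h1]
    have h2 : (lev p (n + 1)).D = (lev p n).D ^ 3 * p ^ 4 := by
      show p ^ (3 * dd n + 4) = (p ^ dd n) ^ 3 * p ^ 4
      rw [pow_add, ← pow_mul]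
      ring
    have h3 : 0 < (lev p n).D := (lev p n).hD
    have h4 := hc n
    calc (ctrU p c n).length + c n * (8 * (lev p n).D)
        ≤ (lev p n).D + p * (8 * (lev p n).D) := by gcongr
      _ = (lev p n).D * (1 + 8 * p) := by ring
      _ ≤ (lev p n).D * (p * p) := Nat.mul_le_mul_left _ (by nlinarith)
      _ ≤ (lev p n).D ^ 3 * p ^ 4 := by
        have e1 : (lev p n).D ≤ (lev p n).D ^ 3 := Nat.le_self_pow (by norm_num) _
        have e2 : p * p ≤ p ^ 4 := by
          have : p * p * 1 ≤ p * p * (p * p) := Nat.mul_le_mul_left _ (by nlinarith)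
          calc p * p = p * p * 1 := by ring
            _ ≤ _ := this
            _ = p ^ 4 := by ring
        exact Nat.mul_le_mul e1 e2
      _ = _ := h2.symm

theorem s2_center (h2 : 2 ≤ p) (j : ℕ) {V : Type} [Finite V] [Nonempty V] (X : LS (AL 2) V)
    (hX : Good (evB p h2) (p ^ 3) (8 * (lev p j).D + 1) X) (hT : Trans X) :
    ∃ (υ : Multiplicative (Fin j → ZMod p) × Multiplicative (ZMod (p ^ 3)) →* Equiv.Perm V)
      (ζ : Equiv.Perm V), Function.Injective υ ∧ υ (1, Multiplicative.ofAdd 1) = X.2 ∧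
      (∀ u l, Commute (υ u) (X.1 l)) ∧ (∀ l, Commute ζ (X.1 l)) ∧ (∀ u, Commute ζ (υ u)) ∧
      ζ ∉ υ.range ∧
      (∀ g ∈ Subgroup.closure (Set.range υ ∪ {ζ}), ∀ q, g q = q → g = 1) := by
  have hp := BP.big (p := p)
  have hD : 0 < (lev p j).D := (lev p j).hD
  obtain ⟨hκ, hG⟩ := hX
  -- transport of relations
  have key : ∀ u v : Wd (AL 2), u.length + v.length ≤ 16 * (lev p j).D + 3 →
      wp (evB p h2) u = wp (evB p h2) v → wp X.1 u = wp X.1 v := by
    intro u v hl h
    ext q
    have h1 := (hG (winv v ++ u) (by simp; omega) 0 q).mpr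
      ⟨by rw [wp_append, wp_winv, h, inv_mul_cancel], by simp⟩
    rw [zpow_zero, wp_append, wp_winv, Equiv.Perm.one_apply, Equiv.Perm.mul_apply,
      Equiv.Perm.inv_eq_iff_eq] at h1
    exact h1
  have key2 : ∀ (u v : Wd (AL 2)) (x : ℤ), u.length + v.length ≤ 16 * (lev p j).D + 3 →
      X.2 ^ x * wp X.1 u = wp X.1 v → wp (evB p h2) u = wp (evB p h2) v ∧ ((p ^ 3 : ℕ) : ℤ) ∣ x := by
    intro u v x hl h
    obtain ⟨q⟩ := ‹Nonempty V›
    have hc : ∀ w : Wd (AL 2), Commute X.2 (wp X.1 w) := by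
      intro w
      induction w with
      | nil => exact Commute.one_right _
      | cons s w ih =>
        rw [wp_cons]
        refine Commute.mul_right ?_ ih
        rcases s with ⟨a, b⟩
        cases b
        · exact (hκ a).inv_right
        · exact hκ a
    have h1 := (hG (winv v ++ u) (by simp; omega) x q).mp (by
      rw [← Equiv.Perm.mul_apply, wp_append, wp_winv, ← mul_assoc]
      have : X.2 ^ x * (wp X.1 v)⁻¹ = (wp X.1 v)⁻¹ * X.2 ^ x :=
        (((hc v).zpow_left x).inv_right).eq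
      rw [this, mul_assoc, h, inv_mul_cancel, Equiv.Perm.one_apply])
    refine ⟨?_, h1.2⟩
    have h3 := h1.1
    rw [wp_append, wp_winv] at h3
    exact (inv_mul_eq_one.mp h3).symm
  have hκw : ∀ w : Wd (AL 2), Commute X.2 (wp X.1 w) := by
    intro w
    induction w with
    | nil => exact Commute.one_right _
    | cons s w ih =>
      rw [wp_cons]
      refine Commute.mul_right ?_ ih
      rcases s with ⟨a, b⟩
      cases b
      · exact (hκ a).inv_right
      · exact hκ a
  have hκn : X.2 ^ (p ^ 3) = 1 := by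
    ext q
    have := (hG [] (by simp) ((p ^ 3 : ℕ) : ℤ) q).mpr ⟨wp_nil _, dvd_rfl⟩
    rw [zpow_natCast, wp_nil, Equiv.Perm.one_apply] at this
    exact this
  have : NeZero p := ⟨by omega⟩
  have : NeZero (p ^ 3) := ⟨by positivity⟩
  -- the words
  let c : (Fin j → ZMod p) → ℕ → ℕ := fun a k => if h : k < j then (a ⟨k, h⟩).val else 0
  have hc : ∀ a k, c a k ≤ p := by
    intro a k
    simp only [c]
    split_ifs
    · exact (ZMod.val_lt _).le
    · exact Nat.zero_le _
  let U : (Fin j → ZMod p) → Wd (AL 2) := fun a => ctrU p (c a) j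
  have hUl : ∀ a, (U a).length ≤ (lev p j).D := fun a => ctrU_length p (c a) (hc a) j
  have hUv : ∀ a, ctrV p (U a) (fun i => if i < j then (c a i : ℤ) else 0) :=
    fun a => ctrU_val p (c a) j
  have hUmul : ∀ a b, wp X.1 (U (a + b)) = wp X.1 (U a) * wp X.1 (U b) := by
    intro a b
    rw [← wp_append]
    apply key
    · have h1 := hUl a
      have h2 := hUl b
      have h3 := hUl (a + b)
      rw [List.length_append]
      omega
    · apply ctrV_eq h2 (hUv (a + b)) (ctrV_append (hUv a) (hUv b))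
      intro i
      rw [Pi.add_apply]
      split_ifs with hi
      · simp only [c, dif_pos hi, Pi.add_apply, ZMod.val_add]
        have h1 := Nat.mod_add_div ((a ⟨i, hi⟩).val + (b ⟨i, hi⟩).val) p
        refine ⟨-((((a ⟨i, hi⟩).val + (b ⟨i, hi⟩).val) / p : ℕ) : ℤ), ?_⟩
        have h3 : ((((a ⟨i, hi⟩).val + (b ⟨i, hi⟩).val) % p : ℕ) : ℤ) +
            (p : ℤ) * ((((a ⟨i, hi⟩).val + (b ⟨i, hi⟩).val) / p : ℕ) : ℤ) =
            ((a ⟨i, hi⟩).val : ℤ) + ((b ⟨i, hi⟩).val : ℤ) := by exact_mod_cast h1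
        linarith
      · simp
  have hU0 : wp X.1 (U 0) = 1 := by
    have := hUmul 0 0
    rw [add_zero] at this
    exact mul_left_cancel (by rw [← this, mul_one])
  let υ : Multiplicative (Fin j → ZMod p) × Multiplicative (ZMod (p ^ 3)) →* Equiv.Perm V :=
    { toFun := fun w => wp X.1 (U (Multiplicative.toAdd w.1)) *
        X.2 ^ (Multiplicative.toAdd w.2).val
      map_one' := by
        simp only [Prod.fst_one, Prod.snd_one, toAdd_one, ZMod.val_zero, pow_zero, mul_one]
        exact hU0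
      map_mul' := by
        intro w w'
        simp only [Prod.fst_mul, Prod.snd_mul, toAdd_mul, hUmul, ZMod.val_add]
        rw [← pow_eq_pow_mod _ hκn, pow_add]
        have := ((hκw (U (Multiplicative.toAdd w'.1))).pow_left
          (Multiplicative.toAdd w.2).val).eq
        rw [mul_assoc, mul_assoc, ← mul_assoc (X.2 ^ _) (wp X.1 _) _, this, mul_assoc] }
  have hυ : ∀ w, υ w = wp X.1 (U (Multiplicative.toAdd w.1)) *
        X.2 ^ (Multiplicative.toAdd w.2).val := fun w => rfl
  have hUcomm : ∀ a l, Commute (wp X.1 (U a)) (X.1 l) := by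
    intro a l
    have h1 : wp X.1 (U a ++ [(l, true)]) = wp X.1 ([(l, true)] ++ U a) := by
      apply key
      · have := hUl a
        simp only [List.length_append, List.length_singleton]
        omega
      · rw [wp_append, wp_append]
        exact (ctrV_comm h2 (hUv a) _).eq
    rw [wp_append, wp_append] at h1
    have h3 : wp X.1 [(l, true)] = X.1 l := by simp
    rw [h3] at h1
    exact h1
  have hSl : (ctrS p j).length = 8 * (lev p j).D := ctrS_length p j
  have hScomm : ∀ l, Commute (wp X.1 (ctrS p j)) (X.1 l) := by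
    intro l
    have h1 : wp X.1 (ctrS p j ++ [(l, true)]) = wp X.1 ([(l, true)] ++ ctrS p j) := by
      apply key
      · simp only [List.length_append, List.length_singleton, hSl]
        omega
      · rw [wp_append, wp_append]
        exact (ctrV_comm h2 (ctrS_val p j) _).eq
    rw [wp_append, wp_append] at h1
    have h3 : wp X.1 [(l, true)] = X.1 l := by simp
    rw [h3] at h1
    exact h1
  have hcw : ∀ g : Equiv.Perm V, (∀ l, Commute g (X.1 l)) → ∀ w : Wd (AL 2),
      Commute g (wp X.1 w) := by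
    intro g hg w
    induction w with
    | nil => exact Commute.one_right _
    | cons s w ih =>
      rw [wp_cons]
      refine Commute.mul_right ?_ ih
      rcases s with ⟨a, b⟩
      cases b
      · exact (hg a).inv_right
      · exact hg a
  have hυcomm : ∀ u l, Commute (υ u) (X.1 l) := by
    intro u l
    rw [hυ]
    exact (hUcomm _ l).mul_left ((hκ l).pow_left _)
  have hζυ : ∀ u, Commute (wp X.1 (ctrS p j)) (υ u) := by
    intro u
    rw [hυ]
    exact (hcw _ hScomm _).mul_right ((hκw _).symm.pow_right _)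
  refine ⟨υ, wp X.1 (ctrS p j), ?_, ?_, hυcomm, hScomm, hζυ, ?_, ?_⟩
  · rw [injective_iff_map_eq_one]
    rintro ⟨a, x⟩ hax
    rw [hυ] at hax
    simp only at hax
    have h1 := key2 (U (Multiplicative.toAdd a)) [] ((Multiplicative.toAdd x).val : ℤ) (by
      have := hUl (Multiplicative.toAdd a)
      simp only [List.length_nil]
      omega) (by
      rw [zpow_natCast, wp_nil, ← hax]
      exact ((hκw _).pow_left _).eq)
    rw [wp_nil] at h1
    have ha : Multiplicative.toAdd a = 0 := by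
      funext i
      have h3 := ctrV_dvd h2 (hUv (Multiplicative.toAdd a)) h1.1 i
      rw [if_pos i.2] at h3
      simp only [c, dif_pos i.2] at h3
      have h4 := Nat.eq_zero_of_dvd_of_lt (Int.natCast_dvd_natCast.mp h3) (ZMod.val_lt _)
      exact (ZMod.val_eq_zero _).mp h4
    have hx : Multiplicative.toAdd x = 0 := by
      have h4 := Nat.eq_zero_of_dvd_of_lt (Int.natCast_dvd_natCast.mp h1.2) (ZMod.val_lt _)
      exact (ZMod.val_eq_zero _).mp h4
    exact Prod.ext (Multiplicative.toAdd.injective (by rw [ha]; rfl))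
      (Multiplicative.toAdd.injective (by rw [hx]; rfl))
  · rw [hυ]
    simp only [toAdd_one, toAdd_ofAdd]
    have : Fact (1 < p ^ 3) := ⟨by nlinarith [Nat.le_self_pow (show 3 ≠ 0 by norm_num) p]⟩
    rw [ZMod.val_one, pow_one, hU0, one_mul]
  · rintro ⟨⟨a, x⟩, hax⟩
    rw [hυ] at hax
    simp only at hax
    have h1 := key2 (U (Multiplicative.toAdd a)) (ctrS p j) ((Multiplicative.toAdd x).val : ℤ) (by
      have := hUl (Multiplicative.toAdd a)
      rw [hSl]
      omega) (by
      rw [zpow_natCast, ← hax]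
      exact ((hκw _).pow_left _).eq)
    have h3 := ctrV_dvd_sub h2 (hUv (Multiplicative.toAdd a)) (ctrS_val p j) h1.1 j
    rw [if_neg (lt_irrefl _), Pi.single_eq_same] at h3
    have h4 := Int.le_of_dvd (by norm_num) (by simpa using h3 : (p : ℤ) ∣ 1)
    omega
  · intro g hg q hq
    have h1 : g ∈ Subgroup.centralizer (Set.range X.1 ∪ {X.2}) := by
      refine (Subgroup.closure_le _).mpr ?_ hg
      rintro y (⟨u, rfl⟩ | hy)
      · rw [SetLike.mem_coe, Subgroup.mem_centralizer_iff]
        rintro z (⟨l, rfl⟩ | hz)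
        · exact (hυcomm u l).symm.eq
        · rw [Set.mem_singleton_iff] at hz
          rw [hz, hυ]
          exact ((hκw _).mul_right (Commute.refl _ |>.pow_right _)).eq
      · rw [Set.mem_singleton_iff] at hy
        rw [hy, SetLike.mem_coe, Subgroup.mem_centralizer_iff]
        rintro z (⟨l, rfl⟩ | hz)
        · exact (hScomm l).symm.eq
        · rw [Set.mem_singleton_iff] at hz
          rw [hz]
          exact (hκw _).eq
    rw [Subgroup.mem_centralizer_iff] at h1
    have h3 : ∀ l, Commute g (X.1 l) := fun l => (h1 _ (Or.inl ⟨l, rfl⟩)).symm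
    have h4 : Commute g X.2 := (h1 _ (Or.inr rfl)).symm
    ext q'
    obtain ⟨u, x, hux⟩ := hT q q'
    rw [← hux]
    have h5 : Commute g (X.2 ^ x * wp X.1 u) := (h4.zpow_right x).mul_right (hcw g h3 u)
    have h6 := congrArg (fun f : Equiv.Perm V => f q) h5.eq
    simp only [Equiv.Perm.mul_apply, hq] at h6
    rw [h6]
    rfl

end ctr

end Pool.Agent.Helper55.LF
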