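import Pool.Agent.Helper55.LF.Defs

/-! Conjugation counting and a factorial inequality. -/

namespace Pool.Agent.Helper55.LF

open Filter Topology

/-! ### M14 (file CntL.lean) -/

theorem count_lower {Λ V : Type} [Fintype Λ] [Fintype V] [DecidableEq V] (G T : Set (LS Λ V))
    (hsub : T ⊆ G) (hconj : ∀ X ∈ G, ∀ σ : Equiv.Perm V, conjLS σ X ∈ G) (l₀ : Λ)
    (t : Equiv.Perm V) (ht : ∀ X ∈ T, X.1 l₀ = t) (R : Finset V)
    (hR : ∀ v, ∃ x ∈ R, ∃ i : ℤ, (t ^ i) x = v) :
    (Fintype.card V).factorial * T.ncard ≤ G.ncard * (Fintype.card V) ^ R.card := by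
  classical
  let _ : Fintype (LS Λ V) := inferInstanceAs (Fintype ((Λ → Equiv.Perm V) × Equiv.Perm V))
  rw [Set.ncard_eq_toFinset_card', Set.ncard_eq_toFinset_card', ← Fintype.card_perm,
    ← Finset.card_univ (α := Equiv.Perm V), ← Finset.card_product, mul_comm (Finset.card _) (_ ^ _)]
  refine Finset.card_le_mul_card_image_of_maps_to (f := fun x => conjLS x.1 x.2) ?_ _ ?_
  · rintro ⟨σ, X⟩ h
    rw [Finset.mem_product, Set.mem_toFinset] at h
    rw [Set.mem_toFinset]
    exact hconj X (hsub h.2) σ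
  · intro Y _
    have hcard : Fintype.card (R → V) = Fintype.card V ^ R.card := by
      rw [Fintype.card_fun, Fintype.card_coe]
    rw [← hcard, ← Finset.card_univ]
    refine Finset.card_le_card_of_injOn (fun x (r : R) => x.1 r.1) (fun _ _ => Finset.mem_univ _) ?_
    rintro ⟨σ, X⟩ hX ⟨σ', X'⟩ hX' hf
    simp only [Finset.coe_filter, Finset.mem_product, Finset.mem_univ, true_and,
      Set.mem_toFinset, Set.mem_ofPred_eq] at hX hX'
    obtain ⟨h1, h2⟩ := hX
    obtain ⟨h1', h2'⟩ := hX'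
    have e1 : σ * t * σ⁻¹ = Y.1 l₀ := by rw [← h2, conjLS, ← ht X h1]
    have e2 : σ' * t * σ'⁻¹ = Y.1 l₀ := by rw [← h2', conjLS, ← ht X' h1']
    have f1 : ∀ (i : ℤ), σ * t ^ i = (Y.1 l₀) ^ i * σ := by
      intro i; rw [← e1, conj_zpow]; group
    have f2 : ∀ (i : ℤ), σ' * t ^ i = (Y.1 l₀) ^ i * σ' := by
      intro i; rw [← e2, conj_zpow]; group
    have hσ : σ = σ' := by
      ext v
      obtain ⟨x, hx, i, rfl⟩ := hR v
      have g1 := congrArg (fun (π : Equiv.Perm V) => π x) (f1 i)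
      have g2 := congrArg (fun (π : Equiv.Perm V) => π x) (f2 i)
      simp only [Equiv.Perm.mul_apply] at g1 g2
      have := congrFun hf ⟨x, hx⟩
      simp only at this
      rw [g1, g2, this]
    subst hσ
    have hXX : X = X' := by
      have h := h2.trans h2'.symm
      simp only [conjLS, Prod.mk.injEq] at h
      refine Prod.ext (funext fun l => ?_) ?_
      · have := congrFun h.1 l
        simpa using this
      · simpa using h.2
    rw [hXX]

/-! ### M15 (file Numeric.lean) -/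

theorem div_three_pow_le_factorial (q : ℕ) : ((q : ℝ) / 3) ^ q ≤ (q.factorial : ℝ) := by
  have h := Real.pow_div_factorial_le_exp (q : ℝ) (Nat.cast_nonneg q) q
  have h1 : Real.exp (q : ℝ) ≤ 3 ^ q := by
    rw [← mul_one (q : ℝ), Real.exp_nat_mul]
    exact pow_le_pow_left₀ (Real.exp_pos _).le Real.exp_one_lt_three.le _
  have h2 : (0 : ℝ) < q.factorial := by exact_mod_cast Nat.factorial_pos q
  rw [div_pow, div_le_iff₀ (by positivity)]
  rw [div_le_iff₀ h2] at h
  calc (q : ℝ) ^ q ≤ Real.exp q * q.factorial := h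
    _ ≤ 3 ^ q * q.factorial := by gcongr
    _ = q.factorial * 3 ^ q := mul_comm _ _

theorem numeric (l p b n₁ s : ℕ) (c : ℝ) (hc : 0 < c) (hp : 100000 ≤ p) (hl : 1 ≤ l)
    (hb : 1 ≤ b) (hd : 128 * l ∣ b) (hs : 100000 * l ≤ s) :
    ∃ M₀ : ℕ, ∀ M ≥ M₀, ∀ n : ℕ, n = n₁ + b * M →
      2 * ((n * l * n.factorial * n ^ (6 * (n / (l * p))) : ℕ) : ℝ) * (n : ℝ) ^ (n₁ + b * M / s) ≤
        (n.factorial : ℝ) * (c * ((((b * M) / (128 * l)).factorial : ℝ)) ^ 2) := by
  obtain ⟨d, rfl⟩ := hd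
  have hd1 : 1 ≤ d := by
    rcases Nat.eq_zero_or_pos d with rfl | h
    · simp at hb
    · exact h
  obtain ⟨M₁, hM₁⟩ := exists_nat_ge (2 * l / c)
  refine ⟨9 * (n₁ + 128 * l) + 3 * n₁ + 3 + M₁, fun M hM n hn => ?_⟩
  have hq : 128 * l * d * M / (128 * l) = d * M := by
    rw [mul_assoc, Nat.mul_div_cancel_left _ (by positivity)]
  rw [hq]
  set q := d * M with hqd
  have hMq : M ≤ q := Nat.le_mul_of_pos_left M hd1
  have hnq : n = n₁ + 128 * l * q := by rw [hn, hqd]; ring
  -- the exponents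
  have hE : 1 + 6 * (n / (l * p)) + (n₁ + 128 * l * d * M / s) + 1 ≤ q := by
    have e1 : n / (l * p) ≤ n / (100000 * l) := by
      apply Nat.div_le_div_left _ (by positivity)
      rw [mul_comm]
      exact Nat.mul_le_mul_left l hp
    have e2 : 128 * l * d * M / s ≤ 128 * l * q / (100000 * l) := by
      rw [show 128 * l * d * M = 128 * l * q by rw [hqd]; ring]
      exact Nat.div_le_div_left hs (by positivity)
    have e3 : n / (100000 * l) ≤ n₁ + 128 * q / 100000 := by
      rw [hnq]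
      have h4 : n₁ + 128 * l * q ≤ (100000 * l) * n₁ + l * (128 * q) := by nlinarith
      refine (Nat.div_le_div_right h4).trans ?_
      rw [Nat.mul_add_div (by positivity)]
      rw [show 100000 * l = l * 100000 by ring, Nat.mul_div_mul_left _ _ (by omega)]
    have e4 : 128 * l * q / (100000 * l) = 128 * q / 100000 := by
      rw [show 100000 * l = l * 100000 by ring, show 128 * l * q = l * (128 * q) by ring,
        Nat.mul_div_mul_left _ _ (by omega)]
    rw [e4] at e2
    omega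
  have hn1 : (1 : ℝ) ≤ n := by
    have : 1 ≤ n := by
      rw [hnq]; nlinarith
    exact_mod_cast this
  have hn0 : (0 : ℝ) < n := by linarith
  -- q! is large
  have h9 : (n : ℝ) ≤ ((q : ℝ) / 3) ^ 2 := by
    have h : 9 * n ≤ q * q := by
      rw [hnq]
      have h1 : 9 * (n₁ + 128 * l) ≤ q := by omega
      have h2 : 1 ≤ q := by omega
      have h3 := Nat.mul_le_mul_right q h1
      nlinarith
    have h' : (9 : ℝ) * n ≤ q * q := by exact_mod_cast h
    rw [div_pow, le_div_iff₀ (by norm_num)]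
    nlinarith
  have hfac : (n : ℝ) ^ q ≤ (q.factorial : ℝ) ^ 2 := by
    calc (n : ℝ) ^ q ≤ (((q : ℝ) / 3) ^ 2) ^ q := pow_le_pow_left₀ hn0.le h9 q
      _ = (((q : ℝ) / 3) ^ q) ^ 2 := by rw [← pow_mul, ← pow_mul, mul_comm]
      _ ≤ (q.factorial : ℝ) ^ 2 :=
          pow_le_pow_left₀ (by positivity) (div_three_pow_le_factorial q) 2
  have hcn : 2 * (l : ℝ) ≤ c * n := by
    have h1 : (M₁ : ℝ) ≤ n := by
      have : M₁ ≤ n := by rw [hnq]; nlinarith
      exact_mod_cast this
    have h2 : 2 * (l : ℝ) / c ≤ n := hM₁.trans h1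
    rw [div_le_iff₀ hc] at h2
    linarith
  set E := 1 + 6 * (n / (l * p)) + (n₁ + 128 * l * d * M / s) with hEd
  have hmain : 2 * (l : ℝ) * (n : ℝ) ^ E ≤ c * (q.factorial : ℝ) ^ 2 := by
    calc 2 * (l : ℝ) * (n : ℝ) ^ E ≤ c * n * (n : ℝ) ^ E := by gcongr
      _ = c * (n : ℝ) ^ (E + 1) := by ring
      _ ≤ c * (n : ℝ) ^ q := by
          gcongr
      _ ≤ c * (q.factorial : ℝ) ^ 2 := by gcongr
  have hf0 : (0 : ℝ) ≤ n.factorial := by positivity
  calc 2 * ((n * l * n.factorial * n ^ (6 * (n / (l * p))) : ℕ) : ℝ) *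
        (n : ℝ) ^ (n₁ + 128 * l * d * M / s)
      = n.factorial * (2 * (l : ℝ) * (n : ℝ) ^ E) := by
        rw [hEd, pow_add, pow_add]
        push_cast
        ring
    _ ≤ n.factorial * (c * (q.factorial : ℝ) ^ 2) := mul_le_mul_of_nonneg_left hmain hf0

end Pool.Agent.Helper55.LF
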