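import Mathlib
import Pool.Agent.Helper55.LF.Defs

/-! Upper bound for the number of labelled structures with a large free central group. -/

namespace Pool.Agent.Helper55.LF

namespace CntU

open Equiv

variable {U : Type} [CommGroup U] [Fintype U] {n : ℕ}

/-- the central data with index `m` -/
structure CD (υ : U →* Perm (Fin n)) (ζ : Perm (Fin n)) (m : ℕ) (u₀ : U) : Prop where
  inj : Function.Injective υ
  comm : ∀ u, Commute ζ (υ u)
  free : ∀ g ∈ Subgroup.closure (Set.range υ ∪ {ζ}), ∀ q, g q = q → g = 1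
  pos : 0 < m
  pow : υ u₀ = ζ ^ m
  min : ∀ i, 0 < i → i < m → ζ ^ i ∉ υ.range

variable {υ : U →* Perm (Fin n)} {ζ : Perm (Fin n)} {m : ℕ} {u₀ : U}

omit [Fintype U] in
lemma CD.pow_eq (h : CD υ ζ m u₀) (i : ℕ) : ζ ^ i = ζ ^ (i % m) * υ (u₀ ^ (i / m)) := by
  rw [map_pow, h.pow, ← pow_mul, ← pow_add, Nat.mod_add_div]

lemma CD.mem_iff (h : CD υ ζ m u₀) (g : Perm (Fin n)) :
    g ∈ Subgroup.closure (Set.range υ ∪ {ζ}) ↔ ∃ (i : Fin m) (u : U), g = ζ ^ (i : ℕ) * υ u := by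
  constructor
  · intro hg
    induction hg using Subgroup.closure_induction with
    | mem x hx =>
        rcases hx with ⟨u, rfl⟩ | hx
        · exact ⟨⟨0, h.pos⟩, u, by simp⟩
        · rw [Set.mem_singleton_iff] at hx
          subst hx
          refine ⟨⟨1 % m, Nat.mod_lt _ h.pos⟩, u₀ ^ (1 / m), ?_⟩
          have := h.pow_eq 1
          simpa using this
    | one => exact ⟨⟨0, h.pos⟩, 1, by simp⟩
    | mul x y _ _ hx hy =>
        obtain ⟨i, u, rfl⟩ := hx
        obtain ⟨j, v, rfl⟩ := hy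
        refine ⟨⟨((i : ℕ) + j) % m, Nat.mod_lt _ h.pos⟩, u₀ ^ (((i : ℕ) + j) / m) * (u * v), ?_⟩
        have h1 : Commute (υ u) (ζ ^ (j : ℕ)) := ((h.comm u).pow_left j).symm
        have h2 : ζ ^ (i : ℕ) * υ u * (ζ ^ (j : ℕ) * υ v) = ζ ^ ((i : ℕ) + j) * (υ u * υ v) := by
          rw [pow_add, mul_assoc, ← mul_assoc (υ u), h1.eq]
          simp only [mul_assoc]
        rw [h2, h.pow_eq ((i : ℕ) + j), map_mul, map_mul]
        simp only [mul_assoc]
    | inv x _ hx =>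
        obtain ⟨i, u, rfl⟩ := hx
        -- ζ^{-i} = ζ^{m-i} υ(u₀)^{-1}
        refine ⟨⟨(m - i) % m, Nat.mod_lt _ h.pos⟩, u₀ ^ ((m - i) / m) * u₀⁻¹ * u⁻¹, ?_⟩
        have h1 : Commute (υ u) (ζ ^ (i : ℕ)) := ((h.comm u).pow_left i).symm
        have h3 := h.pow_eq (m - i)
        have h4 : ζ ^ (m - (i : ℕ)) * ζ ^ (i : ℕ) = υ u₀ := by
          rw [← pow_add, Nat.sub_add_cancel i.2.le, h.pow]
        have h5 : (ζ ^ (i : ℕ))⁻¹ = ζ ^ (m - (i : ℕ)) * (υ u₀)⁻¹ := by
          rw [← h4]; group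
        rw [mul_inv_rev, h5]
        simp only [map_mul, map_inv]
        have h6 : ζ ^ ((m - (i : ℕ)) % m) * (υ (u₀ ^ ((m - (i : ℕ)) / m)) * (υ u₀)⁻¹ * (υ u)⁻¹)
            = ζ ^ (m - (i : ℕ)) * (υ u₀)⁻¹ * (υ u)⁻¹ := by
          rw [h3]; simp only [mul_assoc]
        rw [h6]
        have h7 : Commute (υ u)⁻¹ (ζ ^ (m - (i : ℕ))) :=
          (((h.comm u).pow_left _).symm).inv_left
        have h8 : Commute (υ u)⁻¹ (υ u₀)⁻¹ := by
          rw [← map_inv, ← map_inv]
          exact (Commute.all u⁻¹ u₀⁻¹).map υ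
        rw [← mul_assoc, h7.eq, mul_assoc, h8.eq, mul_assoc]
  · rintro ⟨i, u, rfl⟩
    refine Subgroup.mul_mem _ (Subgroup.pow_mem _ (Subgroup.subset_closure ?_) _)
      (Subgroup.subset_closure ?_)
    · exact Or.inr rfl
    · exact Or.inl ⟨u, rfl⟩

lemma CD.mem (h : CD υ ζ m u₀) (i : Fin m) (u : U) :
    ζ ^ (i : ℕ) * υ u ∈ Subgroup.closure (Set.range υ ∪ {ζ}) := (h.mem_iff _).2 ⟨i, u, rfl⟩

omit [Fintype U] in
lemma CD.unique (h : CD υ ζ m u₀) (i j : Fin m) (u v : U)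
    (e : ζ ^ (i : ℕ) * υ u = ζ ^ (j : ℕ) * υ v) : i = j ∧ u = v := by
  have key : ∀ (i j : Fin m) (u v : U), ζ ^ (i : ℕ) * υ u = ζ ^ (j : ℕ) * υ v → (j : ℕ) ≤ i → i = j := by
    intro i j u v e hij
    by_contra hne
    have hlt : 0 < (i : ℕ) - j := by
      have : (i : ℕ) ≠ j := fun h => hne (Fin.ext h)
      omega
    refine h.min ((i : ℕ) - j) hlt (by have := i.2; omega) ⟨v * u⁻¹, ?_⟩
    have e1 : ζ ^ (i : ℕ) = ζ ^ (j : ℕ) * ζ ^ ((i : ℕ) - j) := by
      rw [← pow_add]; congr 1; omega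
    rw [e1, mul_assoc] at e
    have e2 := mul_left_cancel e
    rw [map_mul, map_inv, ← e2, mul_inv_cancel_right]
  have hij : i = j := by
    rcases le_total (j : ℕ) (i : ℕ) with h1 | h1
    · exact key i j u v e h1
    · exact (key j i v u e.symm h1).symm
  subst hij
  exact ⟨rfl, h.inj (mul_left_cancel e)⟩

/-- the coordinates -/
lemma CD.coord (h : CD υ ζ m u₀) :
    ∃ k : ℕ, n = m * Fintype.card U * k ∧
      ∃ b : Fin m × U × Fin k ≃ Fin n, ∀ i u x,
        b (i, u, x) = (ζ ^ (i : ℕ) * υ u) (b (⟨0, h.pos⟩, 1, x)) := by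
  classical
  set L := Subgroup.closure (Set.range υ ∪ {ζ}) with hL
  let Q := Quotient (MulAction.orbitRel L (Fin n))
  have : Fintype Q := Fintype.ofFinite _
  let b₀ : Fin m × U × Q → Fin n := fun t => (ζ ^ (t.1 : ℕ) * υ t.2.1) (t.2.2.out)
  have hb₀ : Function.Bijective b₀ := by
    constructor
    · rintro ⟨i, u, q⟩ ⟨j, v, q'⟩ e
      simp only [b₀] at e
      have hq : q = q' := by
        rw [← Quotient.out_eq q, ← Quotient.out_eq q']
        apply Quotient.sound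
        change q.out ∈ MulAction.orbit L q'.out
        refine ⟨⟨(ζ ^ (i : ℕ) * υ u)⁻¹ * (ζ ^ (j : ℕ) * υ v),
          L.mul_mem (L.inv_mem (h.mem i u)) (h.mem j v)⟩, ?_⟩
        change ((ζ ^ (i : ℕ) * υ u)⁻¹ * (ζ ^ (j : ℕ) * υ v)) q'.out = q.out
        rw [Perm.mul_apply, ← e]
        simp
      subst hq
      have h1 : (ζ ^ (j : ℕ) * υ v)⁻¹ * (ζ ^ (i : ℕ) * υ u) = 1 := by
        refine h.free _ (L.mul_mem (L.inv_mem (h.mem j v)) (h.mem i u)) q.out ?_
        rw [Perm.mul_apply, e]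
        simp
      have h2 := h.unique i j u v (inv_mul_eq_one.1 h1).symm
      rw [h2.1, h2.2]
    · intro x
      have hx : x ∈ MulAction.orbit L (Quotient.out (Quotient.mk (MulAction.orbitRel L (Fin n)) x)) := by
        have := Quotient.mk_out (s := MulAction.orbitRel L (Fin n)) x
        exact (MulAction.orbitRel L (Fin n)).symm this
      obtain ⟨g, hg⟩ := hx
      obtain ⟨i, u, hiu⟩ := (h.mem_iff g.1).1 g.2
      refine ⟨(i, u, Quotient.mk _ x), ?_⟩
      simp only [b₀]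
      rw [← hiu]
      exact hg
  have hcard := Fintype.card_of_bijective hb₀
  rw [Fintype.card_prod, Fintype.card_prod, Fintype.card_fin, Fintype.card_fin] at hcard
  refine ⟨Fintype.card Q, by rw [← hcard]; ring, ?_⟩
  let eQ : Fin (Fintype.card Q) ≃ Q := (Fintype.equivFin Q).symm
  refine ⟨((Equiv.refl _).prodCongr ((Equiv.refl _).prodCongr eQ)).trans
    (Equiv.ofBijective b₀ hb₀), ?_⟩
  intro i u x
  simp [b₀]

end CntU

open CntU

theorem count_upper {Λ U : Type} [Fintype Λ] [CommGroup U] [Fintype U] (n P : ℕ) (hn : 0 < n)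
    (hP0 : 0 < P)
    (u₁ : U) (S : Set (LS Λ (Fin n)))
    (h : ∀ X ∈ S, ∃ (υ : U →* Equiv.Perm (Fin n)) (ζ : Equiv.Perm (Fin n)),
      Function.Injective υ ∧ υ u₁ = X.2 ∧
      (∀ u l, Commute (υ u) (X.1 l)) ∧ (∀ l, Commute ζ (X.1 l)) ∧ (∀ u, Commute ζ (υ u)) ∧
      ζ ∉ υ.range ∧
      (∀ g ∈ Subgroup.closure (Set.range υ ∪ {ζ}), ∀ q, g q = q → g = 1))
    (hP : ∀ q : ℕ, q.Prime → q ∣ n → P ≤ q) :
    S.ncard ≤ n * Fintype.card U * n.factorial *
      n ^ (Fintype.card Λ * (n / (Fintype.card U * P))) := by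
  classical
  have hU : 0 < Fintype.card U := Fintype.card_pos
  -- central data for every element
  have hdata : ∀ X ∈ S, ∃ (t : Fin n × U), ∃ (υ : U →* Equiv.Perm (Fin n)) (ζ : Equiv.Perm (Fin n)),
      CD υ ζ (t.1 + 1) t.2 ∧ υ u₁ = X.2 ∧ (∀ u l, Commute (υ u) (X.1 l)) ∧
      (∀ l, Commute ζ (X.1 l)) ∧ P ≤ (t.1 : ℕ) + 1 := by
    intro X hX
    obtain ⟨υ, ζ, h1, h2, h3, h4, h5, h6, h7⟩ := h X hX
    have hex : ∃ i, 0 < i ∧ ζ ^ i ∈ υ.range :=
      ⟨orderOf ζ, orderOf_pos ζ, by rw [pow_orderOf_eq_one]; exact Subgroup.one_mem _⟩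
    obtain ⟨hm1, hm2⟩ := Nat.find_spec hex
    set m := Nat.find hex with hm
    obtain ⟨u₀, hu₀⟩ := hm2
    have hCD : CD υ ζ m u₀ := ⟨h1, h5, h7, hm1, hu₀, fun i hi hi2 hi3 =>
      Nat.find_min hex hi2 ⟨hi, hi3⟩⟩
    obtain ⟨k, hk, -⟩ := hCD.coord
    have hmn : m ∣ n := ⟨Fintype.card U * k, by rw [hk]; ring⟩
    have hmle : m ≤ n := Nat.le_of_dvd hn hmn
    have hm2 : m ≠ 1 := by
      intro h1'
      apply h6
      have : ζ ^ m ∈ υ.range := ⟨u₀, hu₀⟩
      rwa [h1', pow_one] at this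
    have hPm : P ≤ m := le_trans (hP _ (Nat.minFac_prime hm2) ((Nat.minFac_dvd m).trans hmn))
      (Nat.minFac_le hm1)
    refine ⟨(⟨m - 1, by omega⟩, u₀), υ, ζ, ?_, h2, h3, h4, ?_⟩
    · have : ((⟨m - 1, by omega⟩ : Fin n) : ℕ) + 1 = m := by simp; omega
      simpa [this] using hCD
    · simp only; omega
  have hSf : S.Finite := Set.toFinite _
  let F : LS Λ (Fin n) → Fin n × U := fun X =>
    if hX : X ∈ S then (hdata X hX).choose else (⟨0, hn⟩, 1)
  set K := n / (Fintype.card U * P) with hK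
  rw [Set.ncard_eq_toFinset_card S hSf]
  have hfib : ∀ t ∈ hSf.toFinset.image F, (hSf.toFinset.filter fun X => F X = t).card ≤
      n.factorial * n ^ (Fintype.card Λ * K) := by
    intro t ht
    by_cases hne : (hSf.toFinset.filter fun X => F X = t).Nonempty
    swap
    · rw [Finset.not_nonempty_iff_eq_empty.1 hne]; simp
    obtain ⟨X₀, hX₀⟩ := hne
    have hall : ∀ X ∈ (hSf.toFinset.filter fun X => F X = t),
        ∃ (υ : U →* Equiv.Perm (Fin n)) (ζ : Equiv.Perm (Fin n)),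
      CD υ ζ (t.1 + 1) t.2 ∧ υ u₁ = X.2 ∧ (∀ u l, Commute (υ u) (X.1 l)) ∧
      (∀ l, Commute ζ (X.1 l)) ∧ P ≤ (t.1 : ℕ) + 1 := by
      intro X hX
      rw [Finset.mem_filter, Set.Finite.mem_toFinset] at hX
      have h1 := (hdata X hX.1).choose_spec
      have h2 : (hdata X hX.1).choose = t := by
        have := hX.2
        simpa [F, hX.1] using this
      rw [h2] at h1
      exact h1
    set m := (t.1 : ℕ) + 1 with hm
    -- common k
    obtain ⟨υ₀, ζ₀, hCD₀, -, -, -, hPm⟩ := hall X₀ hX₀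
    obtain ⟨k, hk, b₁, -⟩ := hCD₀.coord
    have hmU : 0 < m * Fintype.card U := Nat.mul_pos (by omega) hU
    have hkK : k ≤ K := by
      rw [hK, Nat.le_div_iff_mul_le (Nat.mul_pos hU hP0), hk]
      calc k * (Fintype.card U * P) ≤ k * (Fintype.card U * m) := by gcongr
        _ = m * Fintype.card U * k := by ring
    have hall2 : ∀ X ∈ (hSf.toFinset.filter fun X => F X = t),
        ∃ b : Fin m × U × Fin k ≃ Fin n, ∃ (υ : U →* Equiv.Perm (Fin n)) (ζ : Equiv.Perm (Fin n))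
          (h0 : 0 < m),
          υ t.2 = ζ ^ m ∧ υ u₁ = X.2 ∧ (∀ u, Commute ζ (υ u)) ∧
          (∀ u l, Commute (υ u) (X.1 l)) ∧ (∀ l, Commute ζ (X.1 l)) ∧
          ∀ i u x, b (i, u, x) = (ζ ^ (i : ℕ) * υ u) (b (⟨0, h0⟩, 1, x)) := by
      intro X hX
      obtain ⟨υ, ζ, hCD, h1, h2, h3, -⟩ := hall X hX
      obtain ⟨k', hk', b, hb⟩ := hCD.coord
      have hkk : k' = k := by
        have : m * Fintype.card U * k' = m * Fintype.card U * k := by rw [← hk, ← hk']
        exact Nat.eq_of_mul_eq_mul_left hmU this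
      subst hkk
      exact ⟨b, υ, ζ, hCD.pos, hCD.pow, h1, hCD.comm, h2, h3, hb⟩
    have hne : Nonempty (Fin m × U × Fin k ≃ Fin n) := ⟨b₁⟩
    choose! bb hbb using hall2
    let E : LS Λ (Fin n) → Equiv.Perm (Fin n) × (Λ → Fin k → Fin n) := fun X =>
      (b₁.symm.trans (bb X), fun l x => X.1 l (bb X (⟨0, by omega⟩, 1, x)))
    have hEinj : Set.InjOn E (hSf.toFinset.filter fun X => F X = t : Finset _) := by
      intro X hX Y hY hXY
      obtain ⟨υ, ζ, h0, p1, p2, pc, p3, p4, p5⟩ := hbb X hX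
      obtain ⟨υ', ζ', h0', q1, q2, qc, q3, q4, q5⟩ := hbb Y hY
      have hb : bb X = bb Y := by
        have h1 := congrArg Prod.fst hXY
        simp only [E] at h1
        ext z
        have h2 := congrArg (fun (w : Equiv.Perm (Fin n)) => w (b₁ z)) h1
        simpa using congrArg Fin.val h2
      have him : ∀ l x, X.1 l (bb X (⟨0, h0⟩, 1, x)) = Y.1 l (bb X (⟨0, h0⟩, 1, x)) := by
        intro l x
        have h1 := congrFun (congrFun (congrArg Prod.snd hXY) l) x
        simp only [E] at h1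
        rw [← hb] at h1
        exact h1
      rw [← hb] at q5
      -- υ = υ'
      have hυ : ∀ u, υ u = υ' u := by
        intro u
        ext z
        obtain ⟨⟨i, v, x⟩, rfl⟩ := (bb X).surjective z
        have e1 : υ u (bb X (i, v, x)) = bb X (i, u * v, x) := by
          rw [p5 i v x, p5 i (u * v) x, map_mul, ← Equiv.Perm.mul_apply, ← mul_assoc, ← mul_assoc,
            ((pc u).pow_left i).eq]
        have e2 : υ' u (bb X (i, v, x)) = bb X (i, u * v, x) := by
          rw [q5 i v x, q5 i (u * v) x, map_mul, ← Equiv.Perm.mul_apply, ← mul_assoc, ← mul_assoc,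
            ((qc u).pow_left i).eq]
        rw [e1, e2]
      have hζ : ζ = ζ' := by
        ext z
        obtain ⟨⟨i, v, x⟩, rfl⟩ := (bb X).surjective z
        by_cases hi : (i : ℕ) + 1 < m
        · have e1 : ζ (bb X (i, v, x)) = bb X (⟨i + 1, hi⟩, v, x) := by
            rw [p5 i v x, p5 ⟨i + 1, hi⟩ v x, ← Equiv.Perm.mul_apply, ← mul_assoc, pow_succ']
          have e2 : ζ' (bb X (i, v, x)) = bb X (⟨i + 1, hi⟩, v, x) := by
            rw [q5 i v x, q5 ⟨i + 1, hi⟩ v x, ← Equiv.Perm.mul_apply, ← mul_assoc, pow_succ']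
          rw [e1, e2]
        · have him' : (i : ℕ) + 1 = m := by have := i.2; omega
          have e1 : ζ (bb X (i, v, x)) = bb X (⟨0, h0⟩, t.2 * v, x) := by
            rw [p5 i v x, p5 ⟨0, h0⟩ (t.2 * v) x, ← Equiv.Perm.mul_apply, ← mul_assoc, ← pow_succ',
              him', map_mul, p1]
            simp
          have e2 : ζ' (bb X (i, v, x)) = bb X (⟨0, h0⟩, t.2 * v, x) := by
            rw [q5 i v x, q5 ⟨0, h0⟩ (t.2 * v) x, ← Equiv.Perm.mul_apply, ← mul_assoc, ← pow_succ',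
              him', map_mul, q1]
            simp
          rw [e1, e2]
      refine Prod.ext ?_ ?_
      · funext l
        ext z
        obtain ⟨⟨i, v, x⟩, rfl⟩ := (bb X).surjective z
        have c1 : Commute (ζ ^ (i : ℕ) * υ v) (X.1 l) := ((p4 l).pow_left i).mul_left (p3 v l)
        have c2 : Commute (ζ ^ (i : ℕ) * υ v) (Y.1 l) := by
          rw [hυ, hζ]
          exact ((q4 l).pow_left i).mul_left (q3 v l)
        have f1 : X.1 l ((ζ ^ (i : ℕ) * υ v) (bb X (⟨0, h0⟩, 1, x))) =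
            (ζ ^ (i : ℕ) * υ v) (X.1 l (bb X (⟨0, h0⟩, 1, x))) := by
          rw [← Equiv.Perm.mul_apply, ← c1.eq, Equiv.Perm.mul_apply]
        have f2 : Y.1 l ((ζ ^ (i : ℕ) * υ v) (bb X (⟨0, h0⟩, 1, x))) =
            (ζ ^ (i : ℕ) * υ v) (Y.1 l (bb X (⟨0, h0⟩, 1, x))) := by
          rw [← Equiv.Perm.mul_apply, ← c2.eq, Equiv.Perm.mul_apply]
        rw [p5 i v x, f1, f2, him l x]
      · rw [← p2, ← q2, hυ]
    have hc := Finset.card_le_card_of_injOn (t := Finset.univ) E (fun _ _ => Finset.mem_univ _) hEinj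
    refine hc.trans ?_
    rw [Finset.card_univ, Fintype.card_prod, Fintype.card_perm, Fintype.card_fun, Fintype.card_fun,
      Fintype.card_fin, Fintype.card_fin, ← pow_mul]
    rw [mul_comm k]
    exact Nat.mul_le_mul_left _ (Nat.pow_le_pow_right hn (Nat.mul_le_mul_left _ hkK))
  calc hSf.toFinset.card ≤ (n.factorial * n ^ (Fintype.card Λ * K)) * (hSf.toFinset.image F).card :=
        Finset.card_le_mul_card_image _ _ hfib
    _ ≤ (n.factorial * n ^ (Fintype.card Λ * K)) * (n * Fintype.card U) := by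
        gcongr
        calc (hSf.toFinset.image F).card ≤ Fintype.card (Fin n × U) := Finset.card_le_univ _
          _ = n * Fintype.card U := by simp
    _ = _ := by ring

end Pool.Agent.Helper55.LF
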