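import Mathlib
import Pool.Agent.Helper55.LF.Defs
import Pool.Agent.Helper55.LF.Short
import Pool.Agent.Helper55.LF.GamBasic

namespace Pool.Agent.Helper55.LF

/-! needs: lamps_trivial, h_trivial, level_switch (M7), Wg, ev_eq_one, level_of_ev_eq, mem_Wg_iff (M8) -/

/-! ### start of the module -/

section lev
variable (p : ℕ) [BP p]

theorem lev_pos : 0 < p := (BP.pr (p := p)).pos

theorem lev_dd_mono {i j : ℕ} (h : i ≤ j) : dd i ≤ dd j := by
  induction j, h using Nat.le_induction with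
  | base => exact le_rfl
  | succ j _ ih =>
    have : dd (j + 1) = 3 * dd j + 4 := rfl
    omega

theorem lev_D_mono {i j : ℕ} (h : i ≤ j) : (lev p i).D ≤ (lev p j).D :=
  Nat.pow_le_pow_right (lev_pos p) (lev_dd_mono h)

theorem lev_D_le_l (i : ℕ) : (lev p i).D ≤ (lev p i).l :=
  Nat.pow_le_pow_right (lev_pos p) (by omega)

theorem lev_D_le_m (i : ℕ) : (lev p i).D ≤ (lev p i).m :=
  Nat.pow_le_pow_right (lev_pos p) (by omega)

theorem lev_le_D (i : ℕ) : p ≤ (lev p i).D := by
  change p ≤ p ^ dd i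
  have h1 : 1 ≤ dd i := lev_dd_mono (Nat.zero_le i)
  calc p = p ^ 1 := (pow_one p).symm
    _ ≤ _ := Nat.pow_le_pow_right (lev_pos p) h1

/-- a short word with trivial lamps in level `J` is trivial in the levels above -/
theorem lev_above {J : ℕ} {B : ℕ} (u : Wd (AL B)) (hlen : 4 * (B + 2) * u.length < (lev p J).D)
    (hW : wp (kv (lev p J) B) u ∈ cW (lev p J)) {i : ℕ} (hi : J ≤ i) :
    (wp (kv (lev p i) B) u) ∈ cN (lev p i) := by
  obtain ⟨hf, hg, hn, -⟩ := hW
  have e1 : 4 * u.length ≤ 4 * (B + 2) * u.length := by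
    apply Nat.mul_le_mul_right
    omega
  obtain ⟨hf', hg', hn'⟩ := lamps_trivial (lev p J) (lev p i) u
    (lt_of_le_of_lt e1 (lt_of_lt_of_le hlen (lev_D_le_l p J)))
    (lt_of_lt_of_le hlen (lev_D_le_m p J)) hf hg hn
  have hh := h_trivial (lev p i) u (lt_of_le_of_lt (by omega)
    (lt_of_lt_of_le hlen (lev_D_mono p hi)))
  refine ⟨hf', hg', hn', 0, ?_⟩
  intro y
  rw [hh]
  simp

theorem lev_of_one {B : ℕ} (hB : B ≤ p) (u : Wd (AL B)) (h : wp (evB p hB) u = 1) (i : ℕ) :
    wp (kv (lev p i) B) u ∈ cN (lev p i) := by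
  have h1 := level_of_ev_eq p hB hB u [] (by rw [h, wp_nil]) i
  rw [wp_nil, mul_one] at h1
  exact (Subgroup.inv_mem_iff _).1 h1

theorem std_b1 (J : ℕ) {B : ℕ} (hB : B ≤ p) (u : Wd (AL B)) (hu : IsH u)
    (hlen : 4 * (B + 2) * u.length < (lev p J).D) :
    (∀ i : Fin (J + 1), wp (kv (Qstd p J i) B) u ∈ cN (Qstd p J i)) ↔ wp (evB p hB) u = 1 := by
  constructor
  · intro h
    apply ev_eq_one p hB u hu
    intro i
    rcases Nat.lt_or_ge i (J + 1) with hi | hi
    · exact h ⟨i, hi⟩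
    · exact lev_above p u hlen (cN_le_cW _ (h ⟨J, Nat.lt_succ_self J⟩)) (by omega)
  · intro h i
    exact lev_of_one p hB u h i.1

theorem std_b2 (J : ℕ) {B : ℕ} (hB : B ≤ p) (u : Wd (AL B)) (hu : IsH u)
    (hlen : 4 * (B + 2) * u.length < (lev p J).D) :
    (∀ i : Fin (J + 1), wp (kv (Qstd p J i) B) u ∈ cW (Qstd p J i)) ↔ wp (evB p hB) u ∈ Wg p := by
  rw [mem_Wg_iff p hB u hu]
  constructor
  · intro h i
    rcases Nat.lt_or_ge i (J + 1) with hi | hi
    · exact h ⟨i, hi⟩
    · exact cN_le_cW _ (lev_above p u hlen (h ⟨J, Nat.lt_succ_self J⟩) (by omega))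
  · intro h i
    exact h i.1

theorem lev_succ_D (j : ℕ) : 400 * (lev p j).D < (lev p (j + 1)).D := by
  change 400 * p ^ dd j < p ^ (3 * dd j + 4)
  have hp := BP.big (p := p)
  calc 400 * p ^ dd j < p * p ^ dd j :=
        Nat.mul_lt_mul_of_pos_right (by omega) (Nat.pow_pos (lev_pos p))
    _ = p ^ (dd j + 1) := by rw [pow_succ]; ring
    _ ≤ _ := Nat.pow_le_pow_right (lev_pos p) (by omega)

theorem lev_switch (j : ℕ) (u : Wd (AL 2)) (hu : u.length ≤ 16 * (lev p j).D + 3) :
    (wp (kv (lev p j) 2) u ∈ cN (lev p j) ↔ wp (kv (altPar p j) 2) u ∈ cN (altPar p j)) ∧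
    (wp (kv (lev p j) 2) u ∈ cW (lev p j) ↔ wp (kv (altPar p j) 2) u ∈ cW (altPar p j)) := by
  have hp := BP.big (p := p)
  have hD := lev_le_D p j
  have hDpos : 0 < (lev p j).D := (lev p j).hD
  have hl : (lev p j).l = p * (lev p j).D := by
    change p ^ (dd j + 1) = p * p ^ dd j
    rw [pow_succ]; ring
  have hm : (lev p j).m = (lev p j).D ^ 2 * p ^ 3 := by
    change p ^ (2 * dd j + 3) = (p ^ dd j) ^ 2 * p ^ 3
    rw [← pow_mul, ← pow_add]; congr 1; ring
  have h60 : 60 * (lev p j).D < (lev p j).l := by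
    rw [hl]; exact Nat.mul_lt_mul_of_pos_right (by omega) hDpos
  have h1600 : 4 * (20 * (lev p j).D) ^ 2 < (lev p j).m := by
    rw [hm]
    have h3 : 1600 < p ^ 3 := by
      calc 1600 < p := by omega
        _ = p ^ 1 := (pow_one p).symm
        _ ≤ p ^ 3 := Nat.pow_le_pow_right (lev_pos p) (by omega)
    have h4 : 0 < (lev p j).D ^ 2 := Nat.pow_pos hDpos
    nlinarith
  refine level_switch (lev p j) (altPar p j) rfl (by omega) h60 h60 h1600 ?_ ?_ ?_ ?_ ?_ u hu
  · change 4 * (20 * (lev p j).D) ^ 2 < 128 * (lev p j).m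
    omega
  · change 120 < p
    omega
  · change 120 < 128
    omega
  · change p ∣ p ^ (2 * dd j + 3)
    exact dvd_pow_self p (by omega)
  · change 128 ∣ 128 * (lev p j).m
    exact dvd_mul_right _ _

theorem Qalt_self (j : ℕ) (i : Fin (j + 2)) (h : i.1 = j) : Qalt p j i = altPar p j := by
  unfold Qalt; rw [if_pos h]

theorem Qalt_ne (j : ℕ) (i : Fin (j + 2)) (h : i.1 ≠ j) : Qalt p j i = lev p i.1 := by
  unfold Qalt; rw [if_neg h]

theorem alt_above (j : ℕ) (u : Wd (AL 2)) (hlen : u.length ≤ 16 * (lev p j).D + 3)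
    (hW : wp (kv (lev p (j + 1)) 2) u ∈ cW (lev p (j + 1))) {i : ℕ} (hi : j + 1 ≤ i) :
    (wp (kv (lev p i) 2) u) ∈ cN (lev p i) := by
  refine lev_above p u ?_ hW hi
  have h1 := lev_succ_D p j
  have h2 := (lev p j).hD
  omega

theorem alt_b1 (j : ℕ) (h2 : 2 ≤ p) (u : Wd (AL 2)) (hu : IsH u)
    (hlen : u.length ≤ 16 * (lev p j).D + 3) :
    (∀ i : Fin (j + 2), wp (kv (Qalt p j i) 2) u ∈ cN (Qalt p j i)) ↔ wp (evB p h2) u = 1 := by
  constructor
  · intro h
    apply ev_eq_one p h2 u hu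
    have h' : ∀ i, i < j + 2 → wp (kv (lev p i) 2) u ∈ cN (lev p i) := by
      intro i hi
      have h1 := h ⟨i, hi⟩
      by_cases hij : i = j
      · rw [Qalt_self p j _ hij] at h1
        subst hij
        exact (lev_switch p i u hlen).1.2 h1
      · rw [Qalt_ne p j _ hij] at h1
        exact h1
    intro i
    rcases Nat.lt_or_ge i (j + 2) with hi | hi
    · exact h' i hi
    · exact alt_above p j u hlen (cN_le_cW _ (h' (j + 1) (by omega))) (by omega)
  · intro h i
    have h' := lev_of_one p h2 u h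
    by_cases hij : i.1 = j
    · rw [Qalt_self p j _ hij]
      exact (lev_switch p j u hlen).1.1 (h' j)
    · rw [Qalt_ne p j _ hij]
      exact h' i.1

theorem alt_b2 (j : ℕ) (h2 : 2 ≤ p) (u : Wd (AL 2)) (hu : IsH u)
    (hlen : u.length ≤ 8 * (lev p j).D) :
    (∀ i : Fin (j + 2), wp (kv (Qalt p j i) 2) u ∈
      (if decide (i.1 ≤ j) then cW (Qalt p j i) else cN (Qalt p j i))) ↔
      wp (evB p h2) u ∈ Wg p := by
  rw [mem_Wg_iff p h2 u hu]
  have hlen' : u.length ≤ 16 * (lev p j).D + 3 := by omega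
  constructor
  · intro h
    have h' : ∀ i, i < j + 2 → wp (kv (lev p i) 2) u ∈ cW (lev p i) := by
      intro i hi
      have h1 := h ⟨i, hi⟩
      by_cases hij : i = j
      · rw [Qalt_self p j _ hij, if_pos (by simp [hij])] at h1
        subst hij
        exact (lev_switch p i u hlen').2.2 h1
      · rw [Qalt_ne p j _ hij] at h1
        by_cases hle : i ≤ j
        · rw [if_pos (by simpa using hle)] at h1
          exact h1
        · rw [if_neg (by simpa using hle)] at h1
          exact cN_le_cW _ h1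
    intro i
    rcases Nat.lt_or_ge i (j + 2) with hi | hi
    · exact h' i hi
    · exact cN_le_cW _ (alt_above p j u hlen' (h' (j + 1) (by omega)) (by omega))
  · intro h i
    by_cases hij : i.1 = j
    · rw [Qalt_self p j _ hij, if_pos (by simp [hij])]
      exact (lev_switch p j u hlen').2.1 (h j)
    · rw [Qalt_ne p j _ hij]
      by_cases hle : i.1 ≤ j
      · rw [if_pos (by simpa using hle)]
        exact h i.1
      · rw [if_neg (by simpa using hle)]
        have hi : i.1 = j + 1 := by have := i.2; omega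
        exact alt_above p j u hlen' (h (j + 1)) (by omega)

/-- the constants as a homomorphism to the quotient -/
def lev_cst (P : Par) : Multiplicative (ZMod P.m) →* KG P ⧸ cN P where
  toFun c := QuotientGroup.mk (⟨fun _ => 0, fun _ => 0, fun _ => Multiplicative.toAdd c, 0⟩ : KG P)
  map_one' := by
    change QuotientGroup.mk (1 : KG P) = _
    rfl
  map_mul' c d := by
    rw [← QuotientGroup.mk_mul]
    congr 1
    ext e
    · simp [KG.mul_f]
    · simp [KG.mul_g]
    · rw [KG.mul_h, KG.om_zero_left]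
      simp
    · simp

theorem lev_cst_range (P : Par) :
    (lev_cst P).range = (cW P).map (QuotientGroup.mk' (cN P)) := by
  ext x
  rw [MonoidHom.mem_range, Subgroup.mem_map]
  constructor
  · rintro ⟨c, rfl⟩
    exact ⟨⟨fun _ => 0, fun _ => 0, fun _ => Multiplicative.toAdd c, 0⟩,
      ⟨rfl, rfl, rfl, Multiplicative.toAdd c, fun _ => rfl⟩, rfl⟩
  · rintro ⟨y, ⟨hf, hg, hn, c, hc⟩, rfl⟩
    refine ⟨Multiplicative.ofAdd c, ?_⟩
    have : y = ⟨fun _ => 0, fun _ => 0, fun _ => c, 0⟩ := by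
      ext e
      · exact congrFun hf e
      · exact congrFun hg e
      · exact hc e
      · exact hn
    rw [this]
    rfl

theorem lev_cst_ker (P : Par) (h : P.N ∣ P.m) :
    (lev_cst P).ker = (AddMonoidHom.toMultiplicative
      (ZMod.castHom h (ZMod P.N)).toAddMonoidHom).ker := by
  ext c
  rw [MonoidHom.mem_ker, MonoidHom.mem_ker]
  have e1 : lev_cst P c = 1 ↔ (⟨fun _ => 0, fun _ => 0, fun _ => Multiplicative.toAdd c, 0⟩ : KG P)
      ∈ cN P := by
    exact QuotientGroup.eq_one_iff _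
  have e2 : AddMonoidHom.toMultiplicative (ZMod.castHom h (ZMod P.N)).toAddMonoidHom c = 1 ↔
      ZMod.castHom h (ZMod P.N) (Multiplicative.toAdd c) = 0 := by
    exact Iff.rfl
  rw [e1, e2]
  constructor
  · rintro ⟨-, -, -, d, hd⟩
    have h1 : Multiplicative.toAdd c = (P.N : ZMod P.m) * d := hd 0
    rw [h1, map_mul, map_natCast, ZMod.natCast_self, zero_mul]
  · intro h1
    obtain ⟨k, hk⟩ := ZMod.natCast_zmod_surjective (Multiplicative.toAdd c)
    rw [← hk, map_natCast, ZMod.natCast_eq_zero_iff] at h1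
    obtain ⟨d, rfl⟩ := h1
    refine ⟨rfl, rfl, rfl, (d : ZMod P.m), ?_⟩
    intro y
    change Multiplicative.toAdd c = _
    rw [← hk]
    push_cast
    rfl

theorem lev_card_W (P : Par) (h : P.N ∣ P.m) :
    Nat.card ((cW P).map (QuotientGroup.mk' (cN P))) = P.N := by
  rw [← lev_cst_range]
  have h1 := Nat.card_congr (QuotientGroup.quotientKerEquivRange (lev_cst P)).toEquiv
  have h2 := Nat.card_congr (QuotientGroup.quotientKerEquivRange (AddMonoidHom.toMultiplicative
      (ZMod.castHom h (ZMod P.N)).toAddMonoidHom)).toEquiv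
  rw [lev_cst_ker P h] at h1
  rw [← h1, h2]
  have h3 : (AddMonoidHom.toMultiplicative
      (ZMod.castHom h (ZMod P.N)).toAddMonoidHom).range = ⊤ := by
    rw [MonoidHom.range_eq_top]
    intro x
    obtain ⟨y, hy⟩ := ZMod.castHom_surjective h (Multiplicative.toAdd x)
    exact ⟨Multiplicative.ofAdd y, congrArg Multiplicative.ofAdd hy⟩
  rw [h3, Subgroup.card_top]
  change Nat.card (ZMod P.N) = P.N
  exact Nat.card_zmod P.N

/-- the product subgroup -/
def lev_piEquiv {ι : Type*} {G : ι → Type*} [∀ i, Group (G i)] (H : ∀ i, Subgroup (G i)) :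
    Subgroup.pi Set.univ H ≃ ∀ i, H i where
  toFun x i := ⟨x.1 i, x.2 i (Set.mem_univ i)⟩
  invFun x := ⟨fun i => (x i).1, fun i _ => (x i).2⟩
  left_inv _ := rfl
  right_inv _ := rfl

theorem alt_card (j : ℕ) :
    Nat.card (boxZ (Qalt p j) (fun i => decide (i.1 ≤ j))) = p ^ j * 128 := by
  unfold boxZ
  rw [Nat.card_congr (lev_piEquiv _), Nat.card_pi]
  have h1 : ∀ i : Fin (j + 2), Nat.card
      (if decide (i.1 ≤ j) then (cW (Qalt p j i)).map (QuotientGroup.mk' (cN (Qalt p j i))) else ⊥ :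
        Subgroup (KG (Qalt p j i) ⧸ cN (Qalt p j i))) =
      if i.1 < j then p else if i.1 = j then 128 else 1 := by
    intro i
    by_cases hij : i.1 = j
    · rw [if_pos (by simp [hij]), if_neg (by omega), if_pos hij, lev_card_W, Qalt_self p j i hij]
      · rfl
      · rw [Qalt_self p j i hij]
        change 128 ∣ 128 * (lev p j).m
        exact dvd_mul_right _ _
    · by_cases hle : i.1 ≤ j
      · rw [if_pos (by simpa using hle), if_pos (by omega), lev_card_W, Qalt_ne p j i hij]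
        · rfl
        · rw [Qalt_ne p j i hij]
          change p ∣ p ^ (2 * dd i.1 + 3)
          exact dvd_pow_self p (by omega)
      · rw [if_neg (by simpa using hle), if_neg (by omega), if_neg hij]
        exact Subgroup.card_bot
  rw [Finset.prod_congr rfl (fun i _ => h1 i), Fin.prod_univ_castSucc, Fin.prod_univ_castSucc]
  have h2 : ∀ i : Fin j, (if (i.castSucc.castSucc).1 < j then p else
      if (i.castSucc.castSucc).1 = j then 128 else 1) = p := by
    intro i
    exact if_pos i.2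
  rw [Finset.prod_congr rfl (fun i _ => h2 i), Finset.prod_const, Finset.card_univ,
    Fintype.card_fin]
  have h3 : (if (Fin.last j).castSucc.1 < j then p else
      if (Fin.last j).castSucc.1 = j then 128 else 1) = 128 := by
    rw [if_neg (by simp), if_pos (by simp)]
  have h4 : (if (Fin.last (j + 1)).1 < j then p else
      if (Fin.last (j + 1)).1 = j then 128 else 1) = 1 := by
    rw [if_neg (by simp), if_neg (by simp)]
  rw [h3, h4, mul_one]

/-- the level group as a product of sets -/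
def lev_KGEquiv (P : Par) : KG P ≃
    (ZMod P.l → ZMod P.m) × (ZMod P.l → ZMod P.m) × (ZMod P.D → ZMod P.m) × ZMod P.l where
  toFun x := (x.f, x.g, x.h, x.n)
  invFun x := ⟨x.1, x.2.1, x.2.2.1, x.2.2.2⟩
  left_inv _ := rfl
  right_inv _ := rfl

theorem lev_card_KG (i : ℕ) : ∃ a, Nat.card (KG (lev p i)) = p ^ a := by
  rw [Nat.card_congr (lev_KGEquiv (lev p i)), Nat.card_prod, Nat.card_prod, Nat.card_prod,
    Nat.card_fun, Nat.card_fun, Nat.card_zmod, Nat.card_zmod, Nat.card_zmod]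
  have hm : (lev p i).m = p ^ (2 * dd i + 3) := rfl
  have hl : (lev p i).l = p ^ (dd i + 1) := rfl
  rw [hm, hl, ← pow_mul, ← pow_mul, ← pow_add, ← pow_add, ← pow_add]
  exact ⟨_, rfl⟩

theorem std_card (J : ℕ) : ∃ a : ℕ, Nat.card (boxG (Qstd p J)) = p ^ a := by
  have h1 : ∀ i : Fin (J + 1), ∃ a, Nat.card (KG (Qstd p J i) ⧸ cN (Qstd p J i)) = p ^ a := by
    intro i
    obtain ⟨a, ha⟩ := lev_card_KG p i.1
    have h2 : Nat.card (KG (lev p i.1) ⧸ cN (lev p i.1)) ∣ Nat.card (KG (lev p i.1)) :=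
      Subgroup.card_quotient_dvd_card _
    rw [ha] at h2
    obtain ⟨b, -, hb⟩ := (Nat.dvd_prime_pow (BP.pr (p := p))).1 h2
    exact ⟨b, hb⟩
  choose a ha using h1
  refine ⟨∑ i, a i, ?_⟩
  rw [Nat.card_pi, Finset.prod_congr rfl (fun i _ => ha i), Finset.prod_pow_eq_pow_sum]

end lev

end Pool.Agent.Helper55.LF
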