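import Mathlib
import Pool.Agent.Helper55.LF.Defs

/-! Transport and disjoint unions of labelled structures. -/

namespace Pool.Agent.Helper55.LF

/-- transport of a labelled structure along a bijection -/
def mapLS {Λ V W : Type*} (σ : V ≃ W) (X : LS Λ V) : LS Λ W :=
  (fun l => Equiv.permCongr σ (X.1 l), Equiv.permCongr σ X.2)

lemma wp_permCongr {Λ V W : Type*} (σ : V ≃ W) (ρ : Λ → Equiv.Perm V) (u : Wd Λ) (p : W) :
    wp (fun l => Equiv.permCongr σ (ρ l)) u p = σ (wp ρ u (σ.symm p)) := by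
  induction u generalizing p with
  | nil => simp
  | cons s u ih =>
      rcases s with ⟨a, b⟩
      cases b
      · simp only [wp_cons, lv_false, Equiv.Perm.mul_apply, ih]
        rw [Equiv.Perm.inv_eq_iff_eq]
        simp [Equiv.permCongr_apply]
      · simp only [wp_cons, lv_true, Equiv.Perm.mul_apply, ih]
        simp [Equiv.permCongr_apply]

lemma zpow_permCongr {V W : Type*} (σ : V ≃ W) (κ : Equiv.Perm V) (x : ℤ) (p : W) :
    ((Equiv.permCongr σ κ) ^ x) p = σ ((κ ^ x) (σ.symm p)) := by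
  have h := map_zpow (MulEquiv.toMonoidHom (Equiv.permCongrHom σ)) κ x
  have h2 := congrArg (fun t : Equiv.Perm W => t p) h
  simpa using h2.symm

lemma Good_mapLS {Λ Γ V W : Type*} [Group Γ] {e : Λ → Γ} {n₀ r : ℕ} (σ : V ≃ W) {X : LS Λ V}
    (h : Good e n₀ r X) : Good e n₀ r (mapLS σ X) := by
  refine ⟨fun l => ?_, fun u hu x p => ?_⟩
  · have := (h.1 l).map (MulEquiv.toMonoidHom (Equiv.permCongrHom σ))
    exact this
  · have h2 := h.2 u hu x (σ.symm p)
    rw [← h2]
    simp only [mapLS, zpow_permCongr, wp_permCongr, Equiv.symm_apply_apply]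
    exact Equiv.eq_symm_apply σ |>.symm

lemma Trans_mapLS {Λ V W : Type*} (σ : V ≃ W) {X : LS Λ V}
    (h : Trans X) : Trans (mapLS σ X) := by
  intro p q
  obtain ⟨u, x, hux⟩ := h (σ.symm p) (σ.symm q)
  refine ⟨u, x, ?_⟩
  simp only [mapLS, zpow_permCongr, wp_permCongr, Equiv.symm_apply_apply, hux,
    Equiv.apply_symm_apply]

lemma mapLS_symm {Λ V W : Type*} (σ : V ≃ W) (X : LS Λ V) : mapLS σ.symm (mapLS σ X) = X := by
  refine Prod.ext ?_ ?_
  · funext l
    ext p
    simp [mapLS]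
  · ext p
    simp [mapLS]

lemma conjLS_eq {Λ V : Type} (σ : Equiv.Perm V) (X : LS Λ V) : conjLS σ X = mapLS σ X := by
  refine Prod.ext ?_ ?_
  · funext l
    ext p
    simp [mapLS, conjLS]
  · ext p
    simp [mapLS, conjLS]

lemma good_ncard_eq {Λ Γ V W : Type} [Group Γ] {e : Λ → Γ} {n₀ r : ℕ} (σ : V ≃ W) :
    {X : LS Λ V | Good e n₀ r X}.ncard = {X : LS Λ W | Good e n₀ r X}.ncard := by
  refine Set.ncard_congr (fun X _ => mapLS σ X) (fun X hX => Good_mapLS σ hX) ?_ ?_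
  · intro X Y _ _ hXY
    have := congrArg (mapLS σ.symm) hXY
    simpa [mapLS_symm] using this
  · intro Y hY
    refine ⟨mapLS σ.symm Y, Good_mapLS σ.symm hY, ?_⟩
    have := mapLS_symm σ.symm Y
    simpa using this

/-- disjoint union -/
def sumLS {Λ V W : Type*} (X : LS Λ V) (Y : LS Λ W) : LS Λ (V ⊕ W) :=
  (fun l => Equiv.sumCongr (X.1 l) (Y.1 l), Equiv.sumCongr X.2 Y.2)

lemma wp_sumCongr {Λ V W : Type*} (ρ : Λ → Equiv.Perm V) (ρ' : Λ → Equiv.Perm W) (u : Wd Λ) :
    wp (fun l => Equiv.sumCongr (ρ l) (ρ' l)) u = Equiv.sumCongr (wp ρ u) (wp ρ' u) := by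
  induction u with
  | nil => ext p; cases p <;> simp
  | cons s u ih =>
      rcases s with ⟨a, b⟩
      cases b
      · simp only [wp_cons, lv_false, ih]
        ext p; cases p <;> simp
      · simp only [wp_cons, lv_true, ih]
        ext p; cases p <;> simp

lemma zpow_sumCongr {V W : Type*} (κ : Equiv.Perm V) (κ' : Equiv.Perm W) (x : ℤ) :
    (Equiv.sumCongr κ κ' : Equiv.Perm (V ⊕ W)) ^ x = Equiv.sumCongr (κ ^ x) (κ' ^ x) := by
  have h := map_zpow (Equiv.Perm.sumCongrHom V W) (κ, κ') x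
  simpa using h.symm

lemma Good_sumLS {Λ Γ V W : Type*} [Group Γ] {e : Λ → Γ} {n₀ r : ℕ} {X : LS Λ V} {Y : LS Λ W}
    (hX : Good e n₀ r X) (hY : Good e n₀ r Y) : Good e n₀ r (sumLS X Y) := by
  refine ⟨fun l => ?_, fun u hu x p => ?_⟩
  · have h1 := hX.1 l
    have h2 := hY.1 l
    have h3 : Commute ((X.2, Y.2) : Equiv.Perm V × Equiv.Perm W) (X.1 l, Y.1 l) :=
      Prod.ext h1 h2
    exact h3.map (Equiv.Perm.sumCongrHom V W)
  · simp only [sumLS, wp_sumCongr, zpow_sumCongr]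
    cases p with
    | inl p => simpa using hX.2 u hu x p
    | inr p => simpa using hY.2 u hu x p

end Pool.Agent.Helper55.LF
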