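import Mathlib
import Pool.Agent.Helper55.LF.Defs
import Pool.Agent.Helper55.LF.Sum
import Pool.Agent.Helper55.LF.Box
import Pool.Agent.Helper55.LF.Lev
import Pool.Agent.Helper55.LF.Center
import Pool.Agent.Helper55.LF.CntU
import Pool.Agent.Helper55.LF.CntL

/-! The negative half: over the small alphabet connectivity fails along a sequence. -/

namespace Pool.Agent.Helper55.LF

open Filter Topology

section
variable (p : ℕ) [BP p]

lemma dd_pos (j : ℕ) : 1 ≤ dd j := by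
  cases j <;> simp [dd]

lemma dd_ge (j : ℕ) : j + 1 ≤ dd j := by
  induction j with
  | zero => simp [dd]
  | succ j ih => simp only [dd]; omega

lemma p_pos : 0 < p := (BP.pr (p := p)).pos
lemma p_one : 1 < p := (BP.pr (p := p)).one_lt

lemma lev_D_pos (j : ℕ) : 0 < (lev p j).D := (lev p j).hD

/-- the next level is much larger -/
lemma lev_gap (j : ℕ) : 1000 * (lev p j).D + 1000 < (lev p (j + 1)).D := by
  have hb := BP.big (p := p)
  have h1 : (lev p (j + 1)).D = p ^ (3 * dd j + 4) := rfl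
  have h2 : (lev p j).D = p ^ dd j := rfl
  have h3 : p ^ (dd j + 1) ≤ p ^ (3 * dd j + 4) := Nat.pow_le_pow_right (p_pos p) (by omega)
  have h4 : p ^ (dd j + 1) = p ^ dd j * p := pow_succ _ _
  have h5 : 1 ≤ p ^ dd j := Nat.pow_pos (p_pos p)
  rw [h1, h2]
  nlinarith

lemma card_boxV {m : ℕ} (Q : Fin m → Par) (n₀ M : ℕ) :
    Nat.card (boxV Q n₀ M) = Nat.card (boxG Q) * n₀ * M := by
  simp only [boxV, Nat.card_prod, Nat.card_zmod, Nat.card_fin]
  ring

lemma orbit_reps {V : Type} [Fintype V] (l : ℕ) [NeZero l] (T : Equiv.Perm V) (ν : V → ZMod l)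
    (hν : ∀ v, ν (T v) = ν v + 1) :
    ∃ R : Finset V, R.card = Fintype.card V / l ∧ ∀ v, ∃ x ∈ R, ∃ i : ℤ, (T ^ i) x = v := by
  classical
  have hpow : ∀ (k : ℕ) v, ν ((T ^ k) v) = ν v + k := by
    intro k
    induction k with
    | zero => intro v; simp
    | succ k ih =>
        intro v
        rw [pow_succ', Equiv.Perm.mul_apply, hν, ih]
        push_cast; ring
  let f : {v // ν v = 0} × ZMod l → V := fun x => (T ^ (x.2.val)) x.1
  have hf : ∀ x, ν (f x) = x.2 := by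
    rintro ⟨⟨x, hx⟩, c⟩
    simp [f, hpow, hx]
  have hbij : Function.Bijective f := by
    constructor
    · rintro ⟨⟨x, hx⟩, c⟩ ⟨⟨y, hy⟩, d⟩ h
      have h1 : c = d := by
        have := congrArg ν h
        rwa [hf, hf] at this
      subst h1
      have h2 : x = y := by simpa [f] using h
      subst h2; rfl
    · intro v
      have hx : ν ((T ^ ((ν v).val))⁻¹ v) = 0 := by
        have h1 := hpow (ν v).val ((T ^ ((ν v).val))⁻¹ v)
        have h2 : (T ^ ((ν v).val)) ((T ^ ((ν v).val))⁻¹ v) = v := by simp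
        rw [h2] at h1
        simpa using h1
      exact ⟨(⟨_, hx⟩, ν v), by simp [f]⟩
  refine ⟨Finset.univ.filter fun v => ν v = 0, ?_, ?_⟩
  · have h1 := Fintype.card_of_bijective hbij
    rw [Fintype.card_prod, ZMod.card, Fintype.card_subtype] at h1
    rw [← h1, Nat.mul_div_cancel _ (NeZero.pos l)]
  · intro v
    obtain ⟨⟨⟨x, hx⟩, c⟩, h⟩ := hbij.2 v
    refine ⟨x, by simpa using hx, ((c.val : ℕ) : ℤ), ?_⟩
    rw [zpow_natCast]
    exact h

/-- counting: the set of representatives of the orbits of the letter `t` -/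
lemma alt_R (j M : ℕ) (hM : 0 < M) :
    ∃ R : Finset (boxV (Qalt p j) (p ^ 3) M),
      R.card = (Nat.card (boxG (Qalt p j)) * p ^ 3 * M) / (lev p (j + 1)).l ∧
      ∀ v, ∃ x ∈ R, ∃ i : ℤ, ((boxρ (Qalt p j) (p ^ 3) M 2 (0, 0)) ^ i) x = v := by
  have : NeZero M := ⟨hM.ne'⟩
  have : NeZero (p ^ 3) := ⟨(Nat.pow_pos (p_pos p)).ne'⟩
  have fV : Fintype (boxV (Qalt p j) (p ^ 3) M) := Fintype.ofFinite _
  set i₀ : Fin (j + 2) := ⟨j + 1, by omega⟩ with hi₀
  have hl : (Qalt p j i₀).l = (lev p (j + 1)).l := by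
    simp [Qalt, hi₀]
  let nn : KG (Qalt p j i₀) →* Multiplicative (ZMod (Qalt p j i₀).l) :=
    { toFun := fun x => Multiplicative.ofAdd x.n
      map_one' := rfl
      map_mul' := fun x y => rfl }
  let ν₀ : KG (Qalt p j i₀) ⧸ cN (Qalt p j i₀) →* Multiplicative (ZMod (Qalt p j i₀).l) :=
    QuotientGroup.lift (cN (Qalt p j i₀)) nn (by
      intro x hx
      change Multiplicative.ofAdd x.n = 1
      rw [hx.2.2.1]; rfl)
  let ν : boxV (Qalt p j) (p ^ 3) M → ZMod (Qalt p j i₀).l := fun v =>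
    Multiplicative.toAdd (ν₀ (v.1 i₀))
  have h := orbit_reps (Qalt p j i₀).l (boxρ (Qalt p j) (p ^ 3) M 2 (0, 0)) ν (by
    rintro ⟨g, c, m⟩
    change Multiplicative.toAdd (ν₀ (boxv (Qalt p j) 2 (0, 0) i₀ * g i₀)) = _
    rw [map_mul, toAdd_mul, add_comm]
    rfl)
  rw [← hl]
  convert h using 4
  rw [← Nat.card_eq_fintype_card, card_boxV]

end

theorem negative (p : ℕ) [BP p] (h2 : 2 ≤ p) (j : ℕ) :
    ∃ᶠ n in atTop,
      0 < {X : LS (AL 2) (Fin n) | Good (evB p h2) (p ^ 3) (8 * (lev p j).D + 1) X}.ncard ∧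
      2 * {X : LS (AL 2) (Fin n) |
          Good (evB p h2) (p ^ 3) (8 * (lev p j).D + 1) X ∧ Trans X}.ncard ≤
        {X : LS (AL 2) (Fin n) | Good (evB p h2) (p ^ 3) (8 * (lev p j).D + 1) X}.ncard := by
  classical
  set D := (lev p j).D with hD
  set r := 8 * D + 1 with hr
  have hDpos : 0 < D := lev_D_pos p j
  have hgap := lev_gap p j
  have hn0 : 0 < p ^ 3 := Nat.pow_pos (p_pos p)
  -- group side
  have hG : ∀ v : Wd (AL 2), v.length ≤ 2 * r + 1 → ¬ IsH v → wp (evB p h2) v ∈ Wg p →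
      ∃ (v₁ g v₂ : Wd (AL 2)) (b : Fin 2) (ε : Bool),
        v = v₁ ++ (Sum.inr b, ε) :: (g ++ (Sum.inr b, !ε) :: v₂) ∧ IsH g ∧
        wp (evB p h2) g ∈ Wg p := fun v _ hv hW => gam_gap p h2 v hv hW
  -- the small structure
  obtain ⟨c₀, hc₀, M₀, hM₀⟩ := box_count p h2 (Qstd p (j + 1)) (fun _ => true) (p ^ 3) r hn0
    (by omega) hG
    (fun u hu hlen => std_b1 p (j + 1) h2 u hu (by
      have : 4 * (2 + 2) * u.length ≤ 16 * (2 * r + 1) := by nlinarith
      omega))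
    (fun g hg hlen => by
      have := std_b2 p (j + 1) h2 g hg (by
        have : 4 * (2 + 2) * g.length ≤ 16 * r := by nlinarith
        omega)
      simpa using this)
  -- the large structures
  obtain ⟨c₁, hc₁, M₁, hM₁⟩ := box_count p h2 (Qalt p j) (fun i => decide (i.1 ≤ j)) (p ^ 3) r hn0
    (by omega) hG
    (fun u hu hlen => alt_b1 p j h2 u hu (by omega))
    (fun g hg hlen => alt_b2 p j h2 g hg (by omega))
  -- fix the small structure
  obtain ⟨s, hs⟩ : ∃ s, M₀ ≤ p ^ s := ⟨M₀, (Nat.lt_pow_self (p_one p)).le⟩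
  have hX₁' : ∃ X₁ : LS (AL 2) (boxV (Qstd p (j + 1)) (p ^ 3) (p ^ s)), Good (evB p h2) (p ^ 3) r X₁ := by
    have h := hM₀ (p ^ s) hs
    have hpos : (0 : ℝ) < c₀ * (((Nat.card (boxG (Qstd p (j + 1))) * p ^ s /
        Nat.card (boxZ (Qstd p (j + 1)) fun _ => true)).factorial : ℝ)) ^ 2 := by positivity
    have h3 : 0 < {τ : Fin 2 → Equiv.Perm (boxV (Qstd p (j + 1)) (p ^ 3) (p ^ s)) |
        Good (evB p h2) (p ^ 3) r (Sum.elim (boxρ (Qstd p (j + 1)) (p ^ 3) (p ^ s) 2) τ,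
          boxκ (Qstd p (j + 1)) (p ^ 3) (p ^ s))}.ncard := by
      exact_mod_cast lt_of_lt_of_le hpos h
    obtain ⟨τ, hτ⟩ := Set.nonempty_of_ncard_ne_zero h3.ne'
    exact ⟨_, hτ⟩
  set V₁ := boxV (Qstd p (j + 1)) (p ^ 3) (p ^ s) with hV₁
  obtain ⟨X₁, hX₁⟩ := hX₁'
  have : NeZero (p ^ 3) := ⟨hn0.ne'⟩
  have : NeZero p := ⟨(p_pos p).ne'⟩
  have fV₁ : Fintype V₁ := Fintype.ofFinite _
  obtain ⟨a, ha⟩ := std_card p (j + 1)
  have hn₁ : Fintype.card V₁ = p ^ (a + 3 + s) := by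
    rw [← Nat.card_eq_fintype_card, hV₁, card_boxV, ha]
    ring
  set b := Nat.card (boxG (Qalt p j)) * p ^ 3 with hb
  set l := p ^ j * p ^ 3 with hl
  set s' := (lev p (j + 1)).l with hs'
  have hZ := alt_card p j
  have hdvd : p ^ j * 128 ∣ Nat.card (boxG (Qalt p j)) := by
    rw [← hZ]; exact Subgroup.card_subgroup_dvd_card _
  have hbG : 0 < Nat.card (boxG (Qalt p j)) := Nat.card_pos
  have hd : 128 * l ∣ b := by
    obtain ⟨q, hq⟩ := hdvd
    exact ⟨q, by rw [hb, hl, hq]; ring⟩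
  have hb1 : 1 ≤ b := Nat.mul_pos hbG hn0
  have hl1 : 1 ≤ l := Nat.mul_pos (Nat.pow_pos (p_pos p)) hn0
  have hbig := BP.big (p := p)
  have hsl : 100000 * l ≤ s' := by
    have h1 : s' = p ^ (dd (j + 1) + 1) := rfl
    have h3 : l = p ^ (j + 3) := by rw [hl, ← pow_add]
    have h4 : p * p ^ (j + 3) ≤ p ^ (dd (j + 1) + 1) := by
      rw [← pow_succ']
      apply Nat.pow_le_pow_right (p_pos p)
      have := dd_ge j
      simp only [dd]; omega
    rw [h1, h3]
    exact le_trans (Nat.mul_le_mul_right _ hbig) h4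
  obtain ⟨M₂, hM₂⟩ := numeric l p b (Fintype.card V₁) s' c₁ hc₁ hbig hl1 hb1 hd hsl
  rw [Filter.frequently_atTop]
  intro N
  set M := (M₁ + M₂ + N + 1) * (p - 1).factorial with hM
  have hfac : 1 ≤ (p - 1).factorial := Nat.factorial_pos _
  have hMge : M₁ + M₂ + N + 1 ≤ M := Nat.le_mul_of_pos_right _ hfac
  have hMpos : 0 < M := by omega
  have : NeZero M := ⟨hMpos.ne'⟩
  set V₂ := boxV (Qalt p j) (p ^ 3) M with hV₂
  have fV₂ : Fintype V₂ := Fintype.ofFinite _
  have hcV₂ : Fintype.card V₂ = b * M := by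
    rw [← Nat.card_eq_fintype_card, hV₂, card_boxV]
  set n := Fintype.card V₁ + b * M with hn
  have hcV : Fintype.card (V₁ ⊕ V₂) = n := by rw [Fintype.card_sum, hcV₂]
  refine ⟨n, ?_, ?_⟩
  · have : M ≤ b * M := Nat.le_mul_of_pos_left _ hb1
    omega
  have hnpos : 0 < n := by
    have : M ≤ b * M := Nat.le_mul_of_pos_left _ hb1
    omega
  -- the sets
  set G := {X : LS (AL 2) (V₁ ⊕ V₂) | Good (evB p h2) (p ^ 3) r X} with hGdef
  set Gn := {X : LS (AL 2) (Fin n) | Good (evB p h2) (p ^ 3) r X} with hGn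
  set Tn := {X : LS (AL 2) (Fin n) | Good (evB p h2) (p ^ 3) r X ∧ Trans X} with hTn
  have hGG : G.ncard = Gn.ncard := good_ncard_eq (Fintype.equivFinOfCardEq hcV)
  set T₂ := {τ : Fin 2 → Equiv.Perm V₂ |
        Good (evB p h2) (p ^ 3) r (Sum.elim (boxρ (Qalt p j) (p ^ 3) M 2) τ,
          boxκ (Qalt p j) (p ^ 3) M)} with hT₂
  have hT₂c := hM₁ M (by omega)
  set F : (Fin 2 → Equiv.Perm V₂) → LS (AL 2) (V₁ ⊕ V₂) := fun τ =>
    sumLS X₁ (Sum.elim (boxρ (Qalt p j) (p ^ 3) M 2) τ, boxκ (Qalt p j) (p ^ 3) M) with hF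
  have hFinj : Function.Injective F := by
    intro τ τ' h
    funext i
    have h1 := congrFun (congrArg Prod.fst h) (Sum.inr i)
    simp only [hF, sumLS, Sum.elim_inr] at h1
    refine Equiv.ext fun v => ?_
    have h2 := congrArg (fun t : Equiv.Perm (V₁ ⊕ V₂) => t (Sum.inr v)) h1
    simpa using h2
  have hTc : (F '' T₂).ncard = T₂.ncard := Set.ncard_image_of_injective _ hFinj
  obtain ⟨R₂, hR₂c, hR₂⟩ := alt_R p j M hMpos
  set R : Finset (V₁ ⊕ V₂) := Finset.disjSum Finset.univ R₂ with hR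
  have hRc : R.card = Fintype.card V₁ + b * M / s' := by
    rw [hR, Finset.card_disjSum, hR₂c, Finset.card_univ]
  have hlow := count_lower G (F '' T₂) (by
      rintro _ ⟨τ, hτ, rfl⟩
      exact Good_sumLS hX₁ hτ) (by
      intro X hX σ
      rw [conjLS_eq]
      exact Good_mapLS σ hX) (Sum.inl (0, 0))
    (Equiv.sumCongr (X₁.1 (Sum.inl (0, 0))) (boxρ (Qalt p j) (p ^ 3) M 2 (0, 0)))
    (by
      rintro _ ⟨τ, hτ, rfl⟩
      rfl) R (by
      rintro (v | v)
      · exact ⟨Sum.inl v, by simp [hR], 0, by simp⟩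
      · obtain ⟨x, hx, i, hi⟩ := hR₂ v
        refine ⟨Sum.inr x, by simp [hR, hx], i, ?_⟩
        rw [zpow_sumCongr]
        simp [hi])
  rw [hTc, hcV, hGG, hRc] at hlow
  -- the upper bound
  have hup := count_upper (Λ := AL 2)
    (U := Multiplicative (Fin j → ZMod p) × Multiplicative (ZMod (p ^ 3))) n p hnpos (p_pos p)
    (1, Multiplicative.ofAdd 1) Tn (by
      rintro X ⟨hX, hT⟩
      have : Nonempty (Fin n) := ⟨⟨0, hnpos⟩⟩
      exact s2_center p h2 j X hX hT) (by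
      intro q hq hqn
      by_contra hlt
      push Not at hlt
      have h1 : q ∣ (p - 1).factorial := (hq.dvd_factorial).2 (by omega)
      have h3 : q ∣ b * M := Dvd.dvd.mul_left (Dvd.dvd.mul_left h1 _) _
      have h4 : q ∣ Fintype.card V₁ := (Nat.dvd_add_left h3).1 hqn
      rw [hn₁] at h4
      have h5 := hq.dvd_of_dvd_pow h4
      have h6 := (Nat.prime_dvd_prime_iff_eq hq (BP.pr (p := p))).1 h5
      omega)
  have hcU : Fintype.card (Multiplicative (Fin j → ZMod p) × Multiplicative (ZMod (p ^ 3))) = l := by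
    simp [ZMod.card, hl]
  have hcA : Fintype.card (AL 2) = 6 := by simp [AL]
  rw [hcU, hcA] at hup
  have hnum := hM₂ M (by omega) n hn
  -- combination
  have hT₂pos : 0 < T₂.ncard := by
    have hpos : (0 : ℝ) < c₁ * (((Nat.card (boxG (Qalt p j)) * M /
        Nat.card (boxZ (Qalt p j) fun i => decide (i.1 ≤ j))).factorial : ℝ)) ^ 2 := by positivity
    exact_mod_cast lt_of_lt_of_le hpos hT₂c
  have hquot : Nat.card (boxG (Qalt p j)) * M /
        Nat.card (boxZ (Qalt p j) fun i => decide (i.1 ≤ j)) = b * M / (128 * l) := by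
    rw [hZ, hb, hl]
    have e1 : Nat.card (boxG (Qalt p j)) * p ^ 3 * M = (Nat.card (boxG (Qalt p j)) * M) * p ^ 3 := by
      ring
    have e2 : 128 * (p ^ j * p ^ 3) = (p ^ j * 128) * p ^ 3 := by ring
    rw [e1, e2, Nat.mul_div_mul_right _ _ hn0]
  rw [hquot] at hT₂c
  have hnn : (0 : ℝ) < (n : ℝ) ^ (Fintype.card V₁ + b * M / s') := by positivity
  have hnf : (0 : ℝ) < (n.factorial : ℝ) := by positivity
  have hlowR : (n.factorial : ℝ) * (T₂.ncard : ℝ) ≤
      (Gn.ncard : ℝ) * (n : ℝ) ^ (Fintype.card V₁ + b * M / s') := by exact_mod_cast hlow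
  have hupR : (Tn.ncard : ℝ) ≤ ((n * l * n.factorial * n ^ (6 * (n / (l * p))) : ℕ) : ℝ) := by
    exact_mod_cast hup
  have key : 2 * (Tn.ncard : ℝ) * (n : ℝ) ^ (Fintype.card V₁ + b * M / s') ≤
      (Gn.ncard : ℝ) * (n : ℝ) ^ (Fintype.card V₁ + b * M / s') := by
    calc 2 * (Tn.ncard : ℝ) * (n : ℝ) ^ (Fintype.card V₁ + b * M / s')
        ≤ 2 * ((n * l * n.factorial * n ^ (6 * (n / (l * p))) : ℕ) : ℝ) *
          (n : ℝ) ^ (Fintype.card V₁ + b * M / s') := by
          apply mul_le_mul_of_nonneg_right _ hnn.le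
          linarith
      _ ≤ (n.factorial : ℝ) * (c₁ * ((((b * M) / (128 * l)).factorial : ℝ)) ^ 2) := hnum
      _ ≤ (n.factorial : ℝ) * (T₂.ncard : ℝ) := mul_le_mul_of_nonneg_left hT₂c hnf.le
      _ ≤ _ := hlowR
  have key2 := le_of_mul_le_mul_right key hnn
  constructor
  · have h1 : 0 < (n.factorial) * T₂.ncard := Nat.mul_pos (Nat.factorial_pos _) hT₂pos
    have h3 : 0 < Gn.ncard * n ^ (Fintype.card V₁ + b * M / s') := lt_of_lt_of_le h1 hlow
    exact Nat.pos_of_mul_pos_right h3 |> fun h => h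
  · exact_mod_cast key2

end Pool.Agent.Helper55.LF
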