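import Mathlib
import Pool.Agent.Helper55.LF.Defs

/-! Pairs of permutations generating an intransitive group (module M2 of MP_f7aca4_co).
needs: nothing beyond the word lemmas of Defs. -/

namespace Pool.Agent.Helper55.LF

open Finset

private lemma int_card_fix {X : Type} [Fintype X] [DecidableEq X] (s : Finset X) :
    (univ.filter fun σ : Equiv.Perm X => ∀ x, σ x ∈ s ↔ x ∈ s).card ≤
      s.card.factorial * (Fintype.card X - s.card).factorial := by
  classical
  have h : Function.Injective (fun σ : {σ : Equiv.Perm X // ∀ x, σ x ∈ s ↔ x ∈ s} =>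
      ((σ.1.subtypePerm σ.2 : Equiv.Perm {x // x ∈ s}),
       (σ.1.subtypePerm (fun x => not_congr (σ.2 x)) : Equiv.Perm {x // ¬ x ∈ s}))) := by
    rintro ⟨σ, hσ⟩ ⟨τ, hτ⟩ h
    simp only [Prod.mk.injEq] at h
    apply Subtype.ext
    ext x
    by_cases hx : x ∈ s
    · have := congrArg (fun e : Equiv.Perm {x // x ∈ s} => ((e ⟨x, hx⟩ : {x // x ∈ s}) : X)) h.1
      simpa using this
    · have := congrArg (fun e : Equiv.Perm {x // ¬ x ∈ s} =>
        ((e ⟨x, hx⟩ : {x // ¬ x ∈ s}) : X)) h.2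
      simpa using this
  have h2 := Fintype.card_le_of_injective _ h
  rw [Fintype.card_subtype, Fintype.card_prod, Fintype.card_perm, Fintype.card_perm] at h2
  have h3 : Fintype.card {x // ¬ x ∈ s} = Fintype.card X - s.card := by
    rw [Fintype.card_subtype_compl]
    simp
  rw [h3, Fintype.card_coe] at h2
  exact h2

private lemma int_card_fix2 {X : Type} [Fintype X] [DecidableEq X] (s : Finset X) :
    (univ.filter fun τ : Fin 2 → Equiv.Perm X => ∀ i x, τ i x ∈ s ↔ x ∈ s).card ≤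
      (s.card.factorial * (Fintype.card X - s.card).factorial) ^ 2 := by
  classical
  have h : (univ.filter fun τ : Fin 2 → Equiv.Perm X => ∀ i x, τ i x ∈ s ↔ x ∈ s) =
      Fintype.piFinset (fun _ : Fin 2 =>
        univ.filter fun σ : Equiv.Perm X => ∀ x, σ x ∈ s ↔ x ∈ s) := by
    ext τ
    simp
  rw [h, Fintype.card_piFinset]
  simp only [prod_const, card_univ, Fintype.card_fin]
  exact Nat.pow_le_pow_left (int_card_fix s) 2

private lemma int_lv_mem {X : Type} (τ : Fin 2 → Equiv.Perm X) (x : X) (i : Fin 2) (y : X) :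
    (∃ u : Wd (Fin 2), wp τ u x = τ i y) ↔ ∃ u : Wd (Fin 2), wp τ u x = y := by
  constructor
  · rintro ⟨u, hu⟩
    refine ⟨(i, false) :: u, ?_⟩
    simp [hu]
  · rintro ⟨u, hu⟩
    refine ⟨(i, true) :: u, ?_⟩
    simp [hu]

private lemma int_exists {X : Type} [Fintype X] [DecidableEq X] (τ : Fin 2 → Equiv.Perm X)
    (h : ¬ ∀ x y, ∃ u : Wd (Fin 2), wp τ u x = y) :
    ∃ s : Finset X, 1 ≤ s.card ∧ 2 * s.card ≤ Fintype.card X ∧
      ∀ i x, τ i x ∈ s ↔ x ∈ s := by
  classical
  push Not at h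
  obtain ⟨x, y, hxy⟩ := h
  set O : Finset X := univ.filter fun z => ∃ u : Wd (Fin 2), wp τ u x = z with hO
  have hmem : ∀ z, z ∈ O ↔ ∃ u : Wd (Fin 2), wp τ u x = z := by
    intro z; simp [hO]
  have hx : x ∈ O := (hmem x).2 ⟨[], by simp⟩
  have hy : y ∉ O := by
    rw [hmem]
    rintro ⟨u, hu⟩
    exact hxy u hu
  have hinv : ∀ i z, τ i z ∈ O ↔ z ∈ O := by
    intro i z
    rw [hmem, hmem]
    exact int_lv_mem τ x i z
  by_cases hc : 2 * O.card ≤ Fintype.card X
  · exact ⟨O, Finset.card_pos.2 ⟨x, hx⟩, hc, hinv⟩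
  · refine ⟨Oᶜ, Finset.card_pos.2 ⟨y, by simpa using hy⟩, ?_, ?_⟩
    · rw [Finset.card_compl]
      omega
    · intro i z
      rw [Finset.mem_compl, Finset.mem_compl, hinv]

private lemma int_choose_two (M a : ℕ) (ha : 2 ≤ a) (ha' : 2 * a ≤ M) :
    M.choose 2 ≤ M.choose a := by
  induction a, ha using Nat.le_induction with
  | base => exact le_refl _
  | succ n hn ih =>
    refine (ih (by omega)).trans ?_
    apply Nat.choose_le_succ_of_lt_half_left
    omega

private lemma int_sum (M : ℕ) (hM : 1 ≤ M) :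
    ∑ a ∈ Icc 1 (M / 2), (1 : ℝ) / (M.choose a : ℝ) ≤ 3 / M := by
  have hMr : (1 : ℝ) ≤ M := by exact_mod_cast hM
  rcases Nat.lt_or_ge M 2 with h2 | h2
  · have : M = 1 := by omega
    subst this
    simp
  have h2r : (2 : ℝ) ≤ M := by exact_mod_cast h2
  have hsplit : Icc 1 (M / 2) = insert 1 (Icc 2 (M / 2)) := by
    ext a
    simp only [mem_Icc, mem_insert]
    omega
  rw [hsplit, sum_insert (by simp)]
  have hch2 : (M.choose 2 : ℝ) = M * (M - 1) / 2 := by
    rw [Nat.cast_choose_two]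
  have h1 : ∑ a ∈ Icc 2 (M / 2), (1 : ℝ) / (M.choose a : ℝ) ≤
      ∑ a ∈ Icc 2 (M / 2), (2 : ℝ) / (M * (M - 1)) := by
    apply sum_le_sum
    intro a ha
    rw [mem_Icc] at ha
    have h3 : (M.choose 2 : ℝ) ≤ (M.choose a : ℝ) := by
      exact_mod_cast int_choose_two M a ha.1 (by omega)
    have h4 : (0 : ℝ) < (M.choose 2 : ℝ) := by
      rw [hch2]
      have : (0 : ℝ) < M * (M - 1) := by nlinarith
      linarith
    calc (1 : ℝ) / (M.choose a : ℝ) ≤ 1 / (M.choose 2 : ℝ) := by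
          apply one_div_le_one_div_of_le h4 h3
      _ = 2 / (M * (M - 1)) := by
          rw [hch2]
          field_simp
  rw [sum_const, nsmul_eq_mul, Nat.card_Icc] at h1
  have h5 : ((M / 2 + 1 - 2 : ℕ) : ℝ) ≤ (M - 1 : ℝ) := by
    have : (M / 2 + 1 - 2 : ℕ) + 1 ≤ M := by omega
    have h6 : ((M / 2 + 1 - 2 : ℕ) : ℝ) + 1 ≤ M := by exact_mod_cast this
    linarith
  have hpos : (0 : ℝ) < M * (M - 1) := by nlinarith
  have h7 : ((M / 2 + 1 - 2 : ℕ) : ℝ) * (2 / (M * (M - 1))) ≤ 2 / M := by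
    calc ((M / 2 + 1 - 2 : ℕ) : ℝ) * (2 / (M * (M - 1))) ≤ (M - 1) * (2 / (M * (M - 1))) := by
          apply mul_le_mul_of_nonneg_right h5
          positivity
      _ = 2 / M := by
          have : (M : ℝ) - 1 ≠ 0 := by linarith
          field_simp
  rw [Nat.choose_one_right]
  calc (1 : ℝ) / M + ∑ a ∈ Icc 2 (M / 2), (1 : ℝ) / (M.choose a : ℝ) ≤ 1 / M + 2 / M := by
        linarith
    _ = 3 / M := by ring

theorem intransitive_count (X : Type) [Fintype X] [DecidableEq X] [Nonempty X] :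
    ({τ : Fin 2 → Equiv.Perm X | ¬ ∀ x y, ∃ u : Wd (Fin 2), wp τ u x = y}.ncard : ℝ) ≤
      3 / Fintype.card X * ((Fintype.card X).factorial : ℝ) ^ 2 := by
  classical
  set M := Fintype.card X with hM
  have hM1 : 1 ≤ M := Fintype.card_pos
  set S : Finset (Finset X) :=
    univ.filter fun s : Finset X => 1 ≤ s.card ∧ 2 * s.card ≤ M with hS
  have hsub : {τ : Fin 2 → Equiv.Perm X | ¬ ∀ x y, ∃ u : Wd (Fin 2), wp τ u x = y} ⊆
      ((S.biUnion fun s => univ.filter fun τ : Fin 2 → Equiv.Perm X =>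
        ∀ i x, τ i x ∈ s ↔ x ∈ s : Finset (Fin 2 → Equiv.Perm X)) : Set _) := by
    intro τ hτ
    obtain ⟨s, h1, h2, h3⟩ := int_exists τ hτ
    simp only [coe_biUnion, Set.mem_iUnion]
    refine ⟨s, ?_, by simpa using h3⟩
    rw [mem_coe, hS, mem_filter]
    exact ⟨mem_univ _, h1, h2⟩
  have h1 : {τ : Fin 2 → Equiv.Perm X | ¬ ∀ x y, ∃ u : Wd (Fin 2), wp τ u x = y}.ncard ≤
      ∑ s ∈ S, (s.card.factorial * (M - s.card).factorial) ^ 2 := by
    refine (Set.ncard_le_ncard hsub (Finset.finite_toSet _)).trans ?_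
    rw [Set.ncard_coe_finset]
    refine Finset.card_biUnion_le.trans ?_
    exact sum_le_sum fun s _ => int_card_fix2 s
  have h2 : ∑ s ∈ S, (s.card.factorial * (M - s.card).factorial) ^ 2 =
      ∑ a ∈ Icc 1 (M / 2), M.choose a * (a.factorial * (M - a).factorial) ^ 2 := by
    have hmaps : ∀ s ∈ S, s.card ∈ Icc 1 (M / 2) := by
      intro s hs
      rw [hS, mem_filter] at hs
      rw [mem_Icc]
      omega
    rw [← sum_fiberwise_of_maps_to hmaps]
    apply sum_congr rfl
    intro a ha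
    rw [mem_Icc] at ha
    have h3 : ∑ s ∈ S with s.card = a, (s.card.factorial * (M - s.card).factorial) ^ 2 =
        ∑ s ∈ S with s.card = a, (a.factorial * (M - a).factorial) ^ 2 := by
      apply sum_congr rfl
      intro s hs
      rw [mem_filter] at hs
      rw [hs.2]
    rw [h3, sum_const, smul_eq_mul]
    congr 1
    have h4 : S.filter (fun s => s.card = a) = powersetCard a (univ : Finset X) := by
      ext s
      simp only [hS, mem_filter, mem_univ, true_and, mem_powersetCard, subset_univ]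
      constructor
      · rintro ⟨_, h⟩
        exact h
      · intro h
        refine ⟨?_, h⟩
        omega
    rw [h4, card_powersetCard, card_univ]
  have h3 : ((∑ s ∈ S, (s.card.factorial * (M - s.card).factorial) ^ 2 : ℕ) : ℝ) =
      (M.factorial : ℝ) ^ 2 * ∑ a ∈ Icc 1 (M / 2), (1 : ℝ) / (M.choose a : ℝ) := by
    rw [h2, Nat.cast_sum, mul_sum]
    apply sum_congr rfl
    intro a ha
    rw [mem_Icc] at ha
    have haM : a ≤ M := by omega
    have h4 : (M.choose a : ℝ) * (a.factorial * (M - a).factorial) = M.factorial := by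
      have := Nat.choose_mul_factorial_mul_factorial haM
      rw [← mul_assoc]
      exact_mod_cast this
    have h5 : (M.choose a : ℝ) ≠ 0 := by
      have := Nat.choose_pos haM
      positivity
    push_cast
    rw [← h4]
    field_simp
  calc ({τ : Fin 2 → Equiv.Perm X | ¬ ∀ x y, ∃ u : Wd (Fin 2), wp τ u x = y}.ncard : ℝ)
      ≤ ((∑ s ∈ S, (s.card.factorial * (M - s.card).factorial) ^ 2 : ℕ) : ℝ) := by
        exact_mod_cast h1
    _ = (M.factorial : ℝ) ^ 2 * ∑ a ∈ Icc 1 (M / 2), (1 : ℝ) / (M.choose a : ℝ) := h3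
    _ ≤ (M.factorial : ℝ) ^ 2 * (3 / M) := by
        apply mul_le_mul_of_nonneg_left (int_sum M hM1)
        positivity
    _ = 3 / M * (M.factorial : ℝ) ^ 2 := by ring

end Pool.Agent.Helper55.LF
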