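import Mathlib
import Pool.Agent.Helper55.LF.Defs
import Pool.Agent.Helper55.LF.Eval
import Pool.Agent.Helper55.LF.Cross
import Pool.Agent.Helper55.LF.GamBasic

/-! needs: eval_gam, gam_bound, norm_lower, ev_eq_one, level_of_ev_eq, mem_Wg_iff -/

namespace Pool.Agent.Helper55.LF

open Filter Topology

section wsys
variable (p : ℕ) [BP p]

private lemma ws_isH_append {A B : Type*} {u v : Wd (A ⊕ B)} (hu : IsH u) (hv : IsH v) :
    IsH (u ++ v) := by
  intro s hs
  rcases List.mem_append.1 hs with h | h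
  · exact hu s h
  · exact hv s h

private lemma ws_isH_winv {A B : Type*} {u : Wd (A ⊕ B)} (hu : IsH u) : IsH (winv u) := by
  intro s hs
  simp only [winv, List.mem_reverse, List.mem_map] at hs
  obtain ⟨t, ht, rfl⟩ := hs
  exact hu t ht

private lemma ws_isH_pass {B : ℕ} (α : ℕ → Fin 2) (β : ℕ → Fin B) (L : ℕ) :
    IsH (pass α β L) := by
  intro s hs
  simp only [pass, List.mem_map] at hs
  obtain ⟨i, _, rfl⟩ := hs
  exact ⟨_, rfl⟩

private lemma ws_isH_stdW {B : ℕ} (D : ℕ) (β β' : ℕ → Fin B) : IsH (stdW D β β') :=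
  ws_isH_append (ws_isH_pass _ _ _) (ws_isH_append (ws_isH_winv (ws_isH_pass _ _ _))
    (ws_isH_append (ws_isH_pass _ _ _) (ws_isH_winv (ws_isH_pass _ _ _))))

private lemma ws_length_pass {B : ℕ} (α : ℕ → Fin 2) (β : ℕ → Fin B) (L : ℕ) :
    (pass α β L).length = L := by simp [pass]

private lemma ws_length_stdW {B : ℕ} (D : ℕ) (β β' : ℕ → Fin B) :
    (stdW D β β').length = 8 * D := by
  simp only [stdW, List.length_append, length_winv, ws_length_pass]
  ring

private lemma ws_telescope {B : ℕ} (D : ℕ) (β β' β'' : ℕ → Fin B) {G : Type*} [Group G]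
    (f : AL B → G) : wp f (stdW D β β') * wp f (stdW D β' β'') = wp f (stdW D β β'') := by
  simp only [stdW, wp_append, wp_winv]
  group

private lemma ws_cst_mul (P : Par) (c d : ℤ) : cst P c * cst P d = cst P (c + d) := by
  ext e
  · simp [cst, KG.mul_f]
  · simp [cst, KG.mul_g]
  · rw [KG.mul_h]
    have : om P (cst P c).f (fun e => (cst P d).g (e - (cst P c).n)) e = 0 := by
      change om P (fun _ => 0) _ _ = 0
      exact KG.om_zero_left _ _
    rw [this]
    simp [cst]
  · simp [cst]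

private lemma ws_cst_inv (P : Par) (c : ℤ) : (cst P c)⁻¹ = cst P (-c) := by
  have h : cst P (-c) * cst P c = 1 := by
    rw [ws_cst_mul]
    ext e
    · simp [cst]
    · simp [cst]
    · simp [cst]
    · simp [cst]
  exact inv_eq_of_mul_eq_one_left h

private lemma ws_cst_mem_cW (P : Par) (c : ℤ) : cst P c ∈ cW P :=
  mem_cW.2 ⟨rfl, rfl, rfl, _, fun _ => rfl⟩

private lemma ws_cst_mem_cN (P : Par) (hd : P.N ∣ P.m) (c : ℤ) :
    cst P c ∈ cN P ↔ (P.N : ℤ) ∣ c := by
  constructor
  · intro h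
    obtain ⟨_, _, _, d, hdd⟩ := mem_cN.1 h
    have h1 : ((c : ℤ) : ZMod P.m) = (P.N : ZMod P.m) * d := hdd 0
    have h2 : ((c : ℤ) : ZMod P.N) = 0 := by
      have := congrArg (ZMod.castHom hd (ZMod P.N)) h1
      rwa [map_intCast, map_mul, map_natCast, ZMod.natCast_self, zero_mul] at this
    exact (ZMod.intCast_zmod_eq_zero_iff_dvd c P.N).1 h2
  · rintro ⟨d, rfl⟩
    refine mem_cN.2 ⟨rfl, rfl, rfl, (d : ZMod P.m), fun _ => ?_⟩
    simp [cst]

private lemma ws_N (i : ℕ) : (lev p i).N = p := rfl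

private lemma ws_dvd (i : ℕ) : (lev p i).N ∣ (lev p i).m := by
  change p ∣ p ^ (2 * dd i + 3)
  exact dvd_pow_self p (by omega)

/-- equality of words in the group from the levels -/
private lemma ws_ev_eq {u v : Wd (AL p)} (hu : IsH u) (hv : IsH v)
    (h : ∀ i, wp (kv (lev p i) p) u * (wp (kv (lev p i) p) v)⁻¹ ∈ cN (lev p i)) :
    wp (evB p le_rfl) u = wp (evB p le_rfl) v := by
  have h1 := ev_eq_one p le_rfl (u ++ winv v) (ws_isH_append hu (ws_isH_winv hv)) (by
    intro i
    rw [wp_append, wp_winv]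
    exact h i)
  rw [wp_append, wp_winv] at h1
  exact mul_inv_eq_one.1 h1

/-- the integer coordinates -/
private noncomputable def wsz (j : ℕ) (a : Fin (j + 1) → ZMod p) (k : ℕ) : ℤ :=
  if h : k < j + 1 then (a ⟨k, h⟩).valMinAbs else 0

private lemma wsz_cast (j : ℕ) (a : Fin (j + 1) → ZMod p) (k : ℕ) (h : k < j + 1) :
    ((wsz p j a k : ℤ) : ZMod p) = a ⟨k, h⟩ := by
  have := (BP.pr (p := p)).ne_zero
  have : NeZero p := ⟨this⟩
  simp [wsz, h]

private lemma wsz_bound (j : ℕ) (a : Fin (j + 1) → ZMod p) (k : ℕ) :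
    |wsz p j a k| ≤ ((p / 2 : ℕ) : ℤ) := by
  have := (BP.pr (p := p)).ne_zero
  have : NeZero p := ⟨this⟩
  unfold wsz
  split_ifs with h
  · have h1 := ZMod.natAbs_valMinAbs_le (a ⟨k, h⟩)
    have h2 : |(a ⟨k, h⟩).valMinAbs| = (((a ⟨k, h⟩).valMinAbs.natAbs : ℕ) : ℤ) :=
      Int.abs_eq_natAbs _
    rw [h2]
    exact_mod_cast h1
  · rw [abs_zero]
    exact Int.natCast_nonneg _

omit [BP p] in
private lemma ws_zero_bound : |(0 : ℤ)| ≤ ((p / 2 : ℕ) : ℤ) := by
  rw [abs_zero]
  exact Int.natCast_nonneg _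

/-- digits -/
private noncomputable def wsd (g : ℤ) : Fin p :=
  ⟨(((p / 2 : ℕ) : ℤ) + g).toNat % p, Nat.mod_lt _ (BP.pr (p := p)).pos⟩

private lemma wsd_val (g : ℤ) (hg : |g| ≤ ((p / 2 : ℕ) : ℤ)) :
    (((wsd p g : Fin p) : ℕ) : ℤ) = ((p / 2 : ℕ) : ℤ) + g := by
  have hp := (BP.pr (p := p)).eq_one_or_self_of_dvd 2
  have hb := BP.big (p := p)
  have hodd : p % 2 = 1 := by
    rcases Nat.mod_two_eq_zero_or_one p with h | h
    · exfalso
      have := hp (Nat.dvd_of_mod_eq_zero h)
      omega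
    · exact h
  have h1 := abs_le.1 hg
  have h2 : (((p / 2 : ℕ) : ℤ) + g).toNat < p := by omega
  simp only [wsd]
  rw [Nat.mod_eq_of_lt h2]
  omega

private lemma ws_gam_add (j : ℕ) (z z' : ℕ → ℤ) (e : ℕ) :
    gam p j (fun k => z k + z' k) e = gam p j z e + gam p j z' e := by
  unfold gam
  split_ifs with h
  · rfl
  · rw [← Finset.sum_add_distrib]
    refine Finset.sum_congr rfl fun k _ => ?_
    split_ifs <;> ring

private lemma ws_gam_zero (j : ℕ) (e : ℕ) : gam p j (fun _ => 0) e = 0 := by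
  unfold gam
  simp

private lemma ws_D_lt (k : ℕ) : k < (lev p k).D := by
  have h1 : k ≤ dd k := by
    induction k with
    | zero => simp [dd]
    | succ n ih => simp only [dd]; omega
  have h2 : dd k < 2 ^ dd k := Nat.lt_two_pow_self
  have h3 : 2 ^ dd k ≤ p ^ dd k := Nat.pow_le_pow_left (by have := BP.big (p := p); omega) _
  change k < p ^ dd k
  omega

private lemma ws_D_mono {i j : ℕ} (h : i ≤ j) : (lev p i).D ≤ (lev p j).D := by
  have h1 : dd i ≤ dd j := by
    induction h with
    | refl => exact le_rfl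
    | step _ ih => simp only [dd]; omega
  exact Nat.pow_le_pow_right (BP.pr (p := p)).pos h1

/-- the word of an element -/
private noncomputable def wsw (j : ℕ) (a : Fin (j + 1) → ZMod p) : Wd (AL p) :=
  stdW (lev p j).D (fun _ => wsd p 0) (fun e => wsd p (gam p j (wsz p j a) e))

private lemma wsw_eval (j : ℕ) (a : Fin (j + 1) → ZMod p) (i : ℕ) :
    wp (kv (lev p i) p) (wsw p j a) = cst (lev p i) (if i ≤ j then wsz p j a i else 0) := by
  refine eval_gam p j (wsz p j a) _ _ (fun e _ => ?_) i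
  rw [wsd_val p 0 (ws_zero_bound p), wsd_val p _ (gam_bound p j _ _ (by positivity) (wsz_bound p j a) e)]
  ring

theorem wsys (r : ℕ) (hr : 8 * (lev p 0).D + 1 ≤ r) :
    ∃ (A : Type) (_ : CommGroup A) (_ : Fintype A) (w : A → Wd (AL p)),
      (∀ a, IsH (w a) ∧ (w a).length + 1 ≤ r ∧ wp (evB p le_rfl) (w a) ∈ Wg p) ∧
      (Function.Injective fun a => wp (evB p le_rfl) (w a)) ∧
      (∀ a b, wp (evB p le_rfl) (w (a * b)) = wp (evB p le_rfl) (w a) * wp (evB p le_rfl) (w b)) ∧
      (∀ g : Wd (AL p), IsH g → g.length + 1 ≤ r → wp (evB p le_rfl) g ∈ Wg p →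
        ∃ a, wp (evB p le_rfl) g = wp (evB p le_rfl) (w a)) ∧
      (∀ a b, ∃ x y z : Wd (AL p), x.length + 1 ≤ r ∧ y.length + 1 ≤ r ∧ z.length + 1 ≤ r ∧
        wp (evB p le_rfl) x = wp (evB p le_rfl) (w a) ∧
        wp (evB p le_rfl) y = wp (evB p le_rfl) (w b) ∧
        wp (evB p le_rfl) z = wp (evB p le_rfl) (w (a * b)) ∧
        ∀ (G : Type) [Group G] (f : AL p → G), wp f x * wp f y = wp f z) := by
  classical
  have : NeZero p := ⟨(BP.pr (p := p)).ne_zero⟩
  -- the maximal level
  obtain ⟨j, hj1, hj2⟩ : ∃ j, 8 * (lev p j).D + 1 ≤ r ∧ r < 8 * (lev p (j + 1)).D + 1 := by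
    have hex : ∃ k, r < 8 * (lev p k).D + 1 := ⟨r, by have := ws_D_lt p r; omega⟩
    have h0 : Nat.find hex ≠ 0 := by
      intro h
      have := Nat.find_spec hex
      rw [h] at this
      omega
    obtain ⟨j, hj⟩ := Nat.exists_eq_succ_of_ne_zero h0
    refine ⟨j, ?_, ?_⟩
    · have := Nat.find_min hex (m := j) (by omega)
      omega
    · have := Nat.find_spec hex
      rw [hj] at this
      exact this
  have hlen : ∀ β β' : ℕ → Fin p, (stdW (lev p j).D β β').length + 1 ≤ r := by
    intro β β'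
    rw [ws_length_stdW]
    exact hj1
  have hH : ∀ a, IsH (wsw p j a) := fun a => ws_isH_stdW _ _ _
  -- additivity modulo `p`
  have hadd : ∀ (a b : Fin (j + 1) → ZMod p) (i : ℕ), i ≤ j →
      (p : ℤ) ∣ wsz p j a i + wsz p j b i - wsz p j (a + b) i := by
    intro a b i hi
    rw [← ZMod.intCast_zmod_eq_zero_iff_dvd]
    push_cast
    rw [wsz_cast p j a i (by omega), wsz_cast p j b i (by omega), wsz_cast p j (a + b) i (by omega)]
    simp
  have hinW : ∀ a, InW p (wsw p j a) := by
    intro a i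
    rw [wsw_eval]
    exact ws_cst_mem_cW _ _
  refine ⟨Multiplicative (Fin (j + 1) → ZMod p), inferInstance, inferInstance,
    fun a => wsw p j (Multiplicative.toAdd a), ?_, ?_, ?_, ?_, ?_⟩
  · intro a
    exact ⟨hH _, hlen _ _, (mem_Wg_iff p le_rfl _ (hH _)).2 (hinW _)⟩
  · intro a b hab
    have h1 := level_of_ev_eq p le_rfl le_rfl _ _ hab
    apply Multiplicative.toAdd.injective
    funext k
    obtain ⟨k, hk⟩ := k
    have h2 := h1 k
    rw [wsw_eval, wsw_eval, ws_cst_inv, ws_cst_mul, if_pos (by omega), if_pos (by omega),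
      ws_cst_mem_cN _ (ws_dvd p k)] at h2
    have h3 := (ZMod.intCast_zmod_eq_zero_iff_dvd _ p).2 h2
    push_cast at h3
    rw [wsz_cast p j _ k hk, wsz_cast p j _ k hk] at h3
    have h4 : (Multiplicative.toAdd b) ⟨k, hk⟩ = (Multiplicative.toAdd a) ⟨k, hk⟩ := by
      linear_combination h3
    exact h4.symm
  · intro a b
    rw [← wp_append]
    refine ws_ev_eq p (hH _) (ws_isH_append (hH _) (hH _)) fun i => ?_
    rw [wp_append, wsw_eval, wsw_eval, wsw_eval, ws_cst_mul, ws_cst_inv, ws_cst_mul,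
      ws_cst_mem_cN _ (ws_dvd p i), ws_N]
    by_cases hi : i ≤ j
    · simp only [if_pos hi]
      obtain ⟨t, ht⟩ := hadd (Multiplicative.toAdd a) (Multiplicative.toAdd b) i hi
      have h5 : Multiplicative.toAdd (a * b) = Multiplicative.toAdd a + Multiplicative.toAdd b := rfl
      rw [h5]
      exact ⟨-t, by linear_combination -ht⟩
    · simp only [if_neg hi]
      simp
  · intro g hg hgl hgW
    have hW : InW p g := (mem_Wg_iff p le_rfl g hg).1 hgW
    choose hf hgg hn c hc using fun i => mem_cW.1 (hW i)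
    refine ⟨Multiplicative.ofAdd (fun k : Fin (j + 1) =>
      ZMod.castHom (ws_dvd p k.1) (ZMod p) (c k.1)), ?_⟩
    refine ws_ev_eq p hg (hH _) fun i => ?_
    rw [wsw_eval]
    by_cases hi : i ≤ j
    · rw [if_pos hi]
      set z : ℤ := wsz p j (Multiplicative.toAdd (Multiplicative.ofAdd (fun k : Fin (j + 1) =>
        ZMod.castHom (ws_dvd p k.1) (ZMod p) (c k.1)))) i with hz
      have hz1 : ((z : ℤ) : ZMod p) = ZMod.castHom (ws_dvd p i) (ZMod p) (c i) := by
        rw [hz, wsz_cast p j _ i (by omega)]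
        rfl
      -- the value of g in level i is a constant
      obtain ⟨C, hC⟩ : ∃ C : ℤ, ((C : ℤ) : ZMod (lev p i).m) = c i := ZMod.intCast_surjective (c i)
      have h1 : wp (kv (lev p i) p) g = cst (lev p i) C := by
        ext e
        · simp [hf i, cst]
        · simp [hgg i, cst]
        · simp [hc i, cst, hC]
        · simp [hn i, cst]
      rw [h1, ws_cst_inv, ws_cst_mul, ws_cst_mem_cN _ (ws_dvd p i), ws_N,
        ← ZMod.intCast_zmod_eq_zero_iff_dvd]
      push_cast
      rw [hz1, ← hC]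
      simp
    · rw [if_neg hi]
      have h2 : cst (lev p i) 0 = 1 := by
        ext e
        · simp [cst]
        · simp [cst]
        · simp [cst]
        · simp [cst]
      rw [h2, inv_one, mul_one]
      by_contra hcon
      have h3 := norm_lower p g hW i hcon
      have h4 := ws_D_mono p (show j + 1 ≤ i by omega)
      omega
  · intro a b
    refine ⟨stdW (lev p j).D (fun e => wsd p (- gam p j (wsz p j (Multiplicative.toAdd a)) e))
        (fun _ => wsd p 0),
      stdW (lev p j).D (fun _ => wsd p 0)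
        (fun e => wsd p (gam p j (wsz p j (Multiplicative.toAdd b)) e)),
      stdW (lev p j).D (fun e => wsd p (- gam p j (wsz p j (Multiplicative.toAdd a)) e))
        (fun e => wsd p (gam p j (wsz p j (Multiplicative.toAdd b)) e)),
      hlen _ _, hlen _ _, hlen _ _, ?_, rfl, ?_, fun G _ f => ws_telescope _ _ _ _ f⟩
    · refine ws_ev_eq p (ws_isH_stdW _ _ _) (hH _) fun i => ?_
      rw [wsw_eval, eval_gam p j (wsz p j (Multiplicative.toAdd a))]
      · rw [mul_inv_cancel]
        exact one_mem _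
      · intro e _
        rw [wsd_val p 0 (ws_zero_bound p), wsd_val p _ (by
          rw [abs_neg]; exact gam_bound p j _ _ (by positivity) (wsz_bound p j _) e)]
        ring
    · refine ws_ev_eq p (ws_isH_stdW _ _ _) (hH _) fun i => ?_
      rw [wsw_eval, eval_gam p j (fun k => wsz p j (Multiplicative.toAdd a) k +
        wsz p j (Multiplicative.toAdd b) k)]
      · rw [ws_cst_inv, ws_cst_mul, ws_cst_mem_cN _ (ws_dvd p i), ws_N]
        by_cases hi : i ≤ j
        · simp only [if_pos hi]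
          obtain ⟨t, ht⟩ := hadd (Multiplicative.toAdd a) (Multiplicative.toAdd b) i hi
          have h5 : Multiplicative.toAdd (a * b) =
            Multiplicative.toAdd a + Multiplicative.toAdd b := rfl
          rw [h5]
          exact ⟨t, by linear_combination ht⟩
        · simp only [if_neg hi]
          simp
      · intro e _
        rw [wsd_val p _ (gam_bound p j _ _ (by positivity) (wsz_bound p j _) e), wsd_val p _ (by
          rw [abs_neg]; exact gam_bound p j _ _ (by positivity) (wsz_bound p j _) e), ws_gam_add]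
        ring

end wsys

end Pool.Agent.Helper55.LF
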