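import Mathlib
import Pool.Agent.Helper55.LF.Defs
import Pool.Agent.Helper55.LF.Int
import Pool.Agent.Helper55.LF.Cent
import Pool.Agent.Helper55.LF.NoLin
import Pool.Agent.Helper55.LF.Gap
import Pool.Agent.Helper55.LF.Box
import Pool.Agent.Helper55.LF.WSys
import Pool.Agent.Helper55.LF.GamBasic

/-!
Module M16 (helper36): for the big alphabet almost all good structures are transitive.
needs: intransitive_count, cent_card, cent_induced, cent_count, noLin_count, claimA, gam_gap,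
wsys, Wg, Wg_central
-/

namespace Pool.Agent.Helper55.LF

open Filter Topology

section pos

lemma pos_comm_wp {Λ G : Type*} [Group G] {f : Λ → G} {z : G} (h : ∀ l, Commute z (f l))
    (u : Wd Λ) : Commute z (wp f u) := by
  induction u with
  | nil => rw [wp_nil]; exact Commute.one_right z
  | cons s u ih =>
    rw [wp_cons]
    refine Commute.mul_right ?_ ih
    rcases s with ⟨a, b⟩
    cases b
    · rw [lv_false]; exact (h a).inv_right
    · rw [lv_true]; exact h a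

lemma pos_wp_congr {A B G : Type*} [Group G] {f f' : A ⊕ B → G}
    (h : ∀ a, f (Sum.inl a) = f' (Sum.inl a)) {u : Wd (A ⊕ B)} (hu : IsH u) :
    wp f u = wp f' u := by
  induction u with
  | nil => rfl
  | cons s u ih =>
    rw [wp_cons, wp_cons, ih fun t ht => hu t (List.mem_cons_of_mem _ ht)]
    obtain ⟨a, ha⟩ := hu s List.mem_cons_self
    rcases s with ⟨c, b⟩
    change c = Sum.inl a at ha
    subst ha
    cases b
    · rw [lv_false, lv_false, h]
    · rw [lv_true, lv_true, h]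

section good

variable {Λ Γ V : Type*} [Group Γ] {e : Λ → Γ} {n₀ r : ℕ} {X : LS Λ V}

/-- words with the same value act in the same way -/
lemma pos_eq (hX : Good e n₀ r X) {u v : Wd Λ} (hl : u.length + v.length ≤ 2 * r + 1)
    (h : wp e u = wp e v) : wp X.1 u = wp X.1 v := by
  apply Equiv.ext
  intro q
  have h1 := (hX.2 (winv v ++ u) (by rw [List.length_append, length_winv]; omega) 0 q).2
    ⟨by rw [wp_append, wp_winv, h, inv_mul_cancel], by simp⟩
  rw [zpow_zero, Equiv.Perm.one_apply, wp_append, wp_winv, Equiv.Perm.mul_apply,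
    Equiv.Perm.inv_eq_iff_eq] at h1
  exact h1

lemma pos_central (hX : Good e n₀ r X) {u : Wd Λ} (hl : u.length + 1 ≤ r)
    (h : ∀ l, Commute (wp e u) (e l)) (l : Λ) : Commute (wp X.1 u) (X.1 l) := by
  have h1 := pos_eq hX (u := u ++ [(l, true)]) (v := (l, true) :: u) (by
    simp only [List.length_append, List.length_cons, List.length_nil]; omega) (by
    rw [wp_append, wp_cons, wp_cons, wp_nil, lv_true, mul_one]
    exact h l)
  rw [wp_append, wp_cons, wp_cons, wp_nil, lv_true, mul_one] at h1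
  exact h1

lemma pos_kappa (hX : Good e n₀ r X) (x : ℤ) (q : V) : (X.2 ^ x) q = q ↔ (n₀ : ℤ) ∣ x := by
  have h1 := hX.2 [] (by simp) x q
  rw [wp_nil, wp_nil, Equiv.Perm.one_apply] at h1
  rw [h1]
  exact ⟨fun h => h.2, fun h => ⟨rfl, h⟩⟩

end good

/-- the system of words of module M11 -/
structure WS (p : ℕ) [BP p] (r : ℕ) (A : Type) [CommGroup A] (w : A → Wd (AL p)) : Prop where
  h1 : ∀ a, IsH (w a) ∧ (w a).length + 1 ≤ r ∧ wp (evB p le_rfl) (w a) ∈ Wg p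
  inj : Function.Injective fun a => wp (evB p le_rfl) (w a)
  mul : ∀ a b, wp (evB p le_rfl) (w (a * b)) = wp (evB p le_rfl) (w a) * wp (evB p le_rfl) (w b)
  compl : ∀ g : Wd (AL p), IsH g → g.length + 1 ≤ r → wp (evB p le_rfl) g ∈ Wg p →
        ∃ a, wp (evB p le_rfl) g = wp (evB p le_rfl) (w a)
  free : ∀ a b, ∃ x y z : Wd (AL p), x.length + 1 ≤ r ∧ y.length + 1 ≤ r ∧ z.length + 1 ≤ r ∧
        wp (evB p le_rfl) x = wp (evB p le_rfl) (w a) ∧
        wp (evB p le_rfl) y = wp (evB p le_rfl) (w b) ∧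
        wp (evB p le_rfl) z = wp (evB p le_rfl) (w (a * b)) ∧
        ∀ (G : Type) [Group G] (f : AL p → G), wp f x * wp f y = wp f z

section ws

variable {p : ℕ} [BP p] {r : ℕ} {A : Type} [CommGroup A] {w : A → Wd (AL p)}
  {V : Type} {X : LS (AL p) V} {n₀ : ℕ}

lemma pos_mul (hw : WS p r A w) (hX : Good (evB p le_rfl) n₀ r X) (a b : A) :
    wp X.1 (w (a * b)) = wp X.1 (w a) * wp X.1 (w b) := by
  obtain ⟨x, y, z, hx, hy, hz, ex, ey, ez, hf⟩ := hw.free a b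
  have l1 := (hw.h1 a).2.1
  have l2 := (hw.h1 b).2.1
  have l3 := (hw.h1 (a * b)).2.1
  rw [← pos_eq hX (by omega) ex, ← pos_eq hX (by omega) ey, ← pos_eq hX (by omega) ez]
  exact (hf _ X.1).symm

lemma pos_comm (hw : WS p r A w) (hX : Good (evB p le_rfl) n₀ r X) (a : A) (l : AL p) :
    Commute (wp X.1 (w a)) (X.1 l) :=
  pos_central hX (hw.h1 a).2.1 (fun _ => Wg_central p _ (hw.h1 a).2.2 _) l

lemma pos_kw (hX : Good (evB p le_rfl) n₀ r X) (x : ℤ) (u : Wd (AL p)) :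
    Commute (X.2 ^ x) (wp X.1 u) :=
  (pos_comm_wp (fun l => hX.1 l) u).zpow_left x

/-- the central subgroup, as the range of a homomorphism -/
def posφ (hw : WS p r A w) (hX : Good (evB p le_rfl) n₀ r X) :
    A × Multiplicative ℤ →* Equiv.Perm V :=
  MonoidHom.mk' (fun a => X.2 ^ (Multiplicative.toAdd a.2) * wp X.1 (w a.1)) (by
    rintro ⟨a, x⟩ ⟨b, y⟩
    change X.2 ^ (Multiplicative.toAdd x + Multiplicative.toAdd y) * wp X.1 (w (a * b)) = _
    rw [pos_mul hw hX, zpow_add, mul_assoc, mul_assoc, ← mul_assoc (X.2 ^ _) (wp X.1 (w a)),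
      (pos_kw hX _ (w a)).eq, mul_assoc])

lemma mem_posφ (hw : WS p r A w) (hX : Good (evB p le_rfl) n₀ r X) {z : Equiv.Perm V} :
    z ∈ (posφ hw hX).range ↔ ∃ (a : A) (x : ℤ), z = X.2 ^ x * wp X.1 (w a) := by
  rw [MonoidHom.mem_range]
  constructor
  · rintro ⟨⟨a, x⟩, rfl⟩
    exact ⟨a, Multiplicative.toAdd x, rfl⟩
  · rintro ⟨a, x, rfl⟩
    exact ⟨(a, Multiplicative.ofAdd x), rfl⟩

lemma pos_one (hw : WS p r A w) {a : A} (h : wp (evB p le_rfl) (w a) = 1) : a = 1 := by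
  apply hw.inj
  have h1 := hw.mul 1 1
  rw [mul_one] at h1
  have h2 : wp (evB p le_rfl) (w 1) = 1 := left_eq_mul.1 h1
  exact h.trans h2.symm

lemma pos_w_one (hw : WS p r A w) : wp (evB p le_rfl) (w 1) = 1 := by
  have h1 := hw.mul 1 1
  rw [mul_one] at h1
  exact left_eq_mul.1 h1

lemma pos_free (hw : WS p r A w) (hX : Good (evB p le_rfl) n₀ r X) (z : Equiv.Perm V)
    (hz : z ∈ (posφ hw hX).range) (q : V) (hq : z q = q) : z = 1 := by
  obtain ⟨a, x, rfl⟩ := (mem_posφ hw hX).1 hz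
  have l1 := (hw.h1 a).2.1
  have h1 := (hX.2 (w a) (by omega) x q).1 hq
  have h2 := pos_eq hX (u := w a) (v := []) (by simp only [List.length_nil]; omega)
    (by rw [h1.1, wp_nil])
  rw [h2, wp_nil, mul_one]
  apply Equiv.ext
  intro q'
  rw [(pos_kappa hX x q').2 h1.2]
  rfl

lemma pos_kappa_mem (hw : WS p r A w) (hX : Good (evB p le_rfl) n₀ r X) :
    X.2 ∈ (posφ hw hX).range := by
  refine (mem_posφ hw hX).2 ⟨1, 1, ?_⟩
  have l1 := (hw.h1 1).2.1
  have h2 := pos_eq hX (u := w 1) (v := []) (by simp only [List.length_nil]; omega)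
    (by rw [pos_w_one hw, wp_nil])
  rw [h2, wp_nil, mul_one, zpow_one]

lemma pos_card (hw : WS p r A w) (hX : Good (evB p le_rfl) n₀ r X) [Fintype A] (hn₀ : 0 < n₀) :
    Nat.card (posφ hw hX).range ≤ Fintype.card A * n₀ := by
  have hmod : ∀ x : ℤ, X.2 ^ x = X.2 ^ (x % n₀) := by
    intro x
    have h1 : X.2 ^ ((n₀ : ℤ) * (x / n₀)) = 1 := by
      apply Equiv.ext
      intro q
      rw [(pos_kappa hX _ q).2 (dvd_mul_right _ _)]
      rfl
    conv_lhs => rw [← Int.emod_add_mul_ediv x n₀, zpow_add, h1, mul_one]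
  let g : A × Fin n₀ → (posφ hw hX).range := fun a =>
    ⟨X.2 ^ ((a.2 : ℕ) : ℤ) * wp X.1 (w a.1), (mem_posφ hw hX).2 ⟨a.1, _, rfl⟩⟩
  have hg : Function.Surjective g := by
    rintro ⟨z, hz⟩
    obtain ⟨a, x, rfl⟩ := (mem_posφ hw hX).1 hz
    have h0 : (0 : ℤ) < n₀ := by exact_mod_cast hn₀
    have h1 := Int.emod_nonneg x h0.ne'
    have h2 := Int.emod_lt_of_pos x h0
    refine ⟨(a, ⟨(x % n₀).toNat, by omega⟩), ?_⟩
    apply Subtype.ext
    change X.2 ^ (((x % n₀).toNat : ℕ) : ℤ) * wp X.1 (w a) = X.2 ^ x * wp X.1 (w a)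
    rw [hmod x, Int.toNat_of_nonneg h1]
  have h3 := Nat.card_le_card_of_surjective g hg
  rwa [Nat.card_prod, Nat.card_eq_fintype_card (α := A), Nat.card_eq_fintype_card (α := Fin n₀),
    Fintype.card_fin] at h3

lemma pos_abel (hw : WS p r A w) (hX : Good (evB p le_rfl) n₀ r X) :
    ∀ z ∈ (posφ hw hX).range, ∀ z' ∈ (posφ hw hX).range, Commute z z' := by
  rintro _ ⟨a, rfl⟩ _ ⟨b, rfl⟩
  change posφ hw hX a * posφ hw hX b = posφ hw hX b * posφ hw hX a
  rw [← map_mul, ← map_mul, mul_comm]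

lemma pos_comm_range (hw : WS p r A w) (hX : Good (evB p le_rfl) n₀ r X) :
    ∀ z ∈ (posφ hw hX).range, ∀ l, Commute z (X.1 l) := by
  intro z hz l
  obtain ⟨a, x, rfl⟩ := (mem_posφ hw hX).1 hz
  exact ((hX.1 l).zpow_left x).mul_left (pos_comm hw hX a l)

end ws

/-- the orbit relation -/
def posSetoid {V : Type} (Z : Subgroup (Equiv.Perm V)) : Setoid V where
  r p q := ∃ z ∈ Z, z p = q
  iseqv := by
    refine ⟨fun p => ⟨1, Z.one_mem, rfl⟩, ?_, ?_⟩
    · rintro p q ⟨z, hz, rfl⟩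
      exact ⟨z⁻¹, Z.inv_mem hz, by simp⟩
    · rintro p q q' ⟨z, hz, rfl⟩ ⟨z', hz', rfl⟩
      exact ⟨z' * z, Z.mul_mem hz' hz, rfl⟩

lemma pos_mk_wp {B V Q : Type} {τ : B → Equiv.Perm V} {τ' : B → Equiv.Perm Q} {mk : V → Q}
    (h : ∀ b p, τ' b (mk p) = mk (τ b p)) (u : Wd B) (p : V) :
    wp τ' u (mk p) = mk (wp τ u p) := by
  induction u with
  | nil => rfl
  | cons s u ih =>
    rw [wp_cons, wp_cons, Equiv.Perm.mul_apply, Equiv.Perm.mul_apply, ih]
    rcases s with ⟨b, ε⟩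
    cases ε
    · rw [lv_false, lv_false, Equiv.Perm.inv_eq_iff_eq, h]
      simp
    · rw [lv_true, lv_true, h]

theorem pos_fiber (p : ℕ) [BP p] {r : ℕ} (hr : 1 ≤ r) {A : Type} [CommGroup A] [Fintype A]
    {w : A → Wd (AL p)} (hw : WS p r A w) {n₀ : ℕ} (hn₀ : 0 < n₀) {c : ℝ} {M₀ : ℕ}
    (hc : 0 < c)
    (hcount : ∀ (X : Type) [Fintype X] [DecidableEq X], M₀ ≤ Fintype.card X →
      ∀ ρ : (Fin 2 × Fin p) → Equiv.Perm X, c * ((Fintype.card X).factorial : ℝ) ^ 2 ≤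
        ({τ : Fin 2 → Equiv.Perm X | NoLin (Sum.elim ρ τ) (2 * r + 1)}.ncard : ℝ))
    {ε : ℝ} (hε : 0 < ε) {V : Type} [Fintype V] [DecidableEq V] {M₁ : ℕ}
    (hM : Fintype.card A * n₀ * M₁ ≤ Fintype.card V) (h0 : M₀ ≤ M₁) (h1 : 1 ≤ M₁)
    (h3 : 3 ≤ ε * c * M₁) (ρ : Fin 2 × Fin p → Equiv.Perm V) (κ : Equiv.Perm V) :
    ({τ : Fin 2 → Equiv.Perm V | Good (evB p le_rfl) n₀ r (Sum.elim ρ τ, κ) ∧
        ¬ Trans (Sum.elim ρ τ, κ)}.ncard : ℝ) ≤
      ε * ({τ : Fin 2 → Equiv.Perm V |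
        Good (evB p le_rfl) n₀ r (Sum.elim ρ τ, κ)}.ncard : ℝ) := by
  classical
  by_cases hne : ∃ τ₀ : Fin 2 → Equiv.Perm V, Good (evB p le_rfl) n₀ r (Sum.elim ρ τ₀, κ)
  swap
  · have he : {τ : Fin 2 → Equiv.Perm V | Good (evB p le_rfl) n₀ r (Sum.elim ρ τ, κ) ∧
        ¬ Trans (Sum.elim ρ τ, κ)} = ∅ := by
      rw [Set.eq_empty_iff_forall_notMem]
      exact fun τ hτ => hne ⟨τ, hτ.1⟩
    rw [he, Set.ncard_empty, Nat.cast_zero]
    positivity
  obtain ⟨τ₀, hX⟩ := hne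
  set X : LS (AL p) V := (Sum.elim ρ τ₀, κ) with hXdef
  set Z := (posφ hw hX).range with hZdef
  have hfree : ∀ z ∈ Z, ∀ q, z q = q → z = 1 := pos_free hw hX
  have hmemZ : ∀ z, z ∈ Z ↔ ∃ (a : A) (x : ℤ), z = κ ^ x * wp X.1 (w a) :=
    fun z => mem_posφ hw hX
  let Q := Quotient (posSetoid Z)
  let _ : Fintype Q := Fintype.ofFinite Q
  let mk : V → Q := Quotient.mk (posSetoid Z)
  have hs : Function.Surjective mk := fun q => Quotient.exists_rep q
  have hmk : ∀ q q', mk q = mk q' ↔ ∃ z ∈ Z, z q = q' := fun q q' => Quotient.eq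
  have hcV := cent_card Z hfree mk hs hmk
  have hcZ : Nat.card Z ≤ Fintype.card A * n₀ := pos_card hw hX hn₀
  have hAn : 0 < Fintype.card A * n₀ := Nat.mul_pos Fintype.card_pos hn₀
  set M := Fintype.card Q with hMdef
  have hMM : M₁ ≤ M := by
    have h4 : Fintype.card A * n₀ * M₁ ≤ Fintype.card A * n₀ * M :=
      hM.trans (hcV.le.trans (Nat.mul_le_mul_right _ hcZ))
    exact Nat.le_of_mul_le_mul_left h4 hAn
  have hQne : Nonempty Q := Fintype.card_pos_iff.1 (by omega)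
  -- the lamp letters on the quotient
  have hρc : ∀ a, ∀ z ∈ Z, Commute z (ρ a) := fun a z hz => pos_comm_range hw hX z hz (Sum.inl a)
  have hρ : ∀ a, ∃ τ' : Equiv.Perm Q, ∀ q, τ' (mk q) = mk (ρ a q) := fun a =>
    cent_induced Z mk hs hmk (ρ a) (hρc a)
  choose ρ' hρ' using hρ
  -- other free letters over the same lamp letters
  have hcongr : ∀ (τ : Fin 2 → Equiv.Perm V) {u : Wd (AL p)}, IsH u →
      wp (Sum.elim ρ τ : AL p → Equiv.Perm V) u = wp X.1 u := fun τ u hu =>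
    pos_wp_congr (f := Sum.elim ρ τ) (f' := X.1) (fun a => rfl) hu
  have hcong2 : ∀ (τ : Fin 2 → Equiv.Perm V), Good (evB p le_rfl) n₀ r (Sum.elim ρ τ, κ) →
      ∀ z ∈ Z, ∀ l, Commute z ((Sum.elim ρ τ : AL p → Equiv.Perm V) l) := by
    intro τ hτ z hz l
    obtain ⟨a, x, rfl⟩ := (hmemZ z).1 hz
    rw [← hcongr τ (hw.h1 a).1]
    exact ((hτ.1 l).zpow_left x).mul_left (pos_comm hw hτ a l)
  -- bad structures
  have hbad : {τ : Fin 2 → Equiv.Perm V | Good (evB p le_rfl) n₀ r (Sum.elim ρ τ, κ) ∧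
        ¬ Trans (Sum.elim ρ τ, κ)} ⊆
      {τ : Fin 2 → Equiv.Perm V | (∀ b, ∀ z ∈ Z, Commute z (τ b)) ∧
        ∃ τ' ∈ {τ : Fin 2 → Equiv.Perm Q | ¬ ∀ x y, ∃ u : Wd (Fin 2), wp τ u x = y},
          ∀ b q, τ' b (mk q) = mk (τ b q)} := by
    rintro τ ⟨hτ, hnt⟩
    have hcτ : ∀ b, ∀ z ∈ Z, Commute z (τ b) := fun b z hz => hcong2 τ hτ z hz (Sum.inr b)
    have hi : ∀ b, ∃ τ' : Equiv.Perm Q, ∀ q, τ' (mk q) = mk (τ b q) := fun b =>
      cent_induced Z mk hs hmk (τ b) (hcτ b)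
    choose τ' hτ' using hi
    refine ⟨hcτ, τ', fun htr => hnt ?_, hτ'⟩
    intro q q'
    obtain ⟨u, hu⟩ := htr (mk q) (mk q')
    rw [pos_mk_wp hτ' u q] at hu
    obtain ⟨z, hz, hzq⟩ := (hmk _ _).1 hu
    obtain ⟨a, x, rfl⟩ := (hmemZ z).1 hz
    refine ⟨w a ++ wmap Sum.inr u, x, ?_⟩
    rw [wp_append, wp_wmap]
    rw [← hcongr τ (hw.h1 a).1] at hzq
    exact hzq
  -- good structures
  have hgood : {τ : Fin 2 → Equiv.Perm V | (∀ b, ∀ z ∈ Z, Commute z (τ b)) ∧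
        ∃ τ' ∈ {τ : Fin 2 → Equiv.Perm Q | NoLin (Sum.elim ρ' τ) (2 * r + 1)},
          ∀ b q, τ' b (mk q) = mk (τ b q)} ⊆
      {τ : Fin 2 → Equiv.Perm V | Good (evB p le_rfl) n₀ r (Sum.elim ρ τ, κ)} := by
    rintro τ ⟨hcτ, τ', hNL, hτ'⟩
    refine claimA (evB p le_rfl) (Wg p) n₀ r hr (fun w hw l => Wg_central p w hw _)
      (fun v _ hv hW => gam_gap p le_rfl v hv hW) (Sum.elim ρ τ, κ) Z hfree
      (pos_kappa_mem hw hX) ?_ (pos_abel hw hX) mk hmk (Sum.elim ρ' τ') ?_ hNL ?_ ?_ ?_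
    · rintro z hz (a | b)
      · exact hρc a z hz
      · exact hcτ b z hz
    · rintro (a | b) q
      · exact hρ' a q
      · exact hτ' b q
    · intro u hu hlen x q
      change (κ ^ x) (wp (Sum.elim ρ τ : AL p → Equiv.Perm V) u q) = q ↔ _
      rw [hcongr τ hu]
      exact hX.2 u hlen x q
    · rintro g hg hlen q ⟨z, hz, hgz⟩
      change wp (Sum.elim ρ τ : AL p → Equiv.Perm V) g q = z q at hgz
      rw [hcongr τ hg] at hgz
      obtain ⟨a, x, rfl⟩ := (hmemZ z).1 hz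
      have l1 := (hw.h1 a).2.1
      have h4 := (hX.2 (winv (w a) ++ g) (by
        rw [List.length_append, length_winv]; omega) (-x) q).1 (by
          rw [wp_append, wp_winv, Equiv.Perm.mul_apply, hgz, zpow_neg, Equiv.Perm.inv_eq_iff_eq,
            Equiv.Perm.inv_eq_iff_eq]
          have h5 := (pos_kw hX x (w a)).eq
          exact congrArg (fun σ : Equiv.Perm V => σ q) h5)
      have h6 := h4.1
      rw [wp_append, wp_winv, inv_mul_eq_one] at h6
      rw [← h6]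
      exact (hw.h1 a).2.2
    · intro g hg hlen hW
      change wp (Sum.elim ρ τ : AL p → Equiv.Perm V) g ∈ Z
      rw [hcongr τ hg]
      obtain ⟨a, ha⟩ := hw.compl g hg hlen hW
      have l1 := (hw.h1 a).2.1
      rw [pos_eq hX (by omega) ha]
      exact (hmemZ _).2 ⟨a, 0, by rw [zpow_zero, one_mul]⟩
  -- the numbers
  have n1 := Set.ncard_le_ncard hbad (Set.toFinite _)
  have n2 := Set.ncard_le_ncard hgood (Set.toFinite _)
  rw [cent_count Z hfree mk hs hmk, Fintype.card_fin] at n1 n2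
  have n3 := intransitive_count Q
  have n4 := hcount Q (h0.trans hMM) ρ'
  rw [← hMdef] at n1 n2 n3 n4
  set z2 := Nat.card Z ^ (2 * M) with hz2
  have n1' : ({τ : Fin 2 → Equiv.Perm V | Good (evB p le_rfl) n₀ r (Sum.elim ρ τ, κ) ∧
      ¬ Trans (Sum.elim ρ τ, κ)}.ncard : ℝ) ≤
      ({τ : Fin 2 → Equiv.Perm Q | ¬ ∀ x y, ∃ u : Wd (Fin 2), wp τ u x = y}.ncard : ℝ) * z2 := by
    exact_mod_cast n1
  have n2' : ({τ : Fin 2 → Equiv.Perm Q | NoLin (Sum.elim ρ' τ) (2 * r + 1)}.ncard : ℝ) * z2 ≤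
      ({τ : Fin 2 → Equiv.Perm V |
        Good (evB p le_rfl) n₀ r (Sum.elim ρ τ, κ)}.ncard : ℝ) := by
    exact_mod_cast n2
  refine n1'.trans ?_
  refine le_trans ?_ (mul_le_mul_of_nonneg_left n2' hε.le)
  rw [← mul_assoc]
  refine mul_le_mul_of_nonneg_right ?_ (Nat.cast_nonneg _)
  refine n3.trans ?_
  refine le_trans ?_ (mul_le_mul_of_nonneg_left n4 hε.le)
  rw [← mul_assoc]
  refine mul_le_mul_of_nonneg_right ?_ (by positivity)
  have hM0 : (0 : ℝ) < M := by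
    have : 0 < M := by omega
    exact_mod_cast this
  rw [div_le_iff₀ hM0]
  have h5 : (M₁ : ℝ) ≤ M := by exact_mod_cast hMM
  have h6 : 0 < ε * c := mul_pos hε hc
  nlinarith

lemma pos_sum {I T X : Type} [Fintype I] [Finite T] (E : X ≃ I × T) (S : Set X) :
    S.ncard = ∑ i, {t | E.symm (i, t) ∈ S}.ncard := by
  let F : S ≃ Σ i, {t | E.symm (i, t) ∈ S} :=
    { toFun := fun x => ⟨(E x.1).1, (E x.1).2, by
        change E.symm ((E x.1).1, (E x.1).2) ∈ S
        rw [Prod.mk.eta, Equiv.symm_apply_apply]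
        exact x.2⟩
      invFun := fun y => ⟨E.symm (y.1, y.2.1), y.2.2⟩
      left_inv := fun x => Subtype.ext (by
        change E.symm ((E x.1).1, (E x.1).2) = x.1
        rw [Prod.mk.eta, Equiv.symm_apply_apply])
      right_inv := by
        rintro ⟨i, t, ht⟩
        have h1 : E (E.symm (i, t)) = (i, t) := E.apply_symm_apply _
        change (⟨(E (E.symm (i, t))).1, (E (E.symm (i, t))).2, _⟩ :
          Σ i, {t | E.symm (i, t) ∈ S}) = ⟨i, t, ht⟩
        congr 1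
        · rw [h1]
        · congr 1
          · rw [h1]
          · rw [h1]
          · exact proof_irrel_heq _ _ }
  rw [← Nat.card_coe_set_eq, Nat.card_congr F, Nat.card_sigma]
  rfl

/-- splitting off the free letters -/
def posE {B : ℕ} (V : Type) : LS (AL B) V ≃
    ((Fin 2 × Fin B → Equiv.Perm V) × Equiv.Perm V) × (Fin 2 → Equiv.Perm V) where
  toFun X := ((fun a => X.1 (Sum.inl a), X.2), fun b => X.1 (Sum.inr b))
  invFun y := (Sum.elim y.1.1 y.2, y.1.2)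
  left_inv X := Prod.ext (funext fun l => by rcases l with a | b <;> rfl) rfl
  right_inv y := rfl

end pos

theorem positive (p : ℕ) [BP p] (r : ℕ) (hr : 8 * (lev p 0).D + 1 ≤ r) (ε : ℝ) (hε : 0 < ε) :
    ∀ᶠ n in atTop,
      ({X : LS (AL p) (Fin n) | Good (evB p le_rfl) (p ^ 3) r X ∧ ¬ Trans X}.ncard : ℝ) ≤
        ε * ({X : LS (AL p) (Fin n) | Good (evB p le_rfl) (p ^ 3) r X}.ncard : ℝ) := by
  obtain ⟨A, i1, i2, w, w1, w2, w3, w4, w5⟩ := wsys p r hr
  have hw : WS p r A w := ⟨w1, w2, w3, w4, w5⟩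
  obtain ⟨c, hc, M₀, hcount⟩ := noLin_count (Fin 2 × Fin p) (Fin 2) (2 * r + 1)
  have hp : 0 < p ^ 3 := Nat.pow_pos (BP.pr (p := p)).pos
  set M₁ := max M₀ (max 1 ⌈3 / (ε * c)⌉₊) with hM₁
  have h6 : 0 < ε * c := mul_pos hε hc
  have h3 : 3 ≤ ε * c * M₁ := by
    have h4 : 3 / (ε * c) ≤ M₁ := by
      refine (Nat.le_ceil _).trans ?_
      have : ⌈3 / (ε * c)⌉₊ ≤ M₁ := (le_max_right _ _).trans (le_max_right _ _)
      exact_mod_cast this
    rw [div_le_iff₀ h6] at h4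
    linarith
  filter_upwards [eventually_ge_atTop (Fintype.card A * p ^ 3 * M₁)] with n hn
  rw [pos_sum (posE (Fin n)), pos_sum (posE (Fin n)) {X | Good (evB p le_rfl) (p ^ 3) r X}]
  push_cast
  rw [Finset.mul_sum]
  refine Finset.sum_le_sum ?_
  rintro ⟨ρ, κ⟩ _
  refine pos_fiber p (by omega) hw hp hc (M₀ := M₀) (fun X _ _ hX ρ => ?_) hε (M₁ := M₁)
    (by rw [Fintype.card_fin]; exact hn) (le_max_left _ _)
    ((le_max_left _ _).trans (le_max_right _ _)) h3 ρ κ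
  have := hcount X hX ρ
  rwa [Fintype.card_fin] at this

end Pool.Agent.Helper55.LF
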