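import Mathlib
import Pool.Agent.Helper55.LF.Defs

/-! MP_f7aca4_co, modules M4a and M4c (file TrAC): balls of the coded Cayley graph and of the graph
of a good labelled structure. Author: helper96. Self-contained (needs only Defs). -/

namespace Pool.Agent.Helper55.LF

namespace TrAC

/-! ### balls -/

section balls
variable {V : Type*} {G : SimpleGraph V}

lemma ball_mono {v : V} {r r' : ℕ} (h : r ≤ r') : ball G v r ⊆ ball G v r' := by
  rintro w ⟨p, hp⟩; exact ⟨p, hp.trans h⟩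

lemma self_mem_ball (v : V) (r : ℕ) : v ∈ ball G v r := ⟨SimpleGraph.Walk.nil, by simp⟩

lemma ball_adj {v w w' : V} {r : ℕ} (h : w ∈ ball G v r) (ha : G.Adj w w') :
    w' ∈ ball G v (r + 1) := by
  obtain ⟨p, hp⟩ := h
  exact ⟨p.concat ha, by rw [SimpleGraph.Walk.length_concat]; omega⟩

lemma mem_ball_zero {v w : V} : w ∈ ball G v 0 ↔ w = v := by
  constructor
  · rintro ⟨p, hp⟩
    exact (SimpleGraph.Walk.eq_of_length_eq_zero (Nat.le_zero.mp hp)).symm
  · rintro rfl; exact self_mem_ball _ _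

lemma mem_ball_succ {v w : V} {r : ℕ} : w ∈ ball G v (r + 1) ↔
    w ∈ ball G v r ∨ ∃ w' ∈ ball G v r, G.Adj w' w := by
  constructor
  · rintro ⟨p, hp⟩
    obtain ⟨q, hq⟩ : ∃ q : G.Walk w v, q.length ≤ r + 1 := ⟨p.reverse, by simpa using hp⟩
    cases q with
    | nil => exact Or.inl (self_mem_ball _ _)
    | cons h q' =>
      right
      rw [SimpleGraph.Walk.length_cons] at hq
      exact ⟨_, ⟨q'.reverse, by rw [SimpleGraph.Walk.length_reverse]; omega⟩, h.symm⟩
  · rintro (h | ⟨w', h, ha⟩)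
    · exact ball_mono (Nat.le_succ r) h
    · exact ball_adj h ha

end balls

/-! ### patterns with the trivial letter -/

section pats
variable {Λ : Type*}

/-- patterns for letters together with the trivial letter -/
def opat (k : Λ → ℕ) (N : ℕ) : Option (Λ × Bool) → Set (ZMod N)
  | none => {x | x = 0 ∨ x = 1 ∨ x = -1}
  | some s => pat k N s

/-- the permutation of a letter or of the trivial letter -/
def ol {G : Type*} [Group G] (f : Λ → G) : Option (Λ × Bool) → G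
  | none => 1
  | some s => lv f s

/-- the word of a letter or of the trivial letter -/
def ow : Option (Λ × Bool) → Wd Λ
  | none => []
  | some s => [s]

lemma wp_ow {G : Type*} [Group G] (f : Λ → G) (s : Option (Λ × Bool)) : wp f (ow s) = ol f s := by
  cases s <;> simp [ow, ol]

lemma length_ow (s : Option (Λ × Bool)) : (ow s).length ≤ 1 := by
  cases s <;> simp [ow]

lemma opat_ncard {k : Λ → ℕ} {N K : ℕ} (hN : 0 < N) (hK : ∀ l, k l < K) (hK3 : 0 < K)
    (s : Option (Λ × Bool)) : (opat k N s).ncard ≤ K + 3 := by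
  classical
  have : NeZero N := ⟨hN.ne'⟩
  cases s with
  | none =>
    have : opat k N (none : Option (Λ × Bool)) ⊆
        (({0, 1, -1} : Finset (ZMod N)) : Set (ZMod N)) := by
      intro x hx
      simpa [opat] using hx
    refine (Set.ncard_le_ncard this (Finset.finite_toSet _)).trans ?_
    rw [Set.ncard_coe_finset]
    refine (Finset.card_le_three).trans ?_
    omega
  | some s =>
    have : opat k N (some s) ⊆
        (((Finset.range (k s.1 + 4)).image (fun i : ℕ => if s.2 then (i : ZMod N) else -i) :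
          Finset (ZMod N)) : Set (ZMod N)) := by
      rintro x ⟨i, hi, hx⟩
      rw [Finset.coe_image, Set.mem_image]
      refine ⟨i, ?_, hx.symm⟩
      simp only [Finset.coe_range, Set.mem_Iio]
      omega
    refine (Set.ncard_le_ncard this (Finset.finite_toSet _)).trans ?_
    rw [Set.ncard_coe_finset]
    refine Finset.card_image_le.trans ?_
    rw [Finset.card_range]
    have := hK s.1
    omega

/-- every integer is a sum of two integers outside two given patterns -/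
lemma two_split {k : Λ → ℕ} {N K : ℕ} (hK : ∀ l, k l < K) (hK3 : 0 < K) (hN : 2 * (K + 3) < N)
    (s t : Option (Λ × Bool)) (c : ℤ) :
    ∃ a b : ℤ, (a : ZMod N) ∉ opat k N s ∧ (b : ZMod N) ∉ opat k N t ∧ a + b = c := by
  classical
  have : NeZero N := ⟨by omega⟩
  have h1 := opat_ncard (k := k) (N := N) (by omega) hK hK3 s
  have h2 := opat_ncard (k := k) (N := N) (by omega) hK hK3 t
  have h3 : ((fun a : ZMod N => (c : ZMod N) - a) '' opat k N t).ncard ≤ K + 3 :=
    (Set.ncard_image_le (Set.toFinite _)).trans h2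
  have h4 : (opat k N s ∪ (fun a : ZMod N => (c : ZMod N) - a) '' opat k N t).ncard < N :=
    lt_of_le_of_lt (Set.ncard_union_le _ _) (by omega)
  have h5 : ∃ a : ZMod N, a ∉ opat k N s ∪ (fun a : ZMod N => (c : ZMod N) - a) '' opat k N t := by
    by_contra hcon
    push Not at hcon
    have h6 : opat k N s ∪ (fun a : ZMod N => (c : ZMod N) - a) '' opat k N t = Set.univ :=
      Set.eq_univ_of_forall hcon
    rw [h6, Set.ncard_univ, Nat.card_eq_fintype_card, ZMod.card] at h4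
    exact lt_irrefl _ h4
  obtain ⟨a, ha⟩ := h5
  rw [Set.mem_union, not_or] at ha
  obtain ⟨x, hx⟩ := ZMod.intCast_surjective a
  refine ⟨x, c - x, by rw [hx]; exact ha.1, ?_, by ring⟩
  intro hb
  apply ha.2
  refine ⟨_, hb, ?_⟩
  simp only [Int.cast_sub, hx, sub_sub_cancel]

end pats

/-! ### adjacency in the graph of a labelled structure -/

section struct
variable {Λ V : Type*} (k : Λ → ℕ) (N : ℕ) (X : LS Λ V)

/-- the relation defining the graph of a labelled structure -/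
def Rel (p q : V) : Prop :=
  ∃ (s : Option (Λ × Bool)) (x : ℤ), (x : ZMod N) ∉ opat k N s ∧ q = (X.2 ^ x) (ol X.1 s p)

lemma graphOf_adj (p q : V) :
    (graphOf k N X).Adj p q ↔ p ≠ q ∧ (Rel k N X p q ∨ Rel k N X q p) := by
  have key : ∀ p q : V, ((∃ x : ℤ, (x : ZMod N) ≠ 0 ∧ (x : ZMod N) ≠ 1 ∧ (x : ZMod N) ≠ -1 ∧
      q = (X.2 ^ x) p) ∨ ∃ (s : Λ × Bool) (x : ℤ), (x : ZMod N) ∉ pat k N s ∧
      q = (X.2 ^ x) (lv X.1 s p)) ↔ Rel k N X p q := by
    intro p q
    constructor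
    · rintro (⟨x, h0, h1, h2, h3⟩ | ⟨s, x, h1, h2⟩)
      · exact ⟨none, x, by simp [opat, h0, h1, h2], by simpa [ol] using h3⟩
      · exact ⟨some s, x, h1, h2⟩
    · rintro ⟨s, x, h1, h2⟩
      cases s with
      | none =>
        left
        simp only [opat, Set.mem_ofPred_eq, not_or] at h1
        exact ⟨x, h1.1, h1.2.1, h1.2.2, by simpa [ol] using h2⟩
      | some s => exact Or.inr ⟨s, x, h1, h2⟩
  unfold graphOf
  rw [SimpleGraph.fromRel_adj, key, key]

variable {X}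

lemma zpow_comp {V : Type*} (f : Equiv.Perm V) (a b : ℤ) (p : V) :
    (f ^ a) ((f ^ b) p) = (f ^ (a + b)) p := by
  rw [← Equiv.Perm.mul_apply, ← zpow_add]

lemma comm_wp (hX : ∀ l, Commute X.2 (X.1 l)) (u : Wd Λ) : Commute X.2 (wp X.1 u) := by
  induction u with
  | nil => simp
  | cons s u ih =>
    rw [wp_cons]
    refine Commute.mul_right ?_ ih
    obtain ⟨l, b⟩ := s
    cases b
    · rw [lv_false]; exact (hX l).inv_right
    · rw [lv_true]; exact hX l

lemma comm_wp_zpow (hX : ∀ l, Commute X.2 (X.1 l)) (u : Wd Λ) (x : ℤ) (p : V) :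
    wp X.1 u ((X.2 ^ x) p) = (X.2 ^ x) (wp X.1 u p) := by
  have h := (comm_wp hX u).zpow_left x
  have := congrArg (fun f : Equiv.Perm V => f p) h.eq
  simpa [Equiv.Perm.mul_apply] using this.symm

lemma comm_ol_zpow (hX : ∀ l, Commute X.2 (X.1 l)) (s : Option (Λ × Bool)) (x : ℤ) (p : V) :
    ol X.1 s ((X.2 ^ x) p) = (X.2 ^ x) (ol X.1 s p) := by
  rw [← wp_ow]; exact comm_wp_zpow hX _ _ _

/-- the step relation is invertible up to the condition on patterns -/
lemma rel_inv (hX : ∀ l, Commute X.2 (X.1 l)) {s : Option (Λ × Bool)} {x : ℤ} {p q : V}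
    (h : q = (X.2 ^ x) (ol X.1 s p)) : p = (X.2 ^ (-x)) (wp X.1 (winv (ow s)) q) := by
  rw [h, comm_wp_zpow hX, ← Equiv.Perm.mul_apply, ← zpow_add, neg_add_cancel, zpow_zero,
    wp_winv, wp_ow]
  simp

variable {k N}

/-- the balls of the graph of a labelled structure -/
theorem mem_ball_graphOf {K : ℕ} (hK : ∀ l, k l < K) (hK3 : 0 < K) (hN : 2 * (K + 3) < N)
    (hX : ∀ l, Commute X.2 (X.1 l)) {r : ℕ} (hr : 2 ≤ r) (p z : V) :
    z ∈ ball (graphOf k N X) p r ↔
      ∃ (u : Wd Λ) (x : ℤ), u.length ≤ r ∧ z = (X.2 ^ x) (wp X.1 u p) := by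
  constructor
  · clear hr
    intro hz
    induction r generalizing z with
    | zero =>
      rw [mem_ball_zero] at hz
      exact ⟨[], 0, le_rfl, by simpa using hz⟩
    | succ r ih =>
      rcases mem_ball_succ.mp hz with hz | ⟨w, hw, hadj⟩
      · obtain ⟨u, x, hu, rfl⟩ := ih z hz
        exact ⟨u, x, by omega, rfl⟩
      · obtain ⟨u, x, hu, rfl⟩ := ih w hw
        have hstep : ∃ (v : Wd Λ) (y : ℤ), v.length ≤ 1 ∧
            z = (X.2 ^ y) (wp X.1 v ((X.2 ^ x) (wp X.1 u p))) := by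
          rcases ((graphOf_adj k N X _ _).mp hadj).2 with ⟨s, y, -, h2⟩ | ⟨s, y, -, h2⟩
          · exact ⟨ow s, y, length_ow s, by rw [wp_ow]; exact h2⟩
          · exact ⟨winv (ow s), -y, by rw [length_winv]; exact length_ow s, rel_inv hX h2⟩
        obtain ⟨v, y, hv, rfl⟩ := hstep
        refine ⟨v ++ u, y + x, by rw [List.length_append]; omega, ?_⟩
        rw [comm_wp_zpow hX, ← Equiv.Perm.mul_apply, ← zpow_add, wp_append, Equiv.Perm.mul_apply]
  · rintro ⟨u, x, hu, rfl⟩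
    have step : ∀ {r : ℕ} {w : V}, w ∈ ball (graphOf k N X) p r → ∀ (s : Option (Λ × Bool))
        (y : ℤ), (y : ZMod N) ∉ opat k N s →
        (X.2 ^ y) (ol X.1 s w) ∈ ball (graphOf k N X) p (r + 1) := by
      intro r w hw s y hy
      by_cases hne : w = (X.2 ^ y) (ol X.1 s w)
      · rw [← hne]; exact ball_mono (Nat.le_succ r) hw
      · exact ball_adj hw ((graphOf_adj k N X _ _).mpr ⟨hne, Or.inl ⟨s, y, hy, rfl⟩⟩)
    have two : ∀ (s t : Option (Λ × Bool)) (x : ℤ),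
        (X.2 ^ x) (ol X.1 s (ol X.1 t p)) ∈ ball (graphOf k N X) p 2 := by
      intro s t x
      obtain ⟨a, b, ha, hb, rfl⟩ := two_split hK hK3 hN s t x
      have h1 := step (step (self_mem_ball p 0) t b hb) s a ha
      rwa [comm_ol_zpow hX, ← Equiv.Perm.mul_apply, ← zpow_add] at h1
    induction r, hr using Nat.le_induction generalizing u x with
    | base =>
      match u, hu with
      | [], _ => simpa [ol] using two none none x
      | [s], _ => simpa [ol] using two none (some s) x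
      | [s, t], _ => simpa [ol] using two (some s) (some t) x
      | s :: t :: v :: w, h => simp at h
    | succ r hr ih =>
      match u, hu with
      | [], _ => exact ball_mono (Nat.le_succ r) (ih [] x (by simp))
      | s :: u, hu =>
        rw [List.length_cons, Nat.add_le_add_iff_right] at hu
        obtain ⟨a, b, ha, -, rfl⟩ := two_split hK hK3 hN (some s) none x
        have h1 := step (ih u b hu) (some s) a ha
        rw [comm_ol_zpow hX, ← Equiv.Perm.mul_apply, ← zpow_add] at h1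
        simpa [ol] using h1

end struct

/-! ### closings in good structures -/

section good
variable {Λ Γ V : Type*} [Group Γ] {e : Λ → Γ} {N r : ℕ} {X : LS Λ V}

lemma close_iff (hX : Good e N r X) {u v : Wd Λ} (h : u.length + v.length ≤ 2 * r + 1)
    (x y : ℤ) (p : V) :
    (X.2 ^ x) (wp X.1 u p) = (X.2 ^ y) (wp X.1 v p) ↔
      (wp e u = wp e v ∧ (N : ℤ) ∣ y - x) := by
  have h1 := hX.2 (winv u ++ v) (by rw [List.length_append, length_winv]; exact h) (y - x) p
  rw [wp_append, wp_append, wp_winv, wp_winv, inv_mul_eq_one] at h1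
  rw [← h1]
  have h2 : (X.2 ^ (y - x)) (((wp X.1 u)⁻¹ * wp X.1 v) p) =
      ((wp X.1 u)⁻¹ : Equiv.Perm V) ((X.2 ^ (y - x)) (wp X.1 v p)) := by
    rw [Equiv.Perm.mul_apply, ← wp_winv, comm_wp_zpow hX.1]
  rw [h2, Equiv.Perm.inv_eq_iff_eq]
  constructor
  · intro h
    have h3 : (X.2 ^ (-x)) ((X.2 ^ x) (wp X.1 u p)) = (X.2 ^ (-x)) ((X.2 ^ y) (wp X.1 v p)) := by
      rw [h]
    rw [zpow_comp, zpow_comp, neg_add_cancel, zpow_zero, Equiv.Perm.one_apply] at h3
    rw [h3]; congr 2; ring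
  · intro h
    rw [← h, zpow_comp]
    congr 2; ring

lemma rel_iff (k : Λ → ℕ) (hX : Good e N r X) {u v : Wd Λ} (hu : u.length ≤ r)
    (hv : v.length ≤ r) (x y : ℤ) (p : V) :
    Rel k N X ((X.2 ^ x) (wp X.1 u p)) ((X.2 ^ y) (wp X.1 v p)) ↔
      ∃ (s : Option (Λ × Bool)) (a : ℤ), (a : ZMod N) ∉ opat k N s ∧
        wp e v = ol e s * wp e u ∧ (N : ℤ) ∣ a + x - y := by
  unfold Rel
  refine exists_congr fun s => exists_congr fun a => and_congr_right fun _ => ?_
  have h1 : (X.2 ^ a) (ol X.1 s ((X.2 ^ x) (wp X.1 u p))) =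
      (X.2 ^ (a + x)) (wp X.1 (ow s ++ u) p) := by
    rw [comm_ol_zpow hX.1, zpow_comp, wp_append, wp_ow, Equiv.Perm.mul_apply]
  rw [h1, close_iff hX, wp_append, wp_ow]
  rw [List.length_append]
  have := length_ow s
  omega

/-- balls in the graphs of good structures are isomorphic -/
theorem good_iso {W : Type*} {k : Λ → ℕ} {K : ℕ} (hK : ∀ l, k l < K) (hK3 : 0 < K)
    (hN : 2 * (K + 3) < N) (hr : 2 ≤ r) {Y : LS Λ W} (hX : Good e N r X) (hY : Good e N r Y)
    (p : V) (q : W) :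
    ∃ ψ : V → W, BallIso (graphOf k N X) p (graphOf k N Y) q r ψ ∧
      ∀ (u : Wd Λ) (x : ℤ), u.length ≤ r →
        ψ ((X.2 ^ x) (wp X.1 u p)) = (Y.2 ^ x) (wp Y.1 u q) := by
  classical
  have hxy : ∀ {u v : Wd Λ}, u.length ≤ r → v.length ≤ r → ∀ x y : ℤ,
      ((X.2 ^ x) (wp X.1 u p) = (X.2 ^ y) (wp X.1 v p) ↔
        (Y.2 ^ x) (wp Y.1 u q) = (Y.2 ^ y) (wp Y.1 v q)) := by
    intro u v hu hv x y
    rw [close_iff hX (by omega), close_iff hY (by omega)]
  let ψ : V → W := fun z =>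
    if h : ∃ (u : Wd Λ) (x : ℤ), u.length ≤ r ∧ z = (X.2 ^ x) (wp X.1 u p) then
      (Y.2 ^ h.choose_spec.choose) (wp Y.1 h.choose q) else q
  have hψ : ∀ (u : Wd Λ) (x : ℤ), u.length ≤ r →
      ψ ((X.2 ^ x) (wp X.1 u p)) = (Y.2 ^ x) (wp Y.1 u q) := by
    intro u x hu
    have h : ∃ (v : Wd Λ) (y : ℤ), v.length ≤ r ∧
        (X.2 ^ x) (wp X.1 u p) = (X.2 ^ y) (wp X.1 v p) := ⟨u, x, hu, rfl⟩
    have h1 : ψ ((X.2 ^ x) (wp X.1 u p)) =
        (Y.2 ^ h.choose_spec.choose) (wp Y.1 h.choose q) := dif_pos h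
    rw [h1, eq_comm, ← hxy hu h.choose_spec.choose_spec.1]
    exact h.choose_spec.choose_spec.2
  refine ⟨ψ, ⟨?_, ⟨?_, ?_, ?_⟩, ?_⟩, hψ⟩
  · simpa using hψ [] 0 (by simp)
  · intro z hz
    obtain ⟨u, x, hu, rfl⟩ := (mem_ball_graphOf hK hK3 hN hX.1 hr p z).mp hz
    rw [hψ u x hu]
    exact (mem_ball_graphOf hK hK3 hN hY.1 hr q _).mpr ⟨u, x, hu, rfl⟩
  · intro z hz w hw hzw
    obtain ⟨u, x, hu, rfl⟩ := (mem_ball_graphOf hK hK3 hN hX.1 hr p z).mp hz
    obtain ⟨v, y, hv, rfl⟩ := (mem_ball_graphOf hK hK3 hN hX.1 hr p w).mp hw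
    rw [hψ u x hu, hψ v y hv] at hzw
    exact (hxy hu hv x y).mpr hzw
  · intro z hz
    obtain ⟨u, x, hu, rfl⟩ := (mem_ball_graphOf hK hK3 hN hY.1 hr q z).mp hz
    exact ⟨_, (mem_ball_graphOf hK hK3 hN hX.1 hr p _).mpr ⟨u, x, hu, rfl⟩, hψ u x hu⟩
  · intro z hz w hw
    obtain ⟨u, x, hu, rfl⟩ := (mem_ball_graphOf hK hK3 hN hX.1 hr p z).mp hz
    obtain ⟨v, y, hv, rfl⟩ := (mem_ball_graphOf hK hK3 hN hX.1 hr p w).mp hw
    rw [hψ u x hu, hψ v y hv, graphOf_adj, graphOf_adj, rel_iff k hX hu hv, rel_iff k hX hv hu,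
      rel_iff k hY hu hv, rel_iff k hY hv hu, ne_eq, ne_eq, hxy hu hv]

end good

/-! ### the regular structure -/

section reg
variable {Γ Λ : Type} [Group Γ] [Fintype Λ] (T : TData Γ Λ)

/-- the regular labelled structure -/
def Xreg : LS Λ (Γ × Multiplicative (ZMod T.n₀)) :=
  (fun l => Equiv.mulLeft (T.e l, 1), Equiv.mulLeft (1, Multiplicative.ofAdd 1))

lemma Xreg_zpow (x : ℤ) (z : Γ × Multiplicative (ZMod T.n₀)) :
    ((Xreg T).2 ^ x) z = (z.1, Multiplicative.ofAdd (x : ZMod T.n₀) * z.2) := by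
  have h : (Xreg T).2 ^ x = Equiv.mulLeft ((1, Multiplicative.ofAdd 1) ^ x :
      Γ × Multiplicative (ZMod T.n₀)) := by
    have := map_zpow (MulAction.toPermHom (Γ × Multiplicative (ZMod T.n₀))
      (Γ × Multiplicative (ZMod T.n₀))) (1, Multiplicative.ofAdd 1) x
    exact this.symm
  rw [h]
  simp only [Equiv.coe_mulLeft]
  ext
  · simp
  · simp [← ofAdd_zsmul]

lemma Xreg_lv (s : Λ × Bool) (z : Γ × Multiplicative (ZMod T.n₀)) :
    lv (Xreg T).1 s z = (lv T.e s * z.1, z.2) := by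
  obtain ⟨l, b⟩ := s
  cases b
  · rw [lv_false, lv_false, Equiv.Perm.inv_eq_iff_eq]
    ext <;> simp [Xreg]
  · ext <;> simp [Xreg]

lemma Xreg_wp (u : Wd Λ) (z : Γ × Multiplicative (ZMod T.n₀)) :
    wp (Xreg T).1 u z = (wp T.e u * z.1, z.2) := by
  induction u with
  | nil => simp
  | cons s u ih => rw [wp_cons, wp_cons, Equiv.Perm.mul_apply, ih, Xreg_lv, mul_assoc]

lemma Xreg_good (r : ℕ) : Good T.e T.n₀ r (Xreg T) := by
  constructor
  · intro l
    refine Equiv.ext fun z => ?_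
    ext <;> simp [Xreg]
  · intro u _ x z
    rw [Xreg_wp, Xreg_zpow, Prod.ext_iff]
    simp only [mul_eq_right]
    refine and_congr_right fun _ => ?_
    rw [← ZMod.intCast_zmod_eq_zero_iff_dvd, ofAdd_eq_one]

lemma F_eq : graphOf T.k T.n₀ (Xreg T) = T.F := by
  ext a b
  unfold graphOf TData.F cayL
  rw [SimpleGraph.fromRel_adj, SimpleGraph.fromRel_adj]
  have key : ∀ a b : Γ × Multiplicative (ZMod T.n₀),
      ((∃ x : ℤ, (x : ZMod T.n₀) ≠ 0 ∧ (x : ZMod T.n₀) ≠ 1 ∧ (x : ZMod T.n₀) ≠ -1 ∧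
      b = ((Xreg T).2 ^ x) a) ∨ ∃ (s : Λ × Bool) (x : ℤ), (x : ZMod T.n₀) ∉ pat T.k T.n₀ s ∧
      b = ((Xreg T).2 ^ x) (lv (Xreg T).1 s a)) ↔ b * a⁻¹ ∈ stil T.e T.k T.n₀ := by
    intro a b
    simp only [stil, Set.mem_ofPred_eq]
    refine or_congr ?_ (exists_congr fun s => ?_)
    · constructor
      · rintro ⟨x, h0, h1, h2, rfl⟩
        rw [Xreg_zpow]
        simpa using ⟨h0, h1, h2⟩
      · rintro ⟨h, h0, h1, h2⟩
        obtain ⟨x, hx⟩ := ZMod.intCast_surjective (Multiplicative.toAdd (b * a⁻¹).2)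
        refine ⟨x, by rwa [hx], by rwa [hx], by rwa [hx], ?_⟩
        rw [Xreg_zpow, hx]
        ext
        · simpa [mul_inv_eq_one] using h
        · simp
    · constructor
      · rintro ⟨x, h0, rfl⟩
        rw [Xreg_lv, Xreg_zpow]
        simpa using h0
      · rintro ⟨h, h0⟩
        obtain ⟨x, hx⟩ := ZMod.intCast_surjective (Multiplicative.toAdd (b * a⁻¹).2)
        refine ⟨x, by rwa [hx], ?_⟩
        rw [Xreg_lv, Xreg_zpow, hx]
        ext
        · simpa [mul_inv_eq_iff_eq_mul] using h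
        · simp
  rw [key, key]

include T in
lemma card_pos : 0 < Fintype.card Λ := Fintype.card_pos_iff.mpr T.ne

lemma n₀_ge : 2 * (Fintype.card Λ + 3) < T.n₀ := by
  have h1 := T.large
  have h2 := card_pos T
  nlinarith

end reg

end TrAC

section transfer
variable {Γ Λ : Type} [Group Γ] [Fintype Λ] (T : TData Γ Λ)

/-- M4a -/
theorem mem_ball_til {r : ℕ} (hr : 2 ≤ r) (z : Γ × Multiplicative (ZMod T.n₀)) :
    z ∈ ball T.F 1 r ↔ ∃ u : Wd Λ, u.length ≤ r ∧ wp T.e u = z.1 := by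
  rw [← TrAC.F_eq, TrAC.mem_ball_graphOf T.k_lt (TrAC.card_pos T) (TrAC.n₀_ge T)
    (TrAC.Xreg_good T 0).1 hr]
  constructor
  · rintro ⟨u, x, hu, rfl⟩
    refine ⟨u, hu, ?_⟩
    rw [TrAC.Xreg_wp, TrAC.Xreg_zpow]
    simp
  · rintro ⟨u, hu, h⟩
    obtain ⟨x, hx⟩ := ZMod.intCast_surjective (Multiplicative.toAdd z.2)
    refine ⟨u, x, hu, ?_⟩
    rw [TrAC.Xreg_wp, TrAC.Xreg_zpow, hx]
    ext
    · simpa using h.symm
    · simp

/-- M4c -/
theorem good_ball {V : Type} {r : ℕ} (hr : 2 ≤ r) (X : LS Λ V) (hX : Good T.e T.n₀ r X) (p : V) :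
    ∃ ψ : Γ × Multiplicative (ZMod T.n₀) → V, BallIso T.F 1 (graphOf T.k T.n₀ X) p r ψ ∧
      ∀ (u : Wd Λ) (x : ℤ), u.length ≤ r →
        ψ (wp T.e u, Multiplicative.ofAdd (x : ZMod T.n₀)) = (X.2 ^ x) (wp X.1 u p) := by
  obtain ⟨ψ, h1, h2⟩ := TrAC.good_iso T.k_lt (TrAC.card_pos T) (TrAC.n₀_ge T) hr
    (TrAC.Xreg_good T r) hX 1 p
  rw [TrAC.F_eq] at h1
  refine ⟨ψ, h1, fun u x hu => ?_⟩
  rw [← h2 u x hu, TrAC.Xreg_wp, TrAC.Xreg_zpow]
  simp

end transfer

end Pool.Agent.Helper55.LF
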