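import Mathlib
import Pool.Agent.Helper55.LF.Defs
import Pool.Agent.Helper55.LF.TrAC

/-! MP_f7aca4_co, module M4b (file TrB): pattern lemma, restriction of ball isomorphisms,
common neighbours, rigidity of the balls of the coded Cayley graph.
Author: helper12.
needs: mem_ball_til (M4a); add the import of the file with M4a (TrAC) when assembling. -/

namespace Pool.Agent.Helper55.LF

namespace TrB

section pattern
variable {Λ : Type*} {k : Λ → ℕ} {N : ℕ}

lemma mem_pat_true {l : Λ} {x : ZMod N} : x ∈ pat k N (l, true) ↔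
    ∃ i : ℕ, (i = 0 ∨ (2 ≤ i ∧ i ≤ k l + 3)) ∧ x = i := by
  simp [pat]

lemma mem_pat_false {l : Λ} {x : ZMod N} : x ∈ pat k N (l, false) ↔ -x ∈ pat k N (l, true) := by
  simp only [pat, Set.mem_ofPred_eq, if_true, Bool.false_eq_true, if_false]
  constructor
  · rintro ⟨i, hi, rfl⟩; exact ⟨i, hi, by simp⟩
  · rintro ⟨i, hi, h⟩; exact ⟨i, hi, by rw [← h, neg_neg]⟩

lemma mem_pat_not {s : Λ × Bool} {x : ZMod N} : x ∈ pat k N (s.1, !s.2) ↔ -x ∈ pat k N s := by
  obtain ⟨l, b⟩ := s
  cases b
  · simp only [Bool.not_false]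
    rw [mem_pat_false, neg_neg]
  · simp only [Bool.not_true]
    rw [mem_pat_false]

lemma natCast_mem_pat {l : Λ} (hN : k l + 3 < N) {a : ℕ} (ha : a < N) :
    ((a : ℕ) : ZMod N) ∈ pat k N (l, true) ↔ a = 0 ∨ (2 ≤ a ∧ a ≤ k l + 3) := by
  rw [mem_pat_true]
  constructor
  · rintro ⟨i, hi, h⟩
    have hi' : i < N := by omega
    rw [ZMod.natCast_eq_natCast_iff', Nat.mod_eq_of_lt ha, Nat.mod_eq_of_lt hi'] at h
    subst h; exact hi
  · intro h; exact ⟨a, h, rfl⟩

lemma zero_mem_pat (s : Λ × Bool) : (0 : ZMod N) ∈ pat k N s := by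
  refine ⟨0, Or.inl rfl, ?_⟩
  split_ifs <;> simp

lemma gap_true {l : Λ} (hN : k l + 6 ≤ N) {x : ZMod N} (h0 : x ∈ pat k N (l, true))
    (h1 : x + 1 ∉ pat k N (l, true)) (h2 : x + 2 ∈ pat k N (l, true)) : x = 0 := by
  obtain ⟨i, hi, rfl⟩ := mem_pat_true.mp h0
  rcases hi with rfl | ⟨hi1, hi2⟩
  · simp
  · exfalso
    have e1 : ((i : ZMod N) + 1) = ((i + 1 : ℕ) : ZMod N) := by push_cast; ring
    have e2 : ((i : ZMod N) + 2) = ((i + 2 : ℕ) : ZMod N) := by push_cast; ring
    rw [e1, natCast_mem_pat (by omega) (by omega)] at h1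
    rw [e2, natCast_mem_pat (by omega) (by omega)] at h2
    omega

lemma gap_false {l : Λ} (hN : k l + 6 ≤ N) {x : ZMod N} (h0 : x ∈ pat k N (l, false))
    (h1 : x + 1 ∉ pat k N (l, false)) (h2 : x + 2 ∈ pat k N (l, false)) : x = -2 := by
  rw [mem_pat_false] at h0 h1 h2
  obtain ⟨i, hi, hx⟩ := mem_pat_true.mp h0
  have hx' : x = -(i : ZMod N) := by rw [← hx, neg_neg]
  subst hx'
  by_cases h : 3 ≤ i
  · exfalso
    have e1 : -(-(i : ZMod N) + 1) = ((i - 1 : ℕ) : ZMod N) := by
      rw [Nat.cast_sub (by omega)]; push_cast; ring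
    rw [e1, natCast_mem_pat (by omega) (by omega)] at h1
    omega
  · have h2' : i = 0 ∨ i = 2 := by omega
    rcases h2' with rfl | rfl
    · exfalso
      have e2 : -(-((0 : ℕ) : ZMod N) + 2) = ((N - 2 : ℕ) : ZMod N) := by
        rw [Nat.cast_sub (by omega)]; simp
      rw [e2, natCast_mem_pat (by omega) (by omega)] at h2
      omega
    · norm_num

lemma one_notMem_pat (s : Λ × Bool) (hN : k s.1 + 6 ≤ N) : (1 : ZMod N) ∉ pat k N s := by
  obtain ⟨l, b⟩ := s
  cases b
  · rw [mem_pat_false]
    have e : (-1 : ZMod N) = ((N - 1 : ℕ) : ZMod N) := by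
      rw [Nat.cast_sub (by simp at hN; omega)]; simp
    rw [e, natCast_mem_pat (by simp at hN; omega) (by simp at hN; omega)]
    simp at hN
    omega
  · have e : (1 : ZMod N) = ((1 : ℕ) : ZMod N) := by simp
    rw [e, natCast_mem_pat (by simp at hN; omega) (by simp at hN; omega)]
    omega

/-- the canonical gap of a pattern -/
lemma gap_mem (s : Λ × Bool) (hN : k s.1 + 6 ≤ N) :
    ∃ x : ZMod N, x = (if s.2 then 0 else -2) ∧ x ∈ pat k N s ∧ x + 1 ∉ pat k N s ∧
      x + 2 ∈ pat k N s ∧ (x + 3 ∈ pat k N s ↔ s.2 = true) := by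
  obtain ⟨l, b⟩ := s
  simp only at hN
  cases b
  · refine ⟨-2, by simp, ?_, ?_, ?_, ?_⟩
    · rw [mem_pat_false]
      have e : (- -2 : ZMod N) = ((2 : ℕ) : ZMod N) := by simp
      rw [e, natCast_mem_pat (by omega) (by omega)]; omega
    · rw [mem_pat_false]
      have e : (-(-2 + 1) : ZMod N) = ((1 : ℕ) : ZMod N) := by push_cast; ring
      rw [e, natCast_mem_pat (by omega) (by omega)]; omega
    · rw [mem_pat_false]
      have e : (-(-2 + 2) : ZMod N) = ((0 : ℕ) : ZMod N) := by push_cast; ring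
      rw [e, natCast_mem_pat (by omega) (by omega)]; omega
    · have e : (-2 + 3 : ZMod N) = 1 := by ring
      rw [e]
      have := one_notMem_pat (k := k) (N := N) (l, false) hN
      simp [this]
  · refine ⟨0, by simp, zero_mem_pat _, ?_, ?_, ?_⟩
    · rw [zero_add]; exact one_notMem_pat _ hN
    · have e : (0 + 2 : ZMod N) = ((2 : ℕ) : ZMod N) := by push_cast; ring
      rw [e, natCast_mem_pat (by omega) (by omega)]; omega
    · have e : (0 + 3 : ZMod N) = ((3 : ℕ) : ZMod N) := by push_cast; ring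
      rw [e, natCast_mem_pat (by omega) (by omega)]; simp

/-- PATTERN LEMMA: a translate of a pattern is a pattern only trivially -/
theorem pattern_rigid (hinj : Function.Injective k) (hN : ∀ l, k l + 6 ≤ N) {s t : Λ × Bool}
    {c : ZMod N} (h : ∀ u, u ∈ pat k N s ↔ u + c ∈ pat k N t) : c = 0 ∧ s = t := by
  obtain ⟨x, hx, h0, h1, h2, h3⟩ := gap_mem (k := k) (N := N) s (hN _)
  have h0' := (h _).mp h0
  have h1' : x + c + 1 ∉ pat k N t := by
    rw [h] at h1
    rwa [show x + c + 1 = x + 1 + c by ring]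
  have h2' : x + c + 2 ∈ pat k N t := by
    rw [h] at h2
    rwa [show x + c + 2 = x + 2 + c by ring]
  obtain ⟨y, hy, g0, g1, g2, g3⟩ := gap_mem (k := k) (N := N) t (hN _)
  have hxy : x + c = y := by
    obtain ⟨l, b⟩ := t
    cases b
    · rw [gap_false (hN l) h0' h1' h2', hy]; simp
    · rw [gap_true (hN l) h0' h1' h2', hy]; simp
  have hb : s.2 = t.2 := by
    have h4 : (s.2 = true) ↔ (t.2 = true) := by
      rw [← h3, ← g3, h, ← hxy, show x + 3 + c = x + c + 3 by ring]
    cases hs : s.2 <;> cases ht : t.2 <;> simp_all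
  have hc : c = 0 := by
    rw [hx, hy, hb] at hxy
    simpa using hxy
  subst hc
  refine ⟨rfl, ?_⟩
  simp only [add_zero] at h
  obtain ⟨l, b⟩ := s
  obtain ⟨l', b'⟩ := t
  simp only at hb
  subst hb
  have key : ∀ u : ZMod N, u ∈ pat k N (l, true) ↔ u ∈ pat k N (l', true) := by
    intro u
    cases b
    · have := h (-u)
      rw [mem_pat_false, mem_pat_false, neg_neg] at this
      exact this
    · exact h u
  have k1 := key ((k l + 3 : ℕ) : ZMod N)
  have k2 := key ((k l' + 3 : ℕ) : ZMod N)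
  have hl := hN l
  have hl' := hN l'
  rw [natCast_mem_pat (by omega) (by omega), natCast_mem_pat (by omega) (by omega)] at k1 k2
  have : k l = k l' := by omega
  rw [hinj this]

/-- PATTERN LEMMA, reflected version -/
theorem pattern_rigid_neg (hinj : Function.Injective k) (hN : ∀ l, k l + 6 ≤ N) {s t : Λ × Bool}
    {c : ZMod N} (h : ∀ u, u ∈ pat k N s ↔ -u + c ∈ pat k N t) : c = 0 ∧ t = (s.1, !s.2) := by
  have := pattern_rigid (s := (s.1, !s.2)) (t := t) (c := c) hinj hN (by
    intro u
    rw [mem_pat_not, h, neg_neg])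
  exact ⟨this.1, this.2.symm⟩

/-- PATTERN LEMMA, the pattern `{0, 1, -1}` of the trivial letter is no translate of a pattern -/
theorem pattern_triple (hN : ∀ l, k l + 6 ≤ N) {t : Λ × Bool}
    {c : ZMod N} (h : ∀ u : ZMod N, (u = 0 ∨ u = 1 ∨ u = -1) ↔ u + c ∈ pat k N t) : False := by
  obtain ⟨y, hy, g0, g1, g2, g3⟩ := gap_mem (k := k) (N := N) t (hN _)
  have h6 : 6 ≤ N := by have := hN t.1; omega
  have a0 := (h (y - c)).mpr (by simpa using g0)
  have a1 := (not_congr (h (y - c + 1))).mpr (by rwa [show y - c + 1 + c = y + 1 by ring])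
  have a2 := (h (y - c + 2)).mpr (by rwa [show y - c + 2 + c = y + 2 by ring])
  have f1 : ∀ a b : ℕ, a < N → b < N → a ≠ b → (a : ZMod N) ≠ (b : ZMod N) := by
    intro a b ha hb hab h'
    rw [ZMod.natCast_eq_natCast_iff', Nat.mod_eq_of_lt ha, Nat.mod_eq_of_lt hb] at h'
    exact hab h'
  rcases a0 with a0 | a0 | a0
  · rw [a0] at a1; simp at a1
  · rw [a0] at a2
    rcases a2 with a2 | a2 | a2
    · have := f1 3 0 (by omega) (by omega) (by omega)
      apply this; push_cast; linear_combination a2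
    · have := f1 3 1 (by omega) (by omega) (by omega)
      apply this; push_cast; linear_combination a2
    · have := f1 4 0 (by omega) (by omega) (by omega)
      apply this; push_cast; linear_combination a2
  · rw [a0] at a1; simp at a1

end pattern

section balls
variable {V W : Type*} {G : SimpleGraph V} {F : SimpleGraph W}

lemma ball_mono {v : V} {r r' : ℕ} (h : r ≤ r') : ball G v r ⊆ ball G v r' := by
  rintro w ⟨p, hp⟩; exact ⟨p, hp.trans h⟩

lemma self_mem_ball (v : V) (r : ℕ) : v ∈ ball G v r := ⟨SimpleGraph.Walk.nil, by simp⟩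

lemma ball_adj {v w w' : V} {r : ℕ} (h : w ∈ ball G v r) (ha : G.Adj w w') :
    w' ∈ ball G v (r + 1) := by
  obtain ⟨p, hp⟩ := h
  exact ⟨p.concat ha, by rw [SimpleGraph.Walk.length_concat]; omega⟩

lemma mem_ball_zero {v w : V} : w ∈ ball G v 0 ↔ w = v := by
  constructor
  · rintro ⟨p, hp⟩
    exact (SimpleGraph.Walk.eq_of_length_eq_zero (Nat.le_zero.mp hp)).symm
  · rintro rfl; exact self_mem_ball _ _

lemma mem_ball_succ {v w : V} {r : ℕ} : w ∈ ball G v (r + 1) ↔
    w ∈ ball G v r ∨ ∃ w' ∈ ball G v r, G.Adj w' w := by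
  constructor
  · rintro ⟨p, hp⟩
    obtain ⟨q, hq⟩ : ∃ q : G.Walk w v, q.length ≤ r + 1 := ⟨p.reverse, by simpa using hp⟩
    cases q with
    | nil => exact Or.inl (self_mem_ball _ _)
    | cons h q' =>
      right
      rw [SimpleGraph.Walk.length_cons] at hq
      exact ⟨_, ⟨q'.reverse, by rw [SimpleGraph.Walk.length_reverse]; omega⟩, h.symm⟩
  · rintro (h | ⟨w', h, ha⟩)
    · exact ball_mono (Nat.le_succ r) h
    · exact ball_adj h ha

/-- ball isomorphisms restrict to smaller radii -/
lemma ballIso_restrict {v : V} {o : W} {R : ℕ} {φ : V → W} (h : BallIso G v F o R φ) {r : ℕ}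
    (hr : r ≤ R) : BallIso G v F o r φ := by
  obtain ⟨h0, hb, ha⟩ := h
  have key : ∀ r ≤ R, Set.MapsTo φ (ball G v r) (ball F o r) ∧
      Set.SurjOn φ (ball G v r) (ball F o r) := by
    intro r
    induction r with
    | zero =>
      intro _
      constructor
      · intro w hw
        rw [mem_ball_zero] at hw ⊢
        rw [hw, h0]
      · intro w hw
        rw [mem_ball_zero] at hw
        exact ⟨v, self_mem_ball _ _, by rw [h0, hw]⟩
    | succ r ih =>
      intro hr
      obtain ⟨ih1, ih2⟩ := ih (by omega)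
      constructor
      · intro w hw
        rcases mem_ball_succ.mp hw with h | ⟨w', h, hadj⟩
        · exact ball_mono (Nat.le_succ r) (ih1 h)
        · exact ball_adj (ih1 h) ((ha w' (ball_mono (by omega) h) w (ball_mono hr hw)).mp hadj)
      · intro y hy
        rcases mem_ball_succ.mp hy with h | ⟨y', h, hadj⟩
        · obtain ⟨w, hw, rfl⟩ := ih2 h
          exact ⟨w, ball_mono (Nat.le_succ r) hw, rfl⟩
        · obtain ⟨w', hw', rfl⟩ := ih2 h
          obtain ⟨w, hw, rfl⟩ := hb.surjOn (ball_mono hr hy)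
          exact ⟨w, ball_adj hw' ((ha w' (ball_mono (by omega) hw') w hw).mpr hadj), rfl⟩
  refine ⟨h0, ⟨(key r hr).1, hb.injOn.mono (ball_mono hr), (key r hr).2⟩, ?_⟩
  intro x hx y hy
  exact ha x (ball_mono hr hx) y (ball_mono hr hy)

/-- common neighbours -/
def cn (G : SimpleGraph V) (v w : V) : Set V := {z | G.Adj v z ∧ G.Adj w z}

/-- ball isomorphisms preserve the number of common neighbours of `v` and `w` if `v` is not on the
sphere -/
lemma ballIso_ncard_cn {v : V} {o : W} {R : ℕ} {φ : V → W} (h : BallIso G v F o (R + 1) φ)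
    {x y : V} (hx : x ∈ ball G v R) (hy : y ∈ ball G v (R + 1)) :
    (cn F (φ x) (φ y)).ncard = (cn G x y).ncard := by
  have hx' : φ x ∈ ball F o R := (ballIso_restrict h (Nat.le_succ R)).2.1.mapsTo hx
  have hx1 := ball_mono (Nat.le_succ R) hx
  obtain ⟨h0, hb, ha⟩ := h
  have himg : φ '' (cn G x y) = cn F (φ x) (φ y) := by
    ext z
    constructor
    · rintro ⟨w, ⟨hw1, hw2⟩, rfl⟩
      have hw := ball_adj hx hw1
      exact ⟨(ha x hx1 w hw).mp hw1, (ha y hy w hw).mp hw2⟩
    · rintro ⟨hz1, hz2⟩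
      obtain ⟨w, hw, rfl⟩ := hb.surjOn (ball_adj hx' hz1)
      exact ⟨w, ⟨(ha x hx1 w hw).mpr hz1, (ha y hy w hw).mpr hz2⟩, rfl⟩
  rw [← himg]
  exact (hb.injOn.mono fun z hz => ball_adj hx hz.1).ncard_image

end balls

/-! ### adjacency in the coded Cayley graph -/

section adj
variable {Γ Λ : Type} [Group Γ] [Fintype Λ] (T : TData Γ Λ)

/-- letters together with the trivial letter -/
def ov (e : Λ → Γ) : Option (Λ × Bool) → Γ
  | none => 1
  | some s => lv e s

/-- patterns for letters together with the trivial letter -/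
def opat (k : Λ → ℕ) (N : ℕ) : Option (Λ × Bool) → Set (ZMod N)
  | none => {x | x = 0 ∨ x = 1 ∨ x = -1}
  | some s => pat k N s

/-- formal inverse of a letter or the trivial letter -/
def oinv : Option (Λ × Bool) → Option (Λ × Bool)
  | none => none
  | some s => some (s.1, !s.2)

lemma pi_lv (s : Λ × Bool) : T.pi (lv T.e s) = Multiplicative.ofAdd 1 := by
  obtain ⟨l, b⟩ := s
  cases b
  · rw [lv_false, map_inv, T.pi_e]; rfl
  · rw [lv_true, T.pi_e]

lemma lv_ne_one (s : Λ × Bool) : lv T.e s ≠ 1 := by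
  intro h
  have := pi_lv T s
  rw [h, map_one] at this
  exact absurd this (by decide)

lemma ov_inj : Function.Injective (ov T.e) := by
  intro s t h
  cases s <;> cases t
  · rfl
  · exact absurd h.symm (lv_ne_one T _)
  · exact absurd h (lv_ne_one T _)
  · exact congrArg some (T.e_inj h)

include T in
lemma card_pos : 0 < Fintype.card Λ := Fintype.card_pos_iff.mpr T.ne

lemma n₀_ge : 144 ≤ T.n₀ := by
  have h1 := T.large
  have h2 := card_pos T
  nlinarith

lemma k_lt' (l : Λ) : T.k l + 6 ≤ T.n₀ := by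
  have h1 := T.large
  have h2 := T.k_lt l
  have h3 := card_pos T
  nlinarith

lemma neZero : NeZero T.n₀ := ⟨by have := n₀_ge T; omega⟩

lemma zero_mem_opat (s : Option (Λ × Bool)) : (0 : ZMod T.n₀) ∈ opat T.k T.n₀ s := by
  cases s
  · exact Or.inl rfl
  · exact zero_mem_pat _

lemma ov_oinv (s : Option (Λ × Bool)) : ov T.e (oinv s) = (ov T.e s)⁻¹ := by
  cases s with
  | none => simp [ov, oinv]
  | some s => obtain ⟨l, b⟩ := s; exact lv_not _ _ _

lemma mem_opat_oinv (s : Option (Λ × Bool)) (x : ZMod T.n₀) :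
    x ∈ opat T.k T.n₀ (oinv s) ↔ -x ∈ opat T.k T.n₀ s := by
  cases s with
  | none =>
    simp only [opat, oinv, Set.mem_ofPred_eq]
    constructor
    · rintro (h | h | h) <;> subst h <;> simp
    · rintro (h | h | h)
      · left; simpa using h
      · right; right; rw [← h, neg_neg]
      · right; left; simpa using h
  | some s => exact mem_pat_not

lemma mem_stil_iff (a b : Γ × Multiplicative (ZMod T.n₀)) :
    b * a⁻¹ ∈ stil T.e T.k T.n₀ ↔ ∃ s : Option (Λ × Bool), b.1 = ov T.e s * a.1 ∧
      Multiplicative.toAdd b.2 - Multiplicative.toAdd a.2 ∉ opat T.k T.n₀ s := by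
  have h2 : Multiplicative.toAdd (b * a⁻¹).2 =
      Multiplicative.toAdd b.2 - Multiplicative.toAdd a.2 := by
    simp [sub_eq_add_neg]
  have h1 : (b * a⁻¹).1 = b.1 * a.1⁻¹ := rfl
  simp only [stil, Set.mem_ofPred_eq, h2, h1]
  constructor
  · rintro (⟨h, h3⟩ | ⟨s, h, h3⟩)
    · exact ⟨none, by simpa [ov, mul_inv_eq_one] using h, by simpa [opat] using h3⟩
    · exact ⟨some s, by rw [mul_inv_eq_iff_eq_mul] at h; exact h, h3⟩
  · rintro ⟨s, h, h3⟩
    cases s with
    | none => left; exact ⟨by simpa [ov, mul_inv_eq_one] using h, by simpa [opat] using h3⟩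
    | some s => right; exact ⟨s, by rw [mul_inv_eq_iff_eq_mul]; exact h, h3⟩

lemma adj_iff (a b : Γ × Multiplicative (ZMod T.n₀)) :
    T.F.Adj a b ↔ ∃ s : Option (Λ × Bool), b.1 = ov T.e s * a.1 ∧
      Multiplicative.toAdd b.2 - Multiplicative.toAdd a.2 ∉ opat T.k T.n₀ s := by
  have key : ∀ a b : Γ × Multiplicative (ZMod T.n₀), (∃ s : Option (Λ × Bool),
      b.1 = ov T.e s * a.1 ∧
      Multiplicative.toAdd b.2 - Multiplicative.toAdd a.2 ∉ opat T.k T.n₀ s) →
      ∃ s : Option (Λ × Bool), a.1 = ov T.e s * b.1 ∧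
      Multiplicative.toAdd a.2 - Multiplicative.toAdd b.2 ∉ opat T.k T.n₀ s := by
    rintro a b ⟨s, h1, h2⟩
    refine ⟨oinv s, ?_, ?_⟩
    · rw [ov_oinv, h1, inv_mul_cancel_left]
    · rw [mem_opat_oinv, neg_sub]; exact h2
  unfold TData.F cayL
  rw [SimpleGraph.fromRel_adj, mem_stil_iff, mem_stil_iff]
  constructor
  · rintro ⟨_, h | h⟩
    · exact h
    · exact key _ _ h
  · intro h
    refine ⟨?_, Or.inl h⟩
    rintro rfl
    obtain ⟨s, h1, h2⟩ := h
    rw [sub_self] at h2
    exact h2 (zero_mem_opat T s)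

lemma adj_ov (g : Γ) (s : Option (Λ × Bool)) (x x' : ZMod T.n₀) :
    T.F.Adj (g, Multiplicative.ofAdd x) (ov T.e s * g, Multiplicative.ofAdd x') ↔
      x' - x ∉ opat T.k T.n₀ s := by
  rw [adj_iff]
  constructor
  · rintro ⟨t, h1, h2⟩
    have : s = t := ov_inj T (mul_right_cancel h1)
    subst this
    exact h2
  · intro h
    exact ⟨s, rfl, h⟩

lemma adj_same (g : Γ) (x x' : ZMod T.n₀) :
    T.F.Adj (g, Multiplicative.ofAdd x) (g, Multiplicative.ofAdd x') ↔
      ¬ (x' - x = 0 ∨ x' - x = 1 ∨ x' - x = -1) := by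
  have := adj_ov T g none x x'
  simpa [ov, opat] using this

/-! ### counting common neighbours -/

/-- coordinates around a base point -/
def fc (g : Γ) (q : Option (Λ × Bool) × ZMod T.n₀) : Γ × Multiplicative (ZMod T.n₀) :=
  (ov T.e q.1 * g, Multiplicative.ofAdd q.2)

lemma fc_inj (g : Γ) : Function.Injective (fc T g) := by
  rintro ⟨s, x⟩ ⟨t, y⟩ h
  simp only [fc, Prod.mk.injEq] at h
  have h1 := ov_inj T (mul_right_cancel h.1)
  have h2 : x = y := Multiplicative.ofAdd.injective h.2
  rw [h1, h2]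

lemma opat_ncard (s : Option (Λ × Bool)) :
    (opat T.k T.n₀ s).ncard ≤ Fintype.card Λ + 3 := by
  classical
  have hN := neZero T
  have hc := card_pos T
  cases s with
  | none =>
    have : opat T.k T.n₀ (none : Option (Λ × Bool)) ⊆
        (({0, 1, -1} : Finset (ZMod T.n₀)) : Set (ZMod T.n₀)) := by
      intro x hx
      simpa [opat] using hx
    refine (Set.ncard_le_ncard this (Finset.finite_toSet _)).trans ?_
    rw [Set.ncard_coe_finset]
    refine (Finset.card_le_three).trans ?_
    omega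
  | some s =>
    have : opat T.k T.n₀ (some s) ⊆
        (((Finset.range (T.k s.1 + 4)).image (fun i : ℕ => if s.2 then (i : ZMod T.n₀) else -i) :
          Finset (ZMod T.n₀)) : Set (ZMod T.n₀)) := by
      rintro x ⟨i, hi, hx⟩
      rw [Finset.coe_image, Set.mem_image]
      refine ⟨i, ?_, hx.symm⟩
      simp only [Finset.coe_range, Set.mem_Iio]
      omega
    refine (Set.ncard_le_ncard this (Finset.finite_toSet _)).trans ?_
    rw [Set.ncard_coe_finset]
    refine Finset.card_image_le.trans ?_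
    rw [Finset.card_range]
    have := T.k_lt s.1
    omega

lemma cn_same (g : Γ) (x x' : ZMod T.n₀) :
    2 * Fintype.card Λ * T.n₀ <
      (cn T.F (g, Multiplicative.ofAdd x) (g, Multiplicative.ofAdd x')).ncard := by
  classical
  have hN := neZero T
  set A : Finset (Option (Λ × Bool) × ZMod T.n₀) := Finset.univ.filter
    (fun q => q.2 - x ∉ opat T.k T.n₀ q.1 ∧ q.2 - x' ∉ opat T.k T.n₀ q.1) with hA
  set C : Finset (Option (Λ × Bool) × ZMod T.n₀) := Finset.univ.filter
    (fun q => ¬ (q.2 - x ∉ opat T.k T.n₀ q.1 ∧ q.2 - x' ∉ opat T.k T.n₀ q.1)) with hC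
  have himg : cn T.F (g, Multiplicative.ofAdd x) (g, Multiplicative.ofAdd x') =
      fc T g '' (A : Set (Option (Λ × Bool) × ZMod T.n₀)) := by
    ext z
    constructor
    · rintro ⟨h1, h2⟩
      obtain ⟨s, hs, hs'⟩ := (adj_iff T _ _).mp h1
      obtain ⟨t, ht, ht'⟩ := (adj_iff T _ _).mp h2
      have : s = t := by
        rw [hs] at ht
        exact ov_inj T (mul_right_cancel ht)
      subst this
      refine ⟨(s, Multiplicative.toAdd z.2), ?_, ?_⟩
      · simp only [hA, Finset.coe_filter, Finset.mem_univ, true_and, Set.mem_ofPred_eq]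
        exact ⟨hs', ht'⟩
      · simp only [fc]
        exact Prod.ext hs.symm rfl
    · rintro ⟨⟨s, y⟩, h, rfl⟩
      simp only [hA, Finset.coe_filter, Finset.mem_univ, true_and, Set.mem_ofPred_eq] at h
      exact ⟨(adj_ov T g s x y).mpr h.1, (adj_ov T g s x' y).mpr h.2⟩
  rw [himg, (fc_inj T g).injOn.ncard_image, Set.ncard_coe_finset]
  have hAC : A.card + C.card = (2 * Fintype.card Λ + 1) * T.n₀ := by
    rw [hA, hC, Finset.card_filter_add_card_filter_not]
    rw [Finset.card_univ, Fintype.card_prod, Fintype.card_option, Fintype.card_prod,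
      Fintype.card_bool, ZMod.card]
    ring
  have hCle : C.card ≤ (2 * Fintype.card Λ + 1) * (2 * (Fintype.card Λ + 3)) := by
    set B : Option (Λ × Bool) → Finset (ZMod T.n₀) := fun s =>
      Finset.univ.filter (fun y => y - x ∈ opat T.k T.n₀ s) ∪
      Finset.univ.filter (fun y => y - x' ∈ opat T.k T.n₀ s) with hB
    have h1 : C ⊆ Finset.univ.biUnion (fun s => ({s} : Finset (Option (Λ × Bool))) ×ˢ B s) := by
      rintro ⟨s, y⟩ h
      simp only [hC, Finset.mem_filter, Finset.mem_univ, true_and] at h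
      rw [Finset.mem_biUnion]
      refine ⟨s, Finset.mem_univ _, ?_⟩
      rw [Finset.mem_product]
      refine ⟨Finset.mem_singleton_self _, ?_⟩
      simp only [hB, Finset.mem_union, Finset.mem_filter, Finset.mem_univ, true_and]
      tauto
    have hBc : ∀ s, (B s).card ≤ 2 * (Fintype.card Λ + 3) := by
      intro s
      have h2 : ∀ y₀ : ZMod T.n₀,
          (Finset.univ.filter (fun y => y - y₀ ∈ opat T.k T.n₀ s)).card ≤ Fintype.card Λ + 3 := by
        intro y₀
        refine le_trans ?_ (opat_ncard T s)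
        rw [← Set.ncard_coe_finset]
        refine le_of_eq_of_le ?_ (le_refl _)
        have : (opat T.k T.n₀ s) = (fun y => y - y₀) '' ((Finset.univ.filter
            (fun y => y - y₀ ∈ opat T.k T.n₀ s) : Finset (ZMod T.n₀)) : Set (ZMod T.n₀)) := by
          ext y
          simp only [Finset.coe_filter, Finset.mem_univ, true_and, Set.mem_image,
            Set.mem_ofPred_eq]
          constructor
          · intro hy
            exact ⟨y + y₀, by simpa using hy, by ring⟩
          · rintro ⟨y', hy', rfl⟩; exact hy'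
        conv_rhs => rw [this]
        rw [Set.InjOn.ncard_image (fun a _ b _ h => sub_left_injective h)]
      refine (Finset.card_union_le _ _).trans ?_
      have := h2 x
      have := h2 x'
      omega
    refine (Finset.card_le_card h1).trans (Finset.card_biUnion_le.trans ?_)
    calc ∑ s : Option (Λ × Bool), (({s} : Finset (Option (Λ × Bool))) ×ˢ B s).card
        ≤ ∑ s : Option (Λ × Bool), 2 * (Fintype.card Λ + 3) := by
          refine Finset.sum_le_sum fun s _ => ?_
          rw [Finset.card_product, Finset.card_singleton, one_mul]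
          exact hBc s
      _ = (2 * Fintype.card Λ + 1) * (2 * (Fintype.card Λ + 3)) := by
          rw [Finset.sum_const, Finset.card_univ, Fintype.card_option, Fintype.card_prod,
            Fintype.card_bool, smul_eq_mul]
          ring
  have hl := T.large
  nlinarith

lemma cn_diff (a b : Γ × Multiplicative (ZMod T.n₀)) (hab : a.1 ≠ b.1) :
    (cn T.F a b).ncard ≤ 2 * Fintype.card Λ * T.n₀ := by
  classical
  have hN := neZero T
  obtain ⟨s₀, hs₀⟩ : ∃ s₀ : Option (Λ × Bool), ∀ s', ov T.e s₀ * a.1 ≠ ov T.e s' * b.1 := by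
    by_cases h : ∃ t, b.1 = lv T.e t * a.1
    · obtain ⟨t, ht⟩ := h
      refine ⟨some (t.1, !t.2), ?_⟩
      intro s' h'
      rw [ht, ← mul_assoc] at h'
      have h'' := mul_right_cancel h'
      have hpi := congrArg T.pi h''
      rw [map_mul] at hpi
      simp only [ov] at hpi
      rw [pi_lv, pi_lv] at hpi
      cases s' with
      | none =>
        simp only [ov, one_mul] at h''
        have := T.e_inj h''
        obtain ⟨l, b⟩ := t
        simp only [Prod.mk.injEq, true_and] at this
        cases b <;> simp at this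
      | some s' =>
        simp only at hpi
        rw [pi_lv] at hpi
        exact absurd hpi (by decide)
    · push Not at h
      refine ⟨none, ?_⟩
      intro s' h'
      cases s' with
      | none => exact hab (by simpa [ov] using h')
      | some s' =>
        simp only [ov, one_mul] at h'
        apply h (s'.1, !s'.2)
        obtain ⟨l, b⟩ := s'
        rw [lv_not, h', inv_mul_cancel_left]
  have hsub : cn T.F a b ⊆ (((((Finset.univ.erase s₀) ×ˢ Finset.univ :
      Finset (Option (Λ × Bool) × ZMod T.n₀)).image (fc T a.1)) :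
      Finset (Γ × Multiplicative (ZMod T.n₀))) : Set (Γ × Multiplicative (ZMod T.n₀))) := by
    rintro z ⟨h1, h2⟩
    obtain ⟨s, hs, hs'⟩ := (adj_iff T _ _).mp h1
    obtain ⟨t, ht, ht'⟩ := (adj_iff T _ _).mp h2
    rw [Finset.coe_image]
    refine ⟨(s, Multiplicative.toAdd z.2), ?_, ?_⟩
    · simp only [Finset.coe_product, Finset.coe_erase, Finset.coe_univ, Set.mem_prod,
        Set.mem_sdiff, Set.mem_univ, Set.mem_singleton_iff, true_and, and_true]
      rintro rfl
      exact hs₀ t (hs.symm.trans ht)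
    · exact Prod.ext hs.symm rfl
  refine (Set.ncard_le_ncard hsub (Finset.finite_toSet _)).trans ?_
  rw [Set.ncard_coe_finset]
  refine Finset.card_image_le.trans ?_
  rw [Finset.card_product, Finset.card_erase_of_mem (Finset.mem_univ _), Finset.card_univ,
    Finset.card_univ, Fintype.card_option, Fintype.card_prod, Fintype.card_bool, ZMod.card]
  apply Nat.mul_le_mul_right
  omega

/-! ### rigidity -/

variable {T}

/-- ball isomorphisms preserve the fibre relation -/
lemma fibre_iff {R : ℕ} {φ : Γ × Multiplicative (ZMod T.n₀) → Γ × Multiplicative (ZMod T.n₀)}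
    (h : BallIso T.F 1 T.F 1 (R + 1) φ) {a b : Γ × Multiplicative (ZMod T.n₀)}
    (ha : a ∈ ball T.F 1 R) (hb : b ∈ ball T.F 1 (R + 1)) :
    (φ a).1 = (φ b).1 ↔ a.1 = b.1 := by
  have hc := ballIso_ncard_cn h ha hb
  have key : ∀ a b : Γ × Multiplicative (ZMod T.n₀), a.1 = b.1 →
      2 * Fintype.card Λ * T.n₀ < (cn T.F a b).ncard := by
    intro a b hab
    obtain ⟨g, x⟩ := a
    obtain ⟨g', x'⟩ := b
    simp only at hab
    subst hab
    exact cn_same T g (Multiplicative.toAdd x) (Multiplicative.toAdd x')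
  constructor
  · intro h1
    by_contra h2
    have := key _ _ h1
    have := cn_diff T _ _ h2
    omega
  · intro h1
    by_contra h2
    have := key _ _ h1
    have := cn_diff T _ _ h2
    omega

/-- the sign as an element of the cyclic group -/
def sg (N : ℕ) (b : Bool) : ZMod N := if b then 1 else -1

/-- injective maps which preserve the cycle are affine -/
lemma cycle_aut {N : ℕ} (hN : 5 ≤ N) (y : ZMod N → ZMod N) (hy : Function.Injective y)
    (h : ∀ x, y (x + 1) - y x = 0 ∨ y (x + 1) - y x = 1 ∨ y (x + 1) - y x = -1) :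
    ∃ (b : Bool), ∀ x, y x = sg N b * x + y 0 := by
  have hN0 : NeZero N := ⟨by omega⟩
  have h1 : (1 : ZMod N) ≠ 0 := by
    intro h0
    have : ((1 : ℕ) : ZMod N) = ((0 : ℕ) : ZMod N) := by simpa using h0
    rw [ZMod.natCast_eq_natCast_iff', Nat.mod_eq_of_lt (by omega),
      Nat.mod_eq_of_lt (by omega)] at this
    omega
  have h2 : (2 : ZMod N) ≠ 0 := by
    intro h0
    have : ((2 : ℕ) : ZMod N) = ((0 : ℕ) : ZMod N) := by simpa using h0
    rw [ZMod.natCast_eq_natCast_iff', Nat.mod_eq_of_lt (by omega),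
      Nat.mod_eq_of_lt (by omega)] at this
    omega
  have h3 : ∀ x, y (x + 1) - y x = 1 ∨ y (x + 1) - y x = -1 := by
    intro x
    rcases h x with h0 | h0
    · exfalso
      have := hy (sub_eq_zero.mp h0)
      exact h1 (by simpa using this)
    · exact h0
  have hb : ∃ b : Bool, y (0 + 1) - y 0 = sg N b := by
    rcases h3 0 with h0 | h0
    · exact ⟨true, by simpa [sg] using h0⟩
    · exact ⟨false, by simpa [sg] using h0⟩
  obtain ⟨b, hb⟩ := hb
  refine ⟨b, ?_⟩
  have hs : ∀ n : ℕ, y ((n : ZMod N) + 1) - y n = sg N b := by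
    intro n
    induction n with
    | zero => simpa using hb
    | succ n ih =>
      have hne : y ((n : ZMod N) + 1 + 1) ≠ y n := by
        intro h0
        have := hy h0
        apply h2
        linear_combination this
      push_cast
      rcases h3 ((n : ZMod N) + 1) with h0 | h0
      · cases b
        · exfalso
          apply hne
          simp only [sg, Bool.false_eq_true, if_false] at ih
          linear_combination h0 + ih
        · simpa [sg] using h0
      · cases b
        · simpa [sg] using h0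
        · exfalso
          apply hne
          simp only [sg, if_true] at ih
          linear_combination h0 + ih
  have hn : ∀ n : ℕ, y (n : ZMod N) = sg N b * n + y 0 := by
    intro n
    induction n with
    | zero => simp
    | succ n ih =>
      push_cast
      linear_combination hs n + ih
  intro x
  have := hn x.val
  rwa [ZMod.natCast_zmod_val] at this

/-- membership of full fibres in balls -/
lemma fibre_mem {R : ℕ} (hR : 2 ≤ R) {u : Wd Λ} (hu : u.length ≤ R) (x : ZMod T.n₀) :
    ((wp T.e u, Multiplicative.ofAdd x) : Γ × Multiplicative (ZMod T.n₀)) ∈ ball T.F 1 R :=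
  (mem_ball_til T hR _).mpr ⟨u, hu, rfl⟩

/-- on each fibre a ball isomorphism is affine -/
lemma fibre_form {R : ℕ} (hR : 2 ≤ R)
    {φ : Γ × Multiplicative (ZMod T.n₀) → Γ × Multiplicative (ZMod T.n₀)}
    (h : BallIso T.F 1 T.F 1 (R + 1) φ) {u : Wd Λ} (hu : u.length ≤ R) :
    ∃ (g' : Γ) (b : Bool) (c : ZMod T.n₀), ∀ x : ZMod T.n₀,
      φ (wp T.e u, Multiplicative.ofAdd x) = (g', Multiplicative.ofAdd (sg T.n₀ b * x + c)) := by
  set g := wp T.e u with hg
  set g' := (φ (g, Multiplicative.ofAdd 0)).1 with hg'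
  set y : ZMod T.n₀ → ZMod T.n₀ := fun x =>
    Multiplicative.toAdd (φ (g, Multiplicative.ofAdd x)).2 with hy
  have hmem : ∀ x : ZMod T.n₀, ((g, Multiplicative.ofAdd x) : Γ × Multiplicative (ZMod T.n₀)) ∈
      ball T.F 1 R := fun x => fibre_mem hR hu x
  have hmem' := fun x => ball_mono (Nat.le_succ R) (hmem x)
  have hform : ∀ x : ZMod T.n₀, φ (g, Multiplicative.ofAdd x) = (g', Multiplicative.ofAdd (y x)) := by
    intro x
    refine Prod.ext ?_ ?_
    · exact (fibre_iff h (hmem x) (hmem' 0)).mpr rfl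
    · simp [hy]
  have hinj : Function.Injective y := by
    intro x x' hxx
    have : φ (g, Multiplicative.ofAdd x) = φ (g, Multiplicative.ofAdd x') := by
      rw [hform, hform, hxx]
    have := h.2.1.injOn (hmem' x) (hmem' x') this
    simpa using this
  obtain ⟨b, hb⟩ := cycle_aut (N := T.n₀) (by have := n₀_ge T; omega) y hinj (by
    intro x
    have h1 := h.2.2 _ (hmem' x) _ (hmem' (x + 1))
    rw [hform, hform, adj_same, adj_same, not_iff_not] at h1
    exact h1.mp (by right; left; ring))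
  exact ⟨g', b, y 0, fun x => by rw [hform x, hb x]⟩

/-- flip a letter or not -/
def fl (b : Bool) (s : Λ × Bool) : Λ × Bool := (s.1, if b then s.2 else !s.2)

/-- propagation to an adjacent fibre -/
lemma fibre_step {R : ℕ} (hR : 2 ≤ R)
    {φ : Γ × Multiplicative (ZMod T.n₀) → Γ × Multiplicative (ZMod T.n₀)}
    (h : BallIso T.F 1 T.F 1 (R + 1) φ) {u : Wd Λ} {s : Λ × Bool} (hu : (s :: u).length ≤ R)
    {g' : Γ} {b : Bool} {c : ZMod T.n₀} (hg : ∀ x : ZMod T.n₀,
      φ (wp T.e u, Multiplicative.ofAdd x) = (g', Multiplicative.ofAdd (sg T.n₀ b * x + c)))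
    (x : ZMod T.n₀) :
    φ (wp T.e (s :: u), Multiplicative.ofAdd x) =
      (lv T.e (fl b s) * g', Multiplicative.ofAdd (sg T.n₀ b * x + c)) := by
  obtain ⟨h', b', d, hh⟩ := fibre_form hR h hu
  have hu' : u.length ≤ R := by simp only [List.length_cons] at hu; omega
  have hm1 : ∀ x : ZMod T.n₀, ((wp T.e u, Multiplicative.ofAdd x) :
      Γ × Multiplicative (ZMod T.n₀)) ∈ ball T.F 1 R := fun x => fibre_mem hR hu' x
  have hm2 : ∀ x : ZMod T.n₀, ((wp T.e (s :: u), Multiplicative.ofAdd x) :
      Γ × Multiplicative (ZMod T.n₀)) ∈ ball T.F 1 R := fun x => fibre_mem hR hu x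
  have hm1' := fun x => ball_mono (Nat.le_succ R) (hm1 x)
  have hm2' := fun x => ball_mono (Nat.le_succ R) (hm2 x)
  -- adjacency between the two fibres
  have hadj : ∀ x x' : ZMod T.n₀, x' - x ∉ pat T.k T.n₀ s ↔
      T.F.Adj (g', Multiplicative.ofAdd (sg T.n₀ b * x + c))
        (h', Multiplicative.ofAdd (sg T.n₀ b' * x' + d)) := by
    intro x x'
    rw [← hg, ← hh, ← h.2.2 _ (hm1' x) _ (hm2' x'), wp_cons]
    exact (adj_ov T (wp T.e u) (some s) x x').symm
  have h1 : (1 : ZMod T.n₀) ∉ pat T.k T.n₀ s := one_notMem_pat s (k_lt' T _)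
  obtain ⟨t, ht, -⟩ := (adj_iff T _ _).mp ((hadj 0 1).mp (by simpa using h1))
  simp only at ht
  cases t with
  | none =>
    exfalso
    have h2 := (fibre_iff h (hm1 0) (hm2' 0)).mp (by
      rw [hg, hh]
      simpa [ov] using ht.symm)
    simp only [wp_cons] at h2
    exact lv_ne_one T s (mul_eq_right.mp h2.symm)
  | some t =>
    have hadj2 : ∀ x x' : ZMod T.n₀, x' - x ∈ pat T.k T.n₀ s ↔
        (sg T.n₀ b' * x' + d) - (sg T.n₀ b * x + c) ∈ pat T.k T.n₀ t := by
      intro x x'
      have h2 := hadj x x'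
      rw [ht, adj_ov] at h2
      exact not_iff_not.mp h2
    have hodd : ∃ m : ZMod T.n₀, 2 * m = 1 := by
      obtain ⟨m, hm⟩ := T.odd
      refine ⟨((m + 1 : ℕ) : ZMod T.n₀), ?_⟩
      have : ((T.n₀ : ℕ) : ZMod T.n₀) = 0 := ZMod.natCast_self _
      have h3 : ((2 * m + 1 : ℕ) : ZMod T.n₀) = 0 := by rw [← hm]; exact this
      push_cast at h3 ⊢
      linear_combination h3
    obtain ⟨m, hm⟩ := hodd
    have h1t : (1 : ZMod T.n₀) ∉ pat T.k T.n₀ t := one_notMem_pat t (k_lt' T _)
    have hbb : b' = b := by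
      by_contra hne
      have hb' : b' = !b := by cases b <;> cases b' <;> simp_all
      have hsg : sg T.n₀ b' = - sg T.n₀ b := by rw [hb']; cases b <;> simp [sg]
      have hsq : sg T.n₀ b * sg T.n₀ b = 1 := by cases b <;> simp [sg]
      have h3 := (hadj2 (- sg T.n₀ b * m * (1 - (d - c))) (- sg T.n₀ b * m * (1 - (d - c)))).mp
        (by rw [sub_self]; exact zero_mem_pat _)
      apply h1t
      convert h3 using 1
      rw [hsg]
      linear_combination (-(2 * m * (1 - (d - c)))) * hsq - (1 - (d - c)) * hm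
    subst hbb
    have hcd : d - c = 0 ∧ t = fl b' s := by
      cases b'
      · have := pattern_rigid_neg (k := T.k) (N := T.n₀) T.k_inj (k_lt' T) (s := s) (t := t)
          (c := d - c) (by
            intro u
            have h3 := hadj2 0 u
            simp only [sg, Bool.false_eq_true, if_false] at h3
            rw [sub_zero] at h3
            rw [h3]
            ring_nf)
        exact ⟨this.1, by rw [this.2]; rfl⟩
      · have := pattern_rigid (k := T.k) (N := T.n₀) T.k_inj (k_lt' T) (s := s) (t := t)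
          (c := d - c) (by
            intro u
            have h3 := hadj2 0 u
            simp only [sg, if_true] at h3
            rw [sub_zero] at h3
            rw [h3]
            ring_nf)
        exact ⟨this.1, by rw [← this.2]; rfl⟩
    rw [hh, ht, sub_eq_zero.mp hcd.1, hcd.2]
    rfl

/-- a ball isomorphism is given by a sign on the smaller ball -/
lemma ball_form {R : ℕ} (hR : 2 ≤ R)
    {φ : Γ × Multiplicative (ZMod T.n₀) → Γ × Multiplicative (ZMod T.n₀)}
    (h : BallIso T.F 1 T.F 1 (R + 1) φ) :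
    ∃ b : Bool, ∀ u : Wd Λ, u.length ≤ R → ∀ x : ZMod T.n₀,
      φ (wp T.e u, Multiplicative.ofAdd x) =
        (wp T.e (u.map (fl b)), Multiplicative.ofAdd (sg T.n₀ b * x)) := by
  obtain ⟨g', b, c, h0⟩ := fibre_form hR h (u := []) (by simp)
  have h1 := h0 0
  have h2 : φ (1, Multiplicative.ofAdd 0) = (1, Multiplicative.ofAdd 0) := h.1
  rw [wp_nil, h2] at h1
  simp only [mul_zero, zero_add, Prod.mk.injEq, EmbeddingLike.apply_eq_iff_eq] at h1
  obtain ⟨h3, h4⟩ := h1
  subst h3
  subst h4
  refine ⟨b, ?_⟩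
  intro u
  induction u with
  | nil =>
    intro _ x
    rw [h0]
    simp
  | cons s u ih =>
    intro hu x
    have hu' : u.length ≤ R := by simp only [List.length_cons] at hu; omega
    rw [fibre_step hR h hu (g' := wp T.e (u.map (fl b))) (b := b) (c := 0)
      (fun x => by rw [ih hu' x, add_zero]) x, add_zero]
    simp

end adj

end TrB

open TrB in
/-- M4b -/
theorem rigid {Γ Λ : Type} [Group Γ] [Fintype Λ] (T : TData Γ Λ) : ∃ R₀ : ℕ, ∀ R ≥ R₀,
    ∀ φ : Γ × Multiplicative (ZMod T.n₀) →
    Γ × Multiplicative (ZMod T.n₀), BallIso T.F 1 T.F 1 R φ → ∀ z ∈ ball T.F 1 R, φ z = z := by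
  obtain ⟨u₀, hu₀, hu₀'⟩ := T.asym
  refine ⟨u₀.length + 3, ?_⟩
  intro R' hR' φ h
  obtain ⟨R, rfl⟩ : ∃ R, R' = R + 1 := ⟨R' - 1, by omega⟩
  have hR : 2 ≤ R := by omega
  obtain ⟨b, hb⟩ := ball_form hR h
  have hbt : b = true := by
    by_contra hne
    have hbf : b = false := by simpa using hne
    subst hbf
    apply hu₀
    have h1 := hb u₀ (by omega) 0
    have h2 : u₀.map (fl false) = wflip u₀ := by
      simp [wflip, fl]
    rw [h2, hu₀', mul_zero] at h1
    have h3 : φ (1, Multiplicative.ofAdd 0) = (1, Multiplicative.ofAdd 0) := h.1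
    have h4 := h.2.1.injOn
      (ball_mono (Nat.le_succ R) (fibre_mem hR (u := u₀) (by omega) 0))
      (ball_mono (Nat.le_succ R) (self_mem_ball _ _)) (h1.trans h3.symm)
    exact congrArg Prod.fst h4
  subst hbt
  have hmap : ∀ u : Wd Λ, u.map (fl true) = u := by
    intro u
    have : (fl true : Λ × Bool → Λ × Bool) = id := by
      funext s; simp [fl]
    rw [this, List.map_id]
  have hfix : ∀ u : Wd Λ, u.length ≤ R → ∀ x : ZMod T.n₀,
      φ (wp T.e u, Multiplicative.ofAdd x) = (wp T.e u, Multiplicative.ofAdd x) := by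
    intro u hu x
    rw [hb u hu x, hmap]
    simp [sg]
  rintro ⟨h', x'⟩ hz
  obtain ⟨u, hu, hu'⟩ := (mem_ball_til T (by omega : 2 ≤ R + 1) _).mp hz
  simp only at hu'
  subst hu'
  obtain ⟨x, rfl⟩ : ∃ x : ZMod T.n₀, Multiplicative.ofAdd x = x' := ⟨Multiplicative.toAdd x', rfl⟩
  by_cases hlen : u.length ≤ R
  · exact hfix u hlen x
  · cases u with
    | nil => simp at hlen
    | cons s u =>
      simp only [List.length_cons] at hu hlen
      have hu' : u.length ≤ R := by omega
      have hm1 : ∀ x : ZMod T.n₀, ((wp T.e u, Multiplicative.ofAdd x) :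
          Γ × Multiplicative (ZMod T.n₀)) ∈ ball T.F 1 R := fun x => fibre_mem hR hu' x
      set z := φ (wp T.e (s :: u), Multiplicative.ofAdd x) with hzdef
      have hadj : ∀ y : ZMod T.n₀, x - y ∉ pat T.k T.n₀ s ↔
          T.F.Adj (wp T.e u, Multiplicative.ofAdd y) z := by
        intro y
        have h1 := h.2.2 _ (ball_mono (Nat.le_succ R) (hm1 y)) _ hz
        rw [hfix u hu' y, wp_cons] at h1
        rw [hzdef, wp_cons, ← h1]
        exact (adj_ov T (wp T.e u) (some s) y x).symm
      have h1 : (1 : ZMod T.n₀) ∉ pat T.k T.n₀ s := one_notMem_pat s (k_lt' T _)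
      obtain ⟨t, ht, -⟩ := (adj_iff T _ _).mp ((hadj (x - 1)).mp (by simpa using h1))
      simp only at ht
      obtain ⟨y, hy⟩ : ∃ y : ZMod T.n₀, Multiplicative.ofAdd y = z.2 :=
        ⟨Multiplicative.toAdd z.2, rfl⟩
      have hz2 : z = (ov T.e t * wp T.e u, Multiplicative.ofAdd y) := Prod.ext ht hy.symm
      cases t with
      | none =>
        exfalso
        have h2 := (fibre_iff h (hm1 0) hz).mp (by
          rw [hfix u hu', ← hzdef, hz2]
          simp [ov])
        simp only [wp_cons] at h2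
        exact lv_ne_one T s (mul_eq_right.mp h2.symm)
      | some t =>
        have hadj2 : ∀ u : ZMod T.n₀, u ∈ pat T.k T.n₀ s ↔ u + (y - x) ∈ pat T.k T.n₀ t := by
          intro v
          have h2 := hadj (x - v)
          rw [hz2, adj_ov] at h2
          have h3 := not_iff_not.mp h2
          rw [sub_sub_cancel] at h3
          rw [h3]
          simp only [opat]
          rw [show y - (x - v) = v + (y - x) by ring]
        obtain ⟨h4, h5⟩ := pattern_rigid (k := T.k) (N := T.n₀) T.k_inj (k_lt' T) hadj2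
        rw [hz2, sub_eq_zero.mp h4, h5, wp_cons]
        rfl

end Pool.Agent.Helper55.LF
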