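import Mathlib
import Pool.Agent.Helper55.LF.Defs
import Pool.Agent.Helper55.LF.TrB

/-! MP_f7aca4_co, module M4d (file TrD): every locally F graph is the graph of a good structure.
Author: helper12.
needs: mem_ball_til (M4a), TrB (M4b) -/

namespace Pool.Agent.Helper55.LF

namespace TrD

open TrB

section general
variable {V W U : Type*} {G : SimpleGraph V} {F : SimpleGraph W} {H : SimpleGraph U}

lemma ball_trans {u v w : V} {a b : ℕ} (h : v ∈ ball G u a) (h' : w ∈ ball G v b) :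
    w ∈ ball G u (a + b) := by
  obtain ⟨p, hp⟩ := h
  obtain ⟨q, hq⟩ := h'
  exact ⟨p.append q, by rw [SimpleGraph.Walk.length_append]; omega⟩

lemma ball_symm {u v : V} {a : ℕ} (h : v ∈ ball G u a) : u ∈ ball G v a := by
  obtain ⟨p, hp⟩ := h
  exact ⟨p.reverse, by rwa [SimpleGraph.Walk.length_reverse]⟩

lemma mem_ball_one {u v : V} (h : G.Adj u v) : v ∈ ball G u 1 :=
  ball_adj (self_mem_ball u 0) h

/-- recentring a ball isomorphism -/
lemma ballIso_recentre {p : V} {o : W} {r : ℕ} {φ : V → W} (h : BallIso G p F o r φ) {q : V}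
    {m ρ : ℕ} (hq : q ∈ ball G p m) (hm : m + ρ ≤ r) : BallIso G q F (φ q) ρ φ := by
  have hq' : φ q ∈ ball F o m := (ballIso_restrict h (by omega)).2.1.mapsTo hq
  obtain ⟨h0, hb, ha⟩ := h
  have hin : ∀ {ρ' : ℕ} {y : V}, ρ' ≤ ρ → y ∈ ball G q ρ' → y ∈ ball G p r := by
    intro ρ' y h1 h2
    exact ball_mono (by omega) (ball_trans hq h2)
  have hin' : ∀ {ρ' : ℕ} {y : W}, ρ' ≤ ρ → y ∈ ball F (φ q) ρ' → y ∈ ball F o r := by
    intro ρ' y h1 h2
    exact ball_mono (by omega) (ball_trans hq' h2)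
  have key : ∀ ρ' ≤ ρ, Set.MapsTo φ (ball G q ρ') (ball F (φ q) ρ') ∧
      Set.SurjOn φ (ball G q ρ') (ball F (φ q) ρ') := by
    intro ρ'
    induction ρ' with
    | zero =>
      intro _
      constructor
      · intro w hw
        rw [mem_ball_zero] at hw ⊢
        rw [hw]
      · intro w hw
        rw [mem_ball_zero] at hw
        exact ⟨q, self_mem_ball _ _, hw.symm⟩
    | succ n ih =>
      intro hn
      obtain ⟨ih1, ih2⟩ := ih (by omega)
      constructor
      · intro w hw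
        rcases mem_ball_succ.mp hw with h | ⟨w', h, hadj⟩
        · exact ball_mono (Nat.le_succ n) (ih1 h)
        · exact ball_adj (ih1 h)
            ((ha w' (hin (by omega : n ≤ ρ) h) w (hin hn hw)).mp hadj)
      · intro y hy
        rcases mem_ball_succ.mp hy with h | ⟨y', h, hadj⟩
        · obtain ⟨w, hw, rfl⟩ := ih2 h
          exact ⟨w, ball_mono (Nat.le_succ n) hw, rfl⟩
        · obtain ⟨w', hw', rfl⟩ := ih2 h
          obtain ⟨w, hw, rfl⟩ := hb.surjOn (hin' hn hy)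
          exact ⟨w, ball_adj hw'
            ((ha w' (hin (by omega : n ≤ ρ) hw') w hw).mpr hadj), rfl⟩
  refine ⟨rfl, ⟨(key ρ le_rfl).1, hb.injOn.mono fun y hy => hin le_rfl hy, (key ρ le_rfl).2⟩, ?_⟩
  intro x hx y hy
  exact ha x (hin le_rfl hx) y (hin le_rfl hy)

/-- inverse of a ball isomorphism -/
lemma ballIso_symm {v : V} {o : W} {r : ℕ} {φ : V → W} (h : BallIso G v F o r φ) :
    ∃ ψ : W → V, BallIso F o G v r ψ ∧ (∀ x ∈ ball G v r, ψ (φ x) = x) ∧
      ∀ y ∈ ball F o r, φ (ψ y) = y := by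
  classical
  have hne : Nonempty V := ⟨v⟩
  obtain ⟨h0, hb, ha⟩ := h
  have h1 : ∀ x ∈ ball G v r, Function.invFunOn φ (ball G v r) (φ x) = x :=
    fun x hx => hb.injOn.leftInvOn_invFunOn hx
  have h2 : ∀ y ∈ ball F o r, φ (Function.invFunOn φ (ball G v r) y) = y :=
    fun y hy => Function.invFunOn_eq (hb.surjOn hy)
  have h3 : ∀ y ∈ ball F o r, Function.invFunOn φ (ball G v r) y ∈ ball G v r :=
    fun y hy => Function.invFunOn_mem (hb.surjOn hy)
  refine ⟨Function.invFunOn φ (ball G v r), ⟨?_, ⟨h3, ?_, ?_⟩, ?_⟩, h1, h2⟩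
  · rw [← h0]; exact h1 v (self_mem_ball _ _)
  · intro y hy y' hy' hyy
    rw [← h2 y hy, hyy, h2 y' hy']
  · intro x hx
    exact ⟨φ x, hb.mapsTo hx, h1 x hx⟩
  · intro x hx y hy
    rw [ha _ (h3 x hx) _ (h3 y hy), h2 x hx, h2 y hy]

lemma ballIso_comp {v : V} {o : W} {o' : U} {r : ℕ} {φ : V → W} {ψ : W → U}
    (h : BallIso G v F o r φ) (h' : BallIso F o H o' r ψ) :
    BallIso G v H o' r (fun x => ψ (φ x)) := by
  obtain ⟨h0, hb, ha⟩ := h
  obtain ⟨h0', hb', ha'⟩ := h'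
  refine ⟨by simp only [h0, h0'], hb'.comp hb, ?_⟩
  intro x hx y hy
  rw [ha x hx y hy, ha' _ (hb.mapsTo hx) _ (hb.mapsTo hy)]

/-- `LocallyLike` in terms of functions -/
lemma exists_ballIso_iff {v : V} {o : W} {r : ℕ} :
    (∃ φ : G.induce (ball G v r) ≃g F.induce (ball F o r),
      ∀ h : v ∈ ball G v r, (φ ⟨v, h⟩ : W) = o) ↔ ∃ φ : V → W, BallIso G v F o r φ := by
  classical
  constructor
  · rintro ⟨φ, h0⟩
    refine ⟨fun x => if h : x ∈ ball G v r then (φ ⟨x, h⟩ : W) else o, ?_, ⟨?_, ?_, ?_⟩, ?_⟩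
    · simp only [self_mem_ball, dif_pos]
      exact h0 _
    · intro x hx
      simp only [hx, dif_pos]
      exact (φ ⟨x, hx⟩).2
    · intro x hx y hy hxy
      simp only [hx, hy, dif_pos] at hxy
      have := φ.injective (Subtype.ext hxy)
      exact congrArg Subtype.val this
    · intro y hy
      obtain ⟨⟨x, hx⟩, hxy⟩ := φ.surjective ⟨y, hy⟩
      refine ⟨x, hx, ?_⟩
      simp only [hx, dif_pos]
      rw [hxy]
    · intro x hx y hy
      simp only [hx, hy, dif_pos]
      have := φ.map_rel_iff' (a := ⟨x, hx⟩) (b := ⟨y, hy⟩)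
      exact this.symm
  · rintro ⟨φ, h0, hb, ha⟩
    refine ⟨⟨hb.equiv, ?_⟩, ?_⟩
    · rintro ⟨x, hx⟩ ⟨y, hy⟩
      exact (ha x hx y hy).symm
    · intro h
      exact h0

end general

/-! ### translations -/

section dev
variable {Γ Λ : Type} [Group Γ] [Fintype Λ] {T : TData Γ Λ} {V : Type} {G : SimpleGraph V}

lemma F_mul_right (a b c : Γ × Multiplicative (ZMod T.n₀)) :
    T.F.Adj (a * c) (b * c) ↔ T.F.Adj a b := by
  unfold TData.F cayL
  rw [SimpleGraph.fromRel_adj, SimpleGraph.fromRel_adj]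
  have h1 : b * c * (a * c)⁻¹ = b * a⁻¹ := by group
  have h2 : a * c * (b * c)⁻¹ = a * b⁻¹ := by group
  rw [h1, h2, ne_eq, mul_left_inj]

lemma ball_mul_right' {a z : Γ × Multiplicative (ZMod T.n₀)} {ρ : ℕ} (h : z ∈ ball T.F a ρ)
    (c : Γ × Multiplicative (ZMod T.n₀)) : z * c ∈ ball T.F (a * c) ρ := by
  induction ρ generalizing z with
  | zero =>
    rw [mem_ball_zero] at h ⊢
    rw [h]
  | succ n ih =>
    rcases mem_ball_succ.mp h with h | ⟨w, h, hadj⟩
    · exact ball_mono (Nat.le_succ n) (ih h)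
    · exact ball_adj (ih h) ((F_mul_right _ _ _).mpr hadj)

lemma ball_mul_right {a z c : Γ × Multiplicative (ZMod T.n₀)} {ρ : ℕ} :
    z * c ∈ ball T.F (a * c) ρ ↔ z ∈ ball T.F a ρ := by
  constructor
  · intro h
    have := ball_mul_right' h c⁻¹
    simpa using this
  · intro h; exact ball_mul_right' h c

lemma ballIso_mul {q : V} {z : Γ × Multiplicative (ZMod T.n₀)} {ρ : ℕ}
    {φ : V → Γ × Multiplicative (ZMod T.n₀)} (h : BallIso G q T.F z ρ φ) :
    BallIso G q T.F 1 ρ (fun y => φ y * z⁻¹) := by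
  obtain ⟨h0, hb, ha⟩ := h
  refine ⟨by simp only [h0, mul_inv_cancel], ⟨?_, ?_, ?_⟩, ?_⟩
  · intro y hy
    have := ball_mul_right' (hb.mapsTo hy) z⁻¹
    rwa [mul_inv_cancel] at this
  · intro x hx y hy hxy
    exact hb.injOn hx hy (mul_right_cancel hxy)
  · intro w hw
    have := ball_mul_right' hw z
    rw [one_mul] at this
    obtain ⟨y, hy, hyw⟩ := hb.surjOn this
    exact ⟨y, hy, by simp only [hyw, mul_inv_cancel_right]⟩
  · intro x hx y hy
    rw [F_mul_right]
    exact ha x hx y hy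

/-- central elements of the cyclic factor -/
def cc (T : TData Γ Λ) (x : ZMod T.n₀) : Γ × Multiplicative (ZMod T.n₀) :=
  (1, Multiplicative.ofAdd x)

lemma cc_add (x y : ZMod T.n₀) : cc T (x + y) = cc T x * cc T y := by
  simp [cc]

lemma cc_zero : cc T 0 = 1 := rfl

lemma cc_neg (x : ZMod T.n₀) : cc T (-x) = (cc T x)⁻¹ := by
  simp [cc]

lemma cc_mem {ρ : ℕ} (hρ : 2 ≤ ρ) (x : ZMod T.n₀) : cc T x ∈ ball T.F 1 ρ :=
  (mem_ball_til T hρ _).mpr ⟨[], by simp, rfl⟩

lemma ball_cc {ρ : ℕ} (hρ : 2 ≤ ρ) (x : ZMod T.n₀) (w : Γ × Multiplicative (ZMod T.n₀)) :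
    w ∈ ball T.F (cc T x) ρ ↔ w ∈ ball T.F 1 ρ := by
  have h1 : w ∈ ball T.F (cc T x) ρ ↔ w * cc T (-x) ∈ ball T.F 1 ρ := by
    have := ball_mul_right (a := cc T x) (z := w) (c := cc T (-x)) (ρ := ρ)
    rw [← cc_add, add_neg_cancel, cc_zero] at this
    exact this.symm
  rw [h1, mem_ball_til T hρ, mem_ball_til T hρ]
  have : (w * cc T (-x)).1 = w.1 := by simp [cc]
  rw [this]

/-- charts around all vertices -/
structure Dev (T : TData Γ Λ) (G : SimpleGraph V) (r : ℕ) where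
  φ : V → V → Γ × Multiplicative (ZMod T.n₀)
  iso : ∀ p, BallIso G p T.F 1 (r + 1) (φ p)
  hr : 2 ≤ r
  rig : ∀ R, r ≤ R → ∀ φ : Γ × Multiplicative (ZMod T.n₀) → Γ × Multiplicative (ZMod T.n₀),
    BallIso T.F 1 T.F 1 R φ → ∀ z ∈ ball T.F 1 R, φ z = z

variable {r : ℕ} (D : Dev T G r)

include D in
lemma uniq {p : V} {R : ℕ} (hR : r ≤ R) {φ₁ φ₂ : V → Γ × Multiplicative (ZMod T.n₀)}
    (h₁ : BallIso G p T.F 1 R φ₁) (h₂ : BallIso G p T.F 1 R φ₂) :
    ∀ y ∈ ball G p R, φ₁ y = φ₂ y := by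
  obtain ⟨ψ, hψ, h3, h4⟩ := ballIso_symm h₁
  intro y hy
  have := D.rig R hR _ (ballIso_comp hψ h₂) (φ₁ y) (h₁.2.1.mapsTo hy)
  rw [h3 y hy] at this
  exact this.symm

/-- points of the big ball with small chart value lie in the small ball -/
lemma mem_ball_of {p y : V} (hy : y ∈ ball G p (r + 1)) {ρ : ℕ} (hρ : ρ ≤ r + 1)
    (h : D.φ p y ∈ ball T.F 1 ρ) : y ∈ ball G p ρ := by
  obtain ⟨y', hy', he⟩ := (ballIso_restrict (D.iso p) hρ).2.1.surjOn h
  have := (D.iso p).2.1.injOn (ball_mono hρ hy') hy he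
  rwa [← this]

lemma inj {p y y' : V} (hy : y ∈ ball G p (r + 1)) (hy' : y' ∈ ball G p (r + 1))
    (h : D.φ p y = D.φ p y') : y = y' := (D.iso p).2.1.injOn hy hy' h

lemma exists_act (p : V) (z : Γ × Multiplicative (ZMod T.n₀)) :
    ∃ q : V, z ∈ ball T.F 1 (r + 1) → q ∈ ball G p (r + 1) ∧ D.φ p q = z := by
  by_cases h : z ∈ ball T.F 1 (r + 1)
  · obtain ⟨q, hq, he⟩ := (D.iso p).2.1.surjOn h
    exact ⟨q, fun _ => ⟨hq, he⟩⟩
  · exact ⟨p, fun h' => absurd h' h⟩

/-- the inverse charts -/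
noncomputable def act (z : Γ × Multiplicative (ZMod T.n₀)) (p : V) : V :=
  Classical.choose (exists_act D p z)

lemma act_spec {z : Γ × Multiplicative (ZMod T.n₀)} (hz : z ∈ ball T.F 1 (r + 1)) (p : V) :
    act D z p ∈ ball G p (r + 1) ∧ D.φ p (act D z p) = z :=
  Classical.choose_spec (exists_act D p z) hz

lemma eq_act {p q : V} (hq : q ∈ ball G p (r + 1)) : q = act D (D.φ p q) p := by
  have h := act_spec D ((D.iso p).2.1.mapsTo hq) p
  exact inj D hq h.1 h.2.symm

/-- `p` and `q` lie in the same fibre, with offset `x` -/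
def Fib (p q : V) (x : ZMod T.n₀) : Prop :=
  (∀ ρ, 2 ≤ ρ → ρ ≤ r + 1 → ball G q ρ = ball G p ρ) ∧
    ∀ y ∈ ball G p (r + 1), D.φ q y = D.φ p y * cc T (-x)

lemma Fib.trans {p q s : V} {x y : ZMod T.n₀} (h : Fib D p q x) (h' : Fib D q s y) :
    Fib D p s (x + y) := by
  have hr := D.hr
  refine ⟨fun ρ h1 h2 => (h'.1 ρ h1 h2).trans (h.1 ρ h1 h2), ?_⟩
  intro w hw
  rw [h'.2 w (by rw [h.1 (r + 1) (by omega) le_rfl]; exact hw), h.2 w hw, mul_assoc, ← cc_add]
  congr 2
  ring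

lemma fib_adj {p q : V} {x : ZMod T.n₀} (hadj : G.Adj p q) (hx : D.φ p q = cc T x) :
    Fib D p q x := by
  have hr := D.hr
  have hq1 := mem_ball_one hadj
  have hq : q ∈ ball G p (r + 1) := ball_mono (by omega) hq1
  have hball : ∀ ρ, 2 ≤ ρ → ρ ≤ r → ball G q ρ = ball G p ρ := by
    intro ρ h2 hρ
    have h := ballIso_recentre (D.iso p) hq1 (ρ := ρ) (by omega)
    rw [hx] at h
    ext y
    constructor
    · intro hy
      have h1 := (ball_cc h2 x _).mp (h.2.1.mapsTo hy)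
      exact mem_ball_of D (ball_mono (by omega) (ball_trans hq1 hy)) (by omega) h1
    · intro hy
      have h1 := (ballIso_restrict (D.iso p) (by omega : ρ ≤ r + 1)).2.1.mapsTo hy
      obtain ⟨y', hy', he⟩ := h.2.1.surjOn ((ball_cc h2 x _).mpr h1)
      have := inj D (ball_mono (by omega) (ball_trans hq1 hy'))
        (ball_mono (by omega : ρ ≤ r + 1) hy) he
      rwa [← this]
  have hball' : ∀ ρ, 2 ≤ ρ → ρ ≤ r + 1 → ball G q ρ = ball G p ρ := by
    intro ρ h2 hρ
    by_cases h : ρ ≤ r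
    · exact hball ρ h2 h
    · have : ρ = r + 1 := by omega
      subst this
      ext y
      rw [mem_ball_succ, mem_ball_succ, hball r hr le_rfl]
  refine ⟨hball', ?_⟩
  have hiso : BallIso G q T.F (cc T x) (r + 1) (D.φ p) := by
    refine ⟨hx, ?_, ?_⟩
    · have h1 : ball T.F (cc T x) (r + 1) = ball T.F 1 (r + 1) := by
        ext w; exact ball_cc (by omega) x w
      rw [hball' (r + 1) (by omega) le_rfl, h1]
      exact (D.iso p).2.1
    · rw [hball' (r + 1) (by omega) le_rfl]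
      exact (D.iso p).2.2
  intro y hy
  have := uniq D (Nat.le_succ r) (D.iso q) (ballIso_mul hiso) y
    (by rw [hball' (r + 1) (by omega) le_rfl]; exact hy)
  rw [this, cc_neg]

lemma exists_mid (x : ZMod T.n₀) : ∃ x' : ZMod T.n₀, ¬ (x' = 0 ∨ x' = 1 ∨ x' = -1) ∧
    ¬ (x - x' = 0 ∨ x - x' = 1 ∨ x - x' = -1) := by
  classical
  have hN := neZero T
  have h144 := n₀_ge T
  by_contra hcon
  push Not at hcon
  have hsub : (Finset.univ : Finset (ZMod T.n₀)) ⊆ {0, 1, -1, x, x - 1, x + 1} := by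
    intro y _
    simp only [Finset.mem_insert, Finset.mem_singleton]
    by_cases h1 : y = 0 ∨ y = 1 ∨ y = -1
    · tauto
    · have h3 := hcon y (by tauto)
      rcases h3 with h3 | h3 | h3
      · right; right; right; left; linear_combination -h3
      · right; right; right; right; left; linear_combination -h3
      · right; right; right; right; right; linear_combination -h3
  have h6 := Finset.card_le_card hsub
  have h7 : ({0, 1, -1, x, x - 1, x + 1} : Finset (ZMod T.n₀)).card ≤ 6 := Finset.card_le_six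
  rw [Finset.card_univ, ZMod.card] at h6
  omega

lemma adj_one_cc {x : ZMod T.n₀} (h : ¬ (x = 0 ∨ x = 1 ∨ x = -1)) : T.F.Adj 1 (cc T x) := by
  have := (adj_same T 1 0 x).mpr (by rwa [sub_zero])
  exact this

lemma fib_all {p q : V} (hq : q ∈ ball G p (r + 1)) {x : ZMod T.n₀} (hx : D.φ p q = cc T x) :
    Fib D p q x := by
  have hr := D.hr
  obtain ⟨x', h1, h2⟩ := exists_mid (T := T) x
  obtain ⟨hq', he'⟩ := act_spec D (cc_mem (by omega : 2 ≤ r + 1) x') p
  set q' := act D (cc T x') p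
  have hadj : G.Adj p q' := by
    rw [(D.iso p).2.2 p (self_mem_ball _ _) q' hq', he', (D.iso p).1]
    exact adj_one_cc h1
  have hf := fib_adj D hadj he'
  have hq2 : q ∈ ball G q' (r + 1) := by
    rw [hf.1 (r + 1) (by omega) le_rfl]; exact hq
  have he2 : D.φ q' q = cc T (x - x') := by
    rw [hf.2 q hq, hx, ← cc_add, sub_eq_add_neg]
  have hadj2 : G.Adj q' q := by
    rw [(D.iso q').2.2 q' (self_mem_ball _ _) q hq2, he2, (D.iso q').1]
    exact adj_one_cc h2
  have := (hf.trans D (fib_adj D hadj2 he2))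
  rwa [add_sub_cancel] at this

/-- change of charts along a letter -/
lemma step {p q : V} (hq : q ∈ ball G p (r + 1)) {s : Λ × Bool} {x : ZMod T.n₀}
    (hx : D.φ p q = (lv T.e s, Multiplicative.ofAdd x)) :
    ball G q r ⊆ ball G p (r + 1) ∧
      ∀ y ∈ ball G q r, D.φ q y = D.φ p y * (lv T.e s, Multiplicative.ofAdd x)⁻¹ := by
  have hr := D.hr
  set z' : Γ × Multiplicative (ZMod T.n₀) := (lv T.e s, Multiplicative.ofAdd 1) with hz'
  have hz'mem : z' ∈ ball T.F 1 (r + 1) :=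
    (mem_ball_til T (by omega) _).mpr ⟨[s], by simp, by simp [hz']⟩
  obtain ⟨hq', he'⟩ := act_spec D hz'mem p
  set q' := act D z' p
  have hadj : G.Adj p q' := by
    rw [(D.iso p).2.2 p (self_mem_ball _ _) q' hq', he', (D.iso p).1]
    have := (adj_ov T 1 (some s) 0 1).mpr (by
      rw [sub_zero]; exact one_notMem_pat s (k_lt' T _))
    rw [mul_one] at this
    exact this
  have hq'1 := mem_ball_one hadj
  have hrec := ballIso_recentre (D.iso p) hq'1 (ρ := r) (by omega)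
  rw [he'] at hrec
  have hchart := uniq D le_rfl (ballIso_restrict (D.iso q') (Nat.le_succ r)) (ballIso_mul hrec)
  have hq2 : q ∈ ball G q' r := by
    have h1 : D.φ p q ∈ ball T.F z' r := by
      rw [hx]
      have h2 : ((lv T.e s, Multiplicative.ofAdd x) : Γ × Multiplicative (ZMod T.n₀)) =
          cc T (x - 1) * z' := by
        simp only [cc, hz', Prod.mk_mul_mk, one_mul, ← ofAdd_add, sub_add_cancel]
      rw [h2]
      have := ball_mul_right' (cc_mem hr (x - 1)) z'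
      rwa [one_mul] at this
    obtain ⟨y, hy, he⟩ := hrec.2.1.surjOn h1
    have := inj D (ball_mono (by omega) (ball_trans hq'1 hy)) hq he
    rwa [← this]
  have he2 : D.φ q' q = cc T (x - 1) := by
    rw [hchart q hq2, hx]
    simp only [cc, hz', Prod.inv_mk, Prod.mk_mul_mk, mul_inv_cancel, ← ofAdd_neg, ← ofAdd_add,
      sub_eq_add_neg]
  have hf := fib_all D (ball_mono (Nat.le_succ r) hq2) he2
  have hb : ball G q r = ball G q' r := hf.1 r hr (Nat.le_succ r)
  refine ⟨?_, ?_⟩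
  · intro y hy
    rw [hb] at hy
    exact ball_mono (by omega) (ball_trans hq'1 hy)
  · intro y hy
    rw [hb] at hy
    rw [hf.2 y (ball_mono (Nat.le_succ r) hy), hchart y hy, mul_assoc]
    congr 1
    simp only [cc, hz', Prod.inv_mk, Prod.mk_mul_mk, mul_one, ← ofAdd_neg, ← ofAdd_add]
    congr 2
    ring

/-! ### the labelled structure -/

/-- the cyclic action -/
noncomputable def K (x : ZMod T.n₀) (p : V) : V := act D (cc T x) p

/-- the letters -/
noncomputable def L (s : Λ × Bool) (p : V) : V := act D (lv T.e s, 1) p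

lemma K_spec (x : ZMod T.n₀) (p : V) :
    K D x p ∈ ball G p 2 ∧ D.φ p (K D x p) = cc T x ∧ Fib D p (K D x p) x := by
  have hr := D.hr
  have h := act_spec D (cc_mem (by omega : 2 ≤ r + 1) x) p
  refine ⟨?_, h.2, fib_all D h.1 h.2⟩
  refine mem_ball_of D h.1 (by omega) ?_
  rw [h.2]
  exact cc_mem le_rfl x

lemma lv_mem (s : Λ × Bool) (x : ZMod T.n₀) {ρ : ℕ} (hρ : 2 ≤ ρ) :
    ((lv T.e s, Multiplicative.ofAdd x) : Γ × Multiplicative (ZMod T.n₀)) ∈ ball T.F 1 ρ :=
  (mem_ball_til T hρ _).mpr ⟨[s], by simp; omega, by simp⟩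

lemma L_spec (s : Λ × Bool) (p : V) :
    L D s p ∈ ball G p 2 ∧ D.φ p (L D s p) = (lv T.e s, 1) := by
  have hr := D.hr
  have h := act_spec D (lv_mem s 0 (by omega : 2 ≤ r + 1)) p
  refine ⟨?_, h.2⟩
  refine mem_ball_of D h.1 (by omega) ?_
  rw [h.2]
  exact lv_mem s 0 le_rfl

lemma K_zero (p : V) : K D 0 p = p := by
  have hr := D.hr
  obtain ⟨h1, h2, -⟩ := K_spec D 0 p
  refine inj D (ball_mono (by omega) h1) (self_mem_ball _ _) ?_
  rw [h2, (D.iso p).1]
  rfl

lemma K_add (x y : ZMod T.n₀) (p : V) : K D x (K D y p) = K D (x + y) p := by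
  have hr := D.hr
  obtain ⟨h1, h2, h3⟩ := K_spec D y p
  obtain ⟨g1, g2, -⟩ := K_spec D x (K D y p)
  obtain ⟨k1, k2, -⟩ := K_spec D (x + y) p
  have hm : K D x (K D y p) ∈ ball G p (r + 1) := by
    rw [← h3.1 (r + 1) (by omega) le_rfl]
    exact ball_mono (by omega) g1
  refine inj D hm (ball_mono (by omega) k1) ?_
  have h4 := h3.2 _ hm
  rw [g2] at h4
  rw [k2, cc_add, h4, mul_assoc, ← cc_add, neg_add_cancel, cc_zero, mul_one]

lemma L_inv (s : Λ × Bool) (p : V) : L D (s.1, !s.2) (L D s p) = p := by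
  have hr := D.hr
  obtain ⟨h1, h2⟩ := L_spec D s p
  obtain ⟨g1, g2⟩ := L_spec D (s.1, !s.2) (L D s p)
  have hst := step D (ball_mono (by omega) h1) (s := s) (x := 0) h2
  have hp : p ∈ ball G (L D s p) r := ball_mono hr (ball_symm h1)
  refine inj D (ball_mono (by omega) g1) (ball_mono (by omega) hp) ?_
  rw [g2, hst.2 p hp, (D.iso p).1, one_mul, lv_not, Prod.inv_mk, ofAdd_zero, inv_one]

lemma K_L (x : ZMod T.n₀) (s : Λ × Bool) (p : V) : K D x (L D s p) = L D s (K D x p) := by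
  have hr := D.hr
  obtain ⟨h1, h2⟩ := L_spec D s p
  obtain ⟨g1, g2, -⟩ := K_spec D x (L D s p)
  have hst := step D (ball_mono (by omega) h1) (s := s) (x := 0) h2
  have hg1 : K D x (L D s p) ∈ ball G (L D s p) r := ball_mono hr g1
  obtain ⟨k1, k2, k3⟩ := K_spec D x p
  obtain ⟨l1, l2⟩ := L_spec D s (K D x p)
  have hl1 : L D s (K D x p) ∈ ball G p (r + 1) := by
    rw [← k3.1 (r + 1) (by omega) le_rfl]
    exact ball_mono (by omega) l1
  refine inj D (hst.1 hg1) hl1 ?_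
  have e1 := hst.2 _ hg1
  have e2 := k3.2 _ hl1
  rw [g2] at e1
  rw [l2] at e2
  have e1' : D.φ p (K D x (L D s p)) =
      cc T x * (lv T.e s, Multiplicative.ofAdd 0) := by rw [e1, inv_mul_cancel_right]
  have e2' : D.φ p (L D s (K D x p)) = (lv T.e s, 1) * cc T x := by
    rw [e2, mul_assoc, ← cc_add, neg_add_cancel, cc_zero, mul_one]
  rw [e1', e2']
  simp [cc]

/-- the labelled structure of a developed graph -/
noncomputable def XD : LS Λ V :=
  (fun l => ⟨L D (l, true), L D (l, false), fun p => L_inv D (l, true) p,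
    fun p => L_inv D (l, false) p⟩,
   ⟨K D 1, K D (-1), fun p => by rw [K_add, neg_add_cancel, K_zero],
    fun p => by rw [K_add, add_neg_cancel, K_zero]⟩)

lemma XD_lv (s : Λ × Bool) (p : V) : lv (XD D).1 s p = L D s p := by
  obtain ⟨l, b⟩ := s
  cases b
  · rfl
  · rfl

lemma XD_zpow (n : ℤ) (p : V) : ((XD D).2 ^ n) p = K D (n : ZMod T.n₀) p := by
  induction n generalizing p with
  | zero => rw [zpow_zero]; simp [K_zero]
  | succ n ih =>
    rw [zpow_add_one, Equiv.Perm.mul_apply, ih]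
    have : (XD D).2 p = K D 1 p := rfl
    rw [this, K_add]
    push_cast
    rfl
  | pred n ih =>
    rw [zpow_sub_one, Equiv.Perm.mul_apply, ih]
    have : (XD D).2⁻¹ p = K D (-1) p := rfl
    rw [this, K_add]
    push_cast
    rw [sub_eq_add_neg]

lemma XD_comm (l : Λ) : Commute (XD D).2 ((XD D).1 l) := by
  ext p
  exact K_L D 1 (l, true) p

lemma XD_comm_wp (n : ℤ) (u : Wd Λ) : Commute ((XD D).2 ^ n) (wp (XD D).1 u) := by
  induction u with
  | nil => exact Commute.one_right _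
  | cons s u ih =>
    rw [wp_cons]
    refine Commute.mul_right ?_ ih
    obtain ⟨l, b⟩ := s
    cases b
    · rw [lv_false]; exact ((XD_comm D l).zpow_left n).inv_right
    · rw [lv_true]; exact (XD_comm D l).zpow_left n

lemma wordD (u : Wd Λ) : u.length ≤ r + 1 → ∀ p, wp (XD D).1 u p ∈ ball G p (r + 1) ∧
    D.φ p (wp (XD D).1 u p) = (wp T.e u, 1) := by
  have hr := D.hr
  induction u using List.reverseRecOn with
  | nil =>
    intro _ p
    exact ⟨self_mem_ball _ _, (D.iso p).1⟩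
  | append_singleton u s ih =>
    intro hu p
    rw [List.length_append, List.length_singleton] at hu
    have e0 : wp (XD D).1 (u ++ [s]) p = wp (XD D).1 u (L D s p) := by
      rw [wp_append, Equiv.Perm.mul_apply, wp_cons, wp_nil, mul_one, XD_lv]
    rw [e0]
    obtain ⟨h1, h2⟩ := ih (by omega) (L D s p)
    obtain ⟨l1, l2⟩ := L_spec D s p
    have hst := step D (ball_mono (by omega) l1) (s := s) (x := 0) l2
    have hm : wp (XD D).1 u (L D s p) ∈ ball G (L D s p) r := by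
      refine mem_ball_of D h1 (Nat.le_succ r) ?_
      rw [h2]
      exact (mem_ball_til T hr _).mpr ⟨u, by omega, rfl⟩
    refine ⟨hst.1 hm, ?_⟩
    have h3 := hst.2 _ hm
    rw [h2] at h3
    have h4 : D.φ p (wp (XD D).1 u (L D s p)) =
        (wp T.e u, 1) * (lv T.e s, Multiplicative.ofAdd 0) := by
      rw [h3, inv_mul_cancel_right]
    rw [h4]
    simp

lemma wordK (u : Wd Λ) (hu : u.length ≤ r + 1) (n : ℤ) (p : V) :
    ((XD D).2 ^ n) (wp (XD D).1 u p) ∈ ball G p (r + 1) ∧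
    D.φ p (((XD D).2 ^ n) (wp (XD D).1 u p)) =
      (wp T.e u, Multiplicative.ofAdd (n : ZMod T.n₀)) := by
  have hr := D.hr
  have e0 : ((XD D).2 ^ n) (wp (XD D).1 u p) = wp (XD D).1 u (K D (n : ZMod T.n₀) p) := by
    rw [← XD_zpow, ← Equiv.Perm.mul_apply, ← Equiv.Perm.mul_apply, (XD_comm_wp D n u).eq]
  rw [e0]
  obtain ⟨k1, k2, k3⟩ := K_spec D (n : ZMod T.n₀) p
  obtain ⟨h1, h2⟩ := wordD D u hu (K D (n : ZMod T.n₀) p)
  rw [k3.1 (r + 1) (by omega) le_rfl] at h1
  refine ⟨h1, ?_⟩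
  have h3 := k3.2 _ h1
  rw [h2] at h3
  have h4 : D.φ p (wp (XD D).1 u (K D (n : ZMod T.n₀) p)) =
      (wp T.e u, 1) * cc T (n : ZMod T.n₀) := by
    rw [h3, mul_assoc, ← cc_add, neg_add_cancel, cc_zero, mul_one]
  rw [h4]
  simp [cc]

/-- the word of a letter or of the trivial letter -/
def ow : Option (Λ × Bool) → Wd Λ
  | none => []
  | some s => [s]

omit [Fintype Λ] in
lemma wp_ow (t : Option (Λ × Bool)) (e : Λ → Γ) : wp e (ow t) = ov e t := by
  cases t <;> simp [ow, ov]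

omit [Fintype Λ] in
lemma length_ow (t : Option (Λ × Bool)) : (ow t).length ≤ 1 := by
  cases t <;> simp [ow]

/-- every neighbour is given by a letter or the trivial letter -/
lemma nbr_form {p q : V} (h : G.Adj p q) : ∃ (t : Option (Λ × Bool)) (n : ℤ),
    (n : ZMod T.n₀) ∉ opat T.k T.n₀ t ∧ q = ((XD D).2 ^ n) (wp (XD D).1 (ow t) p) := by
  have hr := D.hr
  have hq : q ∈ ball G p (r + 1) := ball_mono (by omega) (mem_ball_one h)
  have hadj := h
  rw [(D.iso p).2.2 p (self_mem_ball _ _) q hq, (D.iso p).1, adj_iff] at hadj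
  obtain ⟨t, h1, h2⟩ := hadj
  obtain ⟨n, hn⟩ := ZMod.intCast_surjective (Multiplicative.toAdd (D.φ p q).2)
  have h0 : Multiplicative.toAdd (1 : Γ × Multiplicative (ZMod T.n₀)).2 = 0 := rfl
  rw [h0, sub_zero] at h2
  refine ⟨t, n, by rw [hn]; exact h2, ?_⟩
  obtain ⟨w1, w2⟩ := wordK D (ow t) (by have := length_ow t; omega) n p
  refine inj D hq w1 ?_
  rw [w2, wp_ow, hn]
  refine Prod.ext ?_ rfl
  rw [h1]
  simp

/-- the points given by a letter or the trivial letter are neighbours or not -/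
lemma adj_form (p : V) (t : Option (Λ × Bool)) (n : ℤ) :
    G.Adj p (((XD D).2 ^ n) (wp (XD D).1 (ow t) p)) ↔ (n : ZMod T.n₀) ∉ opat T.k T.n₀ t := by
  have hr := D.hr
  obtain ⟨w1, w2⟩ := wordK D (ow t) (by have := length_ow t; omega) n p
  rw [(D.iso p).2.2 p (self_mem_ball _ _) _ w1, (D.iso p).1, w2, wp_ow]
  have := adj_ov T 1 t 0 (n : ZMod T.n₀)
  rw [mul_one, sub_zero] at this
  exact this

/-- adjacency of points given by words -/
lemma adj_words (p : V) (u v : Wd Λ) (hu : u.length ≤ r + 1) (hv : v.length ≤ r + 1) (n : ℤ) :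
    G.Adj (wp (XD D).1 u p) (((XD D).2 ^ n) (wp (XD D).1 v p)) ↔
      T.F.Adj (wp T.e u, Multiplicative.ofAdd 0) (wp T.e v, Multiplicative.ofAdd (n : ZMod T.n₀)) := by
  obtain ⟨w1, w2⟩ := wordD D u hu p
  obtain ⟨v1, v2⟩ := wordK D v hv n p
  rw [(D.iso p).2.2 _ w1 _ v1, w2, v2]
  rfl

theorem good_XD : Good T.e T.n₀ (r + 1) (XD D) := by
  have hr := D.hr
  refine ⟨XD_comm D, ?_⟩
  intro u hu x p
  by_cases hlen : u.length ≤ 2 * (r + 1)
  · -- split into two words of length at most r + 1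
    set u₂ := u.take (r + 1) with hu₂
    set u₁ := u.drop (r + 1) with hu₁
    have hu12 : u = u₂ ++ u₁ := (List.take_append_drop _ _).symm
    have l1 : u₁.length ≤ r + 1 := by rw [hu₁, List.length_drop]; omega
    have l2 : u₂.length ≤ r + 1 := by rw [hu₂, List.length_take]; omega
    obtain ⟨a1, a2⟩ := wordK D u₁ l1 x p
    obtain ⟨b1, b2⟩ := wordD D (winv u₂) (by rwa [length_winv]) p
    have e1 : ((XD D).2 ^ x) (wp (XD D).1 u p) = p ↔
        ((XD D).2 ^ x) (wp (XD D).1 u₁ p) = wp (XD D).1 (winv u₂) p := by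
      rw [hu12, wp_append, wp_winv, Equiv.Perm.mul_apply]
      have : ((XD D).2 ^ x) (wp (XD D).1 u₂ (wp (XD D).1 u₁ p)) =
          wp (XD D).1 u₂ (((XD D).2 ^ x) (wp (XD D).1 u₁ p)) := by
        rw [← Equiv.Perm.mul_apply, (XD_comm_wp D x u₂).eq, Equiv.Perm.mul_apply]
      rw [this, Equiv.Perm.eq_inv_iff_eq]
    rw [e1]
    have e2 : ((XD D).2 ^ x) (wp (XD D).1 u₁ p) = wp (XD D).1 (winv u₂) p ↔
        D.φ p (((XD D).2 ^ x) (wp (XD D).1 u₁ p)) = D.φ p (wp (XD D).1 (winv u₂) p) :=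
      ⟨fun h => by rw [h], fun h => inj D a1 b1 h⟩
    rw [e2, a2, b2, wp_winv, Prod.mk.injEq, hu12, wp_append, ofAdd_eq_one,
      ZMod.intCast_zmod_eq_zero_iff_dvd]
    rw [eq_inv_iff_mul_eq_one, mul_eq_one_comm]
  · -- u = u₂ ++ [s] ++ u₁ with both outer words of length r + 1
    have hlen' : u.length = 2 * (r + 1) + 1 := by omega
    obtain ⟨u₂, s, u₁, hu12, l2, l1⟩ : ∃ (u₂ : Wd Λ) (s : Λ × Bool) (u₁ : Wd Λ),
        u = u₂ ++ s :: u₁ ∧ u₂.length = r + 1 ∧ u₁.length = r + 1 := by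
      have h1 : (u.drop (r + 1)).length = r + 1 + 1 := by rw [List.length_drop]; omega
      cases hd : u.drop (r + 1) with
      | nil => rw [hd] at h1; simp at h1
      | cons s u₁ =>
        refine ⟨u.take (r + 1), s, u₁, ?_, ?_, ?_⟩
        · rw [← hd, List.take_append_drop]
        · rw [List.length_take]; omega
        · rw [hd] at h1; simpa using h1
    set y := wp (XD D).1 u₁ p with hy
    set y' := wp (XD D).1 (winv u₂) p with hy'
    have e1 : ((XD D).2 ^ x) (wp (XD D).1 u p) = p ↔ ((XD D).2 ^ x) (L D s y) = y' := by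
      rw [hu12, wp_append, wp_cons, hy', wp_winv, Equiv.Perm.mul_apply, Equiv.Perm.mul_apply,
        XD_lv]
      have : ((XD D).2 ^ x) (wp (XD D).1 u₂ (L D s y)) =
          wp (XD D).1 u₂ (((XD D).2 ^ x) (L D s y)) := by
        rw [← Equiv.Perm.mul_apply, (XD_comm_wp D x u₂).eq, Equiv.Perm.mul_apply]
      rw [← hy, this, Equiv.Perm.eq_inv_iff_eq]
    -- adjacency of y and the points over y' in the chart of p
    have hadjp : ∀ c : ℤ, G.Adj y (((XD D).2 ^ c) y') ↔
        T.F.Adj (wp T.e u₁, Multiplicative.ofAdd 0)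
          ((wp T.e u₂)⁻¹, Multiplicative.ofAdd (c : ZMod T.n₀)) := by
      intro c
      rw [hy, hy', adj_words D p u₁ (winv u₂) l1.le (by rw [length_winv]; omega) c, wp_winv]
    have hLs : L D s y = wp (XD D).1 (ow (some s)) y := by
      simp only [ow, wp_cons, wp_nil, mul_one]
      rw [XD_lv]
    have hkk := k_lt' T
    constructor
    · intro hcl
      rw [e1] at hcl
      have hadjy : ∀ c : ℤ, G.Adj y (((XD D).2 ^ c) y') ↔
          ((c : ZMod T.n₀) + (x : ZMod T.n₀)) ∉ pat T.k T.n₀ s := by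
        intro c
        rw [← hcl, ← Equiv.Perm.mul_apply, ← zpow_add, hLs, adj_form]
        push_cast
        rfl
      obtain ⟨c₀, hc₀⟩ := ZMod.intCast_surjective (n := T.n₀) (1 - (x : ZMod T.n₀))
      have h1 := (hadjp c₀).mp ((hadjy c₀).mpr (by
        rw [hc₀, sub_add_cancel]; exact one_notMem_pat s (hkk _)))
      obtain ⟨t, ht, -⟩ := (adj_iff T _ _).mp h1
      simp only at ht
      have hpat : ∀ c : ZMod T.n₀, c ∈ opat T.k T.n₀ t ↔ c + (x : ZMod T.n₀) ∈ pat T.k T.n₀ s := by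
        intro c
        obtain ⟨c', rfl⟩ := ZMod.intCast_surjective c
        have h2 := (hadjp c').symm.trans (hadjy c')
        rw [ht, adj_ov, sub_zero] at h2
        exact not_iff_not.mp h2
      cases t with
      | none => exact absurd (pattern_triple (k := T.k) hkk hpat) id
      | some t =>
        obtain ⟨h3, h4⟩ := pattern_rigid (k := T.k) T.k_inj hkk hpat
        refine ⟨?_, (ZMod.intCast_zmod_eq_zero_iff_dvd _ _).mp h3⟩
        rw [hu12, wp_append, wp_cons, ← h4]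
        simp only [ov] at ht
        rw [← ht, mul_inv_cancel]
    · rintro ⟨hcl, hx⟩
      rw [e1]
      have hx0 : ((x : ℤ) : ZMod T.n₀) = 0 := (ZMod.intCast_zmod_eq_zero_iff_dvd _ _).mpr hx
      have hbase : (wp T.e u₂)⁻¹ = ov T.e (some s) * wp T.e u₁ := by
        rw [hu12, wp_append, wp_cons] at hcl
        exact (inv_eq_of_mul_eq_one_right hcl)
      have hadjs : ∀ c : ℤ, G.Adj y (((XD D).2 ^ c) y') ↔ (c : ZMod T.n₀) ∉ pat T.k T.n₀ s := by
        intro c
        rw [hadjp c, hbase, adj_ov, sub_zero]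
        rfl
      have hadj1 : G.Adj y (((XD D).2 ^ (1 : ℤ)) y') := by
        rw [hadjs 1]
        push_cast
        exact one_notMem_pat s (hkk _)
      obtain ⟨t, d, hd1, hd2⟩ := nbr_form D hadj1
      have hpat : ∀ c : ZMod T.n₀, c ∈ pat T.k T.n₀ s ↔
          c + ((d : ZMod T.n₀) - 1) ∈ opat T.k T.n₀ t := by
        intro c
        obtain ⟨c', rfl⟩ := ZMod.intCast_surjective c
        have h2 := hadjs c'
        have h3 : ((XD D).2 ^ c') y' = ((XD D).2 ^ (c' - 1 + d)) (wp (XD D).1 (ow t) y) := by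
          have h5 : ((XD D).2 ^ (c' - 1)) (((XD D).2 ^ (1 : ℤ)) y') = ((XD D).2 ^ c') y' := by
            rw [← Equiv.Perm.mul_apply ((XD D).2 ^ (c' - 1)), ← zpow_add, sub_add_cancel]
          rw [zpow_add, Equiv.Perm.mul_apply, ← hd2, h5]
        rw [h3, adj_form] at h2
        have h4 := not_iff_not.mp h2
        rw [← h4]
        push_cast
        rw [show (c' : ZMod T.n₀) - 1 + d = c' + (d - 1) by ring]
      cases t with
      | none =>
        exfalso
        refine pattern_triple (k := T.k) hkk (t := s) (c := -((d : ZMod T.n₀) - 1)) ?_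
        intro c
        rw [hpat, neg_add_cancel_right]
        rfl
      | some t =>
        obtain ⟨h3, h4⟩ := pattern_rigid (k := T.k) T.k_inj hkk hpat
        subst h4
        have h5 : ((XD D).2 ^ (1 : ℤ)) y' = ((XD D).2 ^ (1 : ℤ)) (L D s y) := by
          rw [hd2, ← hLs, XD_zpow, XD_zpow]
          push_cast
          rw [sub_eq_zero.mp h3]
        have h6 := ((XD D).2 ^ (1 : ℤ)).injective h5
        rw [XD_zpow, hx0, K_zero, h6]

theorem graphOf_XD : graphOf T.k T.n₀ (XD D) = G := by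
  have hr := D.hr
  have hrel : ∀ p q : V, ((∃ x : ℤ, (x : ZMod T.n₀) ≠ 0 ∧ (x : ZMod T.n₀) ≠ 1 ∧
      (x : ZMod T.n₀) ≠ -1 ∧ q = ((XD D).2 ^ x) p) ∨
      ∃ (s : Λ × Bool) (x : ℤ), (x : ZMod T.n₀) ∉ pat T.k T.n₀ s ∧
        q = ((XD D).2 ^ x) (lv (XD D).1 s p)) ↔ G.Adj p q := by
    intro p q
    constructor
    · rintro (⟨x, h0, h1, h2, rfl⟩ | ⟨s, x, h, rfl⟩)
      · have := (adj_form D p none x).mpr (by simp [opat, h0, h1, h2])
        simpa [ow] using this
      · have := (adj_form D p (some s) x).mpr h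
        simpa [ow] using this
    · intro h
      obtain ⟨t, n, h1, h2⟩ := nbr_form D h
      cases t with
      | none =>
        left
        refine ⟨n, ?_, ?_, ?_, by simpa [ow] using h2⟩
        · intro h; exact h1 (Or.inl h)
        · intro h; exact h1 (Or.inr (Or.inl h))
        · intro h; exact h1 (Or.inr (Or.inr h))
      | some s =>
        right
        exact ⟨s, n, h1, by simpa [ow] using h2⟩
  ext p q
  unfold graphOf
  rw [SimpleGraph.fromRel_adj, hrel, hrel]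
  constructor
  · rintro ⟨_, h | h⟩
    · exact h
    · exact h.symm
  · intro h
    exact ⟨h.ne, Or.inl h⟩

end dev

end TrD

open TrD TrB in
/-- M4d -/
theorem exists_good {Γ Λ : Type} [Group Γ] [Fintype Λ] (T : TData Γ Λ) :
    ∃ R₁ : ℕ, ∀ r ≥ R₁, ∀ {V : Type} (G : SimpleGraph V),
    LocallyLike G T.F 1 r → ∃ X : LS Λ V, Good T.e T.n₀ r X ∧ graphOf T.k T.n₀ X = G := by
  obtain ⟨R₀, hR₀⟩ := rigid T
  refine ⟨R₀ + 3, ?_⟩
  intro r hr V G hG
  obtain ⟨r', rfl⟩ : ∃ r', r = r' + 1 := ⟨r - 1, by omega⟩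
  have h1 : ∀ v : V, ∃ φ : V → Γ × Multiplicative (ZMod T.n₀), BallIso G v T.F 1 (r' + 1) φ :=
    fun v => exists_ballIso_iff.mp (hG v)
  choose φ hφ using h1
  let D : Dev T G r' := ⟨φ, hφ, by omega, fun R hR => hR₀ R (by omega)⟩
  exact ⟨XD D, good_XD D, graphOf_XD D⟩

end Pool.Agent.Helper55.LF
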