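import Mathlib
import Pool.Agent.Helper55.LF.Defs
import Pool.Agent.Helper55.LF.TrAC
import Pool.Agent.Helper55.LF.TrD

/-! M4e, M4f: assembly of the transfer theorem.
needs: mem_ball_til, rigid, good_ball, exists_good -/

namespace Pool.Agent.Helper55.LF

-- needs: mem_ball_til, rigid, good_ball, exists_good (M4a-M4d), all with the variable T explicit

lemma mem_ball_self {V : Type*} (G : SimpleGraph V) (v : V) (r : ℕ) : v ∈ ball G v r :=
  ⟨SimpleGraph.Walk.nil, by simp⟩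

lemma ball_iso_image {V W : Type*} {G : SimpleGraph V} {F : SimpleGraph W} (e : G ≃g F) (v w : V)
    (r : ℕ) : w ∈ ball G v r ↔ e w ∈ ball F (e v) r := by
  constructor
  · rintro ⟨p, hp⟩
    exact ⟨p.map e.toHom, by rw [SimpleGraph.Walk.length_map]; exact hp⟩
  · rintro ⟨p, hp⟩
    have q : G.Walk (e.symm (e v)) (e.symm (e w)) := p.map e.symm.toHom
    refine ⟨(p.map e.symm.toHom).copy (e.symm_apply_apply v) (e.symm_apply_apply w), ?_⟩
    rw [SimpleGraph.Walk.length_copy, SimpleGraph.Walk.length_map]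
    exact hp

lemma locallyLike_of_iso {V W W' : Type*} (G : SimpleGraph V) {F : SimpleGraph W}
    {F' : SimpleGraph W'} (e : F ≃g F') (o : W) (r : ℕ) (h : LocallyLike G F o r) :
    LocallyLike G F' (e o) r := by
  intro v
  obtain ⟨φ, hφ⟩ := h v
  let ε : F.induce (ball F o r) ≃g F'.induce (ball F' (e o) r) :=
    { toEquiv := e.toEquiv.subtypeEquiv fun w => ball_iso_image e o w r
      map_rel_iff' := by
        intro a b
        exact e.map_rel_iff }
  refine ⟨φ.trans ε, fun hv => ?_⟩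
  change e (φ ⟨v, hv⟩ : W) = e o
  rw [hφ hv]

/-- inversion -/
def cayIso {Γ : Type*} [Group Γ] (S : Set Γ) : cay S ≃g cayL S where
  toEquiv := Equiv.inv Γ
  map_rel_iff' := by
    intro a b
    simp only [cay, cayL, SimpleGraph.fromRel_adj, Equiv.inv_apply, inv_inv, ne_eq, inv_inj]
    rw [or_comm]

/-- M4f -/
theorem locallyLike_cay {Γ V : Type} [Group Γ] (S : Set Γ) (G : SimpleGraph V) (r : ℕ) :
    LocallyLike G (cay S) 1 r ↔ LocallyLike G (cayL S) 1 r := by
  have h1 : (cayIso S) 1 = 1 := by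
    change (1 : Γ)⁻¹ = 1
    exact inv_one
  have h2 : (cayIso S).symm 1 = 1 := by
    rw [← h1, (cayIso S).symm_apply_apply, h1]
  constructor
  · intro h
    have := locallyLike_of_iso G (cayIso S) 1 r h
    rwa [h1] at this
  · intro h
    have := locallyLike_of_iso G (cayIso S).symm 1 r h
    rwa [h2] at this

lemma BallIso.exists_iso {V W : Type*} {G : SimpleGraph V} {v : V} {F : SimpleGraph W} {o : W}
    {r : ℕ} {ψ : W → V} (h : BallIso F o G v r ψ) :
    ∃ φ : G.induce (ball G v r) ≃g F.induce (ball F o r),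
      ∀ h : v ∈ ball G v r, (φ ⟨v, h⟩ : W) = o := by
  obtain ⟨h1, h2, h3⟩ := h
  let ε : F.induce (ball F o r) ≃g G.induce (ball G v r) :=
    { toEquiv := Set.BijOn.equiv ψ h2
      map_rel_iff' := by
        intro a b
        exact (h3 a a.2 b b.2).symm }
  refine ⟨ε.symm, fun hv => ?_⟩
  have h4 : ε ⟨o, mem_ball_self F o r⟩ = ⟨v, hv⟩ := Subtype.ext h1
  rw [← h4, ε.symm_apply_apply]

/-- two ball isomorphisms onto the same ball differ by an automorphism -/
lemma BallIso.comp_inv {V W : Type*} {G : SimpleGraph V} {v : V} {F : SimpleGraph W} {o : W}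
    {r : ℕ} {ψ ψ' : W → V} (h : BallIso F o G v r ψ) (h' : BallIso F o G v r ψ') :
    ∃ φ : W → W, BallIso F o F o r φ ∧ ∀ w ∈ ball F o r, ψ' (φ w) = ψ w := by
  classical
  have : Nonempty W := ⟨o⟩
  obtain ⟨h1, h2, h3⟩ := h
  obtain ⟨h1', h2', h3'⟩ := h'
  set χ : V → W := Function.invFunOn ψ' (ball F o r) with hχ
  have hinv : ∀ y ∈ ball G v r, χ y ∈ ball F o r ∧ ψ' (χ y) = y := by
    intro y hy
    obtain ⟨w, hw, hwy⟩ := h2'.surjOn hy
    exact ⟨Function.invFunOn_mem ⟨w, hw, hwy⟩, Function.invFunOn_eq ⟨w, hw, hwy⟩⟩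
  have hinv2 : ∀ w ∈ ball F o r, χ (ψ' w) = w := by
    intro w hw
    have := hinv (ψ' w) (h2'.mapsTo hw)
    exact h2'.injOn this.1 hw this.2
  refine ⟨fun w => χ (ψ w), ⟨?_, ⟨?_, ?_, ?_⟩, ?_⟩, ?_⟩
  · change χ (ψ o) = o
    rw [h1, ← h1', hinv2 o (mem_ball_self F o r)]
  · intro w hw
    exact (hinv _ (h2.mapsTo hw)).1
  · intro w hw w' hw' hww
    have e1 := (hinv _ (h2.mapsTo hw)).2
    have e2 := (hinv _ (h2.mapsTo hw')).2
    apply h2.injOn hw hw'
    rw [← e1, ← e2]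
    exact congrArg ψ' hww
  · intro w hw
    obtain ⟨w', hw', hww⟩ := h2.surjOn (h2'.mapsTo hw)
    exact ⟨w', hw', by change χ (ψ w') = w; rw [hww, hinv2 w hw]⟩
  · intro x hx y hy
    have e1 := hinv _ (h2.mapsTo hx)
    have e2 := hinv _ (h2.mapsTo hy)
    rw [h3 x hx y hy]
    change _ ↔ F.Adj (χ (ψ x)) (χ (ψ y))
    rw [h3' _ e1.1 _ e2.1, e1.2, e2.2]
  · intro w hw
    exact (hinv _ (h2.mapsTo hw)).2

section transfer
variable {Γ Λ : Type} [Group Γ] [Fintype Λ] (T : TData Γ Λ)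

lemma n0_large : 64 ≤ T.n₀ := by
  have h1 := T.large
  have h2 : 2 ^ 2 ≤ (Fintype.card Λ + 2) ^ 2 := Nat.pow_le_pow_left (by omega) 2
  omega

lemma k_large (l : Λ) : T.k l + 4 < T.n₀ := by
  have h1 := T.large
  have h3 := T.k_lt l
  have h2 : Fintype.card Λ + 2 ≤ (Fintype.card Λ + 2) ^ 2 := Nat.le_self_pow (by norm_num) _
  omega

/-- a small integer which is zero modulo `n₀` is zero -/
lemma small_cast_ne {x : ℤ} (hx : x ≠ 0) (h : |x| < T.n₀) : (x : ZMod T.n₀) ≠ 0 := by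
  intro h1
  rw [ZMod.intCast_zmod_eq_zero_iff_dvd] at h1
  have := Int.le_of_dvd (abs_pos.mpr hx) ((dvd_abs _ _).mpr h1)
  omega

section reach
variable {V : Type} (X : LS Λ V)

lemma reach_of_rel {p q : V} (h : (∃ x : ℤ, (x : ZMod T.n₀) ≠ 0 ∧ (x : ZMod T.n₀) ≠ 1 ∧
      (x : ZMod T.n₀) ≠ -1 ∧ q = (X.2 ^ x) p) ∨
    ∃ (s : Λ × Bool) (x : ℤ), (x : ZMod T.n₀) ∉ pat T.k T.n₀ s ∧ q = (X.2 ^ x) (lv X.1 s p)) :
    (graphOf T.k T.n₀ X).Reachable p q := by
  by_cases hpq : p = q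
  · rw [hpq]
  · refine SimpleGraph.Adj.reachable ?_
    rw [graphOf, SimpleGraph.fromRel_adj]
    exact ⟨hpq, Or.inl h⟩

lemma reach_kappa_big {p : V} {x : ℤ} (h1 : 1 < |x|) (h2 : |x| < 10) :
    (graphOf T.k T.n₀ X).Reachable p ((X.2 ^ x) p) := by
  have hn := n0_large T
  refine reach_of_rel T X (Or.inl ⟨x, ?_, ?_, ?_, rfl⟩)
  · exact small_cast_ne T (by rintro rfl; simp at h1) (by omega)
  · intro h
    have h3 : ((x - 1 : ℤ) : ZMod T.n₀) = 0 := by push_cast; rw [h]; ring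
    refine small_cast_ne T ?_ ?_ h3
    · intro h4
      have : x = 1 := by omega
      rw [this] at h1; simp at h1
    · rw [abs_lt] at *; constructor <;> omega
  · intro h
    have h3 : ((x + 1 : ℤ) : ZMod T.n₀) = 0 := by push_cast; rw [h]; ring
    refine small_cast_ne T ?_ ?_ h3
    · intro h4
      have : x = -1 := by omega
      rw [this] at h1; simp at h1
    · rw [abs_lt] at *; constructor <;> omega

lemma reach_kappa_one (p : V) : (graphOf T.k T.n₀ X).Reachable p (X.2 p) := by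
  have h1 := reach_kappa_big T X (p := p) (x := 3) (by norm_num) (by norm_num)
  have h2 := reach_kappa_big T X (p := (X.2 ^ (3 : ℤ)) p) (x := -2) (by norm_num) (by norm_num)
  have h3 : (X.2 ^ (-2 : ℤ)) ((X.2 ^ (3 : ℤ)) p) = X.2 p := by
    rw [← Equiv.Perm.mul_apply, ← zpow_add]
    norm_num
  rw [h3] at h2
  exact h1.trans h2

lemma reach_kappa (p : V) (x : ℤ) : (graphOf T.k T.n₀ X).Reachable p ((X.2 ^ x) p) := by
  induction x using Int.induction_on with
  | zero => simp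
  | succ i ih =>
      refine ih.trans ?_
      have := reach_kappa_one T X ((X.2 ^ (i : ℤ)) p)
      rwa [← Equiv.Perm.mul_apply, ← zpow_one_add, add_comm] at this
  | pred i ih =>
      refine ih.trans ?_
      have := (reach_kappa_one T X ((X.2 ^ (-(i : ℤ) - 1)) p)).symm
      rwa [← Equiv.Perm.mul_apply, ← zpow_one_add, add_sub_cancel] at this

lemma reach_letter (s : Λ × Bool) (p : V) :
    (graphOf T.k T.n₀ X).Reachable p (lv X.1 s p) := by
  have hk := k_large T s.1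
  have hx : ∃ x : ℤ, (x : ZMod T.n₀) ∉ pat T.k T.n₀ s := by
    refine ⟨if s.2 then 1 else -1, ?_⟩
    rintro ⟨i, hi, h⟩
    by_cases hs : s.2 = true
    · simp only [hs, if_true] at h
      have h1 : ((1 - (i : ℤ) : ℤ) : ZMod T.n₀) = 0 := by
        push_cast at h ⊢; rw [h]; ring
      refine small_cast_ne T (by omega) ?_ h1
      rw [abs_lt]; constructor <;> omega
    · simp only [Bool.not_eq_true] at hs
      simp only [hs, Bool.false_eq_true, if_false] at h
      have h1 : ((1 - (i : ℤ) : ℤ) : ZMod T.n₀) = 0 := by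
        push_cast at h ⊢
        rw [neg_inj] at h
        rw [← h]; ring
      refine small_cast_ne T (by omega) ?_ h1
      rw [abs_lt]; constructor <;> omega
  obtain ⟨x, hx⟩ := hx
  have h1 := reach_of_rel T X (p := p) (Or.inr ⟨s, x, hx, rfl⟩)
  have h2 := reach_kappa T X (lv X.1 s p) x
  exact h1.trans h2.symm

lemma reach_word (u : Wd Λ) (p : V) : (graphOf T.k T.n₀ X).Reachable p (wp X.1 u p) := by
  induction u with
  | nil => simp
  | cons s u ih =>
      rw [wp_cons, Equiv.Perm.mul_apply]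
      exact ih.trans (reach_letter T X s _)

omit [Fintype Λ] in
lemma comm_wp (hX : ∀ l, Commute X.2 (X.1 l)) (x : ℤ) (u : Wd Λ) : Commute (X.2 ^ x) (wp X.1 u) := by
  induction u with
  | nil => exact Commute.one_right _
  | cons s u ih =>
      rw [wp_cons]
      refine Commute.mul_right ?_ ih
      rcases s with ⟨l, b⟩
      cases b
      · rw [lv_false]; exact (((hX l).zpow_left x)).inv_right
      · rw [lv_true]; exact (hX l).zpow_left x

lemma step_trans (hX : ∀ l, Commute X.2 (X.1 l)) {p q : V}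
    (h : (∃ x : ℤ, (x : ZMod T.n₀) ≠ 0 ∧ (x : ZMod T.n₀) ≠ 1 ∧
      (x : ZMod T.n₀) ≠ -1 ∧ q = (X.2 ^ x) p) ∨
    ∃ (s : Λ × Bool) (x : ℤ), (x : ZMod T.n₀) ∉ pat T.k T.n₀ s ∧ q = (X.2 ^ x) (lv X.1 s p)) :
    (∃ (u : Wd Λ) (x : ℤ), (X.2 ^ x) (wp X.1 u p) = q) ∧
    ∃ (u : Wd Λ) (x : ℤ), (X.2 ^ x) (wp X.1 u q) = p := by
  rcases h with ⟨x, -, -, -, rfl⟩ | ⟨s, x, -, rfl⟩
  · refine ⟨⟨[], x, by simp⟩, [], -x, ?_⟩
    simp
  · refine ⟨⟨[s], x, by simp⟩, winv [s], -x, ?_⟩
    rw [wp_winv]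
    have h1 := (comm_wp X hX x [s])
    have h2 : (X.2 ^ x) (lv X.1 s p) = ((X.2 ^ x) * wp X.1 [s]) p := by
      simp
    rw [h2, h1.eq, Equiv.Perm.mul_apply]
    simp

lemma trans_of_reach (hX : ∀ l, Commute X.2 (X.1 l)) {p q : V}
    (h : (graphOf T.k T.n₀ X).Reachable p q) : ∃ (u : Wd Λ) (x : ℤ), (X.2 ^ x) (wp X.1 u p) = q := by
  obtain ⟨w⟩ := h
  induction w with
  | nil => exact ⟨[], 0, by simp⟩
  | @cons a b c hab w ih =>
      obtain ⟨u, x, h1⟩ := ih
      have h2 : ∃ (u : Wd Λ) (x : ℤ), (X.2 ^ x) (wp X.1 u a) = b := by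
        rw [graphOf, SimpleGraph.fromRel_adj] at hab
        rcases hab.2 with h | h
        · exact (step_trans T X hX h).1
        · exact (step_trans T X hX h).2
      obtain ⟨u', x', h3⟩ := h2
      refine ⟨u ++ u', x + x', ?_⟩
      rw [wp_append, zpow_add, ← h1, ← h3]
      have h4 := (comm_wp X hX x' u).eq
      calc (X.2 ^ x * X.2 ^ x') ((wp X.1 u * wp X.1 u') a)
          = ((X.2 ^ x) * (X.2 ^ x' * wp X.1 u) * wp X.1 u') a := by
            simp only [Equiv.Perm.mul_apply]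
        _ = _ := by rw [h4]; simp only [Equiv.Perm.mul_apply]

end reach

/-- M4e: the transfer theorem -/
theorem transfer : ∃ R₂ : ℕ, ∀ r ≥ R₂, ∀ V : Type,
    Set.BijOn (graphOf T.k T.n₀ : LS Λ V → SimpleGraph V)
      {X | Good T.e T.n₀ r X} {G | LocallyLike G T.F 1 r} ∧
    ∀ X : LS Λ V, Good T.e T.n₀ r X → ((graphOf T.k T.n₀ X).Preconnected ↔ Trans X) := by
  obtain ⟨R₀, hR₀⟩ := rigid T
  obtain ⟨R₁, hR₁⟩ := exists_good T
  refine ⟨R₀ + R₁ + 2, fun r hr V => ⟨⟨?_, ?_, ?_⟩, ?_⟩⟩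
  · intro X hX p
    obtain ⟨ψ, hψ, -⟩ := good_ball T (by omega : 2 ≤ r) X hX p
    exact hψ.exists_iso
  · intro X hX X' hX' hXX
    change graphOf T.k T.n₀ X = graphOf T.k T.n₀ X' at hXX
    have key : ∀ p : V, X.2 p = X'.2 p ∧ ∀ l, X.1 l p = X'.1 l p := by
      intro p
      obtain ⟨ψ, hψ, h1⟩ := good_ball T (by omega : 2 ≤ r) X hX p
      obtain ⟨ψ', hψ', h1'⟩ := good_ball T (by omega : 2 ≤ r) X' hX' p
      rw [← hXX] at hψ'
      obtain ⟨φ, hφ, h2⟩ := hψ.comp_inv hψ'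
      have h3 : ∀ w ∈ ball T.F 1 r, ψ' w = ψ w := by
        intro w hw
        rw [← h2 w hw, hR₀ r (by omega) φ hφ w hw]
      have h4 : ∀ (u : Wd Λ) (x : ℤ), u.length ≤ r →
          (X.2 ^ x) (wp X.1 u p) = (X'.2 ^ x) (wp X'.1 u p) := by
        intro u x hu
        rw [← h1 u x hu, ← h1' u x hu]
        refine (h3 _ ?_).symm
        rw [mem_ball_til T (by omega : 2 ≤ r)]
        exact ⟨u, hu, rfl⟩
      constructor
      · have := h4 [] 1 (by simp)
        simpa using this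
      · intro l
        have := h4 [(l, true)] 0 (by simp; omega)
        simpa using this
    refine Prod.ext ?_ ?_
    · funext l
      exact Equiv.ext fun p => (key p).2 l
    · exact Equiv.ext fun p => (key p).1
  · intro G hG
    obtain ⟨X, hX, hXG⟩ := hR₁ r (by omega) G hG
    exact ⟨X, hX, hXG⟩
  · intro X hX
    constructor
    · intro h p q
      exact trans_of_reach T X hX.1 (h p q)
    · intro h p q
      obtain ⟨u, x, hux⟩ := h p q
      rw [← hux]
      exact (reach_word T X u p).trans (reach_kappa T X _ x)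

end transfer

end Pool.Agent.Helper55.LF
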