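import Mathlib
import Pool.Agent.Helper55.LF.Forcing
import Pool.Agent.Helper55.LF.Defs
import Pool.Agent.Helper55.LF.TrE
import Pool.Agent.Helper55.LF.GamBasic
import Pool.Agent.Helper55.LF.Pos
import Pool.Agent.Helper55.LF.Neg

/-! Final assembly. -/

namespace Pool.Agent.Helper55.LF

open Filter Topology

section stil
variable {Γ Λ : Type} [Group Γ] [Fintype Λ] (T : TData Γ Λ)

lemma pat_neg {k : Λ → ℕ} {n₀ : ℕ} {a : Λ} {b : Bool} {x : ZMod n₀} :
    x ∈ pat k n₀ (a, !b) ↔ -x ∈ pat k n₀ (a, b) := by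
  constructor
  · rintro ⟨i, hi, hx⟩
    refine ⟨i, hi, ?_⟩
    cases b <;> simp_all
  · rintro ⟨i, hi, hx⟩
    refine ⟨i, hi, ?_⟩
    have : x = - -x := by simp
    cases b
    · rw [this, hx]; simp
    · rw [this, hx]; simp

lemma stil_inv {x : Γ × Multiplicative (ZMod T.n₀)} (hx : x ∈ stil T.e T.k T.n₀) :
    x⁻¹ ∈ stil T.e T.k T.n₀ := by
  rcases hx with ⟨h1, h2, h3, h4⟩ | ⟨⟨a, b⟩, h1, h2⟩
  · left
    refine ⟨by simp [h1], ?_, ?_, ?_⟩
    · simpa using h2
    · intro h; apply h4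
      have : Multiplicative.toAdd x.2 = - - Multiplicative.toAdd x.2 := by simp
      rw [this]
      have h' : - Multiplicative.toAdd x.2 = 1 := by simpa using h
      rw [h']
    · intro h; apply h3
      have h' : - Multiplicative.toAdd x.2 = -1 := by simpa using h
      exact neg_injective h'
  · right
    refine ⟨(a, !b), ?_, ?_⟩
    · rw [lv_not, Prod.fst_inv, h1]
    · rw [pat_neg]
      simpa using h2

lemma pi_lv (s : Λ × Bool) : T.pi (lv T.e s) = Multiplicative.ofAdd 1 := by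
  rcases s with ⟨a, b⟩
  cases b
  · simp only [lv_false, map_inv, T.pi_e]; decide
  · simp only [lv_true, T.pi_e]

lemma one_notMem_stil : (1 : Γ × Multiplicative (ZMod T.n₀)) ∉ stil T.e T.k T.n₀ := by
  rintro (⟨h1, h2, h3, h4⟩ | ⟨s, h1, h2⟩)
  · exact h2 rfl
  · have h3 := pi_lv T s
    have h4 : lv T.e s = 1 := h1.symm
    rw [h4, map_one] at h3
    exact absurd h3 (by decide)

lemma stil_finite : (stil T.e T.k T.n₀).Finite := by
  have : NeZero T.n₀ := ⟨by have := n0_large T; omega⟩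
  have h1 : stil T.e T.k T.n₀ ⊆ (({1} ∪ Set.range (lv T.e)) ×ˢ Set.univ) := by
    rintro x (⟨h1, -⟩ | ⟨s, h1, -⟩)
    · exact ⟨Or.inl h1, trivial⟩
    · exact ⟨Or.inr ⟨s, h1.symm⟩, trivial⟩
  refine Set.Finite.subset (Set.Finite.prod ?_ Set.finite_univ) h1
  exact (Set.finite_singleton _).union (Set.finite_range _)

lemma stil_gen (hgen : Subgroup.closure (Set.range T.e) = ⊤) :
    Subgroup.closure (stil T.e T.k T.n₀) = ⊤ := by
  set H := Subgroup.closure (stil T.e T.k T.n₀) with hH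
  have hn : 64 ≤ T.n₀ := n0_large T
  have hcast : ∀ (a : ℕ), 0 < a → a < T.n₀ → (a : ZMod T.n₀) ≠ 0 := by
    intro a h1 h2 h3
    rw [ZMod.natCast_eq_zero_iff] at h3
    exact absurd (Nat.le_of_dvd h1 h3) (by omega)
  have hx2 : ((1 : Γ), Multiplicative.ofAdd (2 : ZMod T.n₀)) ∈ H := by
    apply Subgroup.subset_closure
    left
    refine ⟨rfl, ?_, ?_, ?_⟩
    · have := hcast 2 (by norm_num) (by omega); simpa using this
    · intro h
      have h1 : (2 : ZMod T.n₀) = 1 := h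
      have h2 : ((1 : ℕ) : ZMod T.n₀) = 0 := by push_cast; linear_combination h1
      exact hcast 1 (by norm_num) (by omega) h2
    · intro h
      have h1 : (2 : ZMod T.n₀) = -1 := h
      have h2 : ((3 : ℕ) : ZMod T.n₀) = 0 := by push_cast; linear_combination h1
      exact hcast 3 (by norm_num) (by omega) h2
  have hx3 : ((1 : Γ), Multiplicative.ofAdd (3 : ZMod T.n₀)) ∈ H := by
    apply Subgroup.subset_closure
    left
    refine ⟨rfl, ?_, ?_, ?_⟩
    · have := hcast 3 (by norm_num) (by omega); simpa using this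
    · intro h
      have h1 : (3 : ZMod T.n₀) = 1 := h
      have h2 : ((2 : ℕ) : ZMod T.n₀) = 0 := by push_cast; linear_combination h1
      exact hcast 2 (by norm_num) (by omega) h2
    · intro h
      have h1 : (3 : ZMod T.n₀) = -1 := h
      have h2 : ((4 : ℕ) : ZMod T.n₀) = 0 := by push_cast; linear_combination h1
      exact hcast 4 (by norm_num) (by omega) h2
  have hx1 : ((1 : Γ), Multiplicative.ofAdd (1 : ZMod T.n₀)) ∈ H := by
    have h := H.mul_mem hx3 (H.inv_mem hx2)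
    have e : ((1 : Γ), Multiplicative.ofAdd (3 : ZMod T.n₀)) *
        ((1 : Γ), Multiplicative.ofAdd (2 : ZMod T.n₀))⁻¹ =
        ((1 : Γ), Multiplicative.ofAdd (1 : ZMod T.n₀)) := by
      ext
      · simp
      · simp only [Prod.snd_mul, Prod.snd_inv]
        rw [← ofAdd_neg, ← ofAdd_add]
        exact congrArg _ (by norm_num)
    rwa [e] at h
  have hall : ∀ x : Multiplicative (ZMod T.n₀), ((1 : Γ), x) ∈ H := by
    intro x
    have h := H.zpow_mem hx1 ((Multiplicative.toAdd x).cast : ℤ)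
    have e : ((1 : Γ), Multiplicative.ofAdd (1 : ZMod T.n₀)) ^ ((Multiplicative.toAdd x).cast : ℤ) =
        ((1 : Γ), x) := by
      ext
      · simp
      · simp only [Prod.pow_snd]
        rw [← ofAdd_zsmul]
        simp
    rwa [e] at h
  have hlet : ∀ a, ((T.e a, 1) : Γ × Multiplicative (ZMod T.n₀)) ∈ H := by
    intro a
    have h1 : ((T.e a, Multiplicative.ofAdd (1 : ZMod T.n₀)) : Γ × Multiplicative (ZMod T.n₀)) ∈ H := by
      apply Subgroup.subset_closure
      right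
      refine ⟨(a, true), rfl, ?_⟩
      rintro ⟨i, hi, hx⟩
      have hx' : (1 : ZMod T.n₀) = (i : ZMod T.n₀) := hx
      have hk := T.k_lt a
      have hlarge := T.large
      rcases hi with rfl | ⟨hi1, hi2⟩
      · have h2 : ((1 : ℕ) : ZMod T.n₀) = 0 := by push_cast; rw [hx']; simp
        exact hcast 1 (by norm_num) (by omega) h2
      · have h2 : ((i - 1 : ℕ) : ZMod T.n₀) = 0 := by
          rw [Nat.cast_sub (by omega), ← hx']; simp
        refine hcast (i - 1) (by omega) ?_ h2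
        have hkl := k_large T a
        simp only at hi2
        omega
    have h2 := H.mul_mem h1 (H.inv_mem hx1)
    have e : ((T.e a, Multiplicative.ofAdd (1 : ZMod T.n₀)) : Γ × Multiplicative (ZMod T.n₀)) *
        ((1 : Γ), Multiplicative.ofAdd (1 : ZMod T.n₀))⁻¹ = (T.e a, 1) := by
      ext <;> simp
    rwa [e] at h2
  have hG : ∀ g : Γ, ((g, 1) : Γ × Multiplicative (ZMod T.n₀)) ∈ H := by
    intro g
    have hg : g ∈ Subgroup.closure (Set.range T.e) := by rw [hgen]; trivial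
    have hle : Subgroup.closure (Set.range T.e) ≤
        H.comap (MonoidHom.inl Γ (Multiplicative (ZMod T.n₀))) := by
      rw [Subgroup.closure_le]
      rintro _ ⟨a, rfl⟩
      exact hlet a
    exact hle hg
  rw [eq_top_iff]
  rintro ⟨g, x⟩ -
  have h := H.mul_mem (hG g) (hall x)
  simpa using h

end stil

section conn
variable {Γ Λ : Type} [Group Γ] [Fintype Λ] (T : TData Γ Λ)

/-- the counts of graphs are the counts of labelled structures -/
theorem counts : ∃ R₂ : ℕ, ∀ r ≥ R₂, ∀ n : ℕ,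
    (LocSet (cay (stil T.e T.k T.n₀)) 1 r n).ncard =
      {X : LS Λ (Fin n) | Good T.e T.n₀ r X}.ncard ∧
    (0 < n → {G | G ∈ LocSet (cay (stil T.e T.k T.n₀)) 1 r n ∧ G.Connected}.ncard =
      {X : LS Λ (Fin n) | Good T.e T.n₀ r X ∧ Trans X}.ncard) := by
  obtain ⟨R₂, hR⟩ := transfer T
  refine ⟨R₂, fun r hr n => ?_⟩
  obtain ⟨hbij, htr⟩ := hR r hr (Fin n)
  have e1 : LocSet (cay (stil T.e T.k T.n₀)) 1 r n =
      graphOf T.k T.n₀ '' {X : LS Λ (Fin n) | Good T.e T.n₀ r X} := by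
    rw [hbij.image_eq]
    ext G
    exact locallyLike_cay _ G r
  constructor
  · rw [e1, hbij.injOn.ncard_image]
  · intro hn
    have : Nonempty (Fin n) := ⟨⟨0, hn⟩⟩
    have e2 : {G | G ∈ LocSet (cay (stil T.e T.k T.n₀)) 1 r n ∧ G.Connected} =
        graphOf T.k T.n₀ '' {X : LS Λ (Fin n) | Good T.e T.n₀ r X ∧ Trans X} := by
      rw [e1]
      ext G
      constructor
      · rintro ⟨⟨X, hX, rfl⟩, hG⟩
        exact ⟨X, ⟨hX, (htr X hX).1 hG.preconnected⟩, rfl⟩
      · rintro ⟨X, ⟨hX, hT⟩, rfl⟩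
        exact ⟨⟨X, hX, rfl⟩, ⟨(htr X hX).2 hT⟩⟩
    rw [e2, (hbij.injOn.mono fun X hX => hX.1).ncard_image]

end conn

section inst
variable (p : ℕ) [BP p]

/-- the data for the alphabet with parameter `B` -/
noncomputable def tdata {B : ℕ} (h2 : 2 ≤ B) (hB : B ≤ p) : TData (Gam p) (AL B) where
  e := evB p hB
  k := fun a => (Fintype.equivFin (AL B) a : ℕ)
  n₀ := p ^ 3
  pi := (gam_parity p).choose
  ne := ⟨Sum.inr 0⟩
  k_inj := fun a b h => (Fintype.equivFin (AL B)).injective (Fin.ext h)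
  k_lt := fun a => (Fintype.equivFin (AL B) a).2
  odd := by
    have hb := BP.big (p := p)
    exact ((BP.pr (p := p)).odd_of_ne_two (by omega)).pow
  large := by
    have hb := BP.big (p := p)
    have hc : Fintype.card (AL B) = 2 * B + 2 := by simp [AL]
    rw [hc]
    have h1 : 16 * (2 * B + 2 + 2) ^ 2 ≤ 16 * (2 * p + 2 + 2) ^ 2 := by gcongr
    refine h1.trans ?_
    have h3 : 16 * (2 * p + 2 + 2) ^ 2 ≤ 100000 * p ^ 2 := by nlinarith
    calc 16 * (2 * p + 2 + 2) ^ 2 ≤ 100000 * p ^ 2 := h3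
      _ ≤ p * p ^ 2 := Nat.mul_le_mul_right _ hb
      _ = p ^ 3 := by ring
  pi_e := fun a => (gam_parity p).choose_spec hB a
  e_inj := gam_inj p hB
  asym := gam_asym p h2 hB

lemma gam_infinite : Infinite (Gam p) := by
  have hpp := p_pos p
  let f : ℕ → Gam p := fun k =>
    wp (evB p le_rfl) (List.replicate k ((Sum.inl (0, ⟨0, hpp⟩) : AL p), true))
  refine Infinite.of_injective f ?_
  intro a b hab
  have hn : ∀ (i k : ℕ), (wp (kv (lev p i) p)
      (List.replicate k ((Sum.inl (0, ⟨0, hpp⟩) : AL p), true))).n = (k : ZMod (lev p i).l) := by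
    intro i k
    induction k with
    | zero => simp
    | succ k ih =>
        rw [List.replicate_succ, wp_cons, KG.mul_n, ih]
        simp [kv, kl, add_comm]
  have h1 := level_of_ev_eq p le_rfl le_rfl _ _ hab (a + b)
  have h2 := h1.2.2.1
  rw [KG.mul_n, KG.inv_n, hn, hn] at h2
  have h3 : (a : ZMod (lev p (a + b)).l) = (b : ZMod (lev p (a + b)).l) := by
    linear_combination -h2
  rw [ZMod.natCast_eq_natCast_iff] at h3
  have hl : a + b < (lev p (a + b)).l := by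
    have h4 : (lev p (a + b)).l = p ^ (dd (a + b) + 1) := rfl
    rw [h4]
    have h5 := dd_ge (a + b)
    have h6 : dd (a + b) + 1 < p ^ (dd (a + b) + 1) := Nat.lt_pow_self (p_one p)
    omega
  exact Nat.ModEq.eq_of_lt_of_lt h3 (by omega) (by omega)

end inst

theorem pos_part (p : ℕ) [BP p] (h2p : 2 ≤ p) :
    ∀ᶠ r in atTop, ConnForcing (cay (stil (tdata p h2p le_rfl).e (tdata p h2p le_rfl).k
      (tdata p h2p le_rfl).n₀)) 1 r := by
  obtain ⟨R₁, hR₁⟩ := counts (tdata p h2p le_rfl)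
  set T₁ := tdata p h2p le_rfl with hT₁
  filter_upwards [eventually_ge_atTop R₁, eventually_ge_atTop (8 * (lev p 0).D + 1)] with r hr1 hr2
  rw [ConnForcing, Metric.tendsto_nhds]
  intro ε hε
  rw [eventually_inf_principal]
  filter_upwards [positive p r hr2 (ε / 2) (by positivity), eventually_gt_atTop 0] with n hn hn0 hne
  obtain ⟨c1, c2⟩ := hR₁ r hr1 n
  have c2 := c2 hn0
  have hA : 0 < (LocSet (cay (stil T₁.e T₁.k T₁.n₀)) 1 r n).ncard :=
    (Set.ncard_pos (Set.toFinite _)).2 hne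
  rw [connProb, c1, c2]
  rw [c1] at hA
  have hsplit : {X : LS (AL p) (Fin n) | Good T₁.e T₁.n₀ r X}.ncard =
      {X : LS (AL p) (Fin n) | Good T₁.e T₁.n₀ r X ∧ Trans X}.ncard +
      {X : LS (AL p) (Fin n) | Good T₁.e T₁.n₀ r X ∧ ¬ Trans X}.ncard := by
    rw [← Set.ncard_union_eq ?_ (Set.toFinite _) (Set.toFinite _)]
    · congr 1
      ext X
      simp only [Set.mem_ofPred_eq, Set.mem_union]
      tauto
    · rw [Set.disjoint_left]
      rintro X ⟨_, h1⟩ ⟨_, h2⟩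
      exact h2 h1
  have hA' : (0 : ℝ) < ({X : LS (AL p) (Fin n) | Good T₁.e T₁.n₀ r X}.ncard : ℝ) := by
    exact_mod_cast hA
  have hn' : ({X : LS (AL p) (Fin n) | Good T₁.e T₁.n₀ r X ∧ ¬ Trans X}.ncard : ℝ) ≤
      ε / 2 * ({X : LS (AL p) (Fin n) | Good T₁.e T₁.n₀ r X}.ncard : ℝ) := hn
  have hs' : ({X : LS (AL p) (Fin n) | Good T₁.e T₁.n₀ r X}.ncard : ℝ) =
      ({X : LS (AL p) (Fin n) | Good T₁.e T₁.n₀ r X ∧ Trans X}.ncard : ℝ) +
      ({X : LS (AL p) (Fin n) | Good T₁.e T₁.n₀ r X ∧ ¬ Trans X}.ncard : ℝ) := by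
    exact_mod_cast hsplit
  rw [Real.dist_eq, abs_sub_lt_iff]
  have hc0 : (0 : ℝ) ≤ ({X : LS (AL p) (Fin n) | Good T₁.e T₁.n₀ r X ∧ ¬ Trans X}.ncard : ℝ) := by
    positivity
  constructor
  · rw [sub_lt_iff_lt_add, div_lt_iff₀ hA']
    nlinarith
  · rw [sub_lt_comm, lt_div_iff₀ hA']
    nlinarith

theorem neg_part (p : ℕ) [BP p] (h2p : 2 ≤ p) :
    ∃ᶠ r in atTop, ¬ ConnForcing (cay (stil (tdata p le_rfl h2p).e (tdata p le_rfl h2p).k
      (tdata p le_rfl h2p).n₀)) 1 r := by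
  obtain ⟨R₂, hR₂⟩ := counts (tdata p le_rfl h2p)
  set T₂ := tdata p le_rfl h2p with hT₂
  rw [frequently_atTop]
  intro N
  set j := N + R₂ with hj
  have hDj : j ≤ (lev p j).D := by
    have h4 : (lev p j).D = p ^ dd j := rfl
    rw [h4]
    have h5 := dd_ge j
    have h6 : dd j < p ^ dd j := Nat.lt_pow_self (p_one p)
    omega
  refine ⟨8 * (lev p j).D + 1, by omega, ?_⟩
  intro hcf
  set r := 8 * (lev p j).D + 1 with hr
  rw [ConnForcing] at hcf
  have hev := hcf.eventually (lt_mem_nhds (show (1 / 2 : ℝ) < 1 by norm_num))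
  rw [eventually_inf_principal] at hev
  have hfr := negative p h2p j
  obtain ⟨n, ⟨hpos, hle⟩, hn1, hn2⟩ := (hfr.and_eventually (hev.and (eventually_gt_atTop 0))).exists
  obtain ⟨c1, c2⟩ := hR₂ r (by omega) n
  have c2 := c2 hn2
  have hne : (LocSet (cay (stil T₂.e T₂.k T₂.n₀)) 1 r n).Nonempty := by
    rw [← Set.ncard_pos (Set.toFinite _), c1]
    exact hpos
  have h5 := hn1 hne
  rw [connProb, c1, c2] at h5
  have hA' : (0 : ℝ) < ({X : LS (AL 2) (Fin n) | Good T₂.e T₂.n₀ r X}.ncard : ℝ) := by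
    exact_mod_cast hpos
  rw [lt_div_iff₀ hA'] at h5
  have hle' : 2 * ({X : LS (AL 2) (Fin n) | Good T₂.e T₂.n₀ r X ∧ Trans X}.ncard : ℝ) ≤
      ({X : LS (AL 2) (Fin n) | Good T₂.e T₂.n₀ r X}.ncard : ℝ) := by
    exact_mod_cast hle
  linarith

/-- everything about one generating set, as a set -/
structure GS {Γ : Type} [Group Γ] (S : Set Γ) : Prop where
  fin : S.Finite
  symm : ∀ s ∈ S, s⁻¹ ∈ S
  one : (1 : Γ) ∉ S
  gen : Subgroup.closure S = ⊤

theorem main_sets (p : ℕ) [BP p] : ∃ S₁ S₂ : Set (Gam p × Multiplicative (ZMod (p ^ 3))),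
    GS S₁ ∧ GS S₂ ∧ (∀ᶠ r in atTop, ConnForcing (cay S₁) 1 r) ∧
      (∃ᶠ r in atTop, ¬ ConnForcing (cay S₂) 1 r) := by
  have hbig := BP.big (p := p)
  have h2p : 2 ≤ p := by omega
  refine ⟨stil (tdata p h2p le_rfl).e (tdata p h2p le_rfl).k (tdata p h2p le_rfl).n₀,
    stil (tdata p le_rfl h2p).e (tdata p le_rfl h2p).k (tdata p le_rfl h2p).n₀,
    ⟨stil_finite _, fun s hs => stil_inv _ hs, one_notMem_stil _, stil_gen _ (gam_gen p h2p le_rfl)⟩,
    ⟨stil_finite _, fun s hs => stil_inv _ hs, one_notMem_stil _, stil_gen _ (gam_gen p le_rfl h2p)⟩,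
    pos_part p h2p, neg_part p h2p⟩

theorem main_result : ∃ (Γ : Type) (_ : Group Γ) (S₁ S₂ : Finset Γ),
    Infinite Γ ∧ ResFin Γ ∧
    (∀ s ∈ S₁, s⁻¹ ∈ S₁) ∧ (1 : Γ) ∉ S₁ ∧ Subgroup.closure (S₁ : Set Γ) = ⊤ ∧
    (∀ s ∈ S₂, s⁻¹ ∈ S₂) ∧ (1 : Γ) ∉ S₂ ∧ Subgroup.closure (S₂ : Set Γ) = ⊤ ∧
    (∀ᶠ r in atTop, ConnForcing (cay (S₁ : Set Γ)) 1 r) ∧
    (∃ᶠ r in atTop, ¬ ConnForcing (cay (S₂ : Set Γ)) 1 r) := by
  obtain ⟨p, hbig, hpr⟩ := Nat.exists_infinite_primes 100000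
  have : BP p := ⟨hpr, hbig⟩
  have : NeZero (p ^ 3) := ⟨(Nat.pow_pos (p_pos p)).ne'⟩
  obtain ⟨S₁, S₂, h1, h2, h3, h4⟩ := main_sets p
  refine ⟨Gam p × Multiplicative (ZMod (p ^ 3)), inferInstance, h1.fin.toFinset,
    h2.fin.toFinset, ?_, ?_, ?_, ?_, ?_, ?_, ?_, ?_, ?_, ?_⟩
  · have := gam_infinite p
    exact Prod.infinite_of_left
  · -- residual finiteness
    rintro ⟨g, x⟩ hgx
    by_cases hg : g = 1
    · subst hg
      have hx : x ≠ 1 := fun h => hgx (by rw [h]; rfl)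
      refine ⟨(MonoidHom.snd (Gam p) (Multiplicative (ZMod (p ^ 3)))).ker, inferInstance, ?_, ?_⟩
      · exact Subgroup.finiteIndex_ker _
      · exact hx
    · obtain ⟨H, hHn, hHf, hgH⟩ := gam_resFin p g hg
      refine ⟨H.comap (MonoidHom.fst (Gam p) (Multiplicative (ZMod (p ^ 3)))), inferInstance, ?_, ?_⟩
      · constructor
        rw [Subgroup.index_comap_of_surjective H Prod.fst_surjective]
        exact hHf.index_ne_zero
      · exact hgH
  · intro s hs
    rw [Set.Finite.mem_toFinset] at hs ⊢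
    exact h1.symm s hs
  · rw [Set.Finite.mem_toFinset]
    exact h1.one
  · rw [Set.Finite.coe_toFinset]
    exact h1.gen
  · intro s hs
    rw [Set.Finite.mem_toFinset] at hs ⊢
    exact h2.symm s hs
  · rw [Set.Finite.mem_toFinset]
    exact h2.one
  · rw [Set.Finite.coe_toFinset]
    exact h2.gen
  · rw [Set.Finite.coe_toFinset]
    exact h3
  · rw [Set.Finite.coe_toFinset]
    exact h4

end Pool.Agent.Helper55.LF
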